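import Pool.Agent.VPH.Defs

set_option autoImplicit false

/-!
# VPH-Adj: lifts of dual derivations, adjusted

The derivations `D i` of `F` over `k` satisfy `D i (x j) = δ_ij`, `b j ∈ O` has residue `x j`. Then there
are lifts `D' i` of the `D i` which kill `K` and satisfy `D' i (b j) = δ_ij`.
-/

namespace VPH

private theorem adj_sum {E : Type} [Field E] {n : ℕ} (a : Fin n → E) (L : Fin n → Derivation ℤ E E) (x : E) :
    (∑ l, a l • L l) x = ∑ l, a l * L l x := by
  have h : ∀ s : Finset (Fin n), (∑ l ∈ s, a l • L l) x = ∑ l ∈ s, a l * L l x := by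
    intro s
    classical
    induction s using Finset.induction_on with
    | empty => rw [Finset.sum_empty, Finset.sum_empty, Derivation.zero_apply]
    | insert i s hi ih =>
      rw [Finset.sum_insert hi, Finset.sum_insert hi, Derivation.add_apply, ih, Derivation.smul_apply, smul_eq_mul]
  exact h Finset.univ

private theorem adj_inv {E F : Type} [Field E] [Field F] (O : Subring E) (ρ : O →+* F)
    (inv : ∀ b : O, ρ b ≠ 0 → (b : E)⁻¹ ∈ O) {n : ℕ} (M : Matrix (Fin n) (Fin n) O)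
    (hM : ∀ i j, ρ (M i j) = if i = j then 1 else 0) :
    ∃ N : Matrix (Fin n) (Fin n) O, N * M = 1 ∧ ∀ i j, ρ (N i j) = if i = j then 1 else 0 := by
  have h1 : ρ.mapMatrix M = 1 := by
    ext i j
    rw [RingHom.mapMatrix_apply, Matrix.map_apply, hM, Matrix.one_apply]
  have h2 : ρ M.det = 1 := by
    rw [RingHom.map_det, h1, Matrix.det_one]
  have h3 : ρ M.det ≠ 0 := by
    rw [h2]
    exact one_ne_zero
  have h4 : ((M.det : O) : E) ≠ 0 := by
    intro h
    have h5 : M.det = 0 := Subtype.ext h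
    rw [h5, map_zero] at h3
    exact h3 rfl
  obtain ⟨u, hu⟩ : ∃ u : O, u * M.det = 1 := by
    refine ⟨⟨_, inv _ h3⟩, Subtype.ext ?_⟩
    show ((M.det : O) : E)⁻¹ * ((M.det : O) : E) = 1
    exact inv_mul_cancel₀ h4
  have h5 : (u • M.adjugate) * M = 1 := by
    rw [Matrix.smul_mul, Matrix.adjugate_mul, smul_smul, hu, one_smul]
  refine ⟨u • M.adjugate, h5, fun i j => ?_⟩
  have h6 : ρ.mapMatrix (u • M.adjugate) = 1 := by
    have h7 := congrArg ρ.mapMatrix h5
    rwa [map_mul, h1, mul_one, map_one] at h7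
  have h7 := congrFun (congrFun h6 i) j
  rwa [RingHom.mapMatrix_apply, Matrix.map_apply, Matrix.one_apply] at h7

theorem adjust {k F E : Type} [Field k] [Field F] [Algebra k F] [Field E] (O : Subring E)
    (ρ : O →+* F) (K : Subfield E) (inv : ∀ b : O, ρ b ≠ 0 → (b : E)⁻¹ ∈ O)
    (hL : Lifts k F E O ρ K) {n : ℕ} (b : Fin n → O) (D : Fin n → Derivation k F F)
    (hD : ∀ i j, D i (ρ (b j)) = if i = j then 1 else 0) :
    ∃ D' : Fin n → Derivation ℤ E E, (∀ i, ∀ x ∈ K, D' i x = 0) ∧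
      (∀ i, ∀ c : O, ∃ hc : D' i c ∈ O, ρ ⟨D' i c, hc⟩ = D i (ρ c)) ∧
      ∀ i j, D' i (b j) = if i = j then 1 else 0 := by
  choose L hLK hLO using fun i => hL (D i)
  choose hm hr using hLO
  obtain ⟨N, hN, hNρ⟩ := adj_inv O ρ inv (Matrix.of fun i j => ⟨L i (b j), hm i (b j)⟩) (fun i j => by
    rw [Matrix.of_apply, hr, hD])
  refine ⟨fun i => ∑ l, ((N i l : O) : E) • L l, fun i x hx => ?_, fun i c => ?_, fun i j => ?_⟩
  · rw [adj_sum]
    refine Finset.sum_eq_zero fun l _ => ?_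
    rw [hLK l x hx, mul_zero]
  · have h1 : (∑ l, ((N i l : O) : E) • L l) c = ((∑ l, N i l * ⟨L l c, hm l c⟩ : O) : E) := by
      rw [adj_sum, AddSubmonoidClass.coe_finsetSum]
      rfl
    have h2 : (∑ l, ((N i l : O) : E) • L l) c ∈ O := by
      rw [h1]
      exact Subtype.mem _
    refine ⟨h2, ?_⟩
    have h3 : (⟨(∑ l, ((N i l : O) : E) • L l) c, h2⟩ : O) = ∑ l, N i l * ⟨L l c, hm l c⟩ := Subtype.ext h1
    rw [h3, map_sum]
    have h4 : ∀ l, ρ (N i l * ⟨L l c, hm l c⟩) = if i = l then D l (ρ c) else 0 := by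
      intro l
      rw [map_mul, hNρ, hr, ite_mul, one_mul, zero_mul]
    rw [Finset.sum_congr rfl fun l _ => h4 l, Finset.sum_ite_eq, if_pos (Finset.mem_univ i)]
  · rw [adj_sum]
    have h1 := congrArg (Subtype.val) (congrFun (congrFun hN i) j)
    rw [Matrix.mul_apply, AddSubmonoidClass.coe_finsetSum, Matrix.one_apply] at h1
    have h2 : (((if i = j then 1 else 0 : O)) : E) = if i = j then 1 else 0 := by
      split_ifs <;> rfl
    rw [h2] at h1
    exact h1

end VPH
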