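import Pool.Agent.VPH.RkA

set_option autoImplicit false

/-!
# VPH-BcE: every point has a base change

Plan. `κ` a transcendence basis of `a` over `k` among its coordinates (`exists_basis`), `t = tr k a`.
`Ω := AlgebraicClosure (FractionRing (MvPolynomial (Fin t) k'))`. The hom `k[a ∘ κ] → Ω`, `a (κ i) ↦ X i`,
is injective, extends to the field `k(a ∘ κ)` and, `k(a)` being algebraic over it, to
`k(a) → Ω` (`IsAlgClosed.lift`). `a'` = the image of `a`: same equations over `k`; the `a' (κ i)` are
algebraically independent over `k'`, so `tr k' a' ≥ t`, and `tr k' a' ≤ tr k a' = t` (all coordinates are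
algebraic over `k(a' ∘ κ)`, use `tr_le_of_alg` over `k'`).
-/

namespace VPH

open MvPolynomial

/-- the isomorphism extended to the algebraic closure -/
private theorem BcE_ext (k : Type) [Field k] {Fa Ω : Type} [Field Fa] [Algebra k Fa] [Field Ω]
    [IsAlgClosed Ω] [Algebra k Ω] {N t : ℕ} (a : Fin N → Fa) (x : Fin t → Fa) (y : Fin t → Ω)
    (hx : AlgebraicIndependent k x) (hy : AlgebraicIndependent k y)
    (H : ∀ j, IsAlgebraic (IntermediateField.adjoin k (Set.range x)) (a j)) :
    ∃ a' : Fin N → Ω,
      (∀ p : MvPolynomial (Fin N) k, aeval a p = 0 ↔ aeval a' p = 0) ∧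
      (∀ j, IsAlgebraic (IntermediateField.adjoin k (Set.range y)) (a' j)) ∧
      ∀ i j, a j = x i → a' j = y i := by
  classical
  set L := IntermediateField.adjoin k (Set.range x) with hL
  set M := IntermediateField.adjoin k (Set.range y) with hM
  let e : L ≃ₐ[k] M := hx.aevalEquivField.symm.trans hy.aevalEquivField
  let φ : L →ₐ[k] Ω := M.val.comp e.toAlgHom
  letI : Algebra L Ω := φ.toRingHom.toAlgebra
  haveI : IsScalarTower k L Ω := IsScalarTower.of_algebraMap_eq (fun c => (φ.commutes c).symm)
  let S := algebraicClosure L Fa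
  let ψ : S →ₐ[L] Ω := IsAlgClosed.lift
  have hmem : ∀ j, a j ∈ S := fun j => mem_algebraicClosure_iff.2 (H j)
  let b : Fin N → S := fun j => ⟨a j, hmem j⟩
  have hinj : Function.Injective ψ := ψ.toRingHom.injective
  haveI : IsScalarTower k S Fa := IsScalarTower.of_algebraMap_eq fun c => rfl
  refine ⟨fun j => ψ (b j), ?_, ?_, ?_⟩
  · intro p
    have h1 : aeval a p = algebraMap S Fa (aeval b p) := by
      rw [← MvPolynomial.aeval_algebraMap_apply]
      rfl
    have h2 : aeval (fun j => ψ (b j)) p = ψ.restrictScalars k (aeval b p) := by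
      rw [MvPolynomial.comp_aeval_apply]
      rfl
    rw [h1, h2]
    constructor
    · intro h
      have : aeval b p = 0 := (algebraMap S Fa).injective (by rw [h, map_zero])
      rw [this, map_zero]
    · intro h
      have : aeval b p = 0 := hinj (by rw [map_zero]; exact h)
      rw [this, map_zero]
  · intro j
    have h1 : IsAlgebraic L (b j) := by
      have := Algebra.IsAlgebraic.isAlgebraic (R := L) (b j)
      exact this
    have h2 : IsAlgebraic L (ψ (b j)) := h1.algHom ψ
    obtain ⟨q, hq0, hq⟩ := h2
    refine ⟨q.map e.toAlgHom.toRingHom, ?_, ?_⟩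
    · exact (Polynomial.map_ne_zero_iff e.injective).2 hq0
    · rw [← hq, Polynomial.aeval_def, Polynomial.eval₂_map, Polynomial.aeval_def]
      rfl
  · intro i j hij
    have h0 : e ⟨x i, IntermediateField.subset_adjoin _ _ ⟨i, rfl⟩⟩
        = ⟨y i, IntermediateField.subset_adjoin _ _ ⟨i, rfl⟩⟩ := by
      have hx' : hx.aevalEquivField (algebraMap (MvPolynomial (Fin t) k)
          (FractionRing (MvPolynomial (Fin t) k)) (X i)) = ⟨x i, IntermediateField.subset_adjoin _ _ ⟨i, rfl⟩⟩ := by
        apply Subtype.ext
        have := hx.aevalEquivField_algebraMap_apply_coe (X i)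
        rw [this]; simp
      have hy' : hy.aevalEquivField (algebraMap (MvPolynomial (Fin t) k)
          (FractionRing (MvPolynomial (Fin t) k)) (X i)) = ⟨y i, IntermediateField.subset_adjoin _ _ ⟨i, rfl⟩⟩ := by
        apply Subtype.ext
        have := hy.aevalEquivField_algebraMap_apply_coe (X i)
        rw [this]; simp
      rw [← hx']
      change hy.aevalEquivField (hx.aevalEquivField.symm (hx.aevalEquivField _)) = _
      rw [AlgEquiv.symm_apply_apply, hy']
    have h1 : b j = algebraMap L S ⟨x i, IntermediateField.subset_adjoin _ _ ⟨i, rfl⟩⟩ := by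
      apply Subtype.ext
      exact hij
    show ψ (b j) = y i
    rw [h1, ψ.commutes]
    change ((e _ : M) : Ω) = y i
    rw [h0]

theorem exists_bc (k k' : Type) [Field k] [Field k'] [Algebra ℂ k] [Algebra ℂ k'] [Algebra k k']
    [IsScalarTower ℂ k k'] {Fa : Type} [Field Fa] [Algebra k Fa] {N : ℕ} (a : Fin N → Fa) :
    ∃ (Ω : Type) (_ : Field Ω) (_ : IsAlgClosed Ω) (_ : Algebra ℂ Ω) (_ : Algebra k Ω)
      (_ : Algebra k' Ω) (_ : IsScalarTower ℂ k Ω) (_ : IsScalarTower ℂ k' Ω)
      (_ : IsScalarTower k k' Ω) (a' : Fin N → Ω),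
      (∀ p : MvPolynomial (Fin N) k, aeval a p = 0 ↔ aeval a' p = 0) ∧ tr k' a' = tr k a := by
  obtain ⟨κ, hinj, hind, halg⟩ := exists_basis k a
  let Ω := AlgebraicClosure (FractionRing (MvPolynomial (Fin (tr k a)) k'))
  let y : Fin (tr k a) → Ω := fun i =>
    algebraMap (FractionRing (MvPolynomial (Fin (tr k a)) k')) Ω
      (algebraMap (MvPolynomial (Fin (tr k a)) k') _ (X i))
  have hy' : AlgebraicIndependent k' y := by
    have h1 := (MvPolynomial.algebraicIndependent_X (Fin (tr k a)) k')
    have h2 := h1.map' (f := IsScalarTower.toAlgHom k' (MvPolynomial (Fin (tr k a)) k')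
      (FractionRing (MvPolynomial (Fin (tr k a)) k'))) (IsFractionRing.injective _ _)
    have h3 := h2.map' (f := IsScalarTower.toAlgHom k' (FractionRing (MvPolynomial (Fin (tr k a)) k')) Ω)
      (algebraMap (FractionRing (MvPolynomial (Fin (tr k a)) k')) Ω).injective
    exact h3
  have hy : AlgebraicIndependent k y := by
    exact hy'.restrictScalars (algebraMap k k').injective
  obtain ⟨a', h1, h2, h3⟩ := BcE_ext k a (a ∘ κ) y hind hy (fun j => by
    obtain ⟨q, hq0, hq⟩ := halg j
    let ι := (Subalgebra.inclusion
      (IntermediateField.algebra_adjoin_le_adjoin k (Set.range (a ∘ κ)))).toRingHom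
    have hι : Function.Injective ι := Subalgebra.inclusion_injective _
    refine ⟨q.map ι, (Polynomial.map_ne_zero_iff hι).2 hq0, ?_⟩
    rw [← hq, Polynomial.aeval_def, Polynomial.eval₂_map, Polynomial.aeval_def]
    rfl)
  have hκ : ∀ i, a' (κ i) = y i := fun i => h3 i (κ i) rfl
  have halg' : ∀ j, IsAlgebraic (IntermediateField.adjoin k' (Set.range y)) (a' j) := by
    intro j
    obtain ⟨q, hq0, hq⟩ := h2 j
    let ι : IntermediateField.adjoin k (Set.range y) →+* IntermediateField.adjoin k' (Set.range y) :=
      { toFun := fun z => ⟨z, by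
          have hle : IntermediateField.adjoin k (Set.range y) ≤
              (IntermediateField.adjoin k' (Set.range y)).restrictScalars k := by
            rw [IntermediateField.adjoin_le_iff]
            exact IntermediateField.subset_adjoin _ _
          exact hle z.2⟩
        map_one' := rfl
        map_mul' := fun _ _ => rfl
        map_zero' := rfl
        map_add' := fun _ _ => rfl }
    refine ⟨q.map ι, (Polynomial.map_ne_zero_iff ι.injective).2 hq0, ?_⟩
    rw [← hq, Polynomial.aeval_def, Polynomial.eval₂_map, Polynomial.aeval_def]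
    rfl
  refine ⟨Ω, inferInstance, inferInstance, inferInstance, inferInstance, inferInstance,
    inferInstance, inferInstance, inferInstance, a', h1, ?_⟩
  apply le_antisymm
  · exact (tr_le_of_alg k' a' y halg').trans (tr_le k' y)
  · refine card_le_tr k' a' y hy' (fun i => ?_)
    have hm : y i ∈ IntermediateField.adjoin k' (Set.range a') := by
      rw [← hκ i]
      exact IntermediateField.subset_adjoin _ _ ⟨κ i, rfl⟩
    exact isAlgebraic_algebraMap (⟨y i, hm⟩ : IntermediateField.adjoin k' (Set.range a'))

end VPH
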