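import Pool.Agent.VPH.RkA

set_option autoImplicit false

/-!
# VPH-Cen: a place with given centre

`h` in `F` (algebraically closed) specialises to `a` over `k`. There is a place `ψ` of `F`, defined on the
valuation ring `V`, with values in the algebraically closed field `R`, identity on `k`, finite at `h`, such
that the residue of `h` has the same equations over `k` as `a`.

Plan. `A := (aeval h).range ⊆ F`, the hom `A → Fa`, `h ↦ a` is well-defined (`Sp k h a`), its
kernel `P` is a prime ideal; localise at `P` and take a valuation ring of `F` dominating it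
(`LocalSubring.ofPrime`, `LocalSubring.exists_le_valuationSubring`, in
`Mathlib/RingTheory/Valuation/LocalSubring.lean`). `R := IsLocalRing.ResidueField V`; it is algebraically closed:
a monic polynomial over `R` lifts to a monic polynomial over `V`, which has a root in `F`, integral over `V`,
hence in `V`. The algebra structures of `R` come from `k → A → V → R`.
-/

namespace VPH

open MvPolynomial

/-- the residue field of a valuation ring of an algebraically closed field is algebraically closed -/
private theorem Cen_algClosed (F : Type) [Field F] [IsAlgClosed F] (V : ValuationSubring F) :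
    IsAlgClosed (IsLocalRing.ResidueField V) := by
  apply IsAlgClosed.of_exists_root
  intro p hp hirr
  have hsurj : Function.Surjective (IsLocalRing.residue V) := IsLocalRing.residue_surjective
  have hl : p ∈ Polynomial.lifts (IsLocalRing.residue V) := by
    rw [Polynomial.mem_lifts]
    exact Polynomial.map_surjective _ hsurj p
  obtain ⟨q, hq, hqd, hqm⟩ := Polynomial.lifts_and_degree_eq_and_monic hl hp
  have hd : q.degree ≠ 0 := by
    rw [hqd]
    exact (Polynomial.degree_pos_of_irreducible hirr).ne'
  obtain ⟨x, hx⟩ := IsAlgClosed.exists_aeval_eq_zero_of_injective F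
    (FaithfulSMul.algebraMap_injective V F) q hd
  have hint : IsIntegral V x := ⟨q, hqm, by rwa [Polynomial.aeval_def] at hx⟩
  obtain ⟨y, rfl⟩ := (IsIntegrallyClosed.isIntegral_iff (R := V) (K := F)).1 hint
  refine ⟨IsLocalRing.residue V y, ?_⟩
  have h1 : q.eval y = 0 := by
    have h2 : algebraMap V F (q.eval y) = 0 := by
      rw [← Polynomial.aeval_algebraMap_apply_eq_algebraMap_eval]
      exact hx
    exact (FaithfulSMul.algebraMap_injective V F) (by rw [h2, map_zero])
  rw [← hq, Polynomial.eval_map, Polynomial.eval₂_at_apply, h1, map_zero]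

theorem centre (k F : Type) [Field k] [Field F] [Algebra ℂ k] [Algebra ℂ F] [Algebra k F]
    [IsScalarTower ℂ k F] [IsAlgClosed F] {Fa : Type} [Field Fa] [Algebra k Fa] {N : ℕ}
    (h : Fin N → F) (a : Fin N → Fa) (H : Sp k h a) :
    ∃ (V : ValuationSubring F) (R : Type) (_ : Field R) (_ : IsAlgClosed R) (_ : Algebra ℂ R)
      (_ : Algebra k R) (_ : IsScalarTower ℂ k R) (ψ : V →+* R) (hV : ∀ j, h j ∈ V),
      Function.Surjective ψ ∧
      (∀ v : V, ψ v = 0 ↔ V.valuation (v : F) < 1) ∧
      (∀ c : k, ∃ hc : algebraMap k F c ∈ V, ψ ⟨algebraMap k F c, hc⟩ = algebraMap k R c) ∧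
      (∀ p : MvPolynomial (Fin N) k, aeval (fun j => ψ ⟨h j, hV j⟩) p = 0 ↔ aeval a p = 0) := by
  classical
  let f : MvPolynomial (Fin N) k →+* F := (aeval h : MvPolynomial (Fin N) k →ₐ[k] F).toRingHom
  let g : MvPolynomial (Fin N) k →+* Fa := (aeval a : MvPolynomial (Fin N) k →ₐ[k] Fa).toRingHom
  let A : Subring F := f.range
  have hfs : Function.Surjective f.rangeRestrict := f.rangeRestrict_surjective
  have hker : RingHom.ker f.rangeRestrict ≤ RingHom.ker g := by
    intro p hp
    rw [RingHom.mem_ker] at hp ⊢
    have : f p = 0 := by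
      have := congrArg Subtype.val hp
      simpa using this
    exact H p this
  let θ : A →+* Fa := RingHom.liftOfSurjective f.rangeRestrict hfs ⟨g, hker⟩
  have hθ : ∀ p, θ (f.rangeRestrict p) = g p := fun p =>
    RingHom.liftOfRightInverse_comp_apply _ _ _ _ _
  let P : Ideal A := RingHom.ker θ
  have hP : P.IsPrime := RingHom.ker_isPrime θ
  obtain ⟨V, hV⟩ := (LocalSubring.ofPrime A P).exists_le_valuationSubring
  have hAO : A ≤ (LocalSubring.ofPrime A P).toSubring := LocalSubring.le_ofPrime A P
  have hAV : A ≤ V.toSubring := hAO.trans hV.1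
  have hfV : ∀ p, f p ∈ V := fun p => hAV ⟨p, rfl⟩
  -- residues
  have hres : ∀ p, IsLocalRing.residue V ⟨f p, hfV p⟩ = 0 ↔ g p = 0 := by
    intro p
    rw [IsLocalRing.residue_eq_zero_iff, IsLocalRing.mem_maximalIdeal, mem_nonunits_iff,
      ← hθ p]
    have key : IsUnit (⟨f p, hfV p⟩ : V) ↔
        IsUnit (algebraMap A (LocalSubring.ofPrime A P).toSubring (f.rangeRestrict p)) := by
      constructor
      · intro hu
        exact hV.2.1 _ hu
      · intro hu
        exact hu.map (Subring.inclusion hV.1)
    rw [key, IsLocalization.AtPrime.isUnit_to_map_iff (LocalSubring.ofPrime A P).toSubring P]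
    rw [Ideal.mem_primeCompl_iff, not_not]
    exact RingHom.mem_ker
  let ψ : V →+* IsLocalRing.ResidueField V := IsLocalRing.residue V
  let fV : MvPolynomial (Fin N) k →+* V := f.codRestrict V.toSubring hfV
  let ak : Algebra k (IsLocalRing.ResidueField V) := ((ψ.comp fV).comp C).toAlgebra
  let aC : Algebra ℂ (IsLocalRing.ResidueField V) :=
    (((ψ.comp fV).comp C).comp (algebraMap ℂ k)).toAlgebra
  have hst : @IsScalarTower ℂ k (IsLocalRing.ResidueField V) _ ak.toSMul aC.toSMul := by
    let := ak
    let := aC
    exact IsScalarTower.of_algebraMap_eq (fun _ => rfl)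
  refine ⟨V, IsLocalRing.ResidueField V, inferInstance, Cen_algClosed F V, aC, ak, hst, ψ,
    fun j => ?_, IsLocalRing.residue_surjective, ?_, ?_, ?_⟩
  · have := hfV (X j)
    simpa [f] using this
  · intro v
    rw [← ValuationSubring.valuation_lt_one_iff]
    exact IsLocalRing.residue_eq_zero_iff v
  · intro c
    have hc : f (C c) = algebraMap k F c := by simp [f]
    refine ⟨hc ▸ hfV (C c), ?_⟩
    change ψ _ = ψ (fV (C c))
    congr 1
    exact Subtype.ext hc.symm
  · intro p
    refine Iff.trans ?_ (hres p)
    have : (aeval (fun j => ψ ⟨h j, (by simpa [f] using hfV (X j))⟩) :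
        MvPolynomial (Fin N) k →ₐ[k] IsLocalRing.ResidueField V).toRingHom = ψ.comp fV := by
      apply MvPolynomial.ringHom_ext
      · intro r
        change aeval _ (C r) = _
        rw [aeval_C]
        rfl
      · intro i
        change aeval _ (X i) = _
        rw [aeval_X]
        change ψ _ = ψ (fV (X i))
        congr 1
        apply Subtype.ext
        change h i = f (X i)
        simp [f]
    have h2 := DFunLike.congr_fun this p
    change aeval _ p = ψ (fV p) at h2
    rw [h2]
    rfl

end VPH
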