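import Pool.Agent.VPH.Stmt

set_option autoImplicit false

/-!
# Project VPH: definitions used in the proof
-/

namespace VPH

open MvPolynomial

/-- the polynomials `f i` are computed together with at most `s` operations -/
def CompF {σ R : Type} [CommRing R] (s : ℕ) {ι : Type} (f : ι → MvPolynomial σ R) : Prop :=
  ∃ l : List (MvPolynomial σ R), l.length ≤ s ∧ IsSLP l ∧ ∀ i, Av l (f i)

/-- the negation, again prenex -/
def Fml.neg {R : Type} [CommRing R] : {N : ℕ} → Fml R N → Fml R N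
  | _, .qf l p B => .qf l p Bᶜ
  | _, .ex m φ => .al m φ.neg
  | _, .al m φ => .ex m φ.neg

/-! ## Points -/

section pts

variable (k : Type) [Field k] {F F' : Type} [Field F] [Field F'] [Algebra k F] [Algebra k F'] {N : ℕ}

/-- the point `h` specialises to `a` over `k` -/
def Sp (h : Fin N → F) (a : Fin N → F') : Prop :=
  ∀ p : MvPolynomial (Fin N) k, aeval h p = 0 → aeval a p = 0

/-- the transcendence degree of `k(h)` over `k` -/
noncomputable def tr (h : Fin N → F) : ℕ :=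
  Cardinal.toNat (Algebra.trdeg k (Algebra.adjoin k (Set.range h)))

/-- infinite transcendence degree -/
def Big (k F : Type) [Field k] [Field F] [Algebra k F] : Prop :=
  Cardinal.aleph0 ≤ Algebra.trdeg k F

end pts

/-! ## Stages and cheap points -/

/-- every derivation of `F` over `k` has a lift to `E` which kills `K` -/
def Lifts (k F E : Type) [Field k] [Field F] [Algebra k F] [Field E] (O : Subring E) (ρ : O →+* F)
    (K : Subfield E) : Prop :=
  ∀ D : Derivation k F F, ∃ D' : Derivation ℤ E E, (∀ x ∈ K, D' x = 0) ∧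
    ∀ b : O, ∃ hb : D' b ∈ O, ρ ⟨D' b, hb⟩ = D (ρ b)

/-- a stage -/
structure Stg (k F E : Type) [Field k] [Field F] [Algebra ℂ F] [Algebra k F] [Field E]
    [Algebra ℂ E] (O : Subring E) (ρ : O →+* F) (K : Subfield E) : Prop where
  surj : Function.Surjective ρ
  inv : ∀ b : O, ρ b ≠ 0 → (b : E)⁻¹ ∈ O
  base : ∀ c : ℂ, ∃ hc : algebraMap ℂ E c ∈ O, ρ ⟨algebraMap ℂ E c, hc⟩ = algebraMap ℂ F c
  baseK : ∀ c : ℂ, algebraMap ℂ E c ∈ K
  lift : Lifts k F E O ρ K

/-- `h` is `g`-cheap over `(k, F)`; the equations have complexity at most `s` -/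
def Cheap (k F : Type) [Field k] [Field F] [Algebra ℂ F] [Algebra k F] (s : ℕ) {N : ℕ}
    (h : Fin N → F) (g : ℕ) : Prop :=
  ∃ (E : Type) (_ : Field E) (_ : Algebra ℂ E) (O : Subring E) (ρ : O →+* F) (K : Subfield E),
    Stg k F E O ρ K ∧
    ∃ (m : ℕ) (c : Fin m → E) (ι : Fin N → Fin m) (hc : ∀ j, c (ι j) ∈ O)
      (G : Fin g → MvPolynomial (Fin m) E),
      (∀ j, ρ ⟨c (ι j), hc j⟩ = h j) ∧ (∀ i, Comp s (G i)) ∧ (∀ i t, coeff t (G i) ∈ K) ∧
      (∀ i, aeval c (G i) = 0) ∧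
      LinearIndependent E (fun (i : Fin g) (l : Fin m) => aeval c (pderiv l (G i))) ∧
      m ≤ tr k h + g

/-- the result of the main lemma: over some larger field of constants, a base change of `a` is
`g`-cheap -/
def Rch (k : Type) [Field k] [Algebra ℂ k] (s : ℕ) {Fa : Type} [Field Fa] [Algebra k Fa]
    {N : ℕ} (a : Fin N → Fa) (g : ℕ) : Prop :=
  ∃ (k' F' : Type) (_ : Field k') (_ : Field F') (_ : Algebra ℂ k') (_ : Algebra ℂ F')
    (_ : Algebra k' F') (_ : IsScalarTower ℂ k' F') (_ : Algebra k k') (_ : IsScalarTower ℂ k k')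
    (_ : Algebra k F') (_ : IsScalarTower k k' F')
    (_ : IsAlgClosed k') (_ : IsAlgClosed F') (a' : Fin N → F'), Big k' F' ∧
    (∀ p : MvPolynomial (Fin N) k, aeval a p = 0 ↔ aeval a' p = 0) ∧
    tr k' a' = tr k a ∧ Cheap k' F' s a' g

/-- `a` is a maximal point of `φ` under `h` -/
def MaxPt (k : Type) [Field k] [Algebra ℂ k] {N : ℕ} (φ : Fml ℂ N) {F : Type} [Field F] [Algebra k F]
    (h : Fin N → F) {Fa : Type} [Field Fa] [Algebra ℂ Fa] [Algebra k Fa] (a : Fin N → Fa) : Prop :=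
  φ.holds Fa a ∧ Sp k h a ∧
    ∀ (Fc : Type) [Field Fc] [IsAlgClosed Fc] [Algebra ℂ Fc] [Algebra k Fc] [IsScalarTower ℂ k Fc]
      (c : Fin N → Fc), φ.holds Fc c → Sp k h c → Sp k c a → Sp k a c

/-- one more equation, `p(w ∘ ι) = e` -/
noncomputable def newG {E : Type} [Field E] [Algebra ℂ E] {g m N : ℕ}
    (G : Fin g → MvPolynomial (Fin m) E) (ι : Fin N → Fin m) (p : MvPolynomial (Fin N) ℂ) (e : E) :
    Fin (g + 1) → MvPolynomial (Fin m) E :=
  Fin.snoc G (rename ι (map (algebraMap ℂ E) p) - C e)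

/-- `P` has coefficients in `O`, and their residues are the coefficients of `Q` -/
def Res {E F : Type} [Field E] [Field F] (O : Subring E) (ρ : O →+* F) {n : ℕ}
    (P : MvPolynomial (Fin n) E) (Q : MvPolynomial (Fin n) F) : Prop :=
  ∃ P' : MvPolynomial (Fin n) O, map O.subtype P' = P ∧ map ρ P' = Q

/-! ## The composed stage -/

section sub

variable {E F F₀ : Type} [Field E] [Field F] [Field F₀]

/-- the elements of `O` with residue in the valuation ring `V` -/
def subO (O : Subring E) (ρ : O →+* F) (V : ValuationSubring F) : Subring E where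
  carrier := {b | ∃ hb : b ∈ O, ρ ⟨b, hb⟩ ∈ V}
  zero_mem' := ⟨O.zero_mem, by
    have : ρ ⟨0, O.zero_mem⟩ = 0 := map_zero ρ
    rw [this]; exact V.zero_mem⟩
  one_mem' := ⟨O.one_mem, by
    have : ρ ⟨1, O.one_mem⟩ = 1 := map_one ρ
    rw [this]; exact V.one_mem⟩
  add_mem' := fun {a b} ha hb => ⟨O.add_mem ha.1 hb.1, by
    have : ρ ⟨a + b, O.add_mem ha.1 hb.1⟩ = ρ ⟨a, ha.1⟩ + ρ ⟨b, hb.1⟩ :=
      map_add ρ ⟨a, ha.1⟩ ⟨b, hb.1⟩
    rw [this]; exact V.add_mem _ _ ha.2 hb.2⟩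
  mul_mem' := fun {a b} ha hb => ⟨O.mul_mem ha.1 hb.1, by
    have : ρ ⟨a * b, O.mul_mem ha.1 hb.1⟩ = ρ ⟨a, ha.1⟩ * ρ ⟨b, hb.1⟩ :=
      map_mul ρ ⟨a, ha.1⟩ ⟨b, hb.1⟩
    rw [this]; exact V.mul_mem _ _ ha.2 hb.2⟩
  neg_mem' := fun {a} ha => ⟨O.neg_mem ha.1, by
    have : ρ ⟨-a, O.neg_mem ha.1⟩ = -ρ ⟨a, ha.1⟩ := map_neg ρ ⟨a, ha.1⟩
    rw [this]; exact V.neg_mem _ ha.2⟩

/-- the residue map of the composed stage -/
def subρ (O : Subring E) (ρ : O →+* F) (V : ValuationSubring F) (ψ : V →+* F₀) :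
    subO O ρ V →+* F₀ where
  toFun b := ψ ⟨ρ ⟨b.1, b.2.1⟩, b.2.2⟩
  map_zero' := by
    rw [← map_zero ψ]; congr 1; exact Subtype.ext (map_zero ρ)
  map_one' := by
    rw [← map_one ψ]; congr 1; exact Subtype.ext (map_one ρ)
  map_add' a b := by
    rw [← map_add ψ]; congr 1
    exact Subtype.ext (map_add ρ ⟨a.1, a.2.1⟩ ⟨b.1, b.2.1⟩)
  map_mul' a b := by
    rw [← map_mul ψ]; congr 1
    exact Subtype.ext (map_mul ρ ⟨a.1, a.2.1⟩ ⟨b.1, b.2.1⟩)

end sub

/-! ## Truncation, Newton iteration -/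

/-- the homogeneous components of degree at most `d` -/
noncomputable def tru {σ R : Type} [CommRing R] (d : ℕ) (f : MvPolynomial σ R) : MvPolynomial σ R :=
  ∑ j ∈ Finset.range (d + 1), homogeneousComponent j f

/-- the exponential of a derivation, truncated -/
noncomputable def dex {A : Type} [CommRing A] [Algebra ℚ A] (Δ : Derivation ℤ A A) (d : ℕ) (b : A) : A :=
  ∑ j ∈ Finset.range (d + 1), ((1 : ℚ) / (j.factorial : ℚ)) • (Δ^[j] b)

/-- Newton iteration with constant slope `B`: the coordinates `e.symm (inl _)` are `x`, the others are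
iterated, starting with the constants `w` -/
noncomputable def nwt {E A : Type} [Field E] [CommRing A] [Algebra E A] {n g m : ℕ}
    (e : Fin m ≃ Fin n ⊕ Fin g) (G : Fin g → MvPolynomial (Fin m) E) (B : Matrix (Fin g) (Fin g) E)
    (x : Fin n → A) (w : Fin g → E) : ℕ → Fin g → A
  | 0 => fun l => algebraMap E A (w l)
  | j + 1 => fun l => nwt e G B x w j l - ∑ l', algebraMap E A (B l l') *
      aeval (fun i => Sum.elim x (nwt e G B x w j) (e i)) (G l')

end VPH
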