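import Mathlib

set_option autoImplicit false

/-!
# VPH-DerA: extension of derivations in characteristic 0

`k → K → F` fields, `δ : K → F` a `k`-derivation, `s : ι → F` algebraically independent over `K`, `y : ι → F`
arbitrary. There is a `k`-derivation `D` of `F` extending `δ` with `D (s i) = y i`.

Plan. Extend `s` to a transcendence basis of `F` over `K` (`exists_isTranscendenceBasis_superset`; extend `y` by `0`), so
that `F` is algebraic over `K(s)`. Step 1: on `MvPolynomial ι K` the map
`p ↦ ∑ (δ coefficients)(s) + ∑_i (∂_i p)(s) * y i` is a derivation to `F` (an `MvPolynomial ι K`-module via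
`aeval s`); `aeval s` is injective, so it extends to the field `K(s)` (quotient rule; or `KaehlerDifferential` and
`Derivation.liftKaehlerDifferential` with localisation: formally étale). Step 2: `F` is algebraic separable over `K(s)`, hence formally étale
(`Algebra.FormallyEtale.of_isSeparable` in `Mathlib/RingTheory/Etale/Field.lean`), so derivations extend
uniquely (`Mathlib/RingTheory/Etale/Kaehler.lean`: `tensorKaehlerEquivOfFormallyEtale`; see also
`Mathlib/RingTheory/Derivation/DifferentialRing.lean`, `Mathlib/FieldTheory/Differential`). A derivation `A → N` is the same as a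
section of the trivial square-zero extension (`Mathlib/RingTheory/Derivation/ToSquareZero.lean`), which
gives both steps from formal smoothness: the ring hom `K → F[X]/(X^2)` (dual numbers, `DualNumber F` / `TrivSqZeroExt F F`),
`c ↦ c + δ c ε` extends to `K[s] → DualNumber F`, `s i ↦ s i + y i ε`, to `K(s)`, and to `F` by
formal étaleness over `DualNumber F → F`.
-/

namespace VPH

private def DNum (F : Type) [Field F] : Type := TrivSqZeroExt F F

private noncomputable instance (F : Type) [Field F] : CommRing (DNum F) :=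
  inferInstanceAs (CommRing (TrivSqZeroExt F F))

private noncomputable def dfst (F : Type) [Field F] : DNum F →+* F :=
  (TrivSqZeroExt.fstHom F F F).toRingHom

private theorem dfst_apply (F : Type) [Field F] (x : DNum F) :
    dfst F x = TrivSqZeroExt.fst (R := F) (M := F) x := rfl

private theorem dfst_surj (F : Type) [Field F] : Function.Surjective (dfst F) := fun x =>
  ⟨(TrivSqZeroExt.inl x : TrivSqZeroExt F F), rfl⟩

private theorem tz_mul (F : Type) [Field F] (a b : TrivSqZeroExt F F) (ha : a.fst = 0)
    (hb : b.fst = 0) : a * b = 0 := by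
  refine TrivSqZeroExt.ext ?_ ?_
  · rw [TrivSqZeroExt.fst_mul, ha, zero_mul, TrivSqZeroExt.fst_zero]
  · rw [TrivSqZeroExt.snd_mul, ha, hb, zero_smul, MulOpposite.op_zero, zero_smul, add_zero,
      TrivSqZeroExt.snd_zero]

private theorem dfst_nil (F : Type) [Field F] : IsNilpotent (RingHom.ker (dfst F)) := by
  refine ⟨2, ?_⟩
  rw [pow_two, Ideal.zero_eq_bot, eq_bot_iff, Ideal.mul_le]
  intro a ha b hb
  rw [RingHom.mem_ker] at ha hb
  rw [Ideal.mem_bot]
  exact tz_mul F a b ha hb

private theorem core {K F : Type} [Field K] [Field F] [Algebra K F] [CharZero K]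
    (φ0 : K →+* DNum F) (hφ : ∀ c, dfst F (φ0 c) = algebraMap K F c) {ι : Type} (s : ι → F)
    (hs : IsTranscendenceBasis K s) (z : ι → DNum F) (hz : ∀ i, dfst F (z i) = s i) :
    ∃ L : F →+* DNum F, (∀ x, dfst F (L x) = x) ∧ (∀ c : K, L (algebraMap K F c) = φ0 c) ∧
      ∀ i, L (s i) = z i := by
  let A := MvPolynomial ι K
  let α : A →+* F := (MvPolynomial.aeval s : MvPolynomial ι K →ₐ[K] F).toRingHom
  let φ : A →+* DNum F := MvPolynomial.eval₂Hom φ0 z
  let : Algebra A F := α.toAlgebra
  let : Algebra A (DNum F) := φ.toAlgebra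
  have hcomp : (dfst F).comp φ = α := by
    apply MvPolynomial.ringHom_ext
    · intro c
      change dfst F (MvPolynomial.eval₂Hom φ0 z (MvPolynomial.C c)) = MvPolynomial.aeval s (MvPolynomial.C c)
      rw [MvPolynomial.eval₂Hom_C, hφ, MvPolynomial.aeval_C]
    · intro i
      change dfst F (MvPolynomial.eval₂Hom φ0 z (MvPolynomial.X i)) = MvPolynomial.aeval s (MvPolynomial.X i)
      rw [MvPolynomial.eval₂Hom_X', hz, MvPolynomial.aeval_X]
  have hinj : Function.Injective (algebraMap A F) := hs.1
  have : FaithfulSMul A F := (faithfulSMul_iff_algebraMap_injective A F).2 hinj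
  let : Algebra (FractionRing A) F := FractionRing.liftAlgebra A F
  have : IsScalarTower A (FractionRing A) F := FractionRing.isScalarTower_liftAlgebra A F
  have : IsScalarTower K A F := IsScalarTower.of_algebraMap_eq (fun c => by
    change algebraMap K F c = MvPolynomial.aeval s (algebraMap K (MvPolynomial ι K) c)
    rw [AlgHom.commutes])
  have : CharZero (FractionRing A) := by
    refine charZero_of_injective_algebraMap (R := K) (A := FractionRing A) ?_
    exact (algebraMap K (FractionRing A)).injective
  have hal : Algebra.IsAlgebraic A F := by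
    have h1 := hs.isAlgebraic
    have h2 : Algebra.adjoin K (Set.range s) = (MvPolynomial.aeval s : MvPolynomial ι K →ₐ[K] F).range := by
      rw [Algebra.adjoin_range_eq_range_aeval]
    rw [h2] at h1
    constructor
    intro x
    obtain ⟨q, hq0, hq⟩ := h1.isAlgebraic x
    -- pull back the coefficients
    have hsurj : Function.Surjective
        ((MvPolynomial.aeval s : MvPolynomial ι K →ₐ[K] F).rangeRestrict) :=
      AlgHom.rangeRestrict_surjective _
    obtain ⟨q', hq'⟩ := Polynomial.map_surjective
      ((MvPolynomial.aeval s : MvPolynomial ι K →ₐ[K] F).rangeRestrict).toRingHom hsurj q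
    refine ⟨q', ?_, ?_⟩
    · rintro rfl
      apply hq0
      rw [← hq', Polynomial.map_zero]
    · rw [← hq', Polynomial.aeval_def, Polynomial.eval₂_map] at hq
      exact hq
  have : Algebra.IsAlgebraic (FractionRing A) F :=
    Algebra.IsAlgebraic.extendScalars (R := A) (IsFractionRing.injective A (FractionRing A))
  have : Algebra.FormallyEtale (FractionRing A) F := Algebra.FormallyEtale.of_isSeparable _ _
  have : Algebra.FormallyEtale A (FractionRing A) :=
    Algebra.FormallyEtale.of_isLocalization (nonZeroDivisors A)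
  have : Algebra.FormallyEtale A F := Algebra.FormallyEtale.comp A (FractionRing A) F
  let g : DNum F →ₐ[A] F :=
    { dfst F with
      commutes' := fun a => by
        change dfst F (φ a) = α a
        rw [← hcomp]; rfl }
  let L := Algebra.FormallySmooth.liftOfSurjective (AlgHom.id A F) g (dfst_surj F) (dfst_nil F)
  have hL : ∀ x, g (L x) = x := fun x =>
    Algebra.FormallySmooth.liftOfSurjective_apply (AlgHom.id A F) g (dfst_surj F) (dfst_nil F) x
  have hA : ∀ a : A, L (α a) = φ a := fun a => L.commutes a
  refine ⟨L.toRingHom, fun x => hL x, fun c => ?_, fun i => ?_⟩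
  · have := hA (MvPolynomial.C c)
    have e1 : α (MvPolynomial.C c) = algebraMap K F c := MvPolynomial.aeval_C s c
    have e2 : φ (MvPolynomial.C c) = φ0 c := MvPolynomial.eval₂Hom_C φ0 z c
    rw [e1, e2] at this
    exact this
  · have := hA (MvPolynomial.X i)
    have e1 : α (MvPolynomial.X i) = s i := MvPolynomial.aeval_X s i
    have e2 : φ (MvPolynomial.X i) = z i := MvPolynomial.eval₂Hom_X' φ0 z i
    rw [e1, e2] at this
    exact this

/-- the derivation attached to a ring homomorphism to the dual numbers -/
private theorem der_of_lift {k F : Type} [Field k] [Field F] [Algebra k F] (L : F →+* DNum F)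
    (hL : ∀ x, dfst F (L x) = x)
    (hk : ∀ c : k, L (algebraMap k F c) = (TrivSqZeroExt.inl (algebraMap k F c) : TrivSqZeroExt F F)) :
    ∃ D : Derivation k F F, ∀ x, D x = TrivSqZeroExt.snd (R := F) (M := F) (L x) := by
  let M : F →+* TrivSqZeroExt F F := L
  have hM : ∀ x, (M x).fst = x := hL
  have hMk : ∀ c : k, M (algebraMap k F c) = TrivSqZeroExt.inl (algebraMap k F c) := hk
  let D0 : F →ₗ[k] F :=
    { toFun := fun x => (M x).snd
      map_add' := fun x y => by rw [map_add, TrivSqZeroExt.snd_add]
      map_smul' := fun c x => by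
        rw [Algebra.smul_def, map_mul, TrivSqZeroExt.snd_mul, hMk, TrivSqZeroExt.fst_inl,
          TrivSqZeroExt.snd_inl, smul_zero, add_zero, RingHom.id_apply, smul_eq_mul,
          Algebra.smul_def] }
  refine ⟨Derivation.mk' D0 (fun a b => ?_), fun x => rfl⟩
  change (M (a * b)).snd = a • (M b).snd + b • (M a).snd
  rw [map_mul, TrivSqZeroExt.snd_mul, hM, hM, op_smul_eq_smul]

theorem der_gen {k K F : Type} [Field k] [Field K] [Field F] [Algebra k K] [Algebra K F]
    [Algebra k F] [IsScalarTower k K F] [CharZero K] (δ : Derivation k K F) {ι : Type} (s : ι → F)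
    (hs : AlgebraicIndependent K s) (y : ι → F) :
    ∃ D : Derivation k F F, (∀ x : K, D (algebraMap K F x) = δ x) ∧ ∀ i, D (s i) = y i := by
  classical
  obtain ⟨B, hB, hBt⟩ := exists_isTranscendenceBasis_superset (R := K) (A := F)
    (s := Set.range s) (AlgebraicIndependent.coe_range hs)
  let y' : B → F := fun b => if h : ∃ i, s i = b.1 then y h.choose else 0
  let φ1 : K →+* TrivSqZeroExt F F :=
    { toFun := fun c => TrivSqZeroExt.inl (algebraMap K F c) + TrivSqZeroExt.inr (δ c)
      map_one' := by simp
      map_zero' := by simp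
      map_add' := fun a b => by
        simp only [map_add, TrivSqZeroExt.inl_add, TrivSqZeroExt.inr_add]; abel
      map_mul' := fun a b => by
        refine TrivSqZeroExt.ext ?_ ?_
        · simp
        · rw [TrivSqZeroExt.snd_mul]
          simp only [TrivSqZeroExt.snd_add, TrivSqZeroExt.snd_inl, TrivSqZeroExt.snd_inr,
            TrivSqZeroExt.fst_add, TrivSqZeroExt.fst_inl, TrivSqZeroExt.fst_inr, zero_add,
            add_zero, Derivation.leibniz, op_smul_eq_smul, smul_eq_mul]
          rw [Algebra.smul_def, Algebra.smul_def] }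
  have hφ1 : ∀ c, (φ1 c).fst = algebraMap K F c := fun c => by
    change (TrivSqZeroExt.inl (algebraMap K F c) + TrivSqZeroExt.inr (δ c) :
      TrivSqZeroExt F F).fst = _
    simp
  have hφ2 : ∀ c, (φ1 c).snd = δ c := fun c => by
    change (TrivSqZeroExt.inl (algebraMap K F c) + TrivSqZeroExt.inr (δ c) :
      TrivSqZeroExt F F).snd = _
    simp
  let z : B → TrivSqZeroExt F F := fun b => TrivSqZeroExt.inl b.1 + TrivSqZeroExt.inr (y' b)
  have hz : ∀ b, (z b).fst = b.1 := fun b => by simp [z]
  have hz2 : ∀ b, (z b).snd = y' b := fun b => by simp [z]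
  obtain ⟨L, h1, h2, h3⟩ := core (F := F) φ1 hφ1 (Subtype.val : B → F) hBt z hz
  have hk : ∀ c : k, L (algebraMap k F c) =
      (TrivSqZeroExt.inl (algebraMap k F c) : TrivSqZeroExt F F) := by
    intro c
    have e := h2 (algebraMap k K c)
    rw [← IsScalarTower.algebraMap_apply] at e
    refine e.trans ?_
    refine TrivSqZeroExt.ext ?_ ?_
    · exact (hφ1 _).trans (IsScalarTower.algebraMap_apply k K F c).symm
    · exact (hφ2 _).trans (by rw [Derivation.map_algebraMap]; simp)
  obtain ⟨D, hD⟩ := der_of_lift (k := k) L h1 hk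
  refine ⟨D, fun x => ?_, fun i => ?_⟩
  · rw [hD, h2]
    exact hφ2 x
  · have hi : s i ∈ B := hB ⟨i, rfl⟩
    have e := h3 ⟨s i, hi⟩
    rw [hD]
    change TrivSqZeroExt.snd (R := F) (M := F) (L ((⟨s i, hi⟩ : B) : F)) = y i
    rw [e]
    refine (hz2 ⟨s i, hi⟩).trans ?_
    have hex : ∃ j, s j = s i := ⟨i, rfl⟩
    change (if h : ∃ j, s j = s i then y h.choose else 0) = y i
    rw [dif_pos hex, hs.injective hex.choose_spec]

/-- dual derivations -/
theorem der_ind {k F : Type} [Field k] [Field F] [Algebra k F] [CharZero k] {n : ℕ} (x : Fin n → F)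
    (hx : AlgebraicIndependent k x) :
    ∃ D : Fin n → Derivation k F F, ∀ i j, D i (x j) = if i = j then 1 else 0 := by
  have h : ∀ i : Fin n, ∃ D : Derivation k F F, ∀ j, D (x j) = if i = j then 1 else 0 := by
    intro i
    obtain ⟨D, -, hD⟩ := der_gen (k := k) (K := k) (0 : Derivation k k F) x hx
      (fun j => if i = j then 1 else 0)
    exact ⟨D, hD⟩
  choose D hD using h
  exact ⟨D, hD⟩

theorem der_one {k F : Type} [Field k] [Field F] [Algebra k F] [CharZero k] (ε : F)
    (hε : Transcendental k ε) : ∃ S : Derivation k F F, S ε = 1 := by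
  have h : AlgebraicIndependent k (fun _ : Unit => ε) := by
    rw [algebraicIndependent_unique_type_iff]
    exact hε
  obtain ⟨D, -, hD⟩ := der_gen (k := k) (K := k) (0 : Derivation k k F) _ h (fun _ => 1)
  exact ⟨D, hD ()⟩

theorem der_ext {k F₀ F : Type} [Field k] [Field F₀] [Field F] [Algebra k F₀] [Algebra F₀ F]
    [Algebra k F] [IsScalarTower k F₀ F] [CharZero F₀] (ε : F) (hε : Transcendental F₀ ε)
    (D₁ : Derivation k F₀ F₀) :
    ∃ D : Derivation k F F, D ε = 0 ∧ ∀ x : F₀, D (algebraMap F₀ F x) = algebraMap F₀ F (D₁ x) := by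
  have h : AlgebraicIndependent F₀ (fun _ : Unit => ε) := by
    rw [algebraicIndependent_unique_type_iff]
    exact hε
  obtain ⟨D, hD, hD2⟩ := der_gen (k := k) (K := F₀)
    ((Algebra.linearMap F₀ F).compDer D₁) _ h (fun _ => 0)
  exact ⟨D, hD2 (), fun x => hD x⟩

end VPH
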