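import Pool.Agent.VPH.Defs

set_option autoImplicit false

/-!
# VPH-DexA: the truncated exponential of a derivation is multiplicative up to `𝔞 ^ (d + 1)`
-/

namespace VPH

open MvPolynomial

variable {A : Type} [CommRing A] [Algebra ℚ A]

omit [Algebra ℚ A] in
private theorem dexA_iter_add (Δ : Derivation ℤ A A) (j : ℕ) (a b : A) :
    Δ^[j] (a + b) = Δ^[j] a + Δ^[j] b := by
  induction j with
  | zero => rfl
  | succ j ih => rw [Function.iterate_succ_apply', Function.iterate_succ_apply',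
      Function.iterate_succ_apply', ih, map_add]

omit [Algebra ℚ A] in
private theorem dexA_iter_zero (Δ : Derivation ℤ A A) (j : ℕ) : Δ^[j] (0 : A) = 0 := by
  induction j with
  | zero => rfl
  | succ j ih => rw [Function.iterate_succ_apply', ih, map_zero]

private theorem dexA_smul (Δ : Derivation ℤ A A) (q : ℚ) (a : A) : Δ (q • a) = q • Δ a := by
  have := map_rat_smul Δ.toLinearMap.toAddMonoidHom q a
  exact this

/-- the divided power -/
private noncomputable def dexA_dp (Δ : Derivation ℤ A A) (j : ℕ) (b : A) : A :=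
  ((1 : ℚ) / (j.factorial : ℚ)) • (Δ^[j] b)

private theorem dexA_dp_succ (Δ : Derivation ℤ A A) (j : ℕ) (b : A) :
    Δ (dexA_dp Δ j b) = ((j : ℚ) + 1) • dexA_dp Δ (j + 1) b := by
  unfold dexA_dp
  rw [dexA_smul, Function.iterate_succ_apply', smul_smul]
  congr 1
  rw [Nat.factorial_succ]
  push_cast
  have h1 : (j.factorial : ℚ) ≠ 0 := by exact_mod_cast j.factorial_ne_zero
  have h2 : (j : ℚ) + 1 ≠ 0 := by positivity
  field_simp

private theorem dexA_dp_mul (Δ : Derivation ℤ A A) (n : ℕ) (a b : A) :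
    dexA_dp Δ n (a * b) = ∑ p ∈ Finset.HasAntidiagonal.antidiagonal n, dexA_dp Δ p.1 a * dexA_dp Δ p.2 b := by
  induction n with
  | zero => simp [dexA_dp]
  | succ n ih =>
    have h2 : (n : ℚ) + 1 ≠ 0 := by positivity
    have key : ((n : ℚ) + 1) • dexA_dp Δ (n + 1) (a * b) = ((n : ℚ) + 1) •
        ∑ p ∈ Finset.HasAntidiagonal.antidiagonal (n + 1), dexA_dp Δ p.1 a * dexA_dp Δ p.2 b := by
      rw [← dexA_dp_succ, ih, map_sum, Finset.smul_sum]
      have e1 : ∀ p ∈ Finset.HasAntidiagonal.antidiagonal (n + 1),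
          ((n : ℚ) + 1) • (dexA_dp Δ p.1 a * dexA_dp Δ p.2 b) =
          (p.1 : ℚ) • (dexA_dp Δ p.1 a * dexA_dp Δ p.2 b) +
            (p.2 : ℚ) • (dexA_dp Δ p.1 a * dexA_dp Δ p.2 b) := by
        intro p hp
        rw [Finset.HasAntidiagonal.mem_antidiagonal] at hp
        rw [← add_smul]
        congr 1
        have : (((p.1 + p.2 : ℕ)) : ℚ) = ((n + 1 : ℕ) : ℚ) := by rw [hp]
        push_cast at this
        exact this.symm
      rw [Finset.sum_congr rfl e1, Finset.sum_add_distrib,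
        Finset.Nat.sum_antidiagonal_succ (f := fun p : ℕ × ℕ =>
          (p.1 : ℚ) • (dexA_dp Δ p.1 a * dexA_dp Δ p.2 b)),
        Finset.Nat.sum_antidiagonal_succ' (f := fun p : ℕ × ℕ =>
          (p.2 : ℚ) • (dexA_dp Δ p.1 a * dexA_dp Δ p.2 b))]
      simp only [Nat.cast_zero, zero_smul, zero_add]
      rw [← Finset.sum_add_distrib]
      refine Finset.sum_congr rfl fun p _ => ?_
      rw [Derivation.leibniz, dexA_dp_succ, dexA_dp_succ]
      simp only [smul_eq_mul]
      push_cast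
      rw [mul_smul_comm, mul_smul_comm, mul_comm (dexA_dp Δ p.2 b), add_comm]
    have := congrArg (fun x => ((n : ℚ) + 1)⁻¹ • x) key
    simpa only [smul_smul, inv_mul_cancel₀ h2, one_smul] using this

theorem dex_add (Δ : Derivation ℤ A A) (d : ℕ) (a b : A) :
    dex Δ d (a + b) = dex Δ d a + dex Δ d b := by
  unfold dex
  rw [← Finset.sum_add_distrib]
  refine Finset.sum_congr rfl fun j _ => ?_
  rw [dexA_iter_add, smul_add]

/-- constants -/
theorem dex_const (Δ : Derivation ℤ A A) (d : ℕ) (a : A) (ha : Δ a = 0) : dex Δ d a = a := by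
  unfold dex
  rw [Finset.sum_range_succ']
  simp only [Function.iterate_succ_apply, ha, dexA_iter_zero, smul_zero, Finset.sum_const_zero,
    Function.iterate_zero, id_eq, Nat.factorial_zero, Nat.cast_one, div_one, one_smul, zero_add]

/-- elements on which `Δ` acts linearly -/
theorem dex_lin (Δ : Derivation ℤ A A) (d : ℕ) (a : A) (ha : Δ (Δ a) = 0) :
    dex Δ (d + 1) a = a + Δ a := by
  unfold dex
  rw [Finset.sum_range_succ', Finset.sum_range_succ']
  simp only [Function.iterate_succ_apply, ha, dexA_iter_zero, smul_zero, Finset.sum_const_zero,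
    Function.iterate_zero, id_eq, Nat.factorial_zero, Nat.cast_one, div_one, one_smul, zero_add,
    Nat.factorial_one]
  rw [add_comm]

omit [Algebra ℚ A] in
private theorem dexA_iter_mem (Δ : Derivation ℤ A A) (𝔞 : Ideal A)
    (h : ∀ j, ∀ b ∈ 𝔞 ^ j, Δ b ∈ 𝔞 ^ (j + 1)) (j : ℕ) (a : A) : Δ^[j] a ∈ 𝔞 ^ j := by
  induction j with
  | zero => simp
  | succ j ih => rw [Function.iterate_succ_apply']; exact h j _ ih

private theorem dexA_smul_mem (I : Ideal A) (q : ℚ) (a : A) (ha : a ∈ I) : q • a ∈ I := by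
  rw [Algebra.smul_def]
  exact I.mul_mem_left _ ha

private theorem dexA_dp_mem (Δ : Derivation ℤ A A) (𝔞 : Ideal A)
    (h : ∀ j, ∀ b ∈ 𝔞 ^ j, Δ b ∈ 𝔞 ^ (j + 1)) (j : ℕ) (a : A) : dexA_dp Δ j a ∈ 𝔞 ^ j :=
  dexA_smul_mem _ _ _ (dexA_iter_mem Δ 𝔞 h j a)

theorem dex_mul (Δ : Derivation ℤ A A) (𝔞 : Ideal A) (h : ∀ j, ∀ b ∈ 𝔞 ^ j, Δ b ∈ 𝔞 ^ (j + 1)) (d : ℕ)
    (a b : A) : dex Δ d a * dex Δ d b - dex Δ d (a * b) ∈ 𝔞 ^ (d + 1) := by
  classical
  have e1 : dex Δ d a * dex Δ d b = ∑ p ∈ Finset.range (d + 1) ×ˢ Finset.range (d + 1),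
      dexA_dp Δ p.1 a * dexA_dp Δ p.2 b := by
    unfold dex
    rw [Finset.sum_mul_sum, Finset.sum_product]
    rfl
  have e2 : dex Δ d (a * b) = ∑ p ∈ (Finset.range (d + 1) ×ˢ Finset.range (d + 1)).filter
      (fun p => p.1 + p.2 ≤ d), dexA_dp Δ p.1 a * dexA_dp Δ p.2 b := by
    have : dex Δ d (a * b) = ∑ n ∈ Finset.range (d + 1), dexA_dp Δ n (a * b) := rfl
    rw [this, Finset.sum_congr rfl (fun n _ => dexA_dp_mul Δ n a b), Finset.sum_sigma']
    refine Finset.sum_bij' (fun x _ => x.2) (fun p _ => ⟨p.1 + p.2, p⟩) ?_ ?_ ?_ ?_ ?_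
    · rintro ⟨n, p⟩ hx
      simp only [Finset.mem_sigma, Finset.mem_range, Finset.HasAntidiagonal.mem_antidiagonal] at hx
      simp only [Finset.mem_filter, Finset.mem_product, Finset.mem_range]
      omega
    · rintro p hp
      simp only [Finset.mem_filter, Finset.mem_product, Finset.mem_range] at hp
      obtain ⟨⟨_, _⟩, h5⟩ := hp
      rw [Finset.mem_sigma, Finset.mem_range, Finset.HasAntidiagonal.mem_antidiagonal]
      exact ⟨Nat.lt_succ_of_le h5, rfl⟩
    · rintro ⟨n, p⟩ hx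
      simp only [Finset.mem_sigma, Finset.mem_range, Finset.HasAntidiagonal.mem_antidiagonal] at hx
      obtain ⟨_, rfl⟩ := hx
      rfl
    · intro p _
      rfl
    · intro x _
      rfl
  rw [e1, e2, ← Finset.sum_filter_add_sum_filter_not (Finset.range (d + 1) ×ˢ Finset.range (d + 1))
    (fun p => p.1 + p.2 ≤ d), add_sub_cancel_left]
  refine Ideal.sum_mem _ fun p hp => ?_
  simp only [Finset.mem_filter, not_le] at hp
  have h3 : dexA_dp Δ p.1 a * dexA_dp Δ p.2 b ∈ 𝔞 ^ (p.1 + p.2) := by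
    rw [pow_add]
    exact Ideal.mul_mem_mul (dexA_dp_mem Δ 𝔞 h _ _) (dexA_dp_mem Δ 𝔞 h _ _)
  exact Ideal.pow_le_pow_right (by omega) h3

theorem dex_aeval {E : Type} [CommRing E] [Algebra E A] (Δ : Derivation ℤ A A) (𝔞 : Ideal A)
    (h : ∀ j, ∀ b ∈ 𝔞 ^ j, Δ b ∈ 𝔞 ^ (j + 1)) (d : ℕ) {m : ℕ} (y : Fin m → A)
    (p : MvPolynomial (Fin m) E) (hp : ∀ t, Δ (algebraMap E A (coeff t p)) = 0) :
    aeval (fun i => dex Δ d (y i)) p - dex Δ d (aeval y p) ∈ 𝔞 ^ (d + 1) := by
  classical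
  let φ : A →+* A ⧸ 𝔞 ^ (d + 1) :=
    { toFun := fun a => Ideal.Quotient.mk _ (dex Δ d a)
      map_zero' := by
        simp only [dex_const Δ d (0 : A) (map_zero _), map_zero]
      map_one' := by
        simp only [dex_const Δ d (1 : A) (Derivation.map_one_eq_zero _), map_one]
      map_add' := fun a b => by
        simp only [dex_add, map_add]
      map_mul' := fun a b => by
        rw [← map_mul]
        symm
        rw [Ideal.Quotient.eq]
        exact dex_mul Δ 𝔞 h d a b }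
  have hφ : ∀ a, φ a = Ideal.Quotient.mk _ (dex Δ d a) := fun _ => rfl
  rw [← Ideal.Quotient.eq, ← hφ, aeval_def, aeval_def, eval₂_eq, eval₂_eq, map_sum, map_sum]
  refine Finset.sum_congr rfl fun t _ => ?_
  rw [map_mul, map_mul, hφ, dex_const Δ d _ (hp t), map_prod, map_prod]
  congr 1
  refine Finset.prod_congr rfl fun i _ => ?_
  rw [map_pow, map_pow, hφ]

/-- `dex Δ d a` is `a` modulo `𝔞` -/
theorem dex_sub_mem (Δ : Derivation ℤ A A) (𝔞 : Ideal A) (h : ∀ j, ∀ b ∈ 𝔞 ^ j, Δ b ∈ 𝔞 ^ (j + 1))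
    (d : ℕ) (a : A) : dex Δ d a - a ∈ 𝔞 := by
  unfold dex
  rw [Finset.sum_range_succ']
  simp only [Function.iterate_zero, id_eq, Nat.factorial_zero, Nat.cast_one, div_one, one_smul,
    add_sub_cancel_right]
  refine Ideal.sum_mem _ fun j _ => ?_
  have h1 := dexA_dp_mem Δ 𝔞 h (j + 1) a
  have h2 := Ideal.pow_le_pow_right (show 1 ≤ j + 1 by omega) h1
  rw [pow_one] at h2
  exact h2

end VPH
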