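import Pool.Agent.VPH.Defs

set_option autoImplicit false

/-!
# VPH-DexB: the generic combination of derivations on polynomials

`E` is a field of characteristic 0 with derivations `D i`; on `MvPolynomial (Fin n) E` there is the
derivation `Δ = ∑ X i • (D i acting on the coefficients)`, `Δ (X i) = 0`.

Plan for `exists_delta`: `D i` acts coefficientwise on `MvPolynomial (Fin n) E` (there is
`Derivation.mapCoeff` for `Polynomial`; for `MvPolynomial` use `Finsupp.mapRange` / define it on
`AddMonoidAlgebra`, or as the sum over the support, and check the Leibniz rule on monomials; or use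
`Derivation.mk'`/`AddMonoidHom` with `MvPolynomial.induction_on'`). Then take `∑ i, X i • ...`.
The other statements: any `Δ` with the two rules is determined on monomials,
`Δ (monomial t b) = ∑ i, monomial (t + single i 1) (D i b)`.
-/

namespace VPH

open MvPolynomial

/-- the two rules for `Δ` -/
def IsDel {n : ℕ} {E : Type} [Field E] (D : Fin n → Derivation ℤ E E)
    (Δ : Derivation ℤ (MvPolynomial (Fin n) E) (MvPolynomial (Fin n) E)) : Prop :=
  (∀ i, Δ (X i) = 0) ∧ ∀ b : E, Δ (C b) = ∑ i, X i * C (D i b)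

variable {n : ℕ} {E F : Type} [Field E] [Field F]

/-! ### coefficientwise maps -/

/-- an additive map acting on the coefficients -/
private noncomputable def lcF {R S : Type} [CommRing R] [CommRing S] (f : R →+ S)
    (p : MvPolynomial (Fin n) R) : MvPolynomial (Fin n) S :=
  ∑ t ∈ p.support, monomial t (f (coeff t p))

private theorem coeff_lcF {R S : Type} [CommRing R] [CommRing S] (f : R →+ S)
    (p : MvPolynomial (Fin n) R) (t : Fin n →₀ ℕ) : coeff t (lcF f p) = f (coeff t p) := by
  classical
  unfold lcF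
  rw [coeff_sum]
  simp only [coeff_monomial]
  rw [Finset.sum_ite_eq']
  by_cases h : t ∈ p.support
  · rw [if_pos h]
  · rw [if_neg h, notMem_support_iff.1 h, map_zero]

private theorem lcF_add {R S : Type} [CommRing R] [CommRing S] (f : R →+ S)
    (p q : MvPolynomial (Fin n) R) : lcF f (p + q) = lcF f p + lcF f q := by
  apply MvPolynomial.ext
  intro t
  rw [coeff_add, coeff_lcF, coeff_lcF, coeff_lcF, coeff_add, map_add]

private theorem lcF_monomial {R S : Type} [CommRing R] [CommRing S] (f : R →+ S)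
    (t : Fin n →₀ ℕ) (c : R) : lcF f (monomial t c) = monomial t (f c) := by
  classical
  apply MvPolynomial.ext
  intro s
  rw [coeff_lcF, coeff_monomial, coeff_monomial]
  split_ifs
  · rfl
  · exact map_zero f

private noncomputable def lc (D : Derivation ℤ E E) :
    MvPolynomial (Fin n) E →+ MvPolynomial (Fin n) E :=
  AddMonoidHom.mk' (lcF (D : E →+ E)) (lcF_add _)

private theorem coeff_lc (D : Derivation ℤ E E) (p : MvPolynomial (Fin n) E) (t : Fin n →₀ ℕ) :
    coeff t (lc D p) = D (coeff t p) :=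
  coeff_lcF _ p t

private theorem lc_monomial (D : Derivation ℤ E E) (t : Fin n →₀ ℕ) (c : E) :
    lc D (monomial t c) = monomial t (D c) :=
  lcF_monomial _ t c

private theorem lc_mul (D : Derivation ℤ E E) (p q : MvPolynomial (Fin n) E) :
    lc D (p * q) = p * lc D q + q * lc D p := by
  induction p using MvPolynomial.induction_on' with
  | add p p' hp hp' =>
    rw [add_mul, map_add, hp, hp', map_add]
    ring
  | monomial t a =>
    induction q using MvPolynomial.induction_on' with
    | add q q' hq hq' =>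
      rw [mul_add, map_add, hq, hq', map_add]
      ring
    | monomial s b =>
      rw [monomial_mul, lc_monomial, lc_monomial, lc_monomial, Derivation.leibniz, smul_eq_mul,
        smul_eq_mul, map_add, monomial_mul, monomial_mul, add_comm s t]

private noncomputable def del (D : Fin n → Derivation ℤ E E) :
    Derivation ℤ (MvPolynomial (Fin n) E) (MvPolynomial (Fin n) E) :=
  Derivation.mk'
    ((∑ i, (AddMonoidHom.mulLeft (X i : MvPolynomial (Fin n) E)).comp (lc (D i))).toIntLinearMap)
    (by
      intro a b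
      simp only [AddMonoidHom.coe_toIntLinearMap, AddMonoidHom.finsetSum_apply,
        AddMonoidHom.comp_apply, AddMonoidHom.coe_mulLeft, lc_mul, smul_eq_mul, Finset.mul_sum]
      rw [← Finset.sum_add_distrib]
      apply Finset.sum_congr rfl
      intro i _
      ring)

private theorem del_apply (D : Fin n → Derivation ℤ E E) (p : MvPolynomial (Fin n) E) :
    del D p = ∑ i, X i * lc (D i) p := by
  show ((∑ i, (AddMonoidHom.mulLeft (X i : MvPolynomial (Fin n) E)).comp
    (lc (D i))).toIntLinearMap) p = _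
  simp only [AddMonoidHom.coe_toIntLinearMap, AddMonoidHom.finsetSum_apply,
        AddMonoidHom.comp_apply, AddMonoidHom.coe_mulLeft]

private theorem lc_C (D : Derivation ℤ E E) (c : E) :
    lc D (C c : MvPolynomial (Fin n) E) = C (D c) :=
  lc_monomial D 0 c

private theorem lc_X (D : Derivation ℤ E E) (i : Fin n) :
    lc D (X i : MvPolynomial (Fin n) E) = 0 := by
  show lc D (monomial _ 1) = 0
  rw [lc_monomial, Derivation.map_one_eq_zero, map_zero]

private theorem isDel_del (D : Fin n → Derivation ℤ E E) : IsDel D (del D) := by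
  constructor
  · intro i
    rw [del_apply]
    apply Finset.sum_eq_zero
    intro j _
    rw [lc_X, mul_zero]
  · intro b
    rw [del_apply]
    apply Finset.sum_congr rfl
    intro j _
    rw [lc_C]

private theorem isDel_unique {D : Fin n → Derivation ℤ E E}
    {Δ Δ' : Derivation ℤ (MvPolynomial (Fin n) E) (MvPolynomial (Fin n) E)} (h : IsDel D Δ)
    (h' : IsDel D Δ') (p : MvPolynomial (Fin n) E) : Δ p = Δ' p := by
  induction p using MvPolynomial.induction_on with
  | C a => rw [h.2, h'.2]
  | add p q hp hq => rw [map_add, map_add, hp, hq]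
  | mul_X p i hp => rw [Derivation.leibniz, Derivation.leibniz, h.1, h'.1, hp]

private theorem isDel_apply {D : Fin n → Derivation ℤ E E}
    {Δ : Derivation ℤ (MvPolynomial (Fin n) E) (MvPolynomial (Fin n) E)} (h : IsDel D Δ)
    (p : MvPolynomial (Fin n) E) : Δ p = ∑ i, X i * lc (D i) p := by
  rw [isDel_unique h (isDel_del D), del_apply]

private theorem totalDegree_lc (D : Derivation ℤ E E) (p : MvPolynomial (Fin n) E) :
    (lc D p).totalDegree ≤ p.totalDegree := by
  apply totalDegree_le_of_support_subset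
  intro t ht
  rw [mem_support_iff] at ht ⊢
  intro h0
  apply ht
  rw [coeff_lc, h0, map_zero]

private theorem isDel_totalDegree {D : Fin n → Derivation ℤ E E}
    {Δ : Derivation ℤ (MvPolynomial (Fin n) E) (MvPolynomial (Fin n) E)} (h : IsDel D Δ)
    (p : MvPolynomial (Fin n) E) : (Δ p).totalDegree ≤ p.totalDegree + 1 := by
  rw [isDel_apply h]
  refine (totalDegree_finsetSum _ _).trans (Finset.sup_le ?_)
  intro i _
  refine (totalDegree_mul _ _).trans ?_
  have h1 := totalDegree_lc (D i) p
  have h2 : (X i : MvPolynomial (Fin n) E).totalDegree = 1 := totalDegree_X i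
  omega

private theorem isDel_iter_totalDegree {D : Fin n → Derivation ℤ E E}
    {Δ : Derivation ℤ (MvPolynomial (Fin n) E) (MvPolynomial (Fin n) E)} (h : IsDel D Δ)
    (b : E) (j : ℕ) : (Δ^[j] (C b)).totalDegree ≤ j := by
  induction j with
  | zero =>
    show (C b : MvPolynomial (Fin n) E).totalDegree ≤ 0
    rw [totalDegree_C]
  | succ j ih =>
    rw [Function.iterate_succ_apply']
    exact (isDel_totalDegree h _).trans (by omega)

private theorem smul_eq_C_mul [Algebra ℚ (MvPolynomial (Fin n) E)] (j : ℕ)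
    (y : MvPolynomial (Fin n) E) :
    ((1 : ℚ) / (j.factorial : ℚ)) • y = C ((j.factorial : E)⁻¹) * y := by
  have h0 : (j.factorial : ℚ) ≠ 0 := Nat.cast_ne_zero.2 j.factorial_ne_zero
  have h1 : (j.factorial : MvPolynomial (Fin n) E) *
      algebraMap ℚ (MvPolynomial (Fin n) E) ((1 : ℚ) / (j.factorial : ℚ)) = 1 := by
    rw [← map_natCast (algebraMap ℚ (MvPolynomial (Fin n) E)), ← map_mul,
      mul_one_div_cancel h0, map_one]
  have h2 : (j.factorial : MvPolynomial (Fin n) E) = C (j.factorial : E) :=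
    (map_natCast (C : E →+* MvPolynomial (Fin n) E) _).symm
  have h3 : (j.factorial : E) ≠ 0 := by
    intro h
    rw [h2, h, map_zero, zero_mul] at h1
    exact zero_ne_one h1
  have h4 : C ((j.factorial : E)⁻¹) * (C (j.factorial : E) : MvPolynomial (Fin n) E) = 1 := by
    rw [← map_mul, inv_mul_cancel₀ h3, map_one]
  rw [Algebra.smul_def]
  congr 1
  rw [h2] at h1
  calc algebraMap ℚ (MvPolynomial (Fin n) E) ((1 : ℚ) / (j.factorial : ℚ))
      = (C ((j.factorial : E)⁻¹) * C (j.factorial : E)) *
        algebraMap ℚ (MvPolynomial (Fin n) E) ((1 : ℚ) / (j.factorial : ℚ)) := by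
        rw [h4, one_mul]
    _ = C ((j.factorial : E)⁻¹) * (C (j.factorial : E) *
        algebraMap ℚ (MvPolynomial (Fin n) E) ((1 : ℚ) / (j.factorial : ℚ))) := by
        rw [mul_assoc]
    _ = C ((j.factorial : E)⁻¹) := by rw [h1, mul_one]

/-! ### closure properties of `Res` -/

private theorem res_iff {O : Subring E} {ρ : O →+* F} {P : MvPolynomial (Fin n) E}
    {Q : MvPolynomial (Fin n) F} :
    Res O ρ P Q ↔ ∀ t, ∃ h : coeff t P ∈ O, ρ ⟨coeff t P, h⟩ = coeff t Q := by
  classical
  constructor
  · rintro ⟨P', hP, hQ⟩ t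
    have h1 : coeff t P = ((coeff t P' : O) : E) := by
      rw [← hP, coeff_map]
      rfl
    have h2 : coeff t P ∈ O := by
      rw [h1]
      exact (coeff t P').2
    refine ⟨h2, ?_⟩
    rw [← hQ, coeff_map]
    congr 1
    exact Subtype.ext h1
  · intro h
    choose h1 h2 using h
    refine ⟨∑ t ∈ P.support, monomial t (⟨coeff t P, h1 t⟩ : O), ?_, ?_⟩
    · rw [map_sum]
      calc ∑ t ∈ P.support, map O.subtype (monomial t (⟨coeff t P, h1 t⟩ : O))
          = ∑ t ∈ P.support, monomial t (coeff t P) := by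
            apply Finset.sum_congr rfl
            intro t _
            rw [map_monomial]
            rfl
        _ = P := support_sum_monomial_coeff P
    · rw [map_sum]
      apply MvPolynomial.ext
      intro s
      rw [coeff_sum]
      simp only [map_monomial, coeff_monomial, h2]
      rw [Finset.sum_ite_eq']
      by_cases hs : s ∈ P.support
      · rw [if_pos hs]
      · rw [if_neg hs, ← h2 s]
        have h3 : (⟨coeff s P, h1 s⟩ : O) = 0 := Subtype.ext (notMem_support_iff.1 hs)
        rw [h3, map_zero]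

private theorem res_add {O : Subring E} {ρ : O →+* F} {P P₁ : MvPolynomial (Fin n) E}
    {Q Q₁ : MvPolynomial (Fin n) F} (H : Res O ρ P Q) (H₁ : Res O ρ P₁ Q₁) :
    Res O ρ (P + P₁) (Q + Q₁) := by
  obtain ⟨P', h1, h2⟩ := H
  obtain ⟨P'', h3, h4⟩ := H₁
  exact ⟨P' + P'', by rw [map_add, h1, h3], by rw [map_add, h2, h4]⟩

private theorem res_mul {O : Subring E} {ρ : O →+* F} {P P₁ : MvPolynomial (Fin n) E}
    {Q Q₁ : MvPolynomial (Fin n) F} (H : Res O ρ P Q) (H₁ : Res O ρ P₁ Q₁) :
    Res O ρ (P * P₁) (Q * Q₁) := by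
  obtain ⟨P', h1, h2⟩ := H
  obtain ⟨P'', h3, h4⟩ := H₁
  exact ⟨P' * P'', by rw [map_mul, h1, h3], by rw [map_mul, h2, h4]⟩

private theorem res_zero {O : Subring E} {ρ : O →+* F} :
    Res O ρ (0 : MvPolynomial (Fin n) E) (0 : MvPolynomial (Fin n) F) :=
  ⟨0, map_zero _, map_zero _⟩

private theorem res_X {O : Subring E} {ρ : O →+* F} (i : Fin n) :
    Res O ρ (X i : MvPolynomial (Fin n) E) (X i : MvPolynomial (Fin n) F) :=
  ⟨X i, map_X _ _, map_X _ _⟩

private theorem res_C {O : Subring E} {ρ : O →+* F} (b : O) :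
    Res O ρ (C (b : E) : MvPolynomial (Fin n) E) (C (ρ b) : MvPolynomial (Fin n) F) :=
  ⟨C b, map_C _ _, map_C _ _⟩

private theorem res_sum {O : Subring E} {ρ : O →+* F} {ι : Type} (s : Finset ι)
    (P : ι → MvPolynomial (Fin n) E) (Q : ι → MvPolynomial (Fin n) F)
    (H : ∀ i ∈ s, Res O ρ (P i) (Q i)) : Res O ρ (∑ i ∈ s, P i) (∑ i ∈ s, Q i) := by
  classical
  induction s using Finset.induction_on with
  | empty =>
    rw [Finset.sum_empty, Finset.sum_empty]
    exact res_zero
  | insert a s ha ih =>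
    rw [Finset.sum_insert ha, Finset.sum_insert ha]
    exact res_add (H a (Finset.mem_insert_self a s))
      (ih (fun i hi => H i (Finset.mem_insert_of_mem hi)))

theorem exists_delta (D : Fin n → Derivation ℤ E E) :
    ∃ Δ : Derivation ℤ (MvPolynomial (Fin n) E) (MvPolynomial (Fin n) E), IsDel D Δ :=
  ⟨del D, isDel_del D⟩

theorem IsDel.mem {D : Fin n → Derivation ℤ E E}
    {Δ : Derivation ℤ (MvPolynomial (Fin n) E) (MvPolynomial (Fin n) E)} (h : IsDel D Δ) (j : ℕ)
    (b : MvPolynomial (Fin n) E)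
    (hb : b ∈ (Ideal.span (Set.range (X : Fin n → MvPolynomial (Fin n) E))) ^ j) :
    Δ b ∈ (Ideal.span (Set.range (X : Fin n → MvPolynomial (Fin n) E))) ^ (j + 1) := by
  set I := Ideal.span (Set.range (X : Fin n → MvPolynomial (Fin n) E)) with hI
  have hX : ∀ i, (X i : MvPolynomial (Fin n) E) ∈ I := fun i => Ideal.subset_span ⟨i, rfl⟩
  have h0 : ∀ p, Δ p ∈ I := by
    intro p
    rw [isDel_apply h]
    exact I.sum_mem (fun i _ => I.mul_mem_right _ (hX i))
  have h1 : ∀ p ∈ I, Δ p ∈ I ^ 2 := by
    intro p hp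
    refine Submodule.span_induction (p := fun p _ => Δ p ∈ I ^ 2) ?_ ?_ ?_ ?_ hp
    · rintro _ ⟨i, rfl⟩
      rw [h.1]
      exact Submodule.zero_mem _
    · rw [map_zero]
      exact Submodule.zero_mem _
    · intro x y _ _ hx hy
      rw [map_add]
      exact Submodule.add_mem _ hx hy
    · intro a x hx hx'
      rw [smul_eq_mul, Derivation.leibniz, smul_eq_mul, smul_eq_mul]
      refine Submodule.add_mem _ (Ideal.mul_mem_left _ _ hx') ?_
      rw [pow_two]
      exact Ideal.mul_mem_mul hx (h0 a)
  induction j generalizing b with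
  | zero =>
    rw [zero_add, pow_one]
    exact h0 b
  | succ j ih =>
    rw [pow_succ] at hb
    refine Submodule.mul_induction_on hb ?_ ?_
    · intro p hp q hq
      rw [Derivation.leibniz, smul_eq_mul, smul_eq_mul]
      refine Submodule.add_mem _ ?_ ?_
      · have h2 := Ideal.mul_mem_mul hp (h1 q hq)
        rw [← pow_add] at h2
        exact h2
      · have h2 := Ideal.mul_mem_mul (ih p hp) hq
        rw [← pow_succ, mul_comm] at h2
        exact h2
    · intro p q hp hq
      rw [map_add]
      exact Submodule.add_mem _ hp hq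

/-- `dex Δ d (C b)` has degree at most `d` -/
theorem IsDel.dex_totalDegree [Algebra ℚ (MvPolynomial (Fin n) E)] {D : Fin n → Derivation ℤ E E}
    {Δ : Derivation ℤ (MvPolynomial (Fin n) E) (MvPolynomial (Fin n) E)} (h : IsDel D Δ) (d : ℕ)
    (b : E) : (dex Δ d (C b)).totalDegree ≤ d := by
  unfold dex
  refine (totalDegree_finsetSum _ _).trans (Finset.sup_le ?_)
  intro j hj
  rw [smul_eq_C_mul]
  refine (totalDegree_mul _ _).trans ?_
  rw [totalDegree_C, zero_add]
  have h1 := isDel_iter_totalDegree h b j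
  have h2 := Finset.mem_range.1 hj
  omega

/-- residues: if the `D i` preserve `O` and induce the derivations `D' i` on the residues, then `Δ`
induces `Δ'` -/
theorem Res.del {O : Subring E} {ρ : O →+* F} {D : Fin n → Derivation ℤ E E}
    {D' : Fin n → Derivation ℤ F F}
    (hD : ∀ i, ∀ b : O, ∃ hb : D i b ∈ O, ρ ⟨D i b, hb⟩ = D' i (ρ b))
    {Δ : Derivation ℤ (MvPolynomial (Fin n) E) (MvPolynomial (Fin n) E)} (h : IsDel D Δ)
    {Δ' : Derivation ℤ (MvPolynomial (Fin n) F) (MvPolynomial (Fin n) F)} (h' : IsDel D' Δ')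
    {P : MvPolynomial (Fin n) E} {Q : MvPolynomial (Fin n) F} (H : Res O ρ P Q) :
    Res O ρ (Δ P) (Δ' Q) := by
  rw [isDel_apply h, isDel_apply h']
  apply res_sum
  intro i _
  apply res_mul (res_X i)
  rw [res_iff] at H ⊢
  intro t
  obtain ⟨h1, h2⟩ := H t
  obtain ⟨h3, h4⟩ := hD i ⟨coeff t P, h1⟩
  have h5 : coeff t (lc (D i) P) = D i (coeff t P) := coeff_lc _ _ _
  have h6 : coeff t (lc (D i) P) ∈ O := by
    rw [h5]
    exact h3
  have h7 : (⟨coeff t (lc (D i) P), h6⟩ : O) = ⟨D i (coeff t P), h3⟩ := Subtype.ext h5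
  have h8 : coeff t (lc (D' i) Q) = D' i (coeff t Q) := coeff_lc _ _ _
  refine ⟨h6, ?_⟩
  rw [h7, h8, ← h2]
  exact h4

/-- residues of the truncated exponential; the constants `1 / j!` are in `O` with residue `1 / j!` -/
theorem Res.dex [Algebra ℂ E] [Algebra ℂ F] [Algebra ℚ (MvPolynomial (Fin n) E)]
    [Algebra ℚ (MvPolynomial (Fin n) F)] {O : Subring E} {ρ : O →+* F}
    (base : ∀ c : ℂ, ∃ hc : algebraMap ℂ E c ∈ O, ρ ⟨algebraMap ℂ E c, hc⟩ = algebraMap ℂ F c)
    {D : Fin n → Derivation ℤ E E} {D' : Fin n → Derivation ℤ F F}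
    (hD : ∀ i, ∀ b : O, ∃ hb : D i b ∈ O, ρ ⟨D i b, hb⟩ = D' i (ρ b))
    {Δ : Derivation ℤ (MvPolynomial (Fin n) E) (MvPolynomial (Fin n) E)} (h : IsDel D Δ)
    {Δ' : Derivation ℤ (MvPolynomial (Fin n) F) (MvPolynomial (Fin n) F)} (h' : IsDel D' Δ')
    (d : ℕ) (b : O) : Res O ρ (VPH.dex Δ d (C (b : E))) (VPH.dex Δ' d (C (ρ b))) := by
  unfold VPH.dex
  apply res_sum
  intro j hj
  clear hj
  rw [smul_eq_C_mul, smul_eq_C_mul]
  apply res_mul
  · obtain ⟨h1, h2⟩ := base ((j.factorial : ℂ)⁻¹)
    have h3 := res_C (n := n) (ρ := ρ) ⟨_, h1⟩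
    rw [h2] at h3
    simp only [map_inv₀, map_natCast] at h3
    exact h3
  · induction j with
    | zero => exact res_C b
    | succ j ih =>
      rw [Function.iterate_succ_apply', Function.iterate_succ_apply']
      exact Res.del hD h h' ih

/-- residues and shifts -/
theorem Res.shift {O : Subring E} {ρ : O →+* F} {P : MvPolynomial (Fin n) E}
    {Q : MvPolynomial (Fin n) F} (H : Res O ρ P Q) (x : Fin n → O) :
    Res O ρ (aeval (fun i => X i - C (x i : E)) P) (aeval (fun i => X i - C (ρ (x i))) Q) := by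
  obtain ⟨P', hP, hQ⟩ := H
  refine ⟨bind₁ (fun i => X i - C (x i)) P', ?_, ?_⟩
  · rw [map_bind₁, hP]
    simp only [map_sub, map_X, map_C]
    rfl
  · rw [map_bind₁, hQ]
    simp only [map_sub, map_X, map_C]
    rfl

end VPH
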