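import Pool.Agent.VPH.Defs

set_option autoImplicit false

/-!
# VPH-LinA: linear algebra

`J` has `g` independent rows, the `n` vectors `v i` are in its kernel, `v i (κ j) = δ_ij`, and
`m ≤ n + g`. Then `m = n + g`, `κ` is injective, and the columns of `J` outside the image of `κ` form an
invertible matrix: the `v i` are a basis of the kernel, and a vector of the kernel which vanishes on the
image of `κ` is zero.
-/

namespace VPH

theorem lin_alg {E : Type} [Field E] {n g m : ℕ} (J : Fin g → Fin m → E)
    (hJ : LinearIndependent E J) (κ : Fin n → Fin m) (v : Fin n → Fin m → E)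
    (hv : ∀ i l, ∑ t, J l t * v i t = 0) (hκ : ∀ i j, v i (κ j) = if i = j then 1 else 0)
    (hm : m ≤ n + g) :
    ∃ (e : Fin m ≃ Fin n ⊕ Fin g) (B : Matrix (Fin g) (Fin g) E), (∀ j, e (κ j) = Sum.inl j) ∧
      B * Matrix.of (fun l l' : Fin g => J l (e.symm (Sum.inr l'))) = 1 := by
  classical
  set M : Matrix (Fin g) (Fin m) E := Matrix.of J with hM
  have hrank : M.rank = g := by
    have h := LinearIndependent.rank_matrix (M := M) hJ
    rwa [Fintype.card_fin] at h
  have hker : Module.finrank E (LinearMap.ker M.mulVecLin) + g = m := by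
    have h := LinearMap.finrank_range_add_finrank_ker M.mulVecLin
    rw [Module.finrank_fin_fun] at h
    have h2 : Module.finrank E (LinearMap.range M.mulVecLin) = g := hrank
    omega
  have hvK : ∀ i, v i ∈ LinearMap.ker M.mulVecLin := by
    intro i
    rw [LinearMap.mem_ker]
    funext l
    exact hv i l
  -- a combination of the `v i` at `κ j`
  have hcomb : ∀ (c : Fin n → E) (j : Fin n), (∑ i, c i • v i) (κ j) = c j := by
    intro c j
    rw [Finset.sum_apply, Finset.sum_eq_single j]
    · rw [Pi.smul_apply, hκ, if_pos rfl, smul_eq_mul, mul_one]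
    · intro i _ hi
      rw [Pi.smul_apply, hκ, if_neg hi, smul_zero]
    · intro h
      exact absurd (Finset.mem_univ j) h
  have hind : LinearIndependent E v := by
    rw [Fintype.linearIndependent_iff]
    intro c hc j
    rw [← hcomb c j, hc]
    rfl
  have hle : Submodule.span E (Set.range v) ≤ LinearMap.ker M.mulVecLin := by
    rw [Submodule.span_le]
    rintro _ ⟨i, rfl⟩
    exact hvK i
  have hfs : Module.finrank E (Submodule.span E (Set.range v)) = n := by
    rw [finrank_span_eq_card hind, Fintype.card_fin]
  have hn : n ≤ Module.finrank E (LinearMap.ker M.mulVecLin) := by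
    have h := Submodule.finrank_mono hle
    rwa [hfs] at h
  have hmn : m = n + g := by omega
  have heq : Submodule.span E (Set.range v) = LinearMap.ker M.mulVecLin := by
    apply Submodule.eq_of_le_of_finrank_eq hle
    rw [hfs]
    omega
  have hinj : Function.Injective κ := by
    intro j j' h
    by_contra hne
    have h1 := hκ j j
    rw [h, hκ j j', if_neg hne, if_pos rfl] at h1
    exact zero_ne_one h1
  have hcard : Fintype.card ((Set.range κ)ᶜ : Set (Fin m)) = g := by
    rw [Fintype.card_compl_set, Set.card_range_of_injective hinj, Fintype.card_fin, Fintype.card_fin]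
    omega
  let e2 : ((Set.range κ)ᶜ : Set (Fin m)) ≃ Fin g := Fintype.equivFinOfCardEq hcard
  let e : Fin m ≃ Fin n ⊕ Fin g := (Equiv.Set.sumCompl (Set.range κ)).symm.trans
    (Equiv.sumCongr (Equiv.ofInjective κ hinj).symm e2)
  have heκ : ∀ j, e (κ j) = Sum.inl j := by
    intro j
    rw [← Equiv.eq_symm_apply]
    rfl
  set A : Matrix (Fin g) (Fin g) E := Matrix.of (fun l l' : Fin g => J l (e.symm (Sum.inr l'))) with hA
  have hAinj : Function.Injective A.mulVec := by
    have : Function.Injective A.mulVecLin := by
      rw [injective_iff_map_eq_zero]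
      intro y hy
      set y' : Fin m → E := fun t => Sum.elim (fun _ => 0) y (e t) with hy'
      have h1 : y' ∈ LinearMap.ker M.mulVecLin := by
        rw [LinearMap.mem_ker]
        funext l
        change ∑ t, J l t * y' t = 0
        rw [← e.symm.sum_comp, Fintype.sum_sum_type]
        have h2 : ∑ i : Fin n, J l (e.symm (Sum.inl i)) * y' (e.symm (Sum.inl i)) = 0 := by
          refine Finset.sum_eq_zero fun i _ => ?_
          rw [hy']
          simp only [Equiv.apply_symm_apply, Sum.elim_inl, mul_zero]
        have h3 : ∑ i : Fin g, J l (e.symm (Sum.inr i)) * y' (e.symm (Sum.inr i)) = (A.mulVec y) l := by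
          rw [Matrix.mulVec, dotProduct]
          refine Finset.sum_congr rfl fun i _ => ?_
          rw [hy']
          simp only [Equiv.apply_symm_apply, Sum.elim_inr, hA, Matrix.of_apply]
        rw [h2, h3, zero_add]
        exact congrFun hy l
      rw [← heq, Submodule.mem_span_range_iff_exists_fun] at h1
      obtain ⟨c, hc⟩ := h1
      have h4 : ∀ j, c j = 0 := by
        intro j
        rw [← hcomb c j, hc, hy']
        simp only [heκ, Sum.elim_inl]
      have h5 : y' = 0 := by
        rw [← hc]
        exact Finset.sum_eq_zero fun i _ => by rw [h4 i, zero_smul]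
      funext l'
      have h6 := congrFun h5 (e.symm (Sum.inr l'))
      rw [hy'] at h6
      simp only [Equiv.apply_symm_apply, Sum.elim_inr, Pi.zero_apply] at h6
      exact h6
    exact this
  have hunit : IsUnit A := Matrix.mulVec_injective_iff_isUnit.1 hAinj
  refine ⟨e, A⁻¹, heκ, ?_⟩
  exact Matrix.nonsing_inv_mul A ((Matrix.isUnit_iff_isUnit_det A).1 hunit)

end VPH
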