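import Pool.Agent.VPH.Defs

set_option autoImplicit false

/-!
# VPH-NwtA: Newton iteration with constant slope

Plan. Taylor's formula: for `W, y : Fin g → A` with `W l - y l ∈ 𝔟` and everything congruent modulo
`𝔞` to the point `(x₀, w)`:
`aeval (x, W) p - aeval (x, y) p = ∑ l, C(∂_l p (x₀, w)) * (W l - y l) + (element of 𝔞 * 𝔟)`
(`MvPolynomial.induction_on` or the general fact `p(W) - p(y) = ∑ q_l (W - y)_l` with
`q_l ≡ ∂_l p (x₀, w)` modulo `𝔞` whenever `W ≡ y ≡ w` and `x ≡ x₀` modulo `𝔞`: it is enough to prove the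
existence of such `q_l` for constants, variables, sums and products). With `𝔟 = 𝔞 ^ (j + 1)` and
`B * J = 1` the step `W ↦ W - B * G(x, W)` maps `W ≡ y mod 𝔞 ^ (j + 1)` to `mod 𝔞 ^ (j + 2)`, as long
as `G(x, y) ∈ 𝔞 ^ (d + 1)` and `j + 2 ≤ d + 1`.
-/

namespace VPH

open MvPolynomial

private theorem cong {E A : Type} [Field E] [CommRing A] [Algebra E A] {m : ℕ} (𝔞 : Ideal A)
    (z : Fin m → A) (z₀ : Fin m → E) (hz : ∀ i, z i - algebraMap E A (z₀ i) ∈ 𝔞)
    (p : MvPolynomial (Fin m) E) : aeval z p - algebraMap E A (aeval z₀ p) ∈ 𝔞 := by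
  induction p using MvPolynomial.induction_on with
  | C a =>
    have h : aeval z (C a : MvPolynomial (Fin m) E) -
        algebraMap E A (aeval z₀ (C a : MvPolynomial (Fin m) E)) = 0 := by
      rw [aeval_C, aeval_C, Algebra.algebraMap_self, RingHom.id_apply, sub_self]
    rw [h]
    exact 𝔞.zero_mem
  | add p q hp hq =>
    have h : aeval z (p + q) - algebraMap E A (aeval z₀ (p + q)) =
        (aeval z p - algebraMap E A (aeval z₀ p)) + (aeval z q - algebraMap E A (aeval z₀ q)) := by
      rw [map_add, map_add, map_add]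
      ring
    rw [h]
    exact 𝔞.add_mem hp hq
  | mul_X p i hp =>
    have h : aeval z (p * X i) - algebraMap E A (aeval z₀ (p * X i)) =
        z i * (aeval z p - algebraMap E A (aeval z₀ p)) +
          algebraMap E A (aeval z₀ p) * (z i - algebraMap E A (z₀ i)) := by
      rw [map_mul, map_mul, map_mul, aeval_X, aeval_X]
      ring
    rw [h]
    exact 𝔞.add_mem (𝔞.mul_mem_left _ hp) (𝔞.mul_mem_left _ (hz i))

private theorem taylor {E A : Type} [Field E] [CommRing A] [Algebra E A] {n g m : ℕ}
    (e : Fin m ≃ Fin n ⊕ Fin g) (𝔞 : Ideal A) (x : Fin n → A) (W y : Fin g → A)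
    (x₀ : Fin n → E) (w : Fin g → E)
    (hx : ∀ i, x i - algebraMap E A (x₀ i) ∈ 𝔞) (hy : ∀ l, y l - algebraMap E A (w l) ∈ 𝔞)
    (hW : ∀ l, W l - algebraMap E A (w l) ∈ 𝔞) (p : MvPolynomial (Fin m) E) :
    ∃ q : Fin g → A,
      aeval (fun i => Sum.elim x W (e i)) p - aeval (fun i => Sum.elim x y (e i)) p =
        ∑ l, q l * (W l - y l) ∧
      ∀ l, q l - algebraMap E A
        (aeval (fun i => Sum.elim x₀ w (e i)) (pderiv (e.symm (Sum.inr l)) p)) ∈ 𝔞 := by
  have hzy : ∀ i, Sum.elim x y (e i) - algebraMap E A (Sum.elim x₀ w (e i)) ∈ 𝔞 := by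
    intro i
    rcases e i with a | b
    · exact hx a
    · exact hy b
  induction p using MvPolynomial.induction_on with
  | C a =>
    refine ⟨fun _ => 0, ?_, fun l => ?_⟩
    · rw [aeval_C, aeval_C, sub_self]
      exact (Finset.sum_eq_zero fun l _ => zero_mul _).symm
    · rw [pderiv_C, map_zero, map_zero, sub_zero]
      exact 𝔞.zero_mem
  | add p q hp hq =>
    obtain ⟨r, hr, hr'⟩ := hp
    obtain ⟨s, hs, hs'⟩ := hq
    refine ⟨fun l => r l + s l, ?_, fun l => ?_⟩
    · have h : ∑ l, (r l + s l) * (W l - y l) =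
          ∑ l, r l * (W l - y l) + ∑ l, s l * (W l - y l) := by
        rw [← Finset.sum_add_distrib]
        exact Finset.sum_congr rfl fun l _ => add_mul _ _ _
      rw [h, ← hr, ← hs, map_add, map_add]
      ring
    · have h : r l + s l - algebraMap E A (aeval (fun i => Sum.elim x₀ w (e i))
          (pderiv (e.symm (Sum.inr l)) (p + q))) =
          (r l - algebraMap E A (aeval (fun i => Sum.elim x₀ w (e i))
            (pderiv (e.symm (Sum.inr l)) p))) +
          (s l - algebraMap E A (aeval (fun i => Sum.elim x₀ w (e i))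
            (pderiv (e.symm (Sum.inr l)) q))) := by
        rw [map_add, map_add, map_add]
        ring
      show r l + s l - _ ∈ 𝔞
      rw [h]
      exact 𝔞.add_mem (hr' l) (hs' l)
  | mul_X p i hp =>
    obtain ⟨r, hr, hr'⟩ := hp
    -- the value of the variable
    have hX : ∃ s : Fin g → A,
        Sum.elim x W (e i) - Sum.elim x y (e i) = ∑ l, s l * (W l - y l) ∧
        ∀ l, s l - algebraMap E A (aeval (fun i => Sum.elim x₀ w (e i))
          (pderiv (e.symm (Sum.inr l)) (X i : MvPolynomial (Fin m) E))) ∈ 𝔞 := by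
      refine ⟨fun l => algebraMap E A (aeval (fun i => Sum.elim x₀ w (e i))
          (pderiv (e.symm (Sum.inr l)) (X i : MvPolynomial (Fin m) E))), ?_, fun l => ?_⟩
      · rcases hi : e i with a | b
        · rw [Sum.elim_inl, Sum.elim_inl, sub_self]
          refine (Finset.sum_eq_zero fun l _ => ?_).symm
          have hne : i ≠ e.symm (Sum.inr l) := by
            intro h
            rw [h, Equiv.apply_symm_apply] at hi
            exact absurd hi (by simp)
          show algebraMap E A (aeval (fun i => Sum.elim x₀ w (e i))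
            (pderiv (e.symm (Sum.inr l)) (X i : MvPolynomial (Fin m) E))) * (W l - y l) = 0
          rw [pderiv_X_of_ne hne, map_zero, map_zero, zero_mul]
        · rw [Sum.elim_inr, Sum.elim_inr]
          have hib : i = e.symm (Sum.inr b) := by
            rw [← hi, Equiv.symm_apply_apply]
          rw [Finset.sum_eq_single b]
          · show W b - y b = algebraMap E A (aeval (fun i => Sum.elim x₀ w (e i))
              (pderiv (e.symm (Sum.inr b)) (X i : MvPolynomial (Fin m) E))) * (W b - y b)
            rw [← hib, pderiv_X_self, map_one, map_one, one_mul]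
          · intro l _ hl
            have hne : i ≠ e.symm (Sum.inr l) := by
              intro h
              rw [h, Equiv.apply_symm_apply] at hi
              exact hl (Sum.inr_injective hi)
            show algebraMap E A (aeval (fun i => Sum.elim x₀ w (e i))
              (pderiv (e.symm (Sum.inr l)) (X i : MvPolynomial (Fin m) E))) * (W l - y l) = 0
            rw [pderiv_X_of_ne hne, map_zero, map_zero, zero_mul]
          · intro h
            exact absurd (Finset.mem_univ b) h
      · show algebraMap E A (aeval (fun i => Sum.elim x₀ w (e i))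
          (pderiv (e.symm (Sum.inr l)) (X i : MvPolynomial (Fin m) E))) -
          algebraMap E A (aeval (fun i => Sum.elim x₀ w (e i))
          (pderiv (e.symm (Sum.inr l)) (X i : MvPolynomial (Fin m) E))) ∈ 𝔞
        rw [sub_self]
        exact 𝔞.zero_mem
    obtain ⟨s, hs, hs'⟩ := hX
    have hzW : ∀ i, Sum.elim x W (e i) - algebraMap E A (Sum.elim x₀ w (e i)) ∈ 𝔞 := by
      intro i
      rcases e i with a | b
      · exact hx a
      · exact hW b
    have hpy : aeval (fun i => Sum.elim x y (e i)) p -
        algebraMap E A (aeval (fun i => Sum.elim x₀ w (e i)) p) ∈ 𝔞 :=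
      cong 𝔞 _ _ hzy p
    refine ⟨fun l => r l * Sum.elim x W (e i) +
      aeval (fun i => Sum.elim x y (e i)) p * s l, ?_, fun l => ?_⟩
    · have h : ∑ l, (r l * Sum.elim x W (e i) +
          aeval (fun i => Sum.elim x y (e i)) p * s l) * (W l - y l) =
          Sum.elim x W (e i) * (∑ l, r l * (W l - y l)) +
          aeval (fun i => Sum.elim x y (e i)) p * (∑ l, s l * (W l - y l)) := by
        rw [Finset.mul_sum, Finset.mul_sum, ← Finset.sum_add_distrib]
        exact Finset.sum_congr rfl fun l _ => by ring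
      rw [h, ← hr, ← hs, map_mul, map_mul, aeval_X, aeval_X]
      ring
    · show r l * Sum.elim x W (e i) + aeval (fun i => Sum.elim x y (e i)) p * s l - _ ∈ 𝔞
      have h : r l * Sum.elim x W (e i) + aeval (fun i => Sum.elim x y (e i)) p * s l -
          algebraMap E A (aeval (fun i => Sum.elim x₀ w (e i))
            (pderiv (e.symm (Sum.inr l)) (p * X i))) =
          Sum.elim x W (e i) * (r l - algebraMap E A (aeval (fun i => Sum.elim x₀ w (e i))
            (pderiv (e.symm (Sum.inr l)) p))) +
          algebraMap E A (aeval (fun i => Sum.elim x₀ w (e i))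
            (pderiv (e.symm (Sum.inr l)) p)) *
            (Sum.elim x W (e i) - algebraMap E A (Sum.elim x₀ w (e i))) +
          s l * (aeval (fun i => Sum.elim x y (e i)) p -
            algebraMap E A (aeval (fun i => Sum.elim x₀ w (e i)) p)) +
          algebraMap E A (aeval (fun i => Sum.elim x₀ w (e i)) p) *
            (s l - algebraMap E A (aeval (fun i => Sum.elim x₀ w (e i))
              (pderiv (e.symm (Sum.inr l)) (X i : MvPolynomial (Fin m) E)))) := by
        rw [Derivation.leibniz, smul_eq_mul, smul_eq_mul, map_add, map_mul, map_mul, map_add,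
          map_mul, map_mul, aeval_X]
        ring
      rw [h]
      exact 𝔞.add_mem (𝔞.add_mem (𝔞.add_mem (𝔞.mul_mem_left _ (hr' l))
        (𝔞.mul_mem_left _ (hzW i))) (𝔞.mul_mem_left _ hpy)) (𝔞.mul_mem_left _ (hs' l))

theorem nwt_mem {E A : Type} [Field E] [CommRing A] [Algebra E A] {n g m : ℕ}
    (e : Fin m ≃ Fin n ⊕ Fin g) (G : Fin g → MvPolynomial (Fin m) E) (B : Matrix (Fin g) (Fin g) E)
    (𝔞 : Ideal A) (d : ℕ) (x : Fin n → A) (y : Fin g → A) (x₀ : Fin n → E) (w : Fin g → E)
    (hx : ∀ i, x i - algebraMap E A (x₀ i) ∈ 𝔞) (hy : ∀ l, y l - algebraMap E A (w l) ∈ 𝔞)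
    (hG : ∀ l, aeval (fun i => Sum.elim x y (e i)) (G l) ∈ 𝔞 ^ (d + 1))
    (hB : B * Matrix.of (fun l l' : Fin g =>
      aeval (fun i => Sum.elim x₀ w (e i)) (pderiv (e.symm (Sum.inr l')) (G l))) = 1)
    (j : ℕ) (hj : j ≤ d) (l : Fin g) : nwt e G B x w j l - y l ∈ 𝔞 ^ (j + 1) := by
  have key : ∀ j : ℕ, j ≤ d → ∀ l, nwt e G B x w j l - y l ∈ 𝔞 ^ (j + 1) := by
    intro j
    induction j with
    | zero =>
      intro _ l
      rw [zero_add, pow_one]
      show algebraMap E A (w l) - y l ∈ 𝔞
      rw [← neg_sub]
      exact 𝔞.neg_mem (hy l)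
    | succ j ih =>
      intro hjd l
      have ihj : ∀ l, nwt e G B x w j l - y l ∈ 𝔞 ^ (j + 1) := ih (Nat.le_of_succ_le hjd)
      have hle : 𝔞 ^ (j + 1) ≤ 𝔞 := Ideal.pow_le_self (Nat.succ_ne_zero j)
      have hW : ∀ l, nwt e G B x w j l - algebraMap E A (w l) ∈ 𝔞 := by
        intro l
        have h : nwt e G B x w j l - algebraMap E A (w l) =
            (nwt e G B x w j l - y l) + (y l - algebraMap E A (w l)) := by ring
        rw [h]
        exact 𝔞.add_mem (hle (ihj l)) (hy l)
      have hq := fun l' => taylor e 𝔞 x (nwt e G B x w j) y x₀ w hx hy hW (G l')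
      choose q hq1 hq2 using hq
      show nwt e G B x w j l - (∑ l', algebraMap E A (B l l') *
        aeval (fun i => Sum.elim x (nwt e G B x w j) (e i)) (G l')) - y l ∈ 𝔞 ^ (j + 1 + 1)
      -- the identity matrix
      have hBJ : ∀ l'' : Fin g, ∑ l', algebraMap E A (B l l') *
          algebraMap E A (aeval (fun i => Sum.elim x₀ w (e i))
            (pderiv (e.symm (Sum.inr l'')) (G l'))) = if l = l'' then 1 else 0 := by
        intro l''
        have h := congrFun (congrFun hB l) l''
        rw [Matrix.mul_apply, Matrix.one_apply] at h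
        have h2 := congrArg (algebraMap E A) h
        rw [map_sum] at h2
        have h3 : algebraMap E A (if l = l'' then 1 else 0) = if l = l'' then 1 else 0 := by
          split_ifs
          · exact map_one _
          · exact map_zero _
        rw [h3] at h2
        rw [← h2]
        refine Finset.sum_congr rfl fun l' _ => ?_
        rw [map_mul, Matrix.of_apply]
      have hid : nwt e G B x w j l - y l = ∑ l'', (∑ l', algebraMap E A (B l l') *
          algebraMap E A (aeval (fun i => Sum.elim x₀ w (e i))
            (pderiv (e.symm (Sum.inr l'')) (G l')))) * (nwt e G B x w j l'' - y l'') := by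
        rw [Finset.sum_eq_single l]
        · rw [hBJ l, if_pos rfl, one_mul]
        · intro l'' _ hl
          rw [hBJ l'', if_neg (Ne.symm hl), zero_mul]
        · intro h
          exact absurd (Finset.mem_univ l) h
      have hGW : ∀ l', aeval (fun i => Sum.elim x (nwt e G B x w j) (e i)) (G l') =
          aeval (fun i => Sum.elim x y (e i)) (G l') +
            ∑ l'', q l' l'' * (nwt e G B x w j l'' - y l'') := by
        intro l'
        rw [← hq1 l']
        ring
      have hmain : nwt e G B x w j l - (∑ l', algebraMap E A (B l l') *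
          aeval (fun i => Sum.elim x (nwt e G B x w j) (e i)) (G l')) - y l =
          -(∑ l', algebraMap E A (B l l') * aeval (fun i => Sum.elim x y (e i)) (G l')) -
          ∑ l', ∑ l'', algebraMap E A (B l l') *
            ((q l' l'' - algebraMap E A (aeval (fun i => Sum.elim x₀ w (e i))
              (pderiv (e.symm (Sum.inr l'')) (G l')))) * (nwt e G B x w j l'' - y l'')) := by
        have h1 : ∑ l', algebraMap E A (B l l') *
            aeval (fun i => Sum.elim x (nwt e G B x w j) (e i)) (G l') =
            ∑ l', algebraMap E A (B l l') * aeval (fun i => Sum.elim x y (e i)) (G l') +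
            ∑ l', ∑ l'', algebraMap E A (B l l') *
              (q l' l'' * (nwt e G B x w j l'' - y l'')) := by
          rw [← Finset.sum_add_distrib]
          refine Finset.sum_congr rfl fun l' _ => ?_
          rw [hGW l', mul_add, Finset.mul_sum]
        have h2 : nwt e G B x w j l - y l = ∑ l', ∑ l'', algebraMap E A (B l l') *
            (algebraMap E A (aeval (fun i => Sum.elim x₀ w (e i))
              (pderiv (e.symm (Sum.inr l'')) (G l'))) * (nwt e G B x w j l'' - y l'')) := by
          rw [hid, Finset.sum_comm]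
          refine Finset.sum_congr rfl fun l'' _ => ?_
          rw [Finset.sum_mul]
          exact Finset.sum_congr rfl fun l' _ => mul_assoc _ _ _
        have h3 : ∑ l', ∑ l'', algebraMap E A (B l l') *
            ((q l' l'' - algebraMap E A (aeval (fun i => Sum.elim x₀ w (e i))
              (pderiv (e.symm (Sum.inr l'')) (G l')))) * (nwt e G B x w j l'' - y l'')) =
            ∑ l', ∑ l'', algebraMap E A (B l l') *
              (q l' l'' * (nwt e G B x w j l'' - y l'')) -
            ∑ l', ∑ l'', algebraMap E A (B l l') *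
            (algebraMap E A (aeval (fun i => Sum.elim x₀ w (e i))
              (pderiv (e.symm (Sum.inr l'')) (G l'))) * (nwt e G B x w j l'' - y l'')) := by
          rw [← Finset.sum_sub_distrib]
          refine Finset.sum_congr rfl fun l' _ => ?_
          rw [← Finset.sum_sub_distrib]
          refine Finset.sum_congr rfl fun l'' _ => ?_
          ring
        rw [h3, ← h2, h1]
        ring
      rw [hmain]
      have hle2 : 𝔞 ^ (d + 1) ≤ 𝔞 ^ (j + 1 + 1) := Ideal.pow_le_pow_right (by omega)
      refine (𝔞 ^ (j + 1 + 1)).sub_mem ((𝔞 ^ (j + 1 + 1)).neg_mem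
        ((𝔞 ^ (j + 1 + 1)).sum_mem fun l' _ =>
          (𝔞 ^ (j + 1 + 1)).mul_mem_left _ (hle2 (hG l')))) ?_
      refine (𝔞 ^ (j + 1 + 1)).sum_mem fun l' _ => (𝔞 ^ (j + 1 + 1)).sum_mem fun l'' _ =>
        (𝔞 ^ (j + 1 + 1)).mul_mem_left _ ?_
      rw [pow_succ' 𝔞 (j + 1)]
      exact Ideal.mul_mem_mul (hq2 l' l'') (ihj l'')
  exact key j hj l

end VPH
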