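import Pool.Agent.VPH.Defs

set_option autoImplicit false

/-!
# VPH-SlpB: substitution in straight-line computations

If `l` is a computation of `f` and `l'` a computation of the `φ (X i)`, then `l.map φ ++ l'` is a
computation of `φ f` (`isSLP_map`, `av_map`).  Renaming and change of coefficients cost nothing, a shift of
the variables costs `n` operations.
-/

namespace VPH

open MvPolynomial

variable {σ R σ' R' ι : Type} [CommRing R] [CommRing R']

private lemma av_append_right {l l' : List (MvPolynomial σ R)} {f : MvPolynomial σ R} (h : Av l' f) :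
    Av (l ++ l') f := by
  rcases h with h | h | h
  · exact Or.inl (List.mem_append_right _ h)
  · exact Or.inr (Or.inl h)
  · exact Or.inr (Or.inr h)

private lemma av_of_nil {l : List (MvPolynomial σ R)} {f : MvPolynomial σ R} (h : Av [] f) : Av l f := by
  rcases h with h | h | h
  · exact absurd h List.not_mem_nil
  · exact Or.inr (Or.inl h)
  · exact Or.inr (Or.inr h)

private lemma av_map {l : List (MvPolynomial σ R)} {l' : List (MvPolynomial σ' R')}
    (φ : MvPolynomial σ R →+* MvPolynomial σ' R') (hφ : ∀ c : R, ∃ c' : R', φ (C c) = C c')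
    (hX : ∀ i, Av l' (φ (X i))) {a : MvPolynomial σ R} (h : Av l a) : Av (l.map φ ++ l') (φ a) := by
  rcases h with h | ⟨c, rfl⟩ | ⟨i, rfl⟩
  · exact Or.inl (List.mem_append_left _ (List.mem_map_of_mem h))
  · obtain ⟨c', hc'⟩ := hφ c
    exact Or.inr (Or.inl ⟨c', hc'⟩)
  · exact av_append_right (hX i)

private lemma isSLP_map {l : List (MvPolynomial σ R)} {l' : List (MvPolynomial σ' R')}
    (φ : MvPolynomial σ R →+* MvPolynomial σ' R') (hφ : ∀ c : R, ∃ c' : R', φ (C c) = C c')
    (hX : ∀ i, Av l' (φ (X i))) (hl' : IsSLP l') (hl : IsSLP l) : IsSLP (l.map φ ++ l') := by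
  induction l with
  | nil => simpa using hl'
  | cons g l ih =>
    obtain ⟨h1, a, b, ha, hb, hg⟩ := hl
    rw [List.map_cons, List.cons_append]
    refine ⟨ih h1, φ a, φ b, av_map φ hφ hX ha, av_map φ hφ hX hb, ?_⟩
    rcases hg with hg | hg | hg
    · exact Or.inl (by rw [hg, map_add])
    · exact Or.inr (Or.inl (by rw [hg, map_sub]))
    · exact Or.inr (Or.inr (by rw [hg, map_mul]))

/-- a list of sums and differences of constants and variables -/
private lemma isSLP_of_nil {l : List (MvPolynomial σ R)}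
    (h : ∀ g ∈ l, ∃ a b, Av ([] : List (MvPolynomial σ R)) a ∧ Av ([] : List (MvPolynomial σ R)) b ∧
      (g = a + b ∨ g = a - b ∨ g = a * b)) : IsSLP l := by
  induction l with
  | nil => exact trivial
  | cons g l ih =>
    refine ⟨ih fun g' hg' => h g' (List.mem_cons_of_mem _ hg'), ?_⟩
    obtain ⟨a, b, ha, hb, hg⟩ := h g List.mem_cons_self
    exact ⟨a, b, av_of_nil ha, av_of_nil hb, hg⟩

theorem CompF.subst {s t : ℕ} {f : ι → MvPolynomial σ R} (h : CompF s f)
    (φ : MvPolynomial σ R →+* MvPolynomial σ' R') (hφ : ∀ c : R, ∃ c' : R', φ (C c) = C c')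
    (hX : CompF t (fun i => φ (X i))) :
    CompF (s + t) (Sum.elim (fun i => φ (f i)) (fun i : σ => φ (X i))) := by
  obtain ⟨l, hl, hs, hf⟩ := h
  obtain ⟨l', hl', hs', hf'⟩ := hX
  refine ⟨l.map φ ++ l', ?_, isSLP_map φ hφ hf' hs' hs, ?_⟩
  · rw [List.length_append, List.length_map]
    exact Nat.add_le_add hl hl'
  · rintro (i | i)
    · exact av_map φ hφ hf' (hf i)
    · exact av_append_right (hf' i)

theorem Comp.subst {s t : ℕ} {f : MvPolynomial σ R} (h : Comp s f)
    (φ : MvPolynomial σ R →+* MvPolynomial σ' R') (hφ : ∀ c : R, ∃ c' : R', φ (C c) = C c')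
    (hX : CompF t (fun i => φ (X i))) : Comp (s + t) (φ f) := by
  obtain ⟨l, hl, hs, hf⟩ := h
  obtain ⟨l', hl', hs', hf'⟩ := hX
  refine ⟨l.map φ ++ l', ?_, isSLP_map φ hφ hf' hs' hs, av_map φ hφ hf' hf⟩
  rw [List.length_append, List.length_map]
  exact Nat.add_le_add hl hl'

theorem Comp.rename {s : ℕ} {f : MvPolynomial σ R} (h : Comp s f) (κ : σ → σ') :
    Comp s (MvPolynomial.rename κ f) := by
  refine h.subst (t := 0) (MvPolynomial.rename κ : MvPolynomial σ R →ₐ[R] MvPolynomial σ' R).toRingHom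
    (fun c => ⟨c, ?_⟩) ⟨[], le_rfl, trivial, fun i => Or.inr (Or.inr ⟨κ i, ?_⟩)⟩
  · exact MvPolynomial.rename_C κ c
  · exact MvPolynomial.rename_X κ i

theorem Comp.map {s : ℕ} {f : MvPolynomial σ R} (h : Comp s f) (φ : R →+* R') :
    Comp s (MvPolynomial.map φ f) := by
  refine h.subst (t := 0) (MvPolynomial.map φ) (fun c => ⟨φ c, ?_⟩)
    ⟨[], le_rfl, trivial, fun i => Or.inr (Or.inr ⟨i, ?_⟩)⟩
  · exact MvPolynomial.map_C φ c
  · exact MvPolynomial.map_X φ i

theorem Comp.shift {s n : ℕ} {f : MvPolynomial (Fin n) R} (h : Comp s f) (c : Fin n → R) :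
    Comp (s + n) (aeval (fun i => X i - C (c i)) f) := by
  refine h.subst (aeval (fun i => X i - C (c i)) : MvPolynomial (Fin n) R →ₐ[R] MvPolynomial (Fin n) R).toRingHom
    (fun a => ⟨a, ?_⟩) ?_
  · exact MvPolynomial.aeval_C _ a
  · refine ⟨List.ofFn (fun i : Fin n => (X i - C (c i) : MvPolynomial (Fin n) R)), ?_, ?_, ?_⟩
    · rw [List.length_ofFn]
    · refine isSLP_of_nil fun g hg => ?_
      obtain ⟨i, rfl⟩ := (List.mem_ofFn' _ _).1 hg
      exact ⟨X i, C (c i), Or.inr (Or.inr ⟨i, rfl⟩), Or.inr (Or.inl ⟨c i, rfl⟩), Or.inr (Or.inl rfl)⟩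
    · intro i
      refine Or.inl ((List.mem_ofFn' _ _).2 ⟨i, ?_⟩)
      exact (MvPolynomial.aeval_X (fun i => (X i - C (c i) : MvPolynomial (Fin n) R)) i).symm

/-- the variables shifted by constants, in `n` operations -/
theorem compF_shift {n : ℕ} (c : Fin n → R) :
    CompF n (fun i : Fin n => (X i + C (c i) : MvPolynomial (Fin n) R)) := by
  refine ⟨List.ofFn (fun i : Fin n => (X i + C (c i) : MvPolynomial (Fin n) R)), ?_, ?_, ?_⟩
  · rw [List.length_ofFn]
  · refine isSLP_of_nil fun g hg => ?_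
    obtain ⟨i, rfl⟩ := (List.mem_ofFn' _ _).1 hg
    exact ⟨X i, C (c i), Or.inr (Or.inr ⟨i, rfl⟩), Or.inr (Or.inl ⟨c i, rfl⟩), Or.inl rfl⟩
  · intro i
    exact Or.inl ((List.mem_ofFn' _ _).2 ⟨i, rfl⟩)

end VPH
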