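import Pool.Agent.VPH.SlpA
import Pool.Agent.VPH.SlpB

set_option autoImplicit false

/-!
# VPH-NwtB: the cost of the Newton iteration
-/

namespace VPH

open MvPolynomial

theorem compF_nwt {E : Type} [Field E] {n g m s : ℕ} (e : Fin m ≃ Fin n ⊕ Fin g)
    (G : Fin g → MvPolynomial (Fin m) E) (hG : ∀ l, Comp s (G l)) (B : Matrix (Fin g) (Fin g) E)
    (x₀ : Fin n → E) (w : Fin g → E) (j : ℕ) :
    CompF (n + j * (g * s + 2 * g ^ 2 + g))
      (Sum.elim (fun i : Fin n => (X i + C (x₀ i) : MvPolynomial (Fin n) E))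
        (nwt e G B (fun i : Fin n => (X i + C (x₀ i) : MvPolynomial (Fin n) E)) w j)) := by
  induction j with
  | zero =>
    have h1 : CompF (g * 0) (fun l : Fin g => (C (w l) : MvPolynomial (Fin n) E)) :=
      CompF.of_comp fun l => comp_C (w l)
    have h2 := CompF.elim (compF_shift x₀) h1
    rw [Nat.mul_zero, Nat.add_zero] at h2
    rw [Nat.zero_mul, Nat.add_zero]
    exact h2
  | succ j ih =>
    set x : Fin n → MvPolynomial (Fin n) E := fun i => X i + C (x₀ i) with hx
    have hcost : n + (j + 1) * (g * s + 2 * g ^ 2 + g) =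
        g * s + (n + j * (g * s + 2 * g ^ 2 + g)) + g * (2 * g) + g := by ring
    rw [hcost]
    generalize n + j * (g * s + 2 * g ^ 2 + g) = t at ih
    let φ : MvPolynomial (Fin m) E →+* MvPolynomial (Fin n) E :=
      (aeval (fun i => Sum.elim x (nwt e G B x w j) (e i)) : MvPolynomial (Fin m) E →ₐ[E] MvPolynomial (Fin n) E).toRingHom
    have hφX : ∀ i, φ (X i) = Sum.elim x (nwt e G B x w j) (e i) := fun i => aeval_X _ i
    have hφC : ∀ c : E, φ (C c) = C c := fun c => by
      show aeval (fun i => Sum.elim x (nwt e G B x w j) (e i)) (C c) = C c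
      rw [aeval_C]
      rfl
    have hX : CompF t (fun i => φ (X i)) := by
      have h1 := CompF.comp ih e
      have h2 : (fun i => φ (X i)) = Sum.elim x (nwt e G B x w j) ∘ e := funext hφX
      rw [h2]
      exact h1
    have h1 := CompF.subst (CompF.of_comp hG) φ (fun c => ⟨c, hφC c⟩) hX
    have h2 := CompF.lin h1 (Sum.inl : Fin g → Fin g ⊕ Fin m) (fun l l' => B l l')
    have h3 := CompF.subs h2 (fun l : Fin g => Sum.inl (Sum.inr (e.symm (Sum.inr l)))) (fun l => Sum.inr l)
    have h4 := CompF.comp h3 (Sum.elim (fun i : Fin n => Sum.inl (Sum.inl (Sum.inr (e.symm (Sum.inl i)))))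
      (fun l : Fin g => Sum.inr l))
    convert h4 using 1
    funext y
    rcases y with i | l
    · show x i = φ (X (e.symm (Sum.inl i)))
      rw [hφX, Equiv.apply_symm_apply]
      rfl
    · show nwt e G B x w (j + 1) l = φ (X (e.symm (Sum.inr l))) - ∑ l', C (B l l') * φ (G l')
      rw [hφX, Equiv.apply_symm_apply]
      rfl

end VPH
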