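import Pool.Agent.VPH.Defs

set_option autoImplicit false

/-!
# VPH-RkA: transcendence degree of points, basic facts
-/

namespace VPH

open MvPolynomial

variable (k : Type) [Field k] {F : Type} [Field F] [Algebra k F] {N N' : ℕ}

open AlgebraicIndependent in
/-- a transcendence basis among the coordinates, with its cardinality -/
private theorem rka_basis (h : Fin N → F) :
    ∃ (n : ℕ) (κ : Fin n → Fin N), Function.Injective κ ∧ AlgebraicIndependent k (h ∘ κ) ∧
      (∀ j, IsAlgebraic (Algebra.adjoin k (Set.range (h ∘ κ))) (h j)) ∧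
      Algebra.trdeg k (Algebra.adjoin k (Set.range h)) = n := by
  obtain ⟨A, hA⟩ : ∃ A : Subalgebra k F, A = Algebra.adjoin k (Set.range h) := ⟨_, rfl⟩
  rw [← hA]
  have hmem : ∀ j, h j ∈ A := fun j => by
    rw [hA]
    exact Algebra.subset_adjoin ⟨j, rfl⟩
  obtain ⟨h', hh'⟩ : ∃ h' : Fin N → A, ∀ j, ((h' j : A) : F) = h j := ⟨fun j => ⟨h j, hmem j⟩, fun _ => rfl⟩
  have htop : Algebra.adjoin k (Set.range h') = ⊤ := by
    refine Subalgebra.map_injective (f := A.val) Subtype.val_injective ?_
    rw [AlgHom.map_adjoin, Algebra.map_top, Subalgebra.range_val, ← Set.range_comp]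
    have h1 : (A.val : A → F) ∘ h' = h := funext fun j => hh' j
    rw [h1, ← hA]
  have halg : Algebra.IsAlgebraic (Algebra.adjoin k (Set.range h')) A :=
    ⟨fun a => isAlgebraic_algebraMap (⟨a, by rw [htop]; exact Algebra.mem_top⟩ : Algebra.adjoin k (Set.range h'))⟩
  obtain ⟨t, ht, htb⟩ := exists_isTranscendenceBasis_subset (R := k) (A := A) (Set.range h')
  have hfin : Finite t := (Set.finite_range h').subset ht
  have hcard := htb.cardinalMk_eq_trdeg
  obtain ⟨n, ⟨e⟩⟩ := Finite.exists_equiv_fin t
  have hex : ∀ i : Fin n, ∃ j, h' j = (e.symm i).1 := fun i => ht (e.symm i).2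
  choose κ hκ using hex
  have hind : AlgebraicIndependent k (h' ∘ κ) := by
    have h1 := htb.1.comp e.symm e.symm.injective
    have h2 : h' ∘ κ = (fun x : t => x.1) ∘ e.symm := funext hκ
    rw [h2]
    exact h1
  have hrange : Set.range (h' ∘ κ) = Set.range (Subtype.val : t → A) := by
    have h2 : h' ∘ κ = (Subtype.val : t → A) ∘ e.symm := funext hκ
    rw [h2]
    exact e.symm.surjective.range_comp _
  refine ⟨n, κ, ?_, ?_, fun j => ?_, ?_⟩
  · intro i i' hii
    have h1 : (e.symm i).1 = (e.symm i').1 := by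
      rw [← hκ, ← hκ, hii]
    exact e.symm.injective (Subtype.ext h1)
  · have h1 := hind.map' (f := A.val) Subtype.val_injective
    have h2 : h ∘ κ = A.val ∘ (h' ∘ κ) := funext fun i => (hh' (κ i)).symm
    rw [h2]
    exact h1
  · by_contra hcon
    have h1 := hind.map' (f := A.val) Subtype.val_injective
    have h2 : h ∘ κ = A.val ∘ (h' ∘ κ) := funext fun i => (hh' (κ i)).symm
    rw [h2] at hcon
    have h3 := (h1.option_iff_transcendental (h j)).2 hcon
    have h4 : (fun o : Option (Fin n) => o.elim (h j) (A.val ∘ (h' ∘ κ))) =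
        A.val ∘ (fun o : Option (Fin n) => o.elim (h' j) (h' ∘ κ)) := by
      funext o
      rcases o with _ | o
      · exact (hh' j).symm
      · rfl
    rw [h4] at h3
    have h5 := AlgebraicIndependent.of_comp A.val h3
    have h6 := (hind.option_iff_transcendental (h' j)).1 h5
    rw [hrange] at h6
    exact h6 (htb.isAlgebraic.isAlgebraic (h' j))
  · rw [← hcard, Cardinal.mk_congr e, Cardinal.mk_fin]

private theorem rka_tr {n : ℕ} (h : Fin N → F) (hn : Algebra.trdeg k (Algebra.adjoin k (Set.range h)) = n) :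
    tr k h = n := by
  unfold tr
  rw [hn]
  exact Cardinal.toNat_natCast n

theorem tr_le (h : Fin N → F) : tr k h ≤ N := by
  obtain ⟨n, κ, hκ, -, -, hn⟩ := rka_basis k h
  rw [rka_tr k h hn]
  have := Fintype.card_le_of_injective κ hκ
  rwa [Fintype.card_fin, Fintype.card_fin] at this

/-- `tr` is the transcendence degree of the algebra (no loss in `toNat`) -/
theorem tr_cast (h : Fin N → F) :
    (tr k h : Cardinal.{0}) = Algebra.trdeg k (Algebra.adjoin k (Set.range h)) := by
  obtain ⟨n, κ, hκ, -, -, hn⟩ := rka_basis k h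
  rw [rka_tr k h hn, hn]

/-- a transcendence basis among the coordinates -/
private theorem rka_ex (h : Fin N → F) :
    ∃ κ : Fin (tr k h) → Fin N, Function.Injective κ ∧ AlgebraicIndependent k (h ∘ κ) ∧
      ∀ j, IsAlgebraic (Algebra.adjoin k (Set.range (h ∘ κ))) (h j) := by
  obtain ⟨n, κ, h1, h2, h3, hn⟩ := rka_basis k h
  obtain rfl := rka_tr k h hn
  exact ⟨κ, h1, h2, h3⟩

open AlgebraicIndependent IntermediateField.algebraAdjoinAdjoin in
private theorem rka_card (h : Fin N → F) (y : Fin N' → F) (hy : AlgebraicIndependent k y)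
    (H : ∀ j, IsAlgebraic (IntermediateField.adjoin k (Set.range h)) (y j)) : N' ≤ tr k h := by
  obtain ⟨κ, h1, h2, h3⟩ := rka_ex k h
  have hs : (matroid k F).IsBasis (Set.range (h ∘ κ)) (Set.range h) := by
    rw [matroid_isBasis_iff]
    refine ⟨?_, Set.range_comp_subset_range _ _, ?_⟩
    · exact h2.to_subtype_range
    · rintro _ ⟨j, rfl⟩
      exact h3 j
  have hyi : (matroid k F).Indep (Set.range y) := hy.to_subtype_range
  have hsub : Set.range y ⊆ (matroid k F).closure (Set.range h) := by
    rintro _ ⟨j, rfl⟩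
    rw [matroid_closure_eq]
    exact (IsFractionRing.isAlgebraic_iff (Algebra.adjoin k (Set.range h))
      (IntermediateField.adjoin k (Set.range h)) F).2 (H j)
  have h4 := hyi.encard_le_eRk_of_subset hsub
  rw [Matroid.eRk_closure_eq, ← hs.encard_eq_eRk] at h4
  have h5 : (Set.range y).encard = N' := by
    rw [← Set.image_univ, hy.injective.encard_image, Set.encard_univ]
    simp
  have h6 : (Set.range (h ∘ κ)).encard = tr k h := by
    rw [← Set.image_univ, h2.injective.encard_image, Set.encard_univ]
    simp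
  rw [h5, h6] at h4
  exact_mod_cast h4

theorem tr_le_of_alg (h : Fin N → F) (h' : Fin N' → F)
    (H : ∀ j, IsAlgebraic (IntermediateField.adjoin k (Set.range h')) (h j)) :
    tr k h ≤ tr k h' := by
  obtain ⟨κ, h1, h2, h3⟩ := rka_ex k h
  exact rka_card k h' (h ∘ κ) h2 fun j => H (κ j)

theorem tr_le_of_mem (h : Fin N → F) (h' : Fin N' → F)
    (H : ∀ j, h j ∈ IntermediateField.adjoin k (Set.range h')) :
    tr k h ≤ tr k h' :=
  tr_le_of_alg k h h' fun j =>
    isAlgebraic_algebraMap (⟨h j, H j⟩ : IntermediateField.adjoin k (Set.range h'))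

theorem tr_comp_le (h : Fin N → F) (κ : Fin N' → Fin N) : tr k (h ∘ κ) ≤ tr k h :=
  tr_le_of_mem k (h ∘ κ) h fun j => IntermediateField.subset_adjoin _ _ ⟨κ j, rfl⟩

theorem algInd_iff (h : Fin N → F) : AlgebraicIndependent k h ↔ tr k h = N := by
  constructor
  · intro hh
    exact le_antisymm (tr_le k h) (rka_card k h h hh fun j =>
      isAlgebraic_algebraMap (⟨h j, IntermediateField.subset_adjoin _ _ ⟨j, rfl⟩⟩ :
        IntermediateField.adjoin k (Set.range h)))
  · intro hN
    obtain ⟨κ, h1, h2, -⟩ := rka_ex k h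
    have h3 : Function.Bijective κ := by
      rw [Fintype.bijective_iff_injective_and_card]
      exact ⟨h1, by rw [Fintype.card_fin, Fintype.card_fin, hN]⟩
    have h4 := h2.comp (Equiv.ofBijective κ h3).symm (Equiv.injective _)
    have h5 : (h ∘ κ) ∘ (Equiv.ofBijective κ h3).symm = h := by
      funext j
      show h (κ ((Equiv.ofBijective κ h3).symm j)) = h j
      rw [show κ ((Equiv.ofBijective κ h3).symm j) = j from (Equiv.ofBijective κ h3).apply_symm_apply j]
    rwa [h5] at h4

/-- a transcendence basis among the coordinates -/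
theorem exists_basis (h : Fin N → F) :
    ∃ κ : Fin (tr k h) → Fin N, Function.Injective κ ∧ AlgebraicIndependent k (h ∘ κ) ∧
      ∀ j, IsAlgebraic (Algebra.adjoin k (Set.range (h ∘ κ))) (h j) := rka_ex k h

/-- an algebraically independent family of elements algebraic over `k(h)` has at most `tr k h` members -/
theorem card_le_tr (h : Fin N → F) (y : Fin N' → F) (hy : AlgebraicIndependent k y)
    (H : ∀ j, IsAlgebraic (IntermediateField.adjoin k (Set.range h)) (y j)) : N' ≤ tr k h :=
  rka_card k h y hy H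

end VPH
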