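import Pool.Agent.VPH.Defs

set_option autoImplicit false

/-!
# VPH-SlpA: basic rules for straight-line computations

Plan. `IsSLP (g :: l)` only looks at `l`, so for `IsSLP l`, `IsSLP l'` induction on `l` gives
`IsSLP (l ++ l')` (each `Av l a` becomes `Av (l ++ l') a`). Everything else follows: e.g. for
`Comp.add` take the list `(f + g) :: (l ++ l')`. `CompF.of_comp`: induction on `r`, `Fin.cases` or
`List.flatten`. `CompF.lin`: for every `l` first the `r` products `C (c l i) * f (e i)`, then the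
partial sums (at most `r`), so at most `2 * r` operations for each `l`.
-/

namespace VPH

open MvPolynomial

variable {σ R ι ι' : Type} [CommRing R]

theorem Av.mono {l l' : List (MvPolynomial σ R)} {f : MvPolynomial σ R} (h : Av l f)
    (hl : ∀ x ∈ l, x ∈ l') : Av l' f := by
  rcases h with h | h
  · exact Or.inl (hl _ h)
  · exact Or.inr h

theorem IsSLP.append {l l' : List (MvPolynomial σ R)} (h : IsSLP l) (h' : IsSLP l') :
    IsSLP (l ++ l') := by
  induction l with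
  | nil => exact h'
  | cons g l ih =>
    obtain ⟨h1, a, b, ha, hb, hg⟩ := h
    exact ⟨ih h1, a, b, ha.mono fun x hx => List.mem_append_left _ hx,
      hb.mono fun x hx => List.mem_append_left _ hx, hg⟩

theorem Comp.mono {s s' : ℕ} {f : MvPolynomial σ R} (h : Comp s f) (hs : s ≤ s') : Comp s' f := by
  obtain ⟨l, h1, h2⟩ := h
  exact ⟨l, h1.trans hs, h2⟩

theorem CompF.mono {s s' : ℕ} {f : ι → MvPolynomial σ R} (h : CompF s f) (hs : s ≤ s') :
    CompF s' f := by
  obtain ⟨l, h1, h2⟩ := h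
  exact ⟨l, h1.trans hs, h2⟩

theorem comp_C (c : R) : Comp 0 (C c : MvPolynomial σ R) := 
  ⟨[], le_rfl, trivial, Or.inr (Or.inl ⟨c, rfl⟩)⟩

theorem comp_X (i : σ) : Comp 0 (X i : MvPolynomial σ R) := 
  ⟨[], le_rfl, trivial, Or.inr (Or.inr ⟨i, rfl⟩)⟩

private theorem SlpA_op {s t : ℕ} {f g h : MvPolynomial σ R} (hf : Comp s f) (hg : Comp t g)
    (hh : h = f + g ∨ h = f - g ∨ h = f * g) : Comp (s + t + 1) h := by
  obtain ⟨l, h1, h2, h3⟩ := hf
  obtain ⟨l', h1', h2', h3'⟩ := hg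
  refine ⟨h :: (l ++ l'), ?_, ⟨h2.append h2', f, g, h3.mono fun x hx => List.mem_append_left _ hx,
    h3'.mono fun x hx => List.mem_append_right _ hx, hh⟩, Or.inl List.mem_cons_self⟩
  rw [List.length_cons, List.length_append]
  omega

theorem Comp.add {s t : ℕ} {f g : MvPolynomial σ R} (hf : Comp s f) (hg : Comp t g) :
    Comp (s + t + 1) (f + g) := 
  SlpA_op hf hg (Or.inl rfl)

theorem Comp.sub {s t : ℕ} {f g : MvPolynomial σ R} (hf : Comp s f) (hg : Comp t g) :
    Comp (s + t + 1) (f - g) := 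
  SlpA_op hf hg (Or.inr (Or.inl rfl))

theorem Comp.mul {s t : ℕ} {f g : MvPolynomial σ R} (hf : Comp s f) (hg : Comp t g) :
    Comp (s + t + 1) (f * g) := 
  SlpA_op hf hg (Or.inr (Or.inr rfl))

theorem CompF.apply {s : ℕ} {f : ι → MvPolynomial σ R} (h : CompF s f) (i : ι) : Comp s (f i) := by
  obtain ⟨l, h1, h2, h3⟩ := h
  exact ⟨l, h1, h2, h3 i⟩

theorem CompF.comp {s : ℕ} {f : ι → MvPolynomial σ R} (h : CompF s f) (e : ι' → ι) :
    CompF s (f ∘ e) := by
  obtain ⟨l, h1, h2, h3⟩ := h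
  exact ⟨l, h1, h2, fun i => h3 (e i)⟩

theorem CompF.elim {s t : ℕ} {f : ι → MvPolynomial σ R} {f' : ι' → MvPolynomial σ R}
    (h : CompF s f) (h' : CompF t f') : CompF (s + t) (Sum.elim f f') := by
  obtain ⟨l, h1, h2, h3⟩ := h
  obtain ⟨l', h1', h2', h3'⟩ := h'
  refine ⟨l ++ l', ?_, h2.append h2', ?_⟩
  · rw [List.length_append]
    omega
  · rintro (i | i)
    · exact (h3 i).mono fun x hx => List.mem_append_left _ hx
    · exact (h3' i).mono fun x hx => List.mem_append_right _ hx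

/-- a family of polynomials, one after the other -/
private theorem SlpA_all {K r : ℕ} {l : List (MvPolynomial σ R)} (hl : IsSLP l)
    (F : Fin r → MvPolynomial σ R)
    (H : ∀ (k : Fin r) (l' : List (MvPolynomial σ R)), IsSLP l' → (∀ x ∈ l, x ∈ l') →
      ∃ l'' : List (MvPolynomial σ R), l''.length ≤ l'.length + K ∧ IsSLP l'' ∧ (∀ x ∈ l', x ∈ l'') ∧ Av l'' (F k)) :
    ∃ l' : List (MvPolynomial σ R), l'.length ≤ l.length + r * K ∧ IsSLP l' ∧ (∀ x ∈ l, x ∈ l') ∧
      ∀ k, Av l' (F k) := by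
  induction r with
  | zero => exact ⟨l, by omega, hl, fun x hx => hx, fun k => k.elim0⟩
  | succ r ih =>
    obtain ⟨l1, h1, h2, h3, h4⟩ := ih (fun k => F k.castSucc) (fun k => H k.castSucc)
    obtain ⟨l2, h5, h6, h7, h8⟩ := H (Fin.last r) l1 h2 h3
    refine ⟨l2, ?_, h6, fun x hx => h7 x (h3 x hx), fun k => ?_⟩
    · rw [Nat.succ_mul]
      omega
    · refine Fin.lastCases h8 (fun k => ?_) k
      exact (h4 k).mono h7

private theorem SlpA_lin {r : ℕ} {l : List (MvPolynomial σ R)} (hl : IsSLP l)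
    (f : Fin r → MvPolynomial σ R) (hf : ∀ i, Av l (f i)) (c : Fin r → R) :
    ∃ l' : List (MvPolynomial σ R), l'.length ≤ l.length + 2 * r ∧ IsSLP l' ∧ (∀ x ∈ l, x ∈ l') ∧
      Av l' (∑ i, C (c i) * f i) := by
  induction r with
  | zero =>
    refine ⟨l, by omega, hl, fun x hx => hx, Or.inr (Or.inl ⟨0, ?_⟩)⟩
    rw [Finset.univ_eq_empty, Finset.sum_empty, C_0]
  | succ r ih =>
    obtain ⟨l1, h1, h2, h3, h4⟩ := ih (fun i => f i.castSucc) (fun i => hf i.castSucc) (fun i => c i.castSucc)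
    refine ⟨(∑ i, C (c i) * f i) :: (C (c (Fin.last r)) * f (Fin.last r)) :: l1, ?_, ⟨⟨h2, _, _,
      Or.inr (Or.inl ⟨_, rfl⟩), (hf (Fin.last r)).mono h3, Or.inr (Or.inr rfl)⟩, _, _,
      h4.mono fun x hx => List.mem_cons_of_mem _ hx, Or.inl List.mem_cons_self, Or.inl ?_⟩, ?_, Or.inl List.mem_cons_self⟩
    · rw [List.length_cons, List.length_cons]
      omega
    · rw [Fin.sum_univ_castSucc]
    · intro x hx
      exact List.mem_cons_of_mem _ (List.mem_cons_of_mem _ (h3 x hx))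

theorem CompF.of_comp {s r : ℕ} {f : Fin r → MvPolynomial σ R} (h : ∀ i, Comp s (f i)) :
    CompF (r * s) f := by
  obtain ⟨l, h1, h2, _, h4⟩ := SlpA_all (K := s) (l := []) trivial f (fun k l' hl' _ => by
    obtain ⟨m, h1, h2, h3⟩ := h k
    refine ⟨m ++ l', ?_, h2.append hl', fun x hx => List.mem_append_right _ hx,
      h3.mono fun x hx => List.mem_append_left _ hx⟩
    rw [List.length_append]
    omega)
  refine ⟨l, ?_, h2, h4⟩
  simpa using h1

/-- linear combinations of the `f (e i)` -/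
theorem CompF.lin {s r r' : ℕ} {f : ι → MvPolynomial σ R} (h : CompF s f) (e : Fin r → ι)
    (c : Fin r' → Fin r → R) :
    CompF (s + r' * (2 * r)) (Sum.elim f (fun l : Fin r' => ∑ i, C (c l i) * f (e i))) := by
  obtain ⟨l, h1, h2, h3⟩ := h
  obtain ⟨l1, h5, h6, h7, h8⟩ := SlpA_all (K := 2 * r) h2 (fun l : Fin r' => ∑ i, C (c l i) * f (e i))
    (fun k l' hl' hll' => SlpA_lin hl' (fun i => f (e i)) (fun i => (h3 (e i)).mono hll') (c k))
  refine ⟨l1, by omega, h6, ?_⟩
  rintro (i | i)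
  · exact (h3 i).mono h7
  · exact h8 i

/-- differences -/
theorem CompF.subs {s r : ℕ} {f : ι → MvPolynomial σ R} (h : CompF s f) (e e' : Fin r → ι) :
    CompF (s + r) (Sum.elim f (fun l : Fin r => f (e l) - f (e' l))) := by
  obtain ⟨l, h1, h2, h3⟩ := h
  obtain ⟨l1, h5, h6, h7, h8⟩ := SlpA_all (K := 1) h2 (fun l : Fin r => f (e l) - f (e' l))
    (fun k l' hl' hll' => ⟨(f (e k) - f (e' k)) :: l', le_rfl, ⟨hl', _, _, (h3 (e k)).mono hll',
      (h3 (e' k)).mono hll', Or.inr (Or.inl rfl)⟩, fun x hx => List.mem_cons_of_mem _ hx, Or.inl List.mem_cons_self⟩)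
  refine ⟨l1, by omega, h6, ?_⟩
  rintro (i | i)
  · exact (h3 i).mono h7
  · exact h8 i

end VPH
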