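import Pool.Agent.VPH.Defs
import Pool.Agent.VPH.DerA
import Pool.Agent.VPH.SlpA
import Pool.Agent.VPH.SlpB

set_option autoImplicit false

/-!
# VPH-StgB: one more equation

Plan. `chain`: `MvPolynomial.induction_on` does not preserve the hypothesis on coefficients; prove first the
general formula `D' (aeval c p) = ∑_t D' (coeff t p) * c ^ t + ∑_l ...` or write `p` as the sum of monomials, or
use that the polynomials with coefficients in the subfield `K` are the image of `MvPolynomial (Fin m) K` and
induct there. `adjoin_eqs`: (1) complexity: `Comp.rename`, `Comp.map`, `Comp.sub`, `comp_C`. (2) coefficients: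
those of `rename ι (map p)` are in `K` (they are `algebraMap ℂ E` of something or `0`), those of `C e` in the closure.
(3) `aeval c (rename ι (map p)) = aeval (c ∘ ι) p = e`. (4) independence: let `S` be a derivation of `F` over `k` with
`S ε = 1` (`der_one`), `S'` a lift; `v = (S' (c l))_l` is in the kernel of the old gradients (`chain` and `aeval c (G i) = 0`),
and the product of the new gradient with `v` is `S' e`, whose residue is `S ε = 1`, so it is not `0`. A
relation `∑ λ_i grad_i + λ grad_new = 0` multiplied with `v` gives `λ = 0`.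
-/

namespace VPH

open MvPolynomial

private theorem chain_aux {E : Type} [Field E] {m : ℕ} (D' : Derivation ℤ E E) (K : Subfield E)
    (hK : ∀ x ∈ K, D' x = 0) (c : Fin m → E) (p : MvPolynomial (Fin m) K) :
    D' (aeval c (map K.subtype p)) = ∑ l, aeval c (pderiv l (map K.subtype p)) * D' (c l) := by
  classical
  induction p using MvPolynomial.induction_on with
  | C a =>
    rw [map_C, aeval_C]
    simp only [pderiv_C, map_zero, zero_mul, Finset.sum_const_zero]
    exact hK _ a.2
  | add p q hp hq =>
    simp only [map_add, hp, hq, add_mul, Finset.sum_add_distrib]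
  | mul_X p i hp =>
    simp only [map_mul, map_X, aeval_X, Derivation.leibniz, hp, smul_eq_mul]
    have h1 : ∀ l : Fin m, pderiv l (X i : MvPolynomial (Fin m) E) = if l = i then 1 else 0 := by
      intro l
      by_cases h : l = i
      · subst h; rw [if_pos rfl, pderiv_X_self]
      · rw [if_neg h, pderiv_X_of_ne (Ne.symm h)]
    simp only [h1, map_add, map_mul, aeval_X, add_mul, Finset.sum_add_distrib]
    rw [Finset.mul_sum]
    congr 1
    · rw [Finset.sum_eq_single i]
      · rw [if_pos rfl, map_one, mul_one]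
      · intro l _ hl
        rw [if_neg hl, map_zero, mul_zero, zero_mul]
      · intro h; exact absurd (Finset.mem_univ i) h
    · exact Finset.sum_congr rfl fun l _ => by ring

theorem chain {E : Type} [Field E] {m : ℕ} (D' : Derivation ℤ E E) (K : Subfield E)
    (hK : ∀ x ∈ K, D' x = 0) (c : Fin m → E) (p : MvPolynomial (Fin m) E)
    (hp : ∀ t, coeff t p ∈ K) :
    D' (aeval c p) = ∑ l, aeval c (pderiv l p) * D' (c l) := by
  have h : p ∈ Set.range (map K.subtype : MvPolynomial (Fin m) K →+* MvPolynomial (Fin m) E) := by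
    rw [mem_range_map_iff_coeffs_subset]
    intro x hx
    obtain ⟨t, _, rfl⟩ := mem_coeffs_iff.1 hx
    exact ⟨⟨_, hp t⟩, rfl⟩
  obtain ⟨q, rfl⟩ := h
  exact chain_aux D' K hK c q

/-- the value of a polynomial over `ℂ` at elements of `O` is in `O`, its residue is the value at the
residues -/
theorem aeval_mem {F E : Type} [Field F] [Algebra ℂ F] [Field E] [Algebra ℂ E] (O : Subring E)
    (ρ : O →+* F)
    (base : ∀ c : ℂ, ∃ hc : algebraMap ℂ E c ∈ O, ρ ⟨algebraMap ℂ E c, hc⟩ = algebraMap ℂ F c)
    {N : ℕ} (b : Fin N → O) (p : MvPolynomial (Fin N) ℂ) :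
    ∃ h : aeval (fun j => (b j : E)) p ∈ O, ρ ⟨_, h⟩ = aeval (fun j => ρ (b j)) p := by
  induction p using MvPolynomial.induction_on with
  | C a =>
    obtain ⟨h1, h2⟩ := base a
    refine ⟨by rw [aeval_C]; exact h1, ?_⟩
    simp only [aeval_C]
    exact h2
  | add p q hp hq =>
    obtain ⟨h1, h2⟩ := hp
    obtain ⟨h3, h4⟩ := hq
    refine ⟨by rw [map_add]; exact O.add_mem h1 h3, ?_⟩
    have e : (⟨aeval (fun j => (b j : E)) (p + q), by rw [map_add]; exact O.add_mem h1 h3⟩ : O) =
        ⟨_, h1⟩ + ⟨_, h3⟩ := Subtype.ext (by simp)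
    rw [e, map_add, map_add, h2, h4]
  | mul_X p i hp =>
    obtain ⟨h1, h2⟩ := hp
    refine ⟨by rw [map_mul, aeval_X]; exact O.mul_mem h1 (b i).2, ?_⟩
    have e : (⟨aeval (fun j => (b j : E)) (p * X i), by rw [map_mul, aeval_X]; exact O.mul_mem h1 (b i).2⟩ : O) =
        ⟨_, h1⟩ * b i := Subtype.ext (by simp)
    rw [e, map_mul, map_mul, h2, aeval_X]

theorem adjoin_eqs {k F E : Type} [Field k] [Field F] [Algebra ℂ F] [Algebra k F] [Field E]
    [Algebra ℂ E] [CharZero k] (O : Subring E) (ρ : O →+* F) (K : Subfield E)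
    (hS : Stg k F E O ρ K) {m g N s s' : ℕ} (c : Fin m → E) (ι : Fin N → Fin m)
    (hc : ∀ j, c (ι j) ∈ O) (G : Fin g → MvPolynomial (Fin m) E) (hG : ∀ i, Comp s (G i))
    (hGK : ∀ i t, coeff t (G i) ∈ K) (hG0 : ∀ i, aeval c (G i) = 0)
    (hGi : LinearIndependent E (fun (i : Fin g) (l : Fin m) => aeval c (pderiv l (G i))))
    (p : MvPolynomial (Fin N) ℂ) (hp : Comp s' p) (hs : s' + 1 ≤ s)
    (hε : Transcendental k (aeval (fun j => ρ ⟨c (ι j), hc j⟩) p)) :
    let e : E := aeval (fun j => c (ι j)) p
    (∀ i, Comp s (newG G ι p e i)) ∧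
      (∀ i t, coeff t (newG G ι p e i) ∈ Subfield.closure ((K : Set E) ∪ {e})) ∧
      (∀ i, aeval c (newG G ι p e i) = 0) ∧
      LinearIndependent E
        (fun (i : Fin (g + 1)) (l : Fin m) => aeval c (pderiv l (newG G ι p e i))) := by
  intro e
  have hlast : newG G ι p e (Fin.last g) = rename ι (map (algebraMap ℂ E) p) - C e := by
    simp [newG]
  have hcast : ∀ i : Fin g, newG G ι p e i.castSucc = G i := by
    intro i; simp [newG]
  have hcoefK : ∀ t, coeff t (rename ι (map (algebraMap ℂ E) p)) ∈ K := by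
    intro t
    rw [← map_rename, coeff_map]
    exact hS.baseK _
  have haev : aeval c (rename ι (map (algebraMap ℂ E) p)) = e := by
    rw [aeval_rename, aeval_map_algebraMap]
    rfl
  refine ⟨fun i => ?_, fun i t => ?_, fun i => ?_, ?_⟩
  · refine Fin.lastCases ?_ (fun i => ?_) i
    · rw [hlast]
      exact (((hp.map (algebraMap ℂ E)).rename ι).sub (comp_C e)).mono (by omega)
    · rw [hcast]; exact hG i
  · refine Fin.lastCases ?_ (fun i => ?_) i
    · rw [hlast, coeff_sub]
      refine sub_mem (Subfield.subset_closure (Or.inl (hcoefK t))) ?_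
      rw [coeff_C]
      split_ifs
      · exact Subfield.subset_closure (Or.inr rfl)
      · exact zero_mem _
    · rw [hcast]
      exact Subfield.subset_closure (Or.inl (hGK i t))
  · refine Fin.lastCases ?_ (fun i => ?_) i
    · rw [hlast, map_sub, haev, aeval_C]
      exact sub_self _
    · rw [hcast]; exact hG0 i
  · obtain ⟨S, hSε⟩ := der_one (k := k) _ hε
    obtain ⟨S', hS'K, hS'⟩ := hS.lift S
    obtain ⟨he, heρ⟩ := aeval_mem O ρ hS.base (fun j => (⟨c (ι j), hc j⟩ : O)) p
    obtain ⟨hse, hseρ⟩ := hS' ⟨_, he⟩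
    have hne : S' e ≠ 0 := by
      intro h0
      have h1 : (⟨S' (aeval (fun j => ((⟨c (ι j), hc j⟩ : O) : E)) p), hse⟩ : O) = 0 := Subtype.ext h0
      rw [h1, map_zero, heρ, hSε] at hseρ
      exact zero_ne_one hseρ
    have hfam : (fun (i : Fin (g + 1)) (l : Fin m) => aeval c (pderiv l (newG G ι p e i))) =
        (Fin.snoc (fun (i : Fin g) (l : Fin m) => aeval c (pderiv l (G i)))
          (fun l : Fin m => aeval c (pderiv l (rename ι (map (algebraMap ℂ E) p)))) : Fin (g + 1) → (Fin m → E)) := by
      funext i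
      refine Fin.lastCases ?_ (fun i => ?_) i
      · rw [Fin.snoc_last, hlast]
        funext l
        rw [map_sub, pderiv_C, sub_zero]
      · rw [Fin.snoc_castSucc, hcast]
    rw [hfam, linearIndependent_finSnoc]
    refine ⟨hGi, fun hspan => hne ?_⟩
    let L : (Fin m → E) →ₗ[E] E := ∑ l, (S' (c l)) • LinearMap.proj l
    have hL : ∀ u : Fin m → E, L u = ∑ l, u l * S' (c l) := by
      intro u
      simp only [L, LinearMap.sum_apply, LinearMap.smul_apply, LinearMap.proj_apply, smul_eq_mul]
      exact Finset.sum_congr rfl fun l _ => mul_comm _ _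
    have hker : Submodule.span E (Set.range fun (i : Fin g) (l : Fin m) => aeval c (pderiv l (G i))) ≤ LinearMap.ker L := by
      rw [Submodule.span_le]
      rintro _ ⟨i, rfl⟩
      rw [SetLike.mem_coe, LinearMap.mem_ker, hL, ← chain S' K hS'K c (G i) (hGK i), hG0 i, map_zero]
    have h2 := hker hspan
    rw [LinearMap.mem_ker, hL, ← chain S' K hS'K c _ hcoefK, haev] at h2
    exact h2

end VPH
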