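import Pool.Agent.VPH.SlpE
import Pool.Agent.VPH.DexA
import Pool.Agent.VPH.DexB
import Pool.Agent.VPH.NwtA
import Pool.Agent.VPH.NwtB
import Pool.Agent.VPH.LinA
import Pool.Agent.VPH.Adj
import Pool.Agent.VPH.DerA
import Pool.Agent.VPH.StgB
import Pool.Agent.VPH.RkA

set_option autoImplicit false

/-!
# VPH-Extr: a cheap generic point of the graph gives a computation

Plan (all modules it uses are imported). `Cheap` gives `E, O, ρ, K, c, ι, G`, `m ≤ tr k h + g ≤ n + g`
(`tr k h = n` because the last coordinate is a polynomial in `x`; in fact only `tr k h ≤ n` is needed,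
see `tr_le_of_mem` in RkA or argue with `tr_snoc`). `der_ind` gives `D i` on `F` with `D i (x j) = δ_ij`,
`adjust` (with `b j = c (ι (castSucc j))`) gives `D' i`. The vectors `v i = fun t => D' i (c t)` are in the
kernel of the Jacobian (`chain`: `0 = D' i (G(c)) = ∑ ∂_t G (c) * D' i (c t)`), so `lin_alg` gives
`e, B` with `e (ι (castSucc j)) = inl j`.
`A := MvPolynomial (Fin n) E`, `𝔞 := span (range X)`, `Δ` from `exists_delta`, `δ b := dex Δ d (C b)`.
`G l (δ c) ∈ 𝔞 ^ (d + 1)` (`dex_aeval`, `Δ` kills `C (coeff)` since `D' i` kills `K`). For `x i := X i + C (c (ι i))`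
we have `x i - δ (c (ι i)) ∈ 𝔞 ^ (d + 1)` (equal for `d ≥ 1`, `dex_lin`; in `𝔞` for `d = 0`), so also
`G l (x, δ w) ∈ 𝔞 ^ (d + 1)` (polynomials respect congruences). `nwt_mem` with `y = δ w`, `j = d`:
`nwt d ≡ δ w` modulo `𝔞 ^ (d + 1)`. So `P := Sum.elim x (nwt .. d) (e (ι last))` is congruent to
`δ (c (ι last))`, and `tru d P = dex Δ d (C ŷ)`, `ŷ = c (ι last)` (`tru_eq_zero`, `tru_eq_self`,
`IsDel.dex_totalDegree`). `compF_nwt`: `Comp (n + d * (g * s + 2 * g ^ 2 + g)) P`.
`Res.dex`: `Res O ρ (tru d P) (dex Δ' d (C (ρ ŷ)))`, where `Δ'` is the analogue over `F`, `ρ ŷ = aeval x f`, and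
`dex Δ' d (C (aeval x f)) = aeval (fun i => X i + C (x i)) f`: both have degree at most `d`, and they are
congruent modulo `𝔞 ^ (d + 1)` (`dex_aeval` for the coefficients in `ℂ`, killed because `D i` is `k`-linear,
applied to `C (x i)`). Then `Res.shift` and `closure_step`.
-/

namespace VPH

open MvPolynomial

private theorem extr_congr {R A : Type} [CommRing R] [CommRing A] [Algebra R A] {m : ℕ} (I : Ideal A)
    (u v : Fin m → A) (h : ∀ i, u i - v i ∈ I) (p : MvPolynomial (Fin m) R) :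
    aeval u p - aeval v p ∈ I := by
  induction p using MvPolynomial.induction_on with
  | C a =>
    rw [aeval_C, aeval_C, sub_self]
    exact I.zero_mem
  | add p q hp hq =>
    rw [map_add, map_add]
    have h1 : aeval u p + aeval u q - (aeval v p + aeval v q) =
        (aeval u p - aeval v p) + (aeval u q - aeval v q) := by ring
    rw [h1]
    exact I.add_mem hp hq
  | mul_X p i hp =>
    rw [map_mul, map_mul, aeval_X, aeval_X]
    have h1 : aeval u p * u i - aeval v p * v i =
        (aeval u p - aeval v p) * u i + aeval v p * (u i - v i) := by ring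
    rw [h1]
    exact I.add_mem (I.mul_mem_right _ hp) (I.mul_mem_left _ (h i))

private theorem extr_dex_zero {A : Type} [CommRing A] [Algebra ℚ A] (Δ : Derivation ℤ A A) (a : A) :
    dex Δ 0 a = a := by
  unfold dex
  simp

private theorem extr_coord {n : ℕ} {E : Type} [Field E] [Algebra ℚ (MvPolynomial (Fin n) E)]
    {D : Fin n → Derivation ℤ E E}
    {Δ : Derivation ℤ (MvPolynomial (Fin n) E) (MvPolynomial (Fin n) E)} (h : IsDel D Δ) (d : ℕ)
    (b : E) (j : Fin n) (hb : ∀ i, D i b = if i = j then 1 else 0) :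
    (X j + C b : MvPolynomial (Fin n) E) - dex Δ d (C b) ∈
      (Ideal.span (Set.range (X : Fin n → MvPolynomial (Fin n) E))) ^ (d + 1) := by
  have h1 : Δ (C b) = X j := by
    rw [h.2 b, Finset.sum_eq_single j]
    · rw [hb j, if_pos rfl, C_1, mul_one]
    · intro i _ hi
      rw [hb i, if_neg hi, C_0, mul_zero]
    · intro hh
      exact absurd (Finset.mem_univ j) hh
  rcases d with _ | d
  · rw [extr_dex_zero, add_sub_cancel_right, zero_add, pow_one]
    exact Ideal.subset_span ⟨j, rfl⟩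
  · have h3 : Δ (Δ (C b)) = 0 := by
      rw [h1]
      exact h.1 j
    have h2 : dex Δ (d + 1) (C b) = C b + X j :=
      (dex_lin Δ d (C b) h3).trans (congrArg (fun z : MvPolynomial (Fin n) E => C b + z) h1)
    rw [h2, add_comm (X j) (C b), sub_self]
    exact Ideal.zero_mem _

private theorem extr_shift {n : ℕ} {F : Type} [Field F] [Algebra ℂ F] (x : Fin n → F)
    (f : MvPolynomial (Fin n) ℂ) :
    aeval (fun i => X i - C (x i) : Fin n → MvPolynomial (Fin n) F)
      (aeval (fun i => X i + C (x i) : Fin n → MvPolynomial (Fin n) F) f) =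
      map (algebraMap ℂ F) f := by
  induction f using MvPolynomial.induction_on with
  | C a =>
    rw [aeval_C, map_C, MvPolynomial.algebraMap_apply, aeval_C, MvPolynomial.algebraMap_eq]
  | add p q hp hq =>
    rw [map_add, map_add, map_add, hp, hq]
  | mul_X p i hp =>
    rw [map_mul, map_mul, map_mul, hp, aeval_X, map_add, aeval_X, aeval_C, map_X,
      MvPolynomial.algebraMap_eq, sub_add_cancel]

private theorem extr_deg {R S : Type} [CommRing R] [CommRing S] [Algebra R S] {m : ℕ} {σ : Type}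
    (u : Fin m → MvPolynomial σ S) (hu : ∀ i, (u i).totalDegree ≤ 1) (f : MvPolynomial (Fin m) R) :
    (aeval u f).totalDegree ≤ f.totalDegree := by
  rw [aeval_def, eval₂_eq']
  refine totalDegree_finsetSum_le fun t ht => ?_
  refine (totalDegree_mul _ _).trans ?_
  have h1 : (algebraMap R (MvPolynomial σ S) (coeff t f)).totalDegree = 0 := by
    rw [MvPolynomial.algebraMap_apply]
    exact totalDegree_C _
  rw [h1, zero_add]
  refine (totalDegree_finsetProd _ _).trans ?_
  have h2 : ∀ i ∈ (Finset.univ : Finset (Fin m)), (u i ^ t i).totalDegree ≤ t i := by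
    intro i _
    refine (totalDegree_pow _ _).trans ?_
    calc t i * (u i).totalDegree ≤ t i * 1 := Nat.mul_le_mul_left _ (hu i)
      _ = t i := mul_one _
  refine (Finset.sum_le_sum h2).trans ?_
  have h3 : ∑ i, t i = t.sum fun _ e => e := by
    rw [Finsupp.sum_fintype _ _ fun _ => rfl]
  rw [h3]
  exact le_totalDegree ht

theorem extract {k F : Type} [Field k] [Field F] [Algebra ℂ k] [Algebra ℂ F] [Algebra k F]
    [IsScalarTower ℂ k F] {n d s g : ℕ} (f : MvPolynomial (Fin n) ℂ) (hf : f.totalDegree ≤ d)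
    (x : Fin n → F) (hx : AlgebraicIndependent k x)
    (H : Cheap k F s (Fin.snoc x (aeval x f) : Fin (n + 1) → F) g) :
    Bd d (2 * (d + 1) ^ 2 * (n + d * (g * s + 2 * g ^ 2 + g)) + d + n) f := by
  have hk0 : CharZero k := charZero_of_injective_algebraMap (algebraMap ℂ k).injective
  have hF0 : CharZero F := charZero_of_injective_algebraMap (algebraMap ℂ F).injective
  obtain ⟨E, _, _, O, ρ, K, hS, m, c, ι, hc, G, hρ, hG, hGK, hG0, hGi, hm⟩ := H
  have hE0 : CharZero E := charZero_of_injective_algebraMap (algebraMap ℂ E).injective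
  -- the number of variables
  have htr : tr k (Fin.snoc x (aeval x f) : Fin (n + 1) → F) ≤ n := by
    refine (tr_le_of_mem k _ x ?_).trans (tr_le k x)
    intro j
    refine Fin.lastCases ?_ (fun i => ?_) j
    · rw [Fin.snoc_last]
      have h1 : aeval x f = aeval x (map (algebraMap ℂ k) f) := by
        rw [aeval_map_algebraMap]
      rw [h1]
      refine IntermediateField.algebra_adjoin_le_adjoin k (Set.range x) ?_
      rw [Algebra.adjoin_range_eq_range_aeval]
      exact ⟨_, rfl⟩
    · rw [Fin.snoc_castSucc]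
      exact IntermediateField.subset_adjoin k _ ⟨i, rfl⟩
  have hmn : m ≤ n + g := hm.trans (Nat.add_le_add_right htr g)
  -- the points of O
  obtain ⟨κ, hκd⟩ : ∃ κ : Fin n → Fin m, κ = fun i => ι (Fin.castSucc i) := ⟨_, rfl⟩
  have hcκ : ∀ i, c (κ i) ∈ O := by
    intro i
    rw [hκd]
    exact hc _
  have hρκ : ∀ i, ρ ⟨c (κ i), hcκ i⟩ = x i := by
    intro i
    subst hκd
    have h1 := hρ (Fin.castSucc i)
    rw [Fin.snoc_castSucc] at h1
    exact h1
  obtain ⟨D, hD⟩ := der_ind x hx
  obtain ⟨D', hDK, hDO, hDδ⟩ := adjust O ρ K hS.inv hS.lift (fun i => ⟨c (κ i), hcκ i⟩) D (by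
    intro i j
    rw [hρκ j]
    exact hD i j)
  have hDc : ∀ i j, D' i (c (κ j)) = if i = j then 1 else 0 := hDδ
  -- linear algebra
  obtain ⟨e, B, heκ, hB⟩ := lin_alg (fun (l : Fin g) (t : Fin m) => aeval c (pderiv t (G l))) hGi κ
    (fun i t => D' i (c t)) (by
      intro i l
      rw [← chain (D' i) K (hDK i) c (G l) (hGK l), hG0 l, map_zero]) hDc hmn
  have hinl : ∀ i j, e i = Sum.inl j → i = κ j := fun i j h => e.injective (h.trans (heκ j).symm)
  have hinr : ∀ i l, e i = Sum.inr l → i = e.symm (Sum.inr l) := by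
    intro i l h
    rw [← h, Equiv.symm_apply_apply]
  -- the truncated exponential
  obtain ⟨Δ, hΔ⟩ := exists_delta D'
  obtain ⟨𝔞, h𝔞⟩ : ∃ 𝔞 : Ideal (MvPolynomial (Fin n) E),
    𝔞 = Ideal.span (Set.range (X : Fin n → MvPolynomial (Fin n) E)) := ⟨_, rfl⟩
  have hΔm : ∀ j, ∀ b ∈ 𝔞 ^ j, Δ b ∈ 𝔞 ^ (j + 1) := by
    subst h𝔞
    exact fun j b hb => hΔ.mem j b hb
  have hcoord : ∀ j, (X j + C (c (κ j)) : MvPolynomial (Fin n) E) - dex Δ d (C (c (κ j))) ∈
      𝔞 ^ (d + 1) := by
    subst h𝔞
    exact fun j => extr_coord hΔ d (c (κ j)) j fun i => hDc i j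
  have hall : ∀ i, Sum.elim (fun j : Fin n => (X j + C (c (κ j)) : MvPolynomial (Fin n) E))
      (fun l : Fin g => dex Δ d (C (c (e.symm (Sum.inr l))))) (e i) - dex Δ d (C (c i)) ∈
      𝔞 ^ (d + 1) := by
    intro i
    rcases h : e i with j | l
    · rw [Sum.elim_inl, hinl i j h]
      exact hcoord j
    · rw [Sum.elim_inr, ← hinr i l h, sub_self]
      exact Ideal.zero_mem _
  have hGm : ∀ l, aeval (fun i => Sum.elim
      (fun j : Fin n => (X j + C (c (κ j)) : MvPolynomial (Fin n) E))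
      (fun l : Fin g => dex Δ d (C (c (e.symm (Sum.inr l))))) (e i)) (G l) ∈ 𝔞 ^ (d + 1) := by
    intro l
    have h1 := dex_aeval Δ 𝔞 hΔm d (fun i : Fin m => (C (c i) : MvPolynomial (Fin n) E)) (G l)
      (by
        intro t
        refine (hΔ.2 (coeff t (G l))).trans (Finset.sum_eq_zero fun i _ => ?_)
        rw [hDK i _ (hGK l t), C_0, mul_zero])
    have h2 : aeval (fun i : Fin m => (C (c i) : MvPolynomial (Fin n) E)) (G l) = 0 := by
      refine (aeval_algebraMap_apply (MvPolynomial (Fin n) E) c (G l)).trans ?_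
      rw [hG0 l, map_zero]
    rw [h2] at h1
    have h3 : dex Δ d (0 : MvPolynomial (Fin n) E) = 0 := dex_const Δ d 0 (map_zero Δ)
    have h4 : aeval (fun i => dex Δ d (C (c i) : MvPolynomial (Fin n) E)) (G l) ∈ 𝔞 ^ (d + 1) := by
      have h5 := h1
      rw [h3, sub_zero] at h5
      exact h5
    have h6 := (𝔞 ^ (d + 1)).add_mem (extr_congr (𝔞 ^ (d + 1)) _ _ hall (G l)) h4
    rw [sub_add_cancel] at h6
    exact h6
  have hnw : ∀ l : Fin g, nwt e G B (fun j : Fin n => (X j + C (c (κ j)) : MvPolynomial (Fin n) E))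
      (fun l : Fin g => c (e.symm (Sum.inr l))) d l - dex Δ d (C (c (e.symm (Sum.inr l)))) ∈
      𝔞 ^ (d + 1) := by
    have hfun : (fun i => Sum.elim (fun j : Fin n => c (κ j))
        (fun l : Fin g => c (e.symm (Sum.inr l))) (e i)) = c := by
      funext i
      rcases h : e i with j | l
      · rw [Sum.elim_inl, hinl i j h]
      · rw [Sum.elim_inr, ← hinr i l h]
    refine nwt_mem e G B 𝔞 d (fun j : Fin n => (X j + C (c (κ j)) : MvPolynomial (Fin n) E))
      (fun l : Fin g => dex Δ d (C (c (e.symm (Sum.inr l))))) (fun j => c (κ j))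
      (fun l : Fin g => c (e.symm (Sum.inr l))) ?_ ?_ hGm ?_ d le_rfl
    · intro i
      rw [MvPolynomial.algebraMap_eq, add_sub_cancel_right, h𝔞]
      exact Ideal.subset_span ⟨i, rfl⟩
    · intro l
      rw [MvPolynomial.algebraMap_eq]
      exact dex_sub_mem Δ 𝔞 hΔm d (C (c (e.symm (Sum.inr l))))
    · rw [hfun]
      exact hB
  -- the program
  obtain ⟨P, hPd⟩ : ∃ P : MvPolynomial (Fin n) E,
    P = Sum.elim (fun j : Fin n => (X j + C (c (κ j)) : MvPolynomial (Fin n) E))
      (nwt e G B (fun j : Fin n => (X j + C (c (κ j)) : MvPolynomial (Fin n) E))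
        (fun l : Fin g => c (e.symm (Sum.inr l))) d) (e (ι (Fin.last n))) := ⟨_, rfl⟩
  have hPc : Comp (n + d * (g * s + 2 * g ^ 2 + g)) P := by
    subst hPd
    exact (compF_nwt e G hG B (fun j => c (κ j)) (fun l => c (e.symm (Sum.inr l))) d).apply _
  have hPm : P - dex Δ d (C (c (ι (Fin.last n)))) ∈ 𝔞 ^ (d + 1) := by
    rw [hPd]
    rcases h : e (ι (Fin.last n)) with j | l
    · rw [Sum.elim_inl, hinl _ j h]
      exact hcoord j
    · rw [Sum.elim_inr, hinr _ l h]
      exact hnw l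
  have htru : tru d P = dex Δ d (C (c (ι (Fin.last n)))) := by
    have h1 : tru d (P - dex Δ d (C (c (ι (Fin.last n))))) = 0 := by
      refine tru_eq_zero ?_
      rw [← h𝔞]
      exact hPm
    rw [tru_sub, tru_eq_self (hΔ.dex_totalDegree d (c (ι (Fin.last n)))), sub_eq_zero] at h1
    exact h1
  -- residues
  obtain ⟨Δ', hΔ'⟩ := exists_delta fun i => (D i).restrictScalars ℤ
  have hρl : ρ ⟨c (ι (Fin.last n)), hc _⟩ = aeval x f := by
    rw [hρ (Fin.last n), Fin.snoc_last]
  have hRes := Res.dex hS.base (D := D') (D' := fun i => (D i).restrictScalars ℤ)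
    (fun i b => hDO i b) hΔ hΔ' d ⟨c (ι (Fin.last n)), hc _⟩
  rw [hρl] at hRes
  obtain ⟨𝔟, h𝔟⟩ : ∃ 𝔟 : Ideal (MvPolynomial (Fin n) F),
    𝔟 = Ideal.span (Set.range (X : Fin n → MvPolynomial (Fin n) F)) := ⟨_, rfl⟩
  have hΔm' : ∀ j, ∀ b ∈ 𝔟 ^ j, Δ' b ∈ 𝔟 ^ (j + 1) := by
    subst h𝔟
    exact fun j b hb => hΔ'.mem j b hb
  have hQ : dex Δ' d (C (aeval x f)) =
      aeval (fun i => X i + C (x i) : Fin n → MvPolynomial (Fin n) F) f := by
    have h1 := dex_aeval Δ' 𝔟 hΔm' d (fun i : Fin n => (C (x i) : MvPolynomial (Fin n) F)) f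
      (by
        intro t
        refine (hΔ'.2 (algebraMap ℂ F (coeff t f))).trans (Finset.sum_eq_zero fun i _ => ?_)
        have h2 : (D i).restrictScalars ℤ (algebraMap ℂ F (coeff t f)) = 0 := by
          show D i (algebraMap ℂ F (coeff t f)) = 0
          rw [IsScalarTower.algebraMap_apply ℂ k F]
          exact (D i).map_algebraMap _
        rw [h2, C_0, mul_zero])
    have h2 : aeval (fun i : Fin n => (C (x i) : MvPolynomial (Fin n) F)) f = C (aeval x f) :=
      aeval_algebraMap_apply (MvPolynomial (Fin n) F) x f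
    rw [h2] at h1
    have h3 : ∀ i, (X i + C (x i) : MvPolynomial (Fin n) F) - dex Δ' d (C (x i)) ∈ 𝔟 ^ (d + 1) := by
      subst h𝔟
      exact fun i => extr_coord hΔ' d (x i) i fun i' => hD i' i
    have h4 := (𝔟 ^ (d + 1)).add_mem (extr_congr (𝔟 ^ (d + 1)) _ _ h3 f) h1
    rw [sub_add_sub_cancel] at h4
    rw [h𝔟] at h4
    have h5 := tru_eq_zero h4
    have h6 : (aeval (fun i => X i + C (x i) : Fin n → MvPolynomial (Fin n) F) f).totalDegree ≤ d := by
      refine (extr_deg _ (fun i => ?_) f).trans hf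
      refine (totalDegree_add _ _).trans ?_
      rw [totalDegree_X, totalDegree_C]
      exact le_of_eq rfl
    rw [tru_sub, tru_eq_self h6, tru_eq_self (hΔ'.dex_totalDegree d (aeval x f)), sub_eq_zero] at h5
    exact h5.symm
  rw [hQ, ← htru] at hRes
  have hsh := hRes.shift fun j => ⟨c (κ j), hcκ j⟩
  simp only [hρκ] at hsh
  rw [extr_shift x f] at hsh
  exact closure_step O ρ hS.base P hPc (fun j => c (κ j)) f hsh

end VPH
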