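import Pool.Agent.VPH.TypB

set_option autoImplicit false

/-!
# VPH-HypA: transfer with two polynomials

As `transfer` in TypB: the subring `R` contains the coefficients of `φ`, `q` and `q'`.
-/

namespace VPH

open MvPolynomial

private theorem HypA_lift {N : ℕ} (p : MvPolynomial (Fin N) ℂ) (R : Subring ℂ)
    (hR : (p.coeffs : Set ℂ) ⊆ R) :
    ∃ p0 : MvPolynomial (Fin N) R, ∀ (F : Type) [Field F] [Algebra ℂ F] (a : Fin N → F),
      aeval a p = aeval a p0 := by
  have h1 : p ∈ Set.range (MvPolynomial.map (σ := Fin N) (algebraMap R ℂ)) := by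
    rw [mem_range_map_iff_coeffs_subset]
    intro c hc
    exact ⟨⟨c, hR hc⟩, rfl⟩
  obtain ⟨p0, hp0⟩ := h1
  refine ⟨p0, fun F _ _ a => ?_⟩
  rw [← hp0, aeval_map_algebraMap]

private theorem HypA_ring (S : Set ℂ) (hS : S.Finite) :
    ∃ R : Subring ℂ, S ⊆ R ∧ Countable R := by
  have : Finite S := hS
  have : Countable S := Finite.to_countable
  refine ⟨(MvPolynomial.aeval (R := ℤ) (Subtype.val : S → ℂ)).toRingHom.range, ?_, ?_⟩
  · intro s hs
    refine ⟨X ⟨s, hs⟩, ?_⟩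
    simp
  · have : Countable (MvPolynomial S ℤ) := by
      rw [← Cardinal.mk_le_aleph0_iff]
      refine MvPolynomial.cardinalMk_le_max.trans ?_
      simp
    exact (RingHom.rangeRestrict_surjective _).countable

private theorem HypA_unc (F : Type) [Field F] [Algebra ℂ F] : Uncountable F := by
  have : Uncountable ℂ := by
    rw [← Cardinal.aleph0_lt_mk_iff, Cardinal.mk_complex]
    exact Cardinal.aleph0_lt_continuum
  exact (algebraMap ℂ F).injective.uncountable

theorem transfer₂ (F : Type) [Field F] [IsAlgClosed F] [Algebra ℂ F] {N : ℕ} (φ : Fml ℂ N)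
    (q q' : MvPolynomial (Fin N) ℂ) (b : Fin N → F) :
    ∃ b' : Fin N → ℂ, (φ.holds F b ↔ φ.holds ℂ b') ∧ (aeval b q = 0 ↔ aeval b' q = 0) ∧
      (aeval b q' = 0 ↔ aeval b' q' = 0) := by
  obtain ⟨S, hS, h⟩ := descend φ
  obtain ⟨R, hR, hc⟩ := HypA_ring (S ∪ ((q.coeffs : Set ℂ) ∪ (q'.coeffs : Set ℂ)))
    (hS.union (q.coeffs.finite_toSet.union q'.coeffs.finite_toSet))
  obtain ⟨ψ, hψ⟩ := h R (Set.subset_union_left.trans hR)
  obtain ⟨q0, hq0⟩ := HypA_lift q R ((Set.subset_union_left.trans Set.subset_union_right).trans hR)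
  obtain ⟨q1, hq1⟩ := HypA_lift q' R ((Set.subset_union_right.trans Set.subset_union_right).trans hR)
  have := HypA_unc F
  have := HypA_unc ℂ
  have H0 : ∀ p : MvPolynomial (Fin 0) R,
      aeval (Fin.elim0 : Fin 0 → F) p = 0 ↔ aeval (Fin.elim0 : Fin 0 → ℂ) p = 0 := by
    intro p
    obtain ⟨c, rfl⟩ := MvPolynomial.C_surjective (Fin 0) p
    rw [algHom_C, algHom_C]
    have e : algebraMap R F c = algebraMap ℂ F (algebraMap R ℂ c) := rfl
    rw [e]
    exact map_eq_zero_iff _ (algebraMap ℂ F).injective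
  obtain ⟨b', hb'⟩ := extm R F ℂ Fin.elim0 Fin.elim0 H0 b
  have H1 : ∀ p : MvPolynomial (Fin N) R, aeval b p = 0 ↔ aeval b' p = 0 := by
    intro p
    have h1 := hb' (rename (Fin.cast (Nat.zero_add N).symm) p)
    rw [Fin.elim0_append, Fin.elim0_append, aeval_rename, aeval_rename] at h1
    exact h1
  refine ⟨b', ?_, ?_, ?_⟩
  · rw [hψ F b, hψ ℂ b']
    exact holds_of_type R F ℂ ψ b b' H1
  · rw [hq0 F b, hq0 ℂ b']
    exact H1 q0
  · rw [hq1 F b, hq1 ℂ b']
    exact H1 q1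

end VPH
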