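import Pool.Agent.VPH.MainE
import Pool.Agent.VPH.HypA

set_option autoImplicit false

/-!
# VPH-GraphMain (helper69): the graph of a polynomial, up to a proper closed subset
-/

namespace VPH

open MvPolynomial

theorem graph_thm {n d s : ℕ} (f : MvPolynomial (Fin n) ℂ) (hf : f.totalDegree ≤ d)
    (φ : Fml ℂ (n + 1)) (hφ : φ.Siz s) (e : MvPolynomial (Fin n) ℂ) (he : e ≠ 0)
    (hT : ∀ x : Fin n → ℂ, aeval x e ≠ 0 → φ.holds ℂ (Fin.snoc x (aeval x f)))
    (q : MvPolynomial (Fin (n + 1)) ℂ) (hq : q ≠ 0)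
    (hTq : ∀ u : Fin (n + 1) → ℂ, φ.holds ℂ u → aeval u q = 0) :
    Bd d (3 * (d + 1) ^ 3 * (s + 5) * (4 * (φ.tot + 1)) ^ (2 * (φ.rk + 1))) f := by
  obtain ⟨F, _, _, _, x, hx, hB⟩ := exists_big
  -- the generic point
  have hx' : AlgebraicIndependent ℂ (fun i : Fin (n + 1) => x i) :=
    hx.comp (fun i : Fin (n + 1) => (i : ℕ)) Fin.val_injective
  set h : Fin (n + 1) → F := fun i => x i with hh
  have hc0 : Cheap ℂ F (s + 2) h 0 := cheap_init h ((algInd_iff ℂ h).1 hx')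
  -- the generic point of the graph
  set y : Fin n → F := fun i => x i with hy
  have hy' : AlgebraicIndependent ℂ y :=
    hx.comp (fun i : Fin n => (i : ℕ)) Fin.val_injective
  set a : Fin (n + 1) → F := Fin.snoc y (aeval y f) with ha
  have hay : a ∘ Fin.castSucc = y := by funext i; simp [ha]
  have hgr : aeval a (gr f) = 0 := by
    rw [aeval_gr, hay, ha, Fin.snoc_last, sub_self]
  have htr1 : n ≤ tr ℂ a := by
    have h1 := tr_comp_le ℂ a Fin.castSucc
    rwa [hay, (algInd_iff ℂ y).1 hy'] at h1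
  have htr2 : ∀ (Fc : Type) [Field Fc] [Algebra ℂ Fc] (c : Fin (n + 1) → Fc)
      (p : MvPolynomial (Fin (n + 1)) ℂ), p ≠ 0 → aeval c p = 0 → tr ℂ c ≤ n := by
    intro Fc _ _ c p hp hcp
    by_contra hcon
    have h1 := tr_le ℂ c
    have h2 : AlgebraicIndependent ℂ c := (algInd_iff ℂ c).2 (by omega)
    exact hp (h2.eq_zero_of_aeval_eq_zero p hcp)
  have htr : tr ℂ a = n := le_antisymm (htr2 F a (gr f) (gr_ne_zero f) hgr) htr1
  have hM : MaxPt ℂ φ h a := by
    refine ⟨?_, ?_, ?_⟩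
    · obtain ⟨b', hb1, hb2, hb3⟩ := transfer₂ F φ (gr f) (rename Fin.castSucc e) a
      refine hb1.2 ?_
      have h1 := hb2.1 hgr
      rw [aeval_gr, sub_eq_zero] at h1
      rw [eq_snoc b', h1]
      refine hT _ fun h0 => ?_
      have h2 := hb3.2 (by rw [aeval_rename]; exact h0)
      rw [aeval_rename, hay] at h2
      exact he (hy'.eq_zero_of_aeval_eq_zero e h2)
    · intro p hp
      rw [hx'.eq_zero_of_aeval_eq_zero p hp, map_zero]
    · intro Fc j1 j2 j3 j4 j5 c hc _ hca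
      have e : j3 = j4 := Algebra.algebra_ext _ _ fun r =>
        @IsScalarTower.algebraMap_apply ℂ ℂ Fc _ _ _ _ j4 j3 j5 r
      subst e
      refine hca.symm_of_tr ?_
      rw [htr]
      obtain ⟨b', hb1, hb2⟩ := transfer Fc φ q c
      exact htr2 Fc c q hq (hb2.2 (hTq b' (hb1.1 hc)))
  have hG := good_main (s + 2) s le_rfl φ.rk (n + 1) φ rfl hφ
  obtain ⟨k', F', i1, i2, i3, i4, i5, i6, i7, i8, i9, i10, i11, i12, a', hB', hea, ht, hc⟩ :=
    hG ℂ F F h 0 a hB hc0 hM
  have e1 : i3 = i7 := Algebra.algebra_ext _ _ fun r =>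
    @IsScalarTower.algebraMap_apply ℂ ℂ k' _ _ _ _ i7 i3 i8 r
  subst e1
  have e2 : i4 = i9 := Algebra.algebra_ext _ _ fun r => by
    rw [@IsScalarTower.algebraMap_apply ℂ k' F' _ _ _ _ i5 i4 i6 r,
      @IsScalarTower.algebraMap_apply ℂ k' F' _ _ _ _ i5 i9 i10 r]
  subst e2
  set y' : Fin n → F' := a' ∘ Fin.castSucc with hy''
  have hgr' : aeval a' (gr f) = 0 := (hea _).1 hgr
  rw [aeval_gr, sub_eq_zero] at hgr'
  have ha' : a' = Fin.snoc y' (aeval y' f) := by
    conv_lhs => rw [eq_snoc a', hgr']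
  have htr' : tr k' y' = n := by
    apply le_antisymm (tr_le k' y')
    refine le_trans (le_of_eq (htr.symm.trans ht.symm)) (tr_le_of_mem k' a' y' ?_)
    intro j
    refine Fin.lastCases ?_ (fun i => ?_) j
    · rw [hgr', aeval_def, eval₂_eq]
      refine sum_mem fun t _ => mul_mem ?_ (prod_mem fun i _ => pow_mem ?_ _)
      · rw [@IsScalarTower.algebraMap_apply ℂ k' F' _ _ _ _ i5 i4 i6]
        exact (IntermediateField.adjoin k' (Set.range y')).algebraMap_mem _
      · exact IntermediateField.subset_adjoin k' _ ⟨i, rfl⟩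
    · exact IntermediateField.subset_adjoin k' _ ⟨i, rfl⟩
  rw [ha'] at hc
  refine (extract f hf y' ((algInd_iff k' y').2 htr') hc).mono ?_
  exact cost_le n d s φ.tot φ.rk φ.le_tot

end VPH
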