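import Pool.Agent.VPH.RkB

set_option autoImplicit false

/-!
# VPH-GroA: constants independent of `h` can be specialised without changing `h`

`k → k' → F`, `tr k' h = tr k h`, `c` a tuple in `k'`, `χ` a point over `k` satisfying all equations
of `c` over `k`. Then `(χ, h)` satisfies all equations of `(c, h)` over `k`.

Plan. `κ` a transcendence basis of `h` over `k` among the coordinates (`exists_basis`), `x = h ∘ κ`; the
coordinates of `h` are algebraic over `k'(x)`, so because of `tr k' h = tr k h = |κ|` the family `x` is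
algebraically independent over `k'` (`algInd_iff`, `tr_le_of_alg`). So `k[c][x]` is a polynomial ring over `k[c]`, and
the hom `k[c] → k`, `c ↦ χ` (well-defined by the hypothesis) extends to `σ : k[c][x] → k[x] ⊆ F` fixing `x`.
Every `h j` is a root of a nonzero polynomial over `k[x]`; let `l(x)` be the product of the leading
coefficients, so `h j` is integral over `k[x, 1/l(x)]`. `σ` extends to `k[c][x][1/l(x)] → Ω := algebraic closure of
k(x)` (`σ (l(x)) = l(x) ≠ 0`) and then to the integral extension `k[c][x][1/l(x)][h] → Ω` (lying over: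
`Ideal.exists_ideal_over_prime_of_isIntegral`, then `IsAlgClosed.lift` for the residue fields; or there may be a
ready-made lemma on extending homs to algebraically closed fields along integral extensions). Let `h'` be the image of `h`. So `(c, h)` specialises to
`(χ, h')` over `k`, and `h' ∘ κ = x` is independent over `k`, so `tr k h' ≥ tr k h`, `Sp k h h'`, hence
`Sp k h' h` (`Sp.symm_of_tr`). If `q (c, h) = 0` then `q (χ, h') = 0`; `q (χ, ·)` has coefficients in `k`;
so `q (χ, h) = 0`.
(An alternative to `Ω` and localisation: a place/valuation ring, `LocalSubring.exists_le_valuationSubring`.)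
-/

namespace VPH

open MvPolynomial

/-- a specialisation extends to a valuation ring -/
private theorem GroA_val {k F G ι : Type} [Field k] [Field F] [Field G] [Algebra k F] [Algebra k G]
    (a : ι → F) (b : ι → G) (H : ∀ p : MvPolynomial ι k, aeval a p = 0 → aeval b p = 0) :
    ∃ V : ValuationSubring F, (∀ p : MvPolynomial ι k, aeval a p ∈ V) ∧
      (∀ p : MvPolynomial ι k, aeval b p = 0 → ∀ hp : aeval a p ∈ V, ¬ IsUnit (⟨aeval a p, hp⟩ : V)) ∧
      (∀ p : MvPolynomial ι k, aeval b p ≠ 0 → (aeval a p)⁻¹ ∈ V) := by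
  classical
  let π : MvPolynomial ι k →+* F := (aeval a : MvPolynomial ι k →ₐ[k] F).toRingHom
  let A : Subring F := π.range
  have hπ : Function.Surjective π.rangeRestrict := π.rangeRestrict_surjective
  let g : MvPolynomial ι k →+* G := (aeval b : MvPolynomial ι k →ₐ[k] G).toRingHom
  have hg : RingHom.ker π.rangeRestrict ≤ RingHom.ker g := by
    intro p hp
    rw [RingHom.mem_ker] at hp ⊢
    have : π p = 0 := congrArg Subtype.val hp
    exact H p this
  let ρ : A →+* G := RingHom.liftOfSurjective π.rangeRestrict hπ ⟨g, hg⟩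
  have hρ : ∀ p, ρ (π.rangeRestrict p) = g p := fun p =>
    RingHom.liftOfRightInverse_comp_apply _ _ _ _ _
  let P : Ideal A := RingHom.ker ρ
  have : P.IsPrime := RingHom.ker_isPrime ρ
  obtain ⟨V, hV, hl⟩ := (LocalSubring.ofPrime A P).exists_le_valuationSubring
  have h1 : ∀ p : MvPolynomial ι k, aeval a p ∈ V := fun p =>
    hV (LocalSubring.le_ofPrime A P (π.rangeRestrict p).2)
  refine ⟨V, h1, ?_, ?_⟩
  · intro p hp hpV hu
    have e : Subring.inclusion hV (algebraMap A _ (π.rangeRestrict p)) = (⟨aeval a p, hpV⟩ : V) := rfl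
    have h2 : IsUnit (algebraMap A (LocalSubring.ofPrime A P).toSubring (π.rangeRestrict p)) := by
      apply hl.1
      exact hu
    rw [IsLocalization.AtPrime.isUnit_to_map_iff _ P] at h2
    exact h2 (by rw [SetLike.mem_coe, RingHom.mem_ker, hρ]; exact hp)
  · intro p hp
    have h2 : IsUnit (algebraMap A (LocalSubring.ofPrime A P).toSubring (π.rangeRestrict p)) := by
      rw [IsLocalization.AtPrime.isUnit_to_map_iff _ P]
      intro h3
      rw [SetLike.mem_coe, RingHom.mem_ker, hρ] at h3
      exact hp h3
    obtain ⟨y, hy⟩ := isUnit_iff_exists_inv.mp h2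
    have h3 : aeval a p * (y : F) = 1 := congrArg Subtype.val hy
    rw [← eq_inv_of_mul_eq_one_right h3]
    exact hV y.2


private theorem GroA_ker {k k' F : Type} [Field k] [Field k'] [Field F] [Algebra k k'] [Algebra k' F]
    [Algebra k F] [IsScalarTower k k' F] {r l : ℕ} (x : Fin r → F) (hx : AlgebraicIndependent k' x)
    (c : Fin l → k') (χ : Fin l → k)
    (Hχ : ∀ q : MvPolynomial (Fin l) k, aeval c q = 0 → aeval χ q = 0)
    (p : MvPolynomial (Fin r ⊕ Fin l) k)
    (hp : aeval (Sum.elim x (fun i => algebraMap k' F (c i))) p = 0) :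
    aeval (Sum.elim x (fun i => algebraMap k F (χ i))) p = 0 := by
  have e1 : ∀ p : MvPolynomial (Fin r ⊕ Fin l) k,
      aeval (Sum.elim x (fun i => algebraMap k' F (c i))) p =
        aeval x (map (aeval c : MvPolynomial (Fin l) k →ₐ[k] k').toRingHom
          (sumRingEquiv k (Fin r) (Fin l) p)) := by
    intro p
    induction p using MvPolynomial.induction_on with
    | C a =>
      simp [sumRingEquiv_C, IsScalarTower.algebraMap_apply k k' F]
    | add p q hp hq => simp only [map_add, hp, hq]
    | mul_X p i hp =>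
      rw [map_mul, map_mul, map_mul, map_mul, hp]
      congr 1
      rcases i with i | i <;> simp [sumRingEquiv_X_inl, sumRingEquiv_X_inr]
  have e2 : ∀ p : MvPolynomial (Fin r ⊕ Fin l) k,
      aeval (Sum.elim x (fun i => algebraMap k F (χ i))) p =
        aeval x (map (aeval χ : MvPolynomial (Fin l) k →ₐ[k] k).toRingHom
          (sumRingEquiv k (Fin r) (Fin l) p)) := by
    intro p
    induction p using MvPolynomial.induction_on with
    | C a =>
      simp [sumRingEquiv_C]
    | add p q hp hq => simp only [map_add, hp, hq]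
    | mul_X p i hp =>
      rw [map_mul, map_mul, map_mul, map_mul, hp]
      congr 1
      rcases i with i | i <;> simp [sumRingEquiv_X_inl, sumRingEquiv_X_inr]
  rw [e1] at hp
  rw [e2]
  have h0 : map (aeval c : MvPolynomial (Fin l) k →ₐ[k] k').toRingHom
      (sumRingEquiv k (Fin r) (Fin l) p) = 0 := by
    apply hx
    rw [hp, map_zero]
  have h1 : map (aeval χ : MvPolynomial (Fin l) k →ₐ[k] k).toRingHom
      (sumRingEquiv k (Fin r) (Fin l) p) = 0 := by
    ext m
    rw [coeff_map, coeff_zero]
    apply Hχ
    have := congrArg (coeff m) h0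
    rw [coeff_map, coeff_zero] at this
    exact this
  rw [h1, map_zero]

private theorem GroA_alg {k k' F : Type} [Field k] [Field k'] [Field F] [Algebra k k'] [Algebra k' F]
    [Algebra k F] [IsScalarTower k k' F] (S : Set F) (y : F)
    (hy : IsAlgebraic (Algebra.adjoin k S) y) : IsAlgebraic (IntermediateField.adjoin k' S) y := by
  obtain ⟨f, hf0, hf⟩ := hy
  have hle : ∀ y ∈ Algebra.adjoin k S, y ∈ IntermediateField.adjoin k' S := by
    intro y hy
    induction hy using Algebra.adjoin_induction with
    | mem y hy => exact IntermediateField.subset_adjoin _ _ hy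
    | algebraMap a =>
      rw [IsScalarTower.algebraMap_apply k k' F]
      exact IntermediateField.algebraMap_mem _ _
    | add y z _ _ hy hz => exact add_mem hy hz
    | mul y z _ _ hy hz => exact mul_mem hy hz
  let φ : Algebra.adjoin k S →+* IntermediateField.adjoin k' S :=
    { toFun := fun y => ⟨y, hle y y.2⟩
      map_one' := rfl
      map_mul' := fun _ _ => rfl
      map_zero' := rfl
      map_add' := fun _ _ => rfl }
  have hφ : Function.Injective φ := by
    intro y z hyz
    have := congrArg Subtype.val hyz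
    exact Subtype.ext this
  refine ⟨f.map φ, ?_, ?_⟩
  · rwa [Ne, Polynomial.map_eq_zero_iff hφ]
  · rw [Polynomial.aeval_def, Polynomial.eval₂_map]
    rw [Polynomial.aeval_def] at hf
    exact hf

private theorem GroA_ind {k k' F : Type} [Field k] [Field k'] [Field F] [Algebra k k'] [Algebra k' F]
    [Algebra k F] [IsScalarTower k k' F] {N : ℕ} (h : Fin N → F)
    (ht : tr k' h = tr k h) (κ : Fin (tr k h) → Fin N)
    (hκ : ∀ j, IsAlgebraic (Algebra.adjoin k (Set.range (h ∘ κ))) (h j)) :
    AlgebraicIndependent k' (h ∘ κ) := by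
  rw [algInd_iff]
  apply le_antisymm (tr_le k' _)
  refine ht.symm.le.trans ?_
  apply tr_le_of_alg
  intro j
  exact GroA_alg _ _ (hκ j)

/-- a valuation ring containing a field contains the elements algebraic over the field -/
private theorem GroA_int {k F : Type} [Field k] [Field F] [Algebra k F] (V : ValuationSubring F)
    (K : IntermediateField k F) (hK : ∀ y ∈ K, y ∈ V) (y : F) (hy : IsAlgebraic K y) : y ∈ V := by
  obtain ⟨f, hf, hf0⟩ := hy.isIntegral
  let φ : K →+* V :=
    { toFun := fun y => ⟨y, hK y y.2⟩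
      map_one' := rfl
      map_mul' := fun _ _ => rfl
      map_zero' := rfl
      map_add' := fun _ _ => rfl }
  have h1 : IsIntegral V y := by
    refine ⟨f.map φ, hf.map φ, ?_⟩
    rw [Polynomial.eval₂_map]
    exact hf0
  obtain ⟨z, hz⟩ := IsIntegrallyClosed.isIntegral_iff.mp h1
  rw [← hz]
  exact z.2

theorem grow_pt {k k' F : Type} [Field k] [Field k'] [Field F] [Algebra k k'] [Algebra k' F]
    [Algebra k F] [IsScalarTower k k' F] [CharZero k] {N l : ℕ} (h : Fin N → F)
    (ht : tr k' h = tr k h) (c : Fin l → k') (χ : Fin l → k)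
    (Hχ : ∀ q : MvPolynomial (Fin l) k, aeval c q = 0 → aeval χ q = 0)
    (q : MvPolynomial (Fin l ⊕ Fin N) k)
    (hq : aeval (Sum.elim (fun i => algebraMap k' F (c i)) h) q = 0) :
    aeval (Sum.elim (fun i => algebraMap k F (χ i)) h) q = 0 := by
  classical
  obtain ⟨κ, -, hκ, halg⟩ := exists_basis k h
  have hx : AlgebraicIndependent k' (h ∘ κ) := GroA_ind h ht κ halg
  obtain ⟨V, hV1, hV2, hV3⟩ := GroA_val (k := k)
    (Sum.elim (h ∘ κ) (fun i => algebraMap k' F (c i)))
    (Sum.elim (h ∘ κ) (fun i => algebraMap k F (χ i)))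
    (fun p hp => GroA_ker (h ∘ κ) hx c χ Hχ p hp)
  -- polynomials in `x`
  have hx1 : ∀ p : MvPolynomial (Fin (tr k h)) k, aeval (h ∘ κ) p ∈ V := by
    intro p
    have := hV1 (rename Sum.inl p)
    rwa [aeval_rename, Sum.elim_comp_inl] at this
  have hx2 : ∀ p : MvPolynomial (Fin (tr k h)) k, p ≠ 0 → (aeval (h ∘ κ) p)⁻¹ ∈ V := by
    intro p hp
    have := hV3 (rename Sum.inl p) (by
      rw [aeval_rename, Sum.elim_comp_inl]
      intro h0
      exact hp (hκ (by rw [h0, map_zero])))
    rwa [aeval_rename, Sum.elim_comp_inl] at this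
  have hk : ∀ a : k, algebraMap k F a ∈ V := by
    intro a
    have := hx1 (C a)
    rwa [aeval_C] at this
  have hK : ∀ y ∈ IntermediateField.adjoin k (Set.range (h ∘ κ)), y ∈ V := by
    intro y hy
    rw [IntermediateField.mem_adjoin_range_iff] at hy
    obtain ⟨r, s, rfl⟩ := hy
    by_cases hs : s = 0
    · rw [hs, map_zero, div_zero]
      exact V.zero_mem
    · rw [div_eq_mul_inv]
      exact V.mul_mem _ _ (hx1 r) (hx2 s hs)
  have hh : ∀ j, h j ∈ V := fun j => GroA_int V _ hK _ (GroA_alg _ _ (halg j))
  have hc : ∀ i, algebraMap k' F (c i) ∈ V := by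
    intro i
    have := hV1 (X (Sum.inr i))
    rwa [aeval_X] at this
  -- the residue field
  let F' : Type := IsLocalRing.ResidueField V
  let ι : k →+* V :=
    { toFun := fun a => ⟨algebraMap k F a, hk a⟩
      map_one' := Subtype.ext (map_one _)
      map_mul' := fun a b => Subtype.ext (map_mul _ a b)
      map_zero' := Subtype.ext (map_zero _)
      map_add' := fun a b => Subtype.ext (map_add _ a b) }
  let _ : Algebra k V := ι.toAlgebra
  let _ : Algebra k F' := ((IsLocalRing.residue V).comp ι).toAlgebra
  let ρ : V →ₐ[k] F' := { IsLocalRing.residue V with commutes' := fun _ => rfl }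
  let τ : V →ₐ[k] F := { V.subtype with commutes' := fun _ => rfl }
  have hτ : Function.Injective τ := Subtype.val_injective
  let hv : Fin N → V := fun j => ⟨h j, hh j⟩
  let cv : Fin l → V := fun i => ⟨algebraMap k' F (c i), hc i⟩
  have hρ0 : ∀ v : V, ρ v = 0 ↔ ¬ IsUnit v := fun v => by
    rw [← mem_nonunits_iff, ← IsLocalRing.mem_maximalIdeal]
    exact IsLocalRing.residue_eq_zero_iff v
  have hSp : Sp k h (ρ ∘ hv) := by
    intro p hp
    have h1 : aeval hv p = 0 := by
      apply hτ
      rw [map_zero, ← hp]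
      exact comp_aeval_apply (f := hv) τ p
    have h2 := comp_aeval_apply (f := hv) ρ p
    rw [h1, map_zero] at h2
    exact h2.symm
  have hind : AlgebraicIndependent k ((ρ ∘ hv) ∘ κ) := by
    rw [algebraicIndependent_iff]
    intro p hp
    by_contra hp0
    have h1 : ρ (aeval (hv ∘ κ) p) = 0 := by
      rw [← hp]
      exact comp_aeval_apply (f := hv ∘ κ) ρ p
    rw [hρ0] at h1
    apply h1
    have h2 : τ (aeval (hv ∘ κ) p) = aeval (h ∘ κ) p := comp_aeval_apply (f := hv ∘ κ) τ p
    rw [isUnit_iff_exists_inv]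
    refine ⟨⟨(aeval (h ∘ κ) p)⁻¹, hx2 p hp0⟩, ?_⟩
    apply hτ
    rw [map_mul, map_one, h2]
    refine mul_inv_cancel₀ ?_
    intro h0
    exact hp0 (hκ (by rw [h0, map_zero]))
  have hle : tr k h ≤ tr k (ρ ∘ hv) := by
    have h1 := (algInd_iff k _).mp hind
    have h2 := tr_comp_le k (ρ ∘ hv) κ
    omega
  have hsym := hSp.symm_of_tr hle
  have hcχ : ∀ i, ρ (cv i) = algebraMap k F' (χ i) := by
    intro i
    have h1 : ρ (cv i - algebraMap k V (χ i)) = 0 := by
      rw [hρ0]
      have h2 : aeval (Sum.elim (h ∘ κ) (fun i => algebraMap k' F (c i)))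
          (X (Sum.inr i) - C (χ i) : MvPolynomial (Fin (tr k h) ⊕ Fin l) k) =
            algebraMap k' F (c i) - algebraMap k F (χ i) := by
        simp
      have h3 := hV2 (X (Sum.inr i) - C (χ i)) (by simp) (hV1 _)
      intro h4
      apply h3
      convert h4 using 1
      exact Subtype.ext h2
    rw [map_sub, sub_eq_zero] at h1
    rw [h1]
    exact ρ.commutes _
  have h1 : aeval (Sum.elim (fun i => algebraMap k F' (χ i)) (ρ ∘ hv)) q = 0 := by
    have h2 : aeval (Sum.elim cv hv) q = 0 := by
      apply hτ
      rw [map_zero, ← hq]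
      refine (comp_aeval_apply (f := Sum.elim cv hv) τ q).trans ?_
      congr 2
      funext i
      rcases i with i | i <;> rfl
    have h3 := comp_aeval_apply (f := Sum.elim cv hv) ρ q
    rw [h2, map_zero] at h3
    rw [h3]
    congr 2
    funext i
    rcases i with i | i
    · exact (hcχ i).symm
    · rfl
  have e : ∀ {G : Type} [Field G] [Algebra k G] (a : Fin N → G),
      aeval a (aeval (Sum.elim (fun i => C (χ i)) X) q : MvPolynomial (Fin N) k) =
        aeval (Sum.elim (fun i => algebraMap k G (χ i)) a) q := by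
    intro G _ _ a
    rw [← AlgHom.comp_apply, comp_aeval]
    congr 2
    funext i
    rcases i with i | i <;> simp
  have h2 := hsym (aeval (Sum.elim (fun i => C (χ i)) X) q) (by rw [e]; exact h1)
  rw [e] at h2
  exact h2

end VPH
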