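import Pool.Agent.VPH.GroA

set_option autoImplicit false

/-!
# VPH-GroB: the equations of `h` over larger constants
-/

namespace VPH

open MvPolynomial

/-- a polynomial over `k'` is a combination of polynomials over `k` with independent coefficients -/
private theorem grob_dec {k k' : Type} [Field k] [Field k'] [Algebra k k'] {N : ℕ}
    (p : MvPolynomial (Fin N) k') :
    ∃ (l : ℕ) (c : Fin l → k') (P : Fin l → MvPolynomial (Fin N) k), LinearIndependent k c ∧
      p = ∑ i, C (c i) * map (algebraMap k k') (P i) := by
  classical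
  obtain ⟨W, hW⟩ : ∃ W : Submodule k k', W = Submodule.span k ((fun t => coeff t p) '' (p.support : Set (Fin N →₀ ℕ))) :=
    ⟨_, rfl⟩
  have hfin : FiniteDimensional k W := by
    rw [hW]
    exact FiniteDimensional.span_of_finite k (Set.Finite.image _ p.support.finite_toSet)
  have hmem : ∀ t ∈ p.support, coeff t p ∈ W := fun t ht => by
    rw [hW]
    exact Submodule.subset_span ⟨t, ht, rfl⟩
  have hd : ∀ t ∈ p.support, ∃ d : Fin (Module.finrank k W) → k,
      coeff t p = ∑ i, d i • ((Module.finBasis k W i : W) : k') := by
    intro t ht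
    refine ⟨fun i => (Module.finBasis k W).repr ⟨coeff t p, hmem t ht⟩ i, ?_⟩
    have h1 := congrArg Subtype.val ((Module.finBasis k W).sum_repr ⟨coeff t p, hmem t ht⟩)
    rw [AddSubmonoidClass.coe_finsetSum] at h1
    exact h1.symm
  choose! d hd using hd
  refine ⟨Module.finrank k W, fun i => ((Module.finBasis k W i : W) : k'),
    fun i => ∑ t ∈ p.support, monomial t (d t i), ?_, ?_⟩
  · exact (Module.finBasis k W).linearIndependent.map' W.subtype W.ker_subtype
  · refine MvPolynomial.ext _ _ fun t => ?_
    rw [coeff_sum]
    have h1 : ∀ i, coeff t (C ((Module.finBasis k W i : W) : k') *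
        map (algebraMap k k') (∑ t ∈ p.support, monomial t (d t i))) =
        if t ∈ p.support then d t i • ((Module.finBasis k W i : W) : k') else 0 := by
      intro i
      rw [coeff_C_mul, coeff_map, coeff_sum]
      have h2 : ∑ s ∈ p.support, coeff t (monomial s (d s i)) = if t ∈ p.support then d t i else 0 := by
        simp only [coeff_monomial]
        exact Finset.sum_ite_eq' p.support t fun s => d s i
      rw [h2]
      by_cases ht : t ∈ p.support
      · rw [if_pos ht, if_pos ht, Algebra.smul_def, mul_comm]
      · rw [if_neg ht, if_neg ht, map_zero, mul_zero]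
    rw [Finset.sum_congr rfl fun i _ => h1 i]
    by_cases ht : t ∈ p.support
    · simp only [if_pos ht]
      exact hd t ht
    · simp only [if_neg ht, Finset.sum_const_zero]
      exact notMem_support_iff.1 ht

theorem grow {k k' F Fa : Type} [Field k] [IsAlgClosed k] [Field k'] [Field F] [Field Fa]
    [Algebra k k'] [Algebra k' F] [Algebra k F] [IsScalarTower k k' F] [Algebra k' Fa]
    [Algebra k Fa] [IsScalarTower k k' Fa] [CharZero k] {N : ℕ} (h : Fin N → F) (a : Fin N → Fa)
    (ht : tr k' h = tr k h) (H : Sp k h a) : Sp k' h a := by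
  intro p hp
  obtain ⟨l, c, P, hc, hP⟩ := grob_dec (k := k) p
  have hev : ∀ {E : Type} [Field E] [Algebra k' E] [Algebra k E] [IsScalarTower k k' E] (x : Fin N → E),
      aeval x p = ∑ i, algebraMap k' E (c i) * aeval x (P i) := by
    intro E _ _ _ _ x
    rw [hP, map_sum]
    refine Finset.sum_congr rfl fun i _ => ?_
    rw [map_mul, aeval_C, aeval_map_algebraMap]
  have hcl : ∀ i, aeval h (P i) = 0 := by
    intro i0
    rw [← Module.forall_dual_apply_eq_zero_iff k]
    intro lam
    obtain ⟨I, hI⟩ : ∃ I : Ideal (MvPolynomial (Fin l) k), I = RingHom.ker (aeval c : MvPolynomial (Fin l) k →ₐ[k] k') :=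
      ⟨_, rfl⟩
    have hIp : I.IsPrime := by
      rw [hI]
      exact RingHom.ker_isPrime _
    have hL : (∑ i, C (lam (aeval h (P i))) * X i : MvPolynomial (Fin l) k) ∈ I := by
      rw [← IsPrime.vanishingIdeal_zeroLocus (K := k) I, mem_vanishingIdeal_iff]
      intro χ hχ
      have h1 := grow_pt h ht c χ (fun q hq => hχ q (by rw [hI]; exact hq))
        (∑ i, X (Sum.inl i) * rename Sum.inr (P i)) (by
          rw [map_sum]
          have h2 := hev h
          rw [hp] at h2
          rw [h2]
          refine Finset.sum_congr rfl fun i _ => ?_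
          rw [map_mul, aeval_X, aeval_rename]
          rfl)
      rw [map_sum] at h1
      have h3 : ∑ i, χ i • aeval h (P i) = 0 := by
        rw [← h1]
        refine Finset.sum_congr rfl fun i _ => ?_
        rw [map_mul, aeval_X, aeval_rename, Algebra.smul_def]
        rfl
      have h4 := congrArg lam h3
      rw [map_sum, map_zero] at h4
      rw [map_sum, ← h4]
      refine Finset.sum_congr rfl fun i _ => ?_
      rw [map_mul, aeval_C, aeval_X, map_smul, smul_eq_mul, mul_comm]
      rfl
    rw [hI, RingHom.mem_ker, map_sum] at hL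
    have h5 : ∑ i, lam (aeval h (P i)) • c i = 0 := by
      rw [← hL]
      refine Finset.sum_congr rfl fun i _ => ?_
      rw [map_mul, aeval_C, aeval_X, Algebra.smul_def]
    exact Fintype.linearIndependent_iff.1 hc _ h5 i0
  rw [hev a]
  refine Finset.sum_eq_zero fun i _ => ?_
  rw [H (P i) (hcl i), mul_zero]

end VPH
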