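import Mathlib

set_option autoImplicit false

/-!
# VPH-KruB: going down
-/

namespace VPH

theorem height_comap_le {S A : Type} [CommRing S] [CommRing A] [Algebra S A] [IsDomain A]
    [FaithfulSMul S A] [Algebra.IsIntegral S A] [IsDomain S] [IsIntegrallyClosed S]
    [IsNoetherianRing A] [IsNoetherianRing S] (P : Ideal A) [P.IsPrime] :
    (P.comap (algebraMap S A)).height ≤ P.height := by
  have h1 : P.LiesOver (P.comap (algebraMap S A)) := ⟨rfl⟩
  rw [Ideal.height_eq_height_add_of_liesOver_of_hasGoingDown (P.comap (algebraMap S A)) P]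
  exact le_self_add

end VPH
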