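import Pool.Agent.VPH.RkA

set_option autoImplicit false

/-!
# VPH-RkB: transcendence degree and specialisation

Plan. `Sp.tr_le`: a transcendence basis `a ∘ κ` of `a` (`exists_basis`); if `q (h ∘ κ) = 0` then
`q (a ∘ κ) = 0`, so `q = 0`: `h ∘ κ` is algebraically independent (`tr_comp_le`, `algInd_iff`).
`Sp.symm_of_tr`: the same `κ`; now `h ∘ κ` has `tr k a = tr k h` members, so it is a transcendence basis of
`k[h]`. Suppose `p (a) = 0` and `p (h) ≠ 0`. `p (h)` is algebraic over `k[h ∘ κ]`: there is a polynomial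
relation `∑ q_i (h ∘ κ) * p (h) ^ i = 0`, not all `q_i = 0`; dividing by a power of `p (h)` (domain) we may
assume `q_0 ≠ 0`. Apply `Sp k h a` to this relation: `q_0 (a ∘ κ) = 0`, so `q_0 = 0`. Contradiction.
-/

namespace VPH

open MvPolynomial

variable {k : Type} [Field k] {F Fa : Type} [Field F] [Field Fa] [Algebra k F] [Algebra k Fa]
  {N N' : ℕ}

private theorem RkB_comp {h : Fin N → F} {a : Fin N → Fa} (H : Sp k h a) {ι : Type} (κ : ι → Fin N)
    (p : MvPolynomial ι k) (hp : aeval (h ∘ κ) p = 0) : aeval (a ∘ κ) p = 0 := by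
  rw [← aeval_rename] at hp ⊢
  exact H _ hp

private theorem RkB_ind {h : Fin N → F} {a : Fin N → Fa} (H : Sp k h a) {ι : Type} (κ : ι → Fin N)
    (hi : AlgebraicIndependent k (a ∘ κ)) : AlgebraicIndependent k (h ∘ κ) := by
  rw [algebraicIndependent_iff] at hi ⊢
  intro p hp
  exact hi p (RkB_comp H κ p hp)

theorem Sp.tr_le {h : Fin N → F} {a : Fin N → Fa} (H : Sp k h a) : tr k a ≤ tr k h := by
  obtain ⟨κ, -, hi, -⟩ := exists_basis k a
  have h1 := (algInd_iff k (h ∘ κ)).1 (RkB_ind H κ hi)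
  have h2 := tr_comp_le k h κ
  omega

private theorem RkB_mem (h : Fin N → F) (p : MvPolynomial (Fin N) k) :
    aeval h p ∈ IntermediateField.adjoin k (Set.range h) := by
  have h1 : aeval h p ∈ Algebra.adjoin k (Set.range h) := by
    rw [Algebra.adjoin_range_eq_range_aeval]
    exact ⟨p, rfl⟩
  exact IntermediateField.algebra_adjoin_le_adjoin k _ h1

private theorem RkB_alg {h : Fin N → F} {t : ℕ} (κ : Fin t → Fin N) (hi : AlgebraicIndependent k (h ∘ κ))
    (ht : tr k h ≤ t) (p : MvPolynomial (Fin N) k) :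
    IsAlgebraic (Algebra.adjoin k (Set.range (h ∘ κ))) (aeval h p) := by
  by_contra hn
  have h1 := (hi.option_iff_transcendental (aeval h p)).2 hn
  have h2 := h1.comp (finSuccEquiv t) (finSuccEquiv t).injective
  have h3 := card_le_tr k h _ h2 (by
    intro j
    have h4 : ((fun o : Option (Fin t) => o.elim (aeval h p) (h ∘ κ)) ∘ (finSuccEquiv t)) j ∈
        IntermediateField.adjoin k (Set.range h) := by
      rw [Function.comp_apply]
      rcases finSuccEquiv t j with _ | i
      · exact RkB_mem h p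
      · exact IntermediateField.subset_adjoin k _ ⟨κ i, rfl⟩
    exact isAlgebraic_algebraMap (⟨_, h4⟩ : IntermediateField.adjoin k (Set.range h)))
  omega

theorem Sp.symm_of_tr {h : Fin N → F} {a : Fin N → Fa} (H : Sp k h a) (ht : tr k h ≤ tr k a) :
    Sp k a h := by
  obtain ⟨κ, -, hi, -⟩ := exists_basis k a
  have hi2 := RkB_ind H κ hi
  intro p hp
  by_contra hy
  obtain ⟨q, hq0, hq⟩ := (RkB_alg κ hi2 ht p).exists_nonzero_coeff_and_aeval_eq_zero
    (mem_nonZeroDivisors_of_ne_zero hy)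
  -- lift the relation to polynomials
  have hmem : ∀ r : MvPolynomial (Fin (tr k a)) k, aeval (h ∘ κ) r ∈ Algebra.adjoin k (Set.range (h ∘ κ)) := by
    intro r
    rw [Algebra.adjoin_range_eq_range_aeval]
    exact ⟨r, rfl⟩
  let φ : MvPolynomial (Fin (tr k a)) k →+* Algebra.adjoin k (Set.range (h ∘ κ)) :=
    (aeval (h ∘ κ) : MvPolynomial (Fin (tr k a)) k →ₐ[k] F).toRingHom.codRestrict
      (Algebra.adjoin k (Set.range (h ∘ κ))) hmem
  have hφ : Function.Surjective φ := by
    rintro ⟨b, hb⟩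
    have hb2 := hb
    rw [Algebra.adjoin_range_eq_range_aeval] at hb2
    obtain ⟨r, hr⟩ := hb2
    exact ⟨r, Subtype.ext hr⟩
  obtain ⟨Q, rfl⟩ := Polynomial.map_surjective φ hφ q
  have hQ0 : Q.coeff 0 ≠ 0 := by
    intro h0
    rw [Polynomial.coeff_map, h0, map_zero] at hq0
    exact hq0 rfl
  -- the relation as a polynomial in the coordinates
  have h1 : aeval h (∑ i ∈ Finset.range (Q.natDegree + 1), rename κ (Q.coeff i) * p ^ i) = 0 := by
    rw [← hq, map_sum, Polynomial.aeval_def, Polynomial.eval₂_map, Polynomial.eval₂_eq_sum_range]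
    refine Finset.sum_congr rfl fun i _ => ?_
    rw [map_mul, map_pow, aeval_rename]
    rfl
  have h2 := H _ h1
  rw [map_sum, Finset.sum_range_succ'] at h2
  rw [Finset.sum_eq_zero (fun i _ => by rw [map_mul, map_pow, hp, pow_succ, mul_zero, mul_zero]), zero_add,
    pow_zero, mul_one, aeval_rename] at h2
  exact hQ0 ((algebraicIndependent_iff.1 hi) _ h2)

theorem Sp.comp {h : Fin N → F} {a : Fin N → Fa} (H : Sp k h a) (κ : Fin N' → Fin N) :
    Sp k (h ∘ κ) (a ∘ κ) := fun p hp => RkB_comp H κ p hp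

end VPH
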