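import Pool.Agent.VPH.KruA
import Pool.Agent.VPH.KruB
import Pool.Agent.VPH.RkB

set_option autoImplicit false

/-!
# VPH-Kru: a divisor through `a`

Plan. `A := k[h] = (aeval h).range` (a Noetherian domain), `x = p(h) ∈ A` nonzero, `P₀` = the kernel of
`A → Fa`, `h ↦ a`, contains `x`. Let `P ⊆ P₀` be a minimal prime over `(x)`
(`Ideal.exists_minimalPrimes_le`); `P.height ≤ 1` (`Ideal.height_le_one_of_isPrincipal_of_mem_minimalPrimes`). The point `b`:
the images of `h` in `Fb := FractionRing (A ⧸ P)`. `Sp k h b`, `Sp k b a`, `p(b) = 0` are clear. `tr k b < tr k h`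
because of `Sp.symm_of_tr` and `p(h) ≠ 0`. For `tr k b ≥ tr k h - 1`: Noether normalisation
(`exists_integral_inj_algHom_of_fg` or `Algebra.FiniteType...exists_finite_inj_algHom`, see
`Mathlib/RingTheory/NoetherNormalization.lean`): `S = MvPolynomial (Fin r) k → A` injective and finite, `r = tr k h`
(transcendence degrees). `𝔭 := P.comap` has height at most one (`height_comap_le`), and `𝔭 ≠ ⊥` because `P ≠ ⊥`
(integral extension of domains, `Ideal.comap_ne_bot_of_...`), so `height_one_poly` gives `i`; the images in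
`A ⧸ P` of the variables `X j`, `j ≠ i`, are algebraically independent (`r - 1` of them), and they are
polynomials in `b` (`card_le_tr`).
-/

namespace VPH

open MvPolynomial

private theorem Kru_lower {k A Fb : Type} [Field k] [CommRing A] [IsDomain A] [Algebra k A]
    [IsNoetherianRing A] [Field Fb] [Algebra k Fb] {n : ℕ}
    (g : MvPolynomial (Fin n) k →ₐ[k] A) (hg : Function.Injective g) (hi : g.toRingHom.IsIntegral)
    (P : Ideal A) [P.IsPrime] (hP : P.height ≤ 1) (hP0 : P ≠ ⊥) (π : A →ₐ[k] Fb)
    (hπ : ∀ y, π y = 0 → y ∈ P) :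
    ∃ (m : ℕ) (y : Fin m → A), n = m + 1 ∧ AlgebraicIndependent k (fun j => π (y j)) := by
  letI : Algebra (MvPolynomial (Fin n) k) A := g.toRingHom.toAlgebra
  haveI : FaithfulSMul (MvPolynomial (Fin n) k) A := by
    rw [faithfulSMul_iff_algebraMap_injective]
    exact hg
  haveI : Algebra.IsIntegral (MvPolynomial (Fin n) k) A := ⟨fun a => hi a⟩
  have h1 : (P.comap (algebraMap (MvPolynomial (Fin n) k) A)).height ≤ 1 :=
    (height_comap_le P).trans hP
  have h2 : P.comap (algebraMap (MvPolynomial (Fin n) k) A) ≠ ⊥ := by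
    obtain ⟨x, hx, hx0⟩ := Submodule.exists_mem_ne_zero_of_ne_bot hP0
    exact Ideal.comap_ne_bot_of_integral_mem hx0 hx (Algebra.IsIntegral.isIntegral x)
  haveI : (P.comap (algebraMap (MvPolynomial (Fin n) k) A)).IsPrime := inferInstance
  obtain ⟨i, hi⟩ := height_one_poly _ h1 h2
  obtain _ | m := n
  · exact i.elim0
  refine ⟨m, fun j => g (X (i.succAbove j)), rfl, ?_⟩
  rw [algebraicIndependent_iff]
  intro q hq
  have h3 : aeval (fun j => π (g (X (i.succAbove j)))) q = π (g (rename i.succAbove q)) := by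
    have : (aeval (fun j => π (g (X (i.succAbove j)))) : MvPolynomial (Fin m) k →ₐ[k] Fb) =
        (π.comp g).comp (rename i.succAbove) := by
      apply MvPolynomial.algHom_ext
      intro j
      simp
    rw [this]
    rfl
  rw [h3] at hq
  by_contra hq0
  have h4 : rename i.succAbove q ≠ 0 := by
    intro h
    apply hq0
    apply rename_injective _ (Fin.succAbove_right_injective (p := i))
    rw [h, map_zero]
  have h5 := hi _ (show rename i.succAbove q ∈ P.comap (algebraMap (MvPolynomial (Fin (m+1)) k) A)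
    from hπ _ hq) h4
  have h6 := vars_rename i.succAbove q h5
  rw [Finset.mem_image] at h6
  obtain ⟨j, -, hj⟩ := h6
  exact Fin.succAbove_ne i j hj

theorem krull {k F Fa : Type} [Field k] [Field F] [Field Fa] [Algebra k F] [Algebra k Fa] {N : ℕ}
    (h : Fin N → F) (a : Fin N → Fa) (H : Sp k h a) (p : MvPolynomial (Fin N) k)
    (hp : aeval h p ≠ 0) (ap : aeval a p = 0) :
    ∃ (Fb : Type) (_ : Field Fb) (_ : Algebra k Fb) (b : Fin N → Fb),
      Sp k h b ∧ Sp k b a ∧ aeval b p = 0 ∧ tr k b + 1 = tr k h := by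
  set f : MvPolynomial (Fin N) k →ₐ[k] F := aeval h with hf
  set A := f.range with hA
  set r : MvPolynomial (Fin N) k →ₐ[k] A := f.rangeRestrict with hr
  have hrs : Function.Surjective r := f.rangeRestrict_surjective
  have hr1 : ∀ q, (r q : F) = aeval h q := fun q => rfl
  haveI : Algebra.FiniteType k A := Algebra.FiniteType.of_surjective r hrs
  haveI : IsNoetherianRing A := Algebra.FiniteType.isNoetherianRing k A
  -- the specialisation
  have hk : ∀ q ∈ RingHom.ker r, (aeval a : MvPolynomial (Fin N) k →ₐ[k] Fa) q = 0 := by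
    intro q hq
    apply H q
    rw [← hr1, (RingHom.mem_ker).1 hq]
    rfl
  let φ : A →ₐ[k] Fa := (Ideal.Quotient.liftₐ (RingHom.ker r) (aeval a) hk).comp
    (Ideal.quotientKerAlgEquivOfSurjective hrs).symm.toAlgHom
  have hφ : ∀ q, φ (r q) = aeval a q := by
    intro q
    have h1 : (Ideal.quotientKerAlgEquivOfSurjective hrs).symm (r q) =
        Ideal.Quotient.mk (RingHom.ker r) q := by
      rw [AlgEquiv.symm_apply_eq]
      rfl
    change (Ideal.Quotient.liftₐ (RingHom.ker r) (aeval a) hk)
      ((Ideal.quotientKerAlgEquivOfSurjective hrs).symm (r q)) = _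
    rw [h1]
    rfl
  have hx0 : r p ≠ 0 := by
    intro h0
    apply hp
    rw [← hr1, h0]
    rfl
  have hle : Ideal.span {r p} ≤ RingHom.ker φ := by
    rw [Ideal.span_singleton_le_iff_mem, RingHom.mem_ker, hφ, ap]
  haveI : (RingHom.ker φ).IsPrime := RingHom.ker_isPrime φ
  obtain ⟨P, hP, hPle⟩ := Ideal.exists_minimalPrimes_le hle
  haveI hPp : P.IsPrime := hP.1.1
  have hxP : r p ∈ P := hP.1.2 (Ideal.mem_span_singleton_self _)
  have hPh : P.height ≤ 1 := Ideal.height_le_one_of_isPrincipal_of_mem_minimalPrimes _ P hP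
  have hP0 : P ≠ ⊥ := by
    intro h0
    rw [h0] at hxP
    exact hx0 ((Ideal.mem_bot).1 hxP)
  let π : A →ₐ[k] FractionRing (A ⧸ P) :=
    (IsScalarTower.toAlgHom k (A ⧸ P) (FractionRing (A ⧸ P))).comp (Ideal.Quotient.mkₐ k P)
  have hπ : ∀ y, π y = 0 → y ∈ P := by
    intro y hy
    have h1 : algebraMap (A ⧸ P) (FractionRing (A ⧸ P)) (Ideal.Quotient.mk P y) = 0 := hy
    rw [← map_zero (algebraMap (A ⧸ P) (FractionRing (A ⧸ P)))] at h1
    have h2 := IsFractionRing.injective (A ⧸ P) (FractionRing (A ⧸ P)) h1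
    exact Ideal.Quotient.eq_zero_iff_mem.1 h2
  have hπ' : ∀ y ∈ P, π y = 0 := by
    intro y hy
    change algebraMap (A ⧸ P) (FractionRing (A ⧸ P)) (Ideal.Quotient.mk P y) = 0
    rw [Ideal.Quotient.eq_zero_iff_mem.2 hy, map_zero]
  have hb : ∀ q, aeval (fun j => π (r (X j))) q = π (r q) := by
    intro q
    have : (aeval (fun j => π (r (X j))) : MvPolynomial (Fin N) k →ₐ[k] FractionRing (A ⧸ P)) =
        π.comp r := by
      apply MvPolynomial.algHom_ext
      intro j
      simp
    rw [this]
    rfl
  have S1 : Sp k h (fun j => π (r (X j))) := by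
    intro q hq
    rw [hb]
    have : r q = 0 := Subtype.ext hq
    rw [this, map_zero]
  have S2 : Sp k (fun j => π (r (X j))) a := by
    intro q hq
    rw [hb] at hq
    rw [← hφ]
    exact RingHom.mem_ker.1 (hPle (hπ _ hq))
  have S3 : aeval (fun j => π (r (X j))) p = 0 := by
    rw [hb]
    exact hπ' _ hxP
  refine ⟨FractionRing (A ⧸ P), inferInstance, inferInstance, fun j => π (r (X j)), S1, S2, S3, ?_⟩
  have l1 : tr k (fun j => π (r (X j))) < tr k h := by
    refine lt_of_le_of_ne S1.tr_le fun he => ?_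
    exact hp (S1.symm_of_tr he.ge p S3)
  have l2 : tr k h ≤ tr k (fun j => π (r (X j))) + 1 := by
    obtain ⟨n, g, hg1, hg2⟩ := exists_integral_inj_algHom_of_fg k A
    obtain ⟨m, y, hm, hy⟩ := Kru_lower g hg1 hg2 P hPh hP0 π hπ
    have h3 : m ≤ tr k (fun j => π (r (X j))) := by
      refine card_le_tr k _ _ hy fun j => ?_
      obtain ⟨q, hq⟩ := hrs (y j)
      have h4 : π (y j) ∈ IntermediateField.adjoin k (Set.range fun j => π (r (X j))) := by
        rw [← hq, ← hb]
        apply IntermediateField.algebra_adjoin_le_adjoin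
        rw [Algebra.adjoin_range_eq_range_aeval]
        exact ⟨q, rfl⟩
      exact isAlgebraic_algebraMap (⟨_, h4⟩ : IntermediateField.adjoin k (Set.range fun j => π (r (X j))))
    have h5 : tr k h ≤ tr k (fun i : Fin n => (g (X i) : F)) := by
      refine tr_le_of_alg k _ _ fun j => ?_
      have h6 : g.toRingHom.IsIntegralElem (r (X j)) := hg2 _
      obtain ⟨q, hq1, hq2⟩ := h6
      have h7 : ∀ c : MvPolynomial (Fin n) k, (g c : F) ∈
          IntermediateField.adjoin k (Set.range fun i : Fin n => (g (X i) : F)) := by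
        intro c
        apply IntermediateField.algebra_adjoin_le_adjoin
        rw [Algebra.adjoin_range_eq_range_aeval]
        refine ⟨c, ?_⟩
        have : (aeval (fun i : Fin n => (g (X i) : F)) : MvPolynomial (Fin n) k →ₐ[k] F) =
            A.val.comp g := by
          apply MvPolynomial.algHom_ext
          intro i
          simp
        rw [this]
        rfl
      let γ : MvPolynomial (Fin n) k →+*
          IntermediateField.adjoin k (Set.range fun i : Fin n => (g (X i) : F)) :=
        (A.val.comp g).toRingHom.codRestrict _ h7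
      have h8 : IsIntegral (IntermediateField.adjoin k (Set.range fun i : Fin n => (g (X i) : F)))
          (h j) := by
        refine ⟨q.map γ, hq1.map γ, ?_⟩
        rw [Polynomial.eval₂_map]
        have h9 : (algebraMap (IntermediateField.adjoin k (Set.range fun i : Fin n => (g (X i) : F))) F).comp γ =
            A.val.toRingHom.comp g.toRingHom := by
          ext <;> rfl
        have h10 : h j = A.val.toRingHom (r (X j)) := by
          change h j = (r (X j) : F)
          rw [hr1, aeval_X]
        rw [h9, h10, ← Polynomial.hom_eval₂, hq2, map_zero]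
      exact h8.isAlgebraic
    have h6 := tr_le k (fun i : Fin n => (g (X i) : F))
    omega
  omega

end VPH
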