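import Pool.Agent.VPH.RkB
import Pool.Agent.VPH.Kru

set_option autoImplicit false

/-!
# VPH-HypB: the generic point of an irreducible hypersurface

Plan. `F = AlgebraicClosure (FractionRing (MvPolynomial (Fin N) ℂ ⧸ span {g}))` (`g` irreducible, so
prime: UFD). `tr a + 1 = N`: `a` is not independent (`g ≠ 0`), so `tr a < N`; and some variable `i`
occurs in `g`; a nonzero multiple of `g` involves `X i` (`height_one_poly`-type argument, `degreeOf` of a
product), so the other coordinates of `a` are independent (`card_le_tr`).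
-/

namespace VPH

open MvPolynomial

private theorem HypB_deg {N : ℕ} (i : Fin N) (p : MvPolynomial (Fin N) ℂ) : degreeOf i p = 0 ↔ i ∉ p.vars := by
  classical
  rw [degreeOf_def, vars_def, Multiset.mem_toFinset, Multiset.count_eq_zero]

/-- a variable that occurs in `g` -/
private theorem HypB_var {N : ℕ} (g : MvPolynomial (Fin N) ℂ) (hg : Irreducible g) :
    ∃ i, degreeOf i g ≠ 0 := by
  classical
  by_contra hcon
  push Not at hcon
  have hv : g.vars = ∅ := by
    rw [Finset.eq_empty_iff_forall_notMem]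
    intro i hi
    exact (HypB_deg i g).1 (hcon i) hi
  have h2 := vars_eq_empty_iff_eq_C.1 hv
  by_cases h0 : coeff 0 g = 0
  · rw [h0, C_0] at h2
    exact hg.ne_zero h2
  · apply hg.not_isUnit
    rw [h2]
    exact (isUnit_iff_ne_zero.2 h0).map (C : ℂ →+* MvPolynomial (Fin N) ℂ)

theorem exists_gp {N : ℕ} (g : MvPolynomial (Fin N) ℂ) (hg : Irreducible g) :
    ∃ (F : Type) (_ : Field F) (_ : IsAlgClosed F) (_ : Algebra ℂ F) (a : Fin N → F),
      (∀ p, aeval a p = 0 ↔ g ∣ p) ∧ tr ℂ a + 1 = N := by
  classical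
  have hprime : (Ideal.span {g} : Ideal (MvPolynomial (Fin N) ℂ)).IsPrime :=
    (Ideal.span_singleton_prime hg.ne_zero).2 hg.prime
  let A := MvPolynomial (Fin N) ℂ ⧸ (Ideal.span {g} : Ideal (MvPolynomial (Fin N) ℂ))
  have hdom : IsDomain A := Ideal.Quotient.isDomain _
  let F := AlgebraicClosure (FractionRing A)
  have hinj : Function.Injective (algebraMap A F) := by
    rw [IsScalarTower.algebraMap_eq A (FractionRing A) F]
    exact (algebraMap (FractionRing A) F).injective.comp (IsFractionRing.injective A (FractionRing A))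
  let φ : MvPolynomial (Fin N) ℂ →ₐ[ℂ] F :=
    (IsScalarTower.toAlgHom ℂ A F).comp (Ideal.Quotient.mkₐ ℂ (Ideal.span {g}))
  have hφ : ∀ p, aeval (fun i => φ (X i)) p = φ p := by
    intro p
    have h1 : (aeval (fun i => φ (X i)) : MvPolynomial (Fin N) ℂ →ₐ[ℂ] F) = φ := by
      apply MvPolynomial.algHom_ext
      intro j
      rw [aeval_X]
    rw [h1]
  have hker : ∀ p, aeval (fun i => φ (X i)) p = 0 ↔ g ∣ p := by
    intro p
    rw [hφ]
    have h1 : φ p = algebraMap A F (Ideal.Quotient.mk _ p) := rfl
    rw [h1, map_eq_zero_iff _ hinj, Ideal.Quotient.eq_zero_iff_mem, Ideal.mem_span_singleton]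
  refine ⟨F, inferInstance, inferInstance, inferInstance, fun i => φ (X i), hker, ?_⟩
  have hlt : tr ℂ (fun i => φ (X i)) ≠ N := by
    intro h1
    have h2 := (algInd_iff ℂ (fun i => φ (X i))).2 h1
    rw [algebraicIndependent_iff] at h2
    exact hg.ne_zero (h2 g ((hker g).2 dvd_rfl))
  have hle := tr_le ℂ (fun i => φ (X i))
  obtain ⟨i, hi⟩ := HypB_var g hg
  obtain _ | M := N
  · exact i.elim0
  have hind : AlgebraicIndependent ℂ ((fun i => φ (X i)) ∘ i.succAbove) := by
    rw [algebraicIndependent_iff]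
    intro q hq
    rw [← aeval_rename] at hq
    have h1 := (hker _).1 hq
    by_contra hq0
    have h2 : rename i.succAbove q ≠ 0 := by
      intro h3
      exact hq0 ((rename_injective _ Fin.succAbove_right_injective) (by rw [h3, map_zero]))
    obtain ⟨r, hr⟩ := h1
    have hr0 : r ≠ 0 := by
      rintro rfl
      exact h2 (by rw [hr, mul_zero])
    have h3 : degreeOf i (rename i.succAbove q) = 0 := by
      rw [HypB_deg]
      intro h4
      have h5 := vars_rename i.succAbove q h4
      rw [Finset.mem_image] at h5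
      obtain ⟨j, -, hj⟩ := h5
      exact Fin.succAbove_ne i j hj
    rw [hr, degreeOf_mul_eq hg.ne_zero hr0] at h3
    omega
  have h1 := (algInd_iff ℂ _).1 hind
  have h2 := tr_comp_le ℂ (fun i => φ (X i)) i.succAbove
  omega

end VPH
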