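import Pool.Agent.VPH.RkA
import Pool.Agent.VPH.SlpA
import Pool.Agent.VPH.SlpB
import Pool.Agent.VPH.StgB

set_option autoImplicit false

/-!
# VPH-HypC: adding polynomial coordinates to a cheap point

Plan. As `cheap_inv` (StgE): `m'` new coordinates `c'_j := aeval (c ∘ ι) (p j) ∈ O`, residue `aeval h (p j)`
(`aeval_mem` in StgB), new equations `w'_j - p_j(w ∘ ι) = 0` (`s' + 1` operations), coefficients in `K` (images of
complex numbers, `baseK`). The new gradients have the identity matrix in the new variables, the old equations do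
not contain them. `tr k (append h ..) = tr k h` (`tr_le_of_mem`), only `≥` is needed.
-/

namespace VPH

open MvPolynomial

private theorem HypC_coeff {E : Type} [Field E] {K : Subfield E} {m n : ℕ} {f : Fin m → Fin n}
    (hf : Function.Injective f) {P : MvPolynomial (Fin m) E} (hP : ∀ t, coeff t P ∈ K)
    (t : Fin n →₀ ℕ) : coeff t (rename f P) ∈ K := by
  by_cases h : coeff t (rename f P) = 0
  · rw [h]
    exact K.zero_mem
  · obtain ⟨u, rfl, -⟩ := coeff_rename_ne_zero f P t h
    rw [coeff_rename_mapDomain f hf]
    exact hP u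

/-- the new equations -/
private noncomputable def HypC_eq (E : Type) [Field E] [Algebra ℂ E] {m m' N : ℕ} (ι : Fin N → Fin m)
    (p : Fin m' → MvPolynomial (Fin N) ℂ) (j : Fin m') : MvPolynomial (Fin (m + m')) E :=
  X (Fin.natAdd m j) - rename (Fin.castAdd m') (rename ι (map (algebraMap ℂ E) (p j)))

private theorem HypC_old_pderiv {E : Type} [Field E] {m m' : ℕ} (P : MvPolynomial (Fin m) E)
    (l : Fin m') : pderiv (Fin.natAdd m l) (rename (Fin.castAdd m') P) = 0 := by
  classical
  apply pderiv_eq_zero_of_notMem_vars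
  intro h
  have h1 := vars_rename (Fin.castAdd m') P h
  rw [Finset.mem_image] at h1
  obtain ⟨a, -, ha⟩ := h1
  have := congrArg Fin.val ha
  simp at this
  have := a.2
  omega

private theorem HypC_eq_pderiv {E : Type} [Field E] [Algebra ℂ E] {m m' N : ℕ} (ι : Fin N → Fin m)
    (p : Fin m' → MvPolynomial (Fin N) ℂ) (j l : Fin m') (x : Fin (m + m') → E) :
    aeval x (pderiv (Fin.natAdd m l) (HypC_eq E ι p j)) = if j = l then (1 : E) else 0 := by
  classical
  unfold HypC_eq
  rw [map_sub, HypC_old_pderiv, sub_zero, pderiv_X]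
  by_cases h : j = l
  · subst h
    rw [Pi.single_eq_same, map_one, if_pos rfl]
  · rw [if_neg h, Pi.single_eq_of_ne, map_zero]
    intro h'
    apply h
    have := congrArg Fin.val h'
    simp at this
    exact Fin.ext this

theorem cheap_poly {k F : Type} [Field k] [Field F] [Algebra ℂ k] [Algebra ℂ F] [Algebra k F]
    [IsScalarTower ℂ k F] {s s' N m' g : ℕ} (hs : s' + 1 ≤ s) {h : Fin N → F}
    (H : Cheap k F s h g) (p : Fin m' → MvPolynomial (Fin N) ℂ) (hp : ∀ j, Comp s' (p j)) :
    Cheap k F s (Fin.append h (fun j => aeval h (p j))) (g + m') := by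
  obtain ⟨E, _, _, O, ρ, K, hS, m, c, ι, hc, G, hρ, hG, hK, h0, hlin, hm⟩ := H
  obtain ⟨y, hy⟩ : ∃ y : Fin m' → E, ∀ j, y j = aeval (fun a => c (ι a)) (p j) := ⟨_, fun _ => rfl⟩
  have hyρ : ∀ j, ∃ hj : y j ∈ O, ρ ⟨y j, hj⟩ = aeval h (p j) := by
    intro j
    obtain ⟨h1, h2⟩ := aeval_mem O ρ hS.base (fun a => (⟨c (ι a), hc a⟩ : O)) (p j)
    have h3 : (fun a => ρ ⟨c (ι a), hc a⟩) = h := funext hρ
    rw [h3] at h2
    refine ⟨by rw [hy]; exact h1, ?_⟩
    rw [← h2]
    congr 1
    exact Subtype.ext (hy j)
  have hcc : Fin.append c y ∘ Fin.castAdd m' = c := by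
    funext a
    exact Fin.append_left c y a
  have hall : ∀ j : Fin (N + m'), ∃ hj : Fin.append c y
      ((Fin.append (fun a => Fin.castAdd m' (ι a)) (fun b : Fin m' => Fin.natAdd m b) :
        Fin (N + m') → Fin (m + m')) j) ∈ O, ρ ⟨_, hj⟩ =
      Fin.append h (fun j => aeval h (p j)) j := by
    intro j
    refine Fin.addCases (fun a => ?_) (fun b => ?_) j
    · simp only [Fin.append_left]
      exact ⟨hc _, hρ a⟩
    · simp only [Fin.append_right]
      exact hyρ b
  have hcoefK : ∀ j t, coeff t (rename ι (map (algebraMap ℂ E) (p j))) ∈ K := by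
    intro j t
    rw [← map_rename, coeff_map]
    exact hS.baseK _
  refine ⟨E, inferInstance, inferInstance, O, ρ, K, hS, m + m', Fin.append c y,
    Fin.append (fun a => Fin.castAdd m' (ι a)) (fun b : Fin m' => Fin.natAdd m b),
    fun j => (hall j).1,
    Fin.append (fun a => rename (Fin.castAdd m') (G a)) (fun b => HypC_eq E ι p b),
    fun j => (hall j).2, ?_, ?_, ?_, ?_, ?_⟩
  · intro a
    refine Fin.addCases (fun a => ?_) (fun b => ?_) a
    · rw [Fin.append_left]
      exact (hG a).rename _
    · rw [Fin.append_right]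
      exact ((comp_X _).sub ((((hp b).map (algebraMap ℂ E)).rename ι).rename (Fin.castAdd m'))).mono (by omega)
  · intro a t
    refine Fin.addCases (fun a => ?_) (fun b => ?_) a
    · rw [Fin.append_left]
      exact HypC_coeff (Fin.castAdd_injective m m') (hK a) t
    · rw [Fin.append_right]
      unfold HypC_eq
      rw [coeff_sub]
      refine sub_mem ?_ (HypC_coeff (Fin.castAdd_injective m m') (hcoefK b) t)
      classical
      rw [coeff_X]
      split_ifs
      · exact one_mem _
      · exact zero_mem _
  · intro a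
    refine Fin.addCases (fun a => ?_) (fun b => ?_) a
    · rw [Fin.append_left, aeval_rename, hcc]
      exact h0 a
    · rw [Fin.append_right]
      unfold HypC_eq
      rw [map_sub, aeval_X, Fin.append_right, aeval_rename, hcc, aeval_rename, aeval_map_algebraMap, hy]
      exact sub_self _
  · rw [Fintype.linearIndependent_iff] at hlin ⊢
    intro a ha
    rw [Fin.sum_univ_add] at ha
    simp only [Fin.append_left, Fin.append_right] at ha
    have hnew : ∀ l : Fin m', a (Fin.natAdd g l) = 0 := by
      intro l
      have h1 := congrFun ha (Fin.natAdd m l)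
      simp only [Pi.add_apply, Finset.sum_apply, Pi.smul_apply, Pi.zero_apply, HypC_old_pderiv,
        HypC_eq_pderiv, map_zero, smul_eq_mul] at h1
      simp only [mul_ite, mul_zero, mul_one, Finset.sum_ite_eq', Finset.mem_univ, if_true,
        Finset.sum_const_zero, zero_add] at h1
      exact h1
    have hold : ∀ l : Fin g, a (Fin.castAdd m' l) = 0 := by
      refine hlin (fun l => a (Fin.castAdd m' l)) ?_
      funext l
      have h1 := congrFun ha (Fin.castAdd m' l)
      simp only [Pi.add_apply, Finset.sum_apply, Pi.smul_apply, Pi.zero_apply, hnew, zero_smul,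
        Finset.sum_const_zero, add_zero] at h1
      simp only [Finset.sum_apply, Pi.smul_apply, Pi.zero_apply]
      rw [← h1]
      refine Finset.sum_congr rfl fun b _ => ?_
      rw [pderiv_rename (Fin.castAdd_injective m m'), aeval_rename, hcc]
    intro b
    refine Fin.addCases (fun b => ?_) (fun b => ?_) b
    · exact hold b
    · exact hnew b
  · have h1 := tr_comp_le k (Fin.append h (fun j => aeval h (p j))) (Fin.castAdd m')
    have h2 : Fin.append h (fun j => aeval h (p j)) ∘ Fin.castAdd m' = h := by
      funext a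
      exact Fin.append_left _ _ a
    rw [h2] at h1
    omega

end VPH
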