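import Pool.Agent.VPH.RkB
import Pool.Agent.VPH.BcE

set_option autoImplicit false

/-!
# VPH-HypD: conjugate points are cheap

`k ⊆ F` algebraically closed, `h, h'` in `F^N` with the same equations over `k`. There is an
automorphism `σ` of `F` over `k` with `σ (h j) = h' j` (`exists_aut`), and cheapness is invariant
(`cheap_conj`): replace `ρ` by `σ ∘ ρ`; a lift of `σ⁻¹ D σ` for `ρ` is a lift of `D` for `σ ∘ ρ`.

Plan for `exists_aut`. `A := MvPolynomial (Fin N) k ⧸ ker (aeval h)`; `F` is an `A`-algebra in two ways, by `h` and by `h'`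
(use a type synonym or `letI` with explicit instances, or pass to the intermediate fields `k(h)` and `k(h')`, which are
isomorphic over `k`). `trdeg k F = tr h + trdeg (k(h)) F` (`trdeg_add_eq`), the same for `h'`, and `tr k h = tr k h'` is finite, so
`trdeg (k(h)) F = trdeg (k(h')) F` (cardinal cancellation of a finite cardinal). Choose transcendence bases of `F` over
`k(h)` and over `k(h')` with an equivalence of the index types; `IsAlgClosed.equivOfTranscendenceBasis`
(`Mathlib/FieldTheory/IsAlgClosed/Classification.lean`) or its proof (`IsAlgClosure.equivOfEquiv` with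
`equivOfEquiv_comp_algebraMap`) gives `σ` compatible with the isomorphism `k(h) ≃ k(h')`.
-/

namespace VPH

open MvPolynomial

private theorem hypD_ext {k S F F₂ : Type} [Field k] [CommRing S] [IsDomain S] [Field F] [Field F₂]
    [Algebra k S] [Algebra k F] [Algebra k F₂] [Algebra S F] [Algebra S F₂] [IsScalarTower k S F]
    [IsScalarTower k S F₂] [IsAlgClosed F] [IsAlgClosed F₂] [FaithfulSMul S F] [FaithfulSMul S F₂]
    [Algebra.FiniteType k S] (heq : Algebra.trdeg k F = Algebra.trdeg k F₂) :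
    ∃ e : F ≃+* F₂, ∀ x : S, e (algebraMap S F x) = algebraMap S F₂ x := by
  have h1 := trdeg_add_eq k S (A := F)
  have h2 := trdeg_add_eq k S (A := F₂)
  have hfin : Algebra.trdeg k S < Cardinal.aleph0 := trdeg_lt_aleph0_of_finiteType
  have h3 : Algebra.trdeg S F = Algebra.trdeg S F₂ :=
    Cardinal.eq_of_add_eq_add_left (h1.trans (heq.trans h2.symm)) hfin
  obtain ⟨s, hs⟩ := exists_isTranscendenceBasis S F
  obtain ⟨t, ht⟩ := exists_isTranscendenceBasis S F₂
  have h4 : Cardinal.mk s = Cardinal.mk t := by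
    rw [hs.cardinalMk_eq_trdeg, ht.cardinalMk_eq_trdeg, h3]
  obtain ⟨e0⟩ := Cardinal.eq.1 h4
  have := IsAlgClosed.isAlgClosure_of_transcendence_basis _ hs
  have := IsAlgClosed.isAlgClosure_of_transcendence_basis _ ht
  let φ : Algebra.adjoin S (Set.range ((↑) : s → F)) ≃ₐ[S] Algebra.adjoin S (Set.range ((↑) : t → F₂)) :=
    hs.1.aevalEquiv.symm.trans ((MvPolynomial.renameEquiv S e0).trans ht.1.aevalEquiv)
  refine ⟨IsAlgClosure.equivOfEquiv F F₂ φ.toRingEquiv, fun x => ?_⟩
  rw [IsScalarTower.algebraMap_apply S (Algebra.adjoin S (Set.range ((↑) : s → F))) F,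
    IsAlgClosure.equivOfEquiv_algebraMap]
  have h5 : φ.toRingEquiv (algebraMap S (Algebra.adjoin S (Set.range ((↑) : s → F))) x) =
      algebraMap S (Algebra.adjoin S (Set.range ((↑) : t → F₂))) x := φ.commutes x
  rw [h5, ← IsScalarTower.algebraMap_apply]

theorem exists_aut {k F : Type} [Field k] [Field F] [Algebra k F] [IsAlgClosed F] {N : ℕ}
    (h h' : Fin N → F) (H : Sp k h h') (H' : Sp k h' h) :
    ∃ σ : F ≃ₐ[k] F, ∀ j, σ (h j) = h' j := by
  classical
  let A : MvPolynomial (Fin N) k →ₐ[k] F × F := aeval (fun j => (h j, h' j))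
  have hA1 : ∀ p, (A p).1 = aeval h p := by
    intro p
    have : (AlgHom.fst k F F).comp A = aeval h := by
      apply MvPolynomial.algHom_ext
      intro j
      simp [A]
    exact DFunLike.congr_fun this p
  have hA2 : ∀ p, (A p).2 = aeval h' p := by
    intro p
    have : (AlgHom.snd k F F).comp A = aeval h' := by
      apply MvPolynomial.algHom_ext
      intro j
      simp [A]
    exact DFunLike.congr_fun this p
  let S := A.range
  let π₁ : S →ₐ[k] F := (AlgHom.fst k F F).comp S.val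
  let π₂ : S →ₐ[k] F := (AlgHom.snd k F F).comp S.val
  have hπ₁ : Function.Injective π₁ := by
    rw [injective_iff_map_eq_zero]
    rintro ⟨x, ⟨p, rfl⟩⟩ hx
    have h1 : (A p).1 = 0 := hx
    rw [hA1] at h1
    have h2 := H p h1
    have h3 : (A p).1 = 0 := (hA1 p).trans h1
    have h4 : (A p).2 = 0 := (hA2 p).trans h2
    exact Subtype.ext (Prod.ext h3 h4)
  have hπ₂ : Function.Injective π₂ := by
    rw [injective_iff_map_eq_zero]
    rintro ⟨x, ⟨p, rfl⟩⟩ hx
    have h1 : (A p).2 = 0 := hx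
    rw [hA2] at h1
    have h2 := H' p h1
    have h3 : (A p).1 = 0 := (hA1 p).trans h2
    have h4 : (A p).2 = 0 := (hA2 p).trans h1
    exact Subtype.ext (Prod.ext h3 h4)
  have : IsDomain S := hπ₁.isDomain π₁.toRingHom
  have hft : Algebra.FiniteType k S :=
    Algebra.FiniteType.of_surjective A.rangeRestrict A.rangeRestrict_surjective
  let i₁ : Algebra S F := π₁.toRingHom.toAlgebra
  let i₂ : Algebra S F := π₂.toRingHom.toAlgebra
  have f₁ : @FaithfulSMul S F i₁.toSMul :=
    (@faithfulSMul_iff_algebraMap_injective S F _ _ i₁).2 hπ₁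
  have f₂ : @FaithfulSMul S F i₂.toSMul :=
    (@faithfulSMul_iff_algebraMap_injective S F _ _ i₂).2 hπ₂
  have t₁ : @IsScalarTower k S F _ i₁.toSMul _ :=
    @IsScalarTower.of_algebraMap_eq k S F _ _ _ _ i₁ _ fun x => (π₁.commutes x).symm
  have t₂ : @IsScalarTower k S F _ i₂.toSMul _ :=
    @IsScalarTower.of_algebraMap_eq k S F _ _ _ _ i₂ _ fun x => (π₂.commutes x).symm
  obtain ⟨e, he⟩ := @hypD_ext k S F F _ _ _ _ _ _ _ _ i₁ i₂ t₁ t₂ _ _ f₁ f₂ hft rfl
  have he' : ∀ x : S, e (π₁ x) = π₂ x := he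
  refine ⟨AlgEquiv.ofRingEquiv (f := e) fun r => ?_, fun j => ?_⟩
  · have := he' (algebraMap k S r)
    rw [π₁.commutes, π₂.commutes] at this
    exact this
  · have h1 := he' ⟨A (X j), ⟨X j, rfl⟩⟩
    have e1 : π₁ ⟨A (X j), ⟨X j, rfl⟩⟩ = h j := by
      have : (A (X j)).1 = h j := by rw [hA1]; simp
      exact this
    have e2 : π₂ ⟨A (X j), ⟨X j, rfl⟩⟩ = h' j := by
      have : (A (X j)).2 = h' j := by rw [hA2]; simp
      exact this
    rw [e1, e2] at h1
    exact h1

/-- conjugate derivation -/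
private noncomputable def hypD_conj {k F : Type} [Field k] [Field F] [Algebra k F] (σ : F ≃ₐ[k] F)
    (D : Derivation k F F) : Derivation k F F :=
  Derivation.mk' (σ.symm.toLinearMap ∘ₗ D.toLinearMap ∘ₗ σ.toLinearMap) (by
    intro a b
    simp [Derivation.leibniz])

theorem cheap_conj {k F : Type} [Field k] [Field F] [Algebra ℂ k] [Algebra ℂ F] [Algebra k F]
    [IsScalarTower ℂ k F] [IsAlgClosed F] {s N g : ℕ} {h h' : Fin N → F} (H : Sp k h h')
    (H' : Sp k h' h) (hc : Cheap k F s h g) : Cheap k F s h' g := by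
  obtain ⟨σ, hσ⟩ := exists_aut h h' H H'
  obtain ⟨E, fE, aE, O, ρ, K, hS, m, c, ι, hcO, G, h1, h2, h3, h4, h5, h6⟩ := hc
  have htr : tr k h ≤ tr k h' := H'.tr_le
  refine ⟨E, fE, aE, O, (σ : F →+* F).comp ρ, K, ⟨?_, ?_, ?_, hS.baseK, ?_⟩, m, c, ι, hcO, G, ?_, h2, h3,
    h4, h5, h6.trans (by omega)⟩
  · exact σ.surjective.comp hS.surj
  · intro b hb
    apply hS.inv b
    intro h0
    apply hb
    simp [h0]
  · intro z
    obtain ⟨hz, hz'⟩ := hS.base z
    refine ⟨hz, ?_⟩
    have : σ (algebraMap ℂ F z) = algebraMap ℂ F z := by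
      rw [IsScalarTower.algebraMap_apply ℂ k F, σ.commutes]
    simp [hz', this]
  · intro D
    obtain ⟨D', hD1, hD2⟩ := hS.lift (hypD_conj σ D)
    refine ⟨D', hD1, fun b => ?_⟩
    obtain ⟨hb, hb'⟩ := hD2 b
    refine ⟨hb, ?_⟩
    have : hypD_conj σ D (ρ b) = σ.symm (D (σ (ρ b))) := rfl
    simp [hb', this]
  · intro j
    simp [h1 j, hσ j]

end VPH
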