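import Pool.Agent.VPH.HypE
import Pool.Agent.VPH.DexA
import Pool.Agent.VPH.DexB
import Pool.Agent.VPH.NwtA
import Pool.Agent.VPH.NwtB
import Pool.Agent.VPH.LinA
import Pool.Agent.VPH.Adj
import Pool.Agent.VPH.DerA
import Pool.Agent.VPH.StgB
import Pool.Agent.VPH.RkA

set_option autoImplicit false

/-!
# VPH-HypF: the expansion of a cheap algebraic function

Plan. The proof of `extract` in Extr.lean up to `Res.dex`: now `D` and `Δ'` are given (instead of `der_ind`,
`exists_delta` over `F`), the last coordinate is `y`, and `tr k (snoc x y) ≤ n` is a hypothesis. It gives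
`P` with `Comp (n + d * (g * s + 2 * g ^ 2 + g)) P`, `tru d P = dex Δ d (C ŷ)`,
`Res O ρ (tru d P) (dex Δ' d (C y))`; finish with `closure_stepF`. Copy from Extr.lean.
-/

namespace VPH

open MvPolynomial

private theorem extrF_congr {R A : Type} [CommRing R] [CommRing A] [Algebra R A] {m : ℕ} (I : Ideal A)
    (u v : Fin m → A) (h : ∀ i, u i - v i ∈ I) (p : MvPolynomial (Fin m) R) :
    aeval u p - aeval v p ∈ I := by
  induction p using MvPolynomial.induction_on with
  | C a =>
    rw [aeval_C, aeval_C, sub_self]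
    exact I.zero_mem
  | add p q hp hq =>
    rw [map_add, map_add]
    have h1 : aeval u p + aeval u q - (aeval v p + aeval v q) =
        (aeval u p - aeval v p) + (aeval u q - aeval v q) := by ring
    rw [h1]
    exact I.add_mem hp hq
  | mul_X p i hp =>
    rw [map_mul, map_mul, aeval_X, aeval_X]
    have h1 : aeval u p * u i - aeval v p * v i =
        (aeval u p - aeval v p) * u i + aeval v p * (u i - v i) := by ring
    rw [h1]
    exact I.add_mem (I.mul_mem_right _ hp) (I.mul_mem_left _ (h i))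

private theorem extrF_dex_zero {A : Type} [CommRing A] [Algebra ℚ A] (Δ : Derivation ℤ A A) (a : A) :
    dex Δ 0 a = a := by
  unfold dex
  simp

private theorem extrF_coord {n : ℕ} {E : Type} [Field E] [Algebra ℚ (MvPolynomial (Fin n) E)]
    {D : Fin n → Derivation ℤ E E}
    {Δ : Derivation ℤ (MvPolynomial (Fin n) E) (MvPolynomial (Fin n) E)} (h : IsDel D Δ) (d : ℕ)
    (b : E) (j : Fin n) (hb : ∀ i, D i b = if i = j then 1 else 0) :
    (X j + C b : MvPolynomial (Fin n) E) - dex Δ d (C b) ∈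
      (Ideal.span (Set.range (X : Fin n → MvPolynomial (Fin n) E))) ^ (d + 1) := by
  have h1 : Δ (C b) = X j := by
    rw [h.2 b, Finset.sum_eq_single j]
    · rw [hb j, if_pos rfl, C_1, mul_one]
    · intro i _ hi
      rw [hb i, if_neg hi, C_0, mul_zero]
    · intro hh
      exact absurd (Finset.mem_univ j) hh
  rcases d with _ | d
  · rw [extrF_dex_zero, add_sub_cancel_right, zero_add, pow_one]
    exact Ideal.subset_span ⟨j, rfl⟩
  · have h3 : Δ (Δ (C b)) = 0 := by
      rw [h1]
      exact h.1 j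
    have h2 : dex Δ (d + 1) (C b) = C b + X j :=
      (dex_lin Δ d (C b) h3).trans (congrArg (fun z : MvPolynomial (Fin n) E => C b + z) h1)
    rw [h2, add_comm (X j) (C b), sub_self]
    exact Ideal.zero_mem _

theorem extractF {k F : Type} [Field k] [Field F] [Algebra ℂ k] [Algebra ℂ F] [Algebra k F]
    [IsScalarTower ℂ k F] {n s g : ℕ} [Algebra ℚ (MvPolynomial (Fin n) F)] (d : ℕ) (x : Fin n → F)
    (y : F)
    (ht : tr k (Fin.snoc x y : Fin (n + 1) → F) ≤ n)
    (H : Cheap k F s (Fin.snoc x y : Fin (n + 1) → F) g) (D : Fin n → Derivation k F F)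
    (hD : ∀ i j, D i (x j) = if i = j then 1 else 0)
    (Δ' : Derivation ℤ (MvPolynomial (Fin n) F) (MvPolynomial (Fin n) F))
    (hΔ' : IsDel (fun i => (D i).restrictScalars ℤ) Δ') :
    BdF F d (2 * (d + 1) ^ 2 * (n + d * (g * s + 2 * g ^ 2 + g)) + d) (dex Δ' d (C y)) := by
  have hk0 : CharZero k := charZero_of_injective_algebraMap (algebraMap ℂ k).injective
  have hF0 : CharZero F := charZero_of_injective_algebraMap (algebraMap ℂ F).injective
  obtain ⟨E, _, _, O, ρ, K, hS, m, c, ι, hc, G, hρ, hG, hGK, hG0, hGi, hm⟩ := H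
  have hE0 : CharZero E := charZero_of_injective_algebraMap (algebraMap ℂ E).injective
  have hmn : m ≤ n + g := hm.trans (Nat.add_le_add_right ht g)
  -- the points of O
  obtain ⟨κ, hκd⟩ : ∃ κ : Fin n → Fin m, κ = fun i => ι (Fin.castSucc i) := ⟨_, rfl⟩
  have hcκ : ∀ i, c (κ i) ∈ O := by
    intro i
    rw [hκd]
    exact hc _
  have hρκ : ∀ i, ρ ⟨c (κ i), hcκ i⟩ = x i := by
    intro i
    subst hκd
    have h1 := hρ (Fin.castSucc i)
    rw [Fin.snoc_castSucc] at h1
    exact h1
  obtain ⟨D', hDK, hDO, hDδ⟩ := adjust O ρ K hS.inv hS.lift (fun i => ⟨c (κ i), hcκ i⟩) D (by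
    intro i j
    rw [hρκ j]
    exact hD i j)
  have hDc : ∀ i j, D' i (c (κ j)) = if i = j then 1 else 0 := hDδ
  -- linear algebra
  obtain ⟨e, B, heκ, hB⟩ := lin_alg (fun (l : Fin g) (t : Fin m) => aeval c (pderiv t (G l))) hGi κ
    (fun i t => D' i (c t)) (by
      intro i l
      rw [← chain (D' i) K (hDK i) c (G l) (hGK l), hG0 l, map_zero]) hDc hmn
  have hinl : ∀ i j, e i = Sum.inl j → i = κ j := fun i j h => e.injective (h.trans (heκ j).symm)
  have hinr : ∀ i l, e i = Sum.inr l → i = e.symm (Sum.inr l) := by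
    intro i l h
    rw [← h, Equiv.symm_apply_apply]
  -- the truncated exponential
  obtain ⟨Δ, hΔ⟩ := exists_delta D'
  obtain ⟨𝔞, h𝔞⟩ : ∃ 𝔞 : Ideal (MvPolynomial (Fin n) E),
    𝔞 = Ideal.span (Set.range (X : Fin n → MvPolynomial (Fin n) E)) := ⟨_, rfl⟩
  have hΔm : ∀ j, ∀ b ∈ 𝔞 ^ j, Δ b ∈ 𝔞 ^ (j + 1) := by
    subst h𝔞
    exact fun j b hb => hΔ.mem j b hb
  have hcoord : ∀ j, (X j + C (c (κ j)) : MvPolynomial (Fin n) E) - dex Δ d (C (c (κ j))) ∈
      𝔞 ^ (d + 1) := by
    subst h𝔞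
    exact fun j => extrF_coord hΔ d (c (κ j)) j fun i => hDc i j
  have hall : ∀ i, Sum.elim (fun j : Fin n => (X j + C (c (κ j)) : MvPolynomial (Fin n) E))
      (fun l : Fin g => dex Δ d (C (c (e.symm (Sum.inr l))))) (e i) - dex Δ d (C (c i)) ∈
      𝔞 ^ (d + 1) := by
    intro i
    rcases h : e i with j | l
    · rw [Sum.elim_inl, hinl i j h]
      exact hcoord j
    · rw [Sum.elim_inr, ← hinr i l h, sub_self]
      exact Ideal.zero_mem _
  have hGm : ∀ l, aeval (fun i => Sum.elim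
      (fun j : Fin n => (X j + C (c (κ j)) : MvPolynomial (Fin n) E))
      (fun l : Fin g => dex Δ d (C (c (e.symm (Sum.inr l))))) (e i)) (G l) ∈ 𝔞 ^ (d + 1) := by
    intro l
    have h1 := dex_aeval Δ 𝔞 hΔm d (fun i : Fin m => (C (c i) : MvPolynomial (Fin n) E)) (G l)
      (by
        intro t
        refine (hΔ.2 (coeff t (G l))).trans (Finset.sum_eq_zero fun i _ => ?_)
        rw [hDK i _ (hGK l t), C_0, mul_zero])
    have h2 : aeval (fun i : Fin m => (C (c i) : MvPolynomial (Fin n) E)) (G l) = 0 := by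
      refine (aeval_algebraMap_apply (MvPolynomial (Fin n) E) c (G l)).trans ?_
      rw [hG0 l, map_zero]
    rw [h2] at h1
    have h3 : dex Δ d (0 : MvPolynomial (Fin n) E) = 0 := dex_const Δ d 0 (map_zero Δ)
    have h4 : aeval (fun i => dex Δ d (C (c i) : MvPolynomial (Fin n) E)) (G l) ∈ 𝔞 ^ (d + 1) := by
      have h5 := h1
      rw [h3, sub_zero] at h5
      exact h5
    have h6 := (𝔞 ^ (d + 1)).add_mem (extrF_congr (𝔞 ^ (d + 1)) _ _ hall (G l)) h4
    rw [sub_add_cancel] at h6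
    exact h6
  have hnw : ∀ l : Fin g, nwt e G B (fun j : Fin n => (X j + C (c (κ j)) : MvPolynomial (Fin n) E))
      (fun l : Fin g => c (e.symm (Sum.inr l))) d l - dex Δ d (C (c (e.symm (Sum.inr l)))) ∈
      𝔞 ^ (d + 1) := by
    have hfun : (fun i => Sum.elim (fun j : Fin n => c (κ j))
        (fun l : Fin g => c (e.symm (Sum.inr l))) (e i)) = c := by
      funext i
      rcases h : e i with j | l
      · rw [Sum.elim_inl, hinl i j h]
      · rw [Sum.elim_inr, ← hinr i l h]
    refine nwt_mem e G B 𝔞 d (fun j : Fin n => (X j + C (c (κ j)) : MvPolynomial (Fin n) E))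
      (fun l : Fin g => dex Δ d (C (c (e.symm (Sum.inr l))))) (fun j => c (κ j))
      (fun l : Fin g => c (e.symm (Sum.inr l))) ?_ ?_ hGm ?_ d le_rfl
    · intro i
      rw [MvPolynomial.algebraMap_eq, add_sub_cancel_right, h𝔞]
      exact Ideal.subset_span ⟨i, rfl⟩
    · intro l
      rw [MvPolynomial.algebraMap_eq]
      exact dex_sub_mem Δ 𝔞 hΔm d (C (c (e.symm (Sum.inr l))))
    · rw [hfun]
      exact hB
  -- the program
  obtain ⟨P, hPd⟩ : ∃ P : MvPolynomial (Fin n) E,
    P = Sum.elim (fun j : Fin n => (X j + C (c (κ j)) : MvPolynomial (Fin n) E))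
      (nwt e G B (fun j : Fin n => (X j + C (c (κ j)) : MvPolynomial (Fin n) E))
        (fun l : Fin g => c (e.symm (Sum.inr l))) d) (e (ι (Fin.last n))) := ⟨_, rfl⟩
  have hPc : Comp (n + d * (g * s + 2 * g ^ 2 + g)) P := by
    subst hPd
    exact (compF_nwt e G hG B (fun j => c (κ j)) (fun l => c (e.symm (Sum.inr l))) d).apply _
  have hPm : P - dex Δ d (C (c (ι (Fin.last n)))) ∈ 𝔞 ^ (d + 1) := by
    rw [hPd]
    rcases h : e (ι (Fin.last n)) with j | l
    · rw [Sum.elim_inl, hinl _ j h]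
      exact hcoord j
    · rw [Sum.elim_inr, hinr _ l h]
      exact hnw l
  have htru : tru d P = dex Δ d (C (c (ι (Fin.last n)))) := by
    have h1 : tru d (P - dex Δ d (C (c (ι (Fin.last n))))) = 0 := by
      refine tru_eq_zero ?_
      rw [← h𝔞]
      exact hPm
    rw [tru_sub, tru_eq_self (hΔ.dex_totalDegree d (c (ι (Fin.last n)))), sub_eq_zero] at h1
    exact h1
  -- residues
  have hρl : ρ ⟨c (ι (Fin.last n)), hc _⟩ = y := by
    rw [hρ (Fin.last n), Fin.snoc_last]
  have hRes := Res.dex hS.base (D := D') (D' := fun i => (D i).restrictScalars ℤ)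
    (fun i b => hDO i b) hΔ hΔ' d ⟨c (ι (Fin.last n)), hc _⟩
  rw [hρl, ← htru] at hRes
  exact closure_stepF O ρ hS.base P hPc _ hRes

end VPH
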