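import Pool.Agent.VPH.HypDefs

set_option autoImplicit false

/-!
# VPH-HypG: the closure of a product

`Q` is a polynomial in the coefficients of `r` polynomials `g 0, .., g (r-1)` in `n` variables and in `n` more
variables `x`. If `Q` vanishes at all complex `g i` of degree `≤ d` computed with at most `S` operations and all complex `x`, then `Q`
vanishes at all `f i` over `F` in the closure (`BdF`) and all `x` over `F`.

Plan. One replacement step: let `τ = A ⊕ B` be variables, `Q ∈ MvPolynomial (A ⊕ B) ℂ`, `b : B → F`. Let `e_j` be a basis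
of `F` over `ℂ`; `Q(·, b) = ∑ e_j Q_j` with `Q_j ∈ MvPolynomial A ℂ` (finite sum; apply the `j`-th coordinate functional to the
coefficients of `Q(·, b) ∈ MvPolynomial A F`). If `Q(a, b) = 0` for all complex `a` in a set `Z`, then all `Q_j` vanish on `Z`, so if `a'`
over `F` is a common zero of all complex polynomials vanishing on `Z`, then `Q(a', b) = ∑ e_j Q_j(a') = 0`.
Replace `g 0, g 1, ..` by `f 0, f 1, ..` one after the other (induction on the number of indices already replaced, `Function.update` or
`if i < j then f i else g i`), then each... `x` in one step (`Z` = all complex points, a polynomial vanishing everywhere is `0`).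
-/

namespace VPH

open MvPolynomial

/-- replacing complex points by a point of the closure -/
private theorem hypG_rep {F : Type} [Field F] [Algebra ℂ F] {A B : Type} (Z : Set (A → ℂ)) (a' : A → F)
    (ha' : ∀ q : MvPolynomial A ℂ, (∀ a ∈ Z, eval a q = 0) → aeval a' q = 0) (b : B → F)
    (Q : MvPolynomial (A ⊕ B) ℂ)
    (h : ∀ a ∈ Z, aeval (Sum.elim (fun i => algebraMap ℂ F (a i)) b) Q = 0) :
    aeval (Sum.elim a' b) Q = 0 := by
  classical
  obtain ⟨P, hP⟩ : ∃ P : MvPolynomial A F, P = aeval (Sum.elim X (fun i => C (b i)) : A ⊕ B → MvPolynomial A F) Q :=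
    ⟨_, rfl⟩
  have hev : ∀ a : A → F, aeval a P = aeval (Sum.elim a b) Q := by
    intro a
    have h1 : ((aeval a : MvPolynomial A F →ₐ[F] F).restrictScalars ℂ).comp
        (aeval (Sum.elim X (fun i => C (b i)) : A ⊕ B → MvPolynomial A F)) =
        (aeval (Sum.elim a b) : MvPolynomial (A ⊕ B) ℂ →ₐ[ℂ] F) := by
      apply MvPolynomial.algHom_ext
      intro i
      rcases i with i | i
      · simp
      · simp
    rw [hP, ← h1]
    rfl
  -- the coordinates
  have hφ : ∀ φ : F →ₗ[ℂ] ℂ, ∑ m ∈ P.support, (φ (coeff m P)) • (∏ i ∈ m.support, a' i ^ m i) = 0 := by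
    intro φ
    have h1 := ha' (∑ m ∈ P.support, monomial m (φ (coeff m P))) (by
      intro a ha
      have h2 := h a ha
      rw [← hev, MvPolynomial.aeval_def, MvPolynomial.eval₂_eq] at h2
      have h3 := congrArg φ h2
      rw [map_sum, map_zero] at h3
      rw [map_sum, ← h3]
      refine Finset.sum_congr rfl fun m _ => ?_
      rw [eval_monomial, Algebra.algebraMap_self, RingHom.id_apply]
      have h4 : (∏ i ∈ m.support, (algebraMap ℂ F (a i)) ^ m i) = algebraMap ℂ F (∏ i ∈ m.support, a i ^ m i) := by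
        rw [map_prod]
        exact Finset.prod_congr rfl fun i _ => (map_pow _ _ _).symm
      rw [h4, mul_comm (coeff m P), ← Algebra.smul_def, map_smul, smul_eq_mul, mul_comm]
      rfl)
    rw [map_sum] at h1
    rw [← h1]
    refine Finset.sum_congr rfl fun m _ => ?_
    rw [aeval_monomial, Algebra.smul_def]
    rfl
  let e := Module.Basis.ofVectorSpace ℂ F
  let J := P.support.biUnion fun m => (e.repr (coeff m P)).support
  have hJ : ∀ m ∈ P.support, coeff m P = ∑ j ∈ J, (e.repr (coeff m P) j) • e j := by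
    intro m hm
    have h1 := e.linearCombination_repr (coeff m P)
    rw [Finsupp.linearCombination_apply, Finsupp.sum_of_support_subset (s := J) _ _ _ (fun j _ => zero_smul ℂ (e j))] at h1
    · exact h1.symm
    · exact fun j hj => Finset.mem_biUnion.2 ⟨m, hm, hj⟩
  rw [← hev, MvPolynomial.aeval_def, MvPolynomial.eval₂_eq]
  have h5 : ∀ m ∈ P.support, (algebraMap F F) (coeff m P) * ∏ i ∈ m.support, a' i ^ m i =
      ∑ j ∈ J, e j * ((e.repr (coeff m P) j) • ∏ i ∈ m.support, a' i ^ m i) := by
    intro m hm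
    rw [Algebra.algebraMap_self, RingHom.id_apply]
    conv_lhs => rw [hJ m hm]
    rw [Finset.sum_mul]
    refine Finset.sum_congr rfl fun j _ => ?_
    rw [smul_mul_assoc, mul_smul_comm]
  rw [Finset.sum_congr rfl h5, Finset.sum_comm]
  refine Finset.sum_eq_zero fun j _ => ?_
  rw [← Finset.mul_sum]
  have h6 := hφ (e.coord j)
  have h7 : ∑ m ∈ P.support, (e.repr (coeff m P) j) • (∏ i ∈ m.support, a' i ^ m i) = 0 := h6
  rw [h7, mul_zero]

theorem vanish_prod {F : Type} [Field F] [Algebra ℂ F] {r n d S : ℕ}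
    (f : Fin r → MvPolynomial (Fin n) F) (hf : ∀ i, BdF F d S (f i)) (x : Fin n → F)
    (Q : MvPolynomial ((Fin r × (Fin n →₀ ℕ)) ⊕ Fin n) ℂ)
    (hQ : ∀ (g : Fin r → MvPolynomial (Fin n) ℂ) (x : Fin n → ℂ),
      (∀ i, (g i).totalDegree ≤ d ∧ Comp S (g i)) →
      eval (Sum.elim (fun p => coeff p.2 (g p.1)) x) Q = 0) :
    aeval (Sum.elim (fun p => coeff p.2 (f p.1)) x) Q = 0 := by
  classical
  -- the partly replaced points
  have key : ∀ j : ℕ, j ≤ r → ∀ (g : Fin r → MvPolynomial (Fin n) ℂ) (x : Fin n → ℂ),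
      (∀ i, (g i).totalDegree ≤ d ∧ Comp S (g i)) →
      aeval (Sum.elim (fun p : Fin r × (Fin n →₀ ℕ) => if (p.1 : ℕ) < j then coeff p.2 (f p.1)
        else algebraMap ℂ F (coeff p.2 (g p.1))) (fun i => algebraMap ℂ F (x i))) Q = 0 := by
    intro j
    induction j with
    | zero =>
      intro _ g x hg
      have h1 := hQ g x hg
      have h2 : (Sum.elim (fun p : Fin r × (Fin n →₀ ℕ) => if (p.1 : ℕ) < 0 then coeff p.2 (f p.1)
          else algebraMap ℂ F (coeff p.2 (g p.1))) (fun i => algebraMap ℂ F (x i))) =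
          fun i => algebraMap ℂ F (Sum.elim (fun p : Fin r × (Fin n →₀ ℕ) => coeff p.2 (g p.1)) x i) := by
        funext i
        rcases i with i | i
        · simp
        · simp
      rw [h2]
      have h3 := MvPolynomial.aeval_algebraMap_apply (R := ℂ) F
        (Sum.elim (fun p : Fin r × (Fin n →₀ ℕ) => coeff p.2 (g p.1)) x) Q
      refine Eq.trans h3 ?_
      have h4 : aeval (Sum.elim (fun p : Fin r × (Fin n →₀ ℕ) => coeff p.2 (g p.1)) x) Q = 0 := by
        rw [MvPolynomial.aeval_eq_eval]
        exact h1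
      rw [h4, map_zero]
    | succ j ih =>
      intro hj g x hg
      have ih' := ih (by omega)
      obtain ⟨σ, hσ⟩ : ∃ σ : (Fin r × (Fin n →₀ ℕ)) ⊕ Fin n → (Fin n →₀ ℕ) ⊕ ((Fin r × (Fin n →₀ ℕ)) ⊕ Fin n),
          σ = Sum.elim (fun p => if (p.1 : ℕ) = j then Sum.inl p.2 else Sum.inr (Sum.inl p)) (fun i => Sum.inr (Sum.inr i)) :=
        ⟨_, rfl⟩
      obtain ⟨b, hb⟩ : ∃ b : (Fin r × (Fin n →₀ ℕ)) ⊕ Fin n → F,
          b = Sum.elim (fun p : Fin r × (Fin n →₀ ℕ) => if (p.1 : ℕ) < j then coeff p.2 (f p.1)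
            else algebraMap ℂ F (coeff p.2 (g p.1))) (fun i => algebraMap ℂ F (x i)) := ⟨_, rfl⟩
      have h1 := hypG_rep (F := F) (A := Fin n →₀ ℕ)
        {a | ∃ g' : MvPolynomial (Fin n) ℂ, g'.totalDegree ≤ d ∧ Comp S g' ∧ a = fun t => coeff t g'}
        (fun t => coeff t (f ⟨j, by omega⟩)) (by
          intro q hq
          exact hf ⟨j, by omega⟩ q fun g' h1 h2 => hq _ ⟨g', h1, h2, rfl⟩) b (rename σ Q) (by
          rintro a ⟨g', h1, h2, rfl⟩
          rw [aeval_rename]
          have h3 := ih' (Function.update g ⟨j, by omega⟩ g') x (by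
            intro i
            by_cases hi : i = ⟨j, by omega⟩
            · subst hi
              rw [Function.update_self]
              exact ⟨h1, h2⟩
            · rw [Function.update_of_ne hi]
              exact hg i)
          rw [← h3]
          congr 2
          funext i
          rcases i with i | i
          · rw [Function.comp_apply, hσ, Sum.elim_inl, Sum.elim_inl]
            by_cases hi : (i.1 : ℕ) = j
            · have hi' : i.1 = (⟨j, by omega⟩ : Fin r) := Fin.ext hi
              rw [if_pos hi, Sum.elim_inl, if_neg (by omega), hi', Function.update_self]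
            · have hi' : i.1 ≠ (⟨j, by omega⟩ : Fin r) := fun h => hi (congrArg Fin.val h)
              rw [if_neg hi, Sum.elim_inr, hb, Sum.elim_inl, Function.update_of_ne hi']
          · rw [Function.comp_apply, hσ, Sum.elim_inr, Sum.elim_inr, hb]
            rfl)
      rw [aeval_rename] at h1
      rw [← h1]
      congr 2
      funext i
      rcases i with i | i
      · rw [Function.comp_apply, hσ, Sum.elim_inl, Sum.elim_inl]
        by_cases hi : (i.1 : ℕ) = j
        · have hi' : i.1 = (⟨j, by omega⟩ : Fin r) := Fin.ext hi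
          rw [if_pos (by omega), if_pos hi, Sum.elim_inl, hi']
        · rw [if_neg hi, Sum.elim_inr, hb, Sum.elim_inl]
          by_cases hij : (i.1 : ℕ) < j
          · rw [if_pos hij, if_pos (by omega)]
          · rw [if_neg hij, if_neg (by omega)]
      · rw [Function.comp_apply, hσ, Sum.elim_inr, Sum.elim_inr, hb]
        rfl
  -- all `g` are replaced; now `x`
  have hC0 : Comp S (0 : MvPolynomial (Fin n) ℂ) :=
    ⟨[], Nat.zero_le _, trivial, Or.inr (Or.inl ⟨0, (C_0).symm⟩)⟩
  have h1 : ∀ x : Fin n → ℂ, aeval (Sum.elim (fun p : Fin r × (Fin n →₀ ℕ) => coeff p.2 (f p.1))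
      (fun i => algebraMap ℂ F (x i))) Q = 0 := by
    intro x
    have h2 := key r le_rfl (fun _ => 0) x (fun _ => ⟨by rw [totalDegree_zero]; exact Nat.zero_le _, hC0⟩)
    rw [← h2]
    congr 2
    funext p
    rcases p with p | p
    · rw [Sum.elim_inl, Sum.elim_inl, if_pos p.1.2]
    · rfl
  have h2 := hypG_rep (F := F) (A := Fin n) Set.univ x (by
      intro q hq
      have h3 : q = 0 := MvPolynomial.funext fun y => by rw [hq y (Set.mem_univ _), map_zero]
      rw [h3, map_zero]) (fun p : Fin r × (Fin n →₀ ℕ) => coeff p.2 (f p.1)) (rename Sum.swap Q) (by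
      intro y _
      rw [aeval_rename, ← h1 y]
      congr 2
      funext i
      rcases i with i | i <;> rfl)
  rw [aeval_rename] at h2
  rw [← h2]
  congr 2
  funext i
  rcases i with i | i <;> rfl

end VPH
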