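import Pool.Agent.VPH.Defs

set_option autoImplicit false

/-!
# VPH-SlpC: truncation

Plan. `tru d f` is the sum of the homogeneous components of degree at most `d`.
For `Comp.tru`: from an SLP `l` construct an SLP `l'` with `l'.length ≤ 2 * (d + 1) ^ 2 * l.length` such
that all `homogeneousComponent j a`, `j ≤ d`, are available from `l'` whenever `a` is available
from `l`. Sum and difference: `d + 1` operations. Product `a * b`: the component of degree `j` is
`∑ i ∈ range (j + 1), (component i of a) * (component j - i of b)`, at most `2 * j + 1` operations, in all at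
most `(d + 1) * (2 * d + 1)`. The components of a constant or of a variable are `0` or itself, hence
available. Then add up the `d + 1` components (`d` operations).
-/

namespace VPH

open MvPolynomial

variable {σ R R' : Type} [CommRing R] [CommRing R']

private theorem slpC_av_cons {l : List (MvPolynomial σ R)} {f : MvPolynomial σ R} (g : MvPolynomial σ R)
    (h : Av l f) : Av (g :: l) f := by
  rcases h with h | h | h
  · exact Or.inl (List.mem_cons_of_mem g h)
  · exact Or.inr (Or.inl h)
  · exact Or.inr (Or.inr h)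

private theorem slpC_av_head (l : List (MvPolynomial σ R)) (g : MvPolynomial σ R) : Av (g :: l) g :=
  Or.inl List.mem_cons_self

private theorem slpC_av_zero (l : List (MvPolynomial σ R)) : Av l (0 : MvPolynomial σ R) :=
  Or.inr (Or.inl ⟨0, (C_0).symm⟩)

/-- `l'` extends `l` by at most `k` operations -/
private def slpC_Ext (k : ℕ) (l l' : List (MvPolynomial σ R)) : Prop :=
  IsSLP l' ∧ (∀ x, Av l x → Av l' x) ∧ l'.length ≤ l.length + k

private theorem slpC_sum {l : List (MvPolynomial σ R)} (hl : IsSLP l) (a : ℕ → MvPolynomial σ R) (m : ℕ)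
    (ha : ∀ i, i ≤ m → Av l (a i)) :
    ∃ l', slpC_Ext m l l' ∧ Av l' (∑ i ∈ Finset.range (m + 1), a i) := by
  induction m with
  | zero =>
    refine ⟨l, ⟨hl, fun x hx => hx, le_rfl⟩, ?_⟩
    rw [Finset.sum_range_one]
    exact ha 0 le_rfl
  | succ m ih =>
    obtain ⟨l', ⟨h1, h2, h3⟩, h4⟩ := ih (fun i hi => ha i (hi.trans (Nat.le_succ m)))
    refine ⟨((∑ i ∈ Finset.range (m + 1), a i) + a (m + 1)) :: l', ⟨⟨h1, _, _, h4, h2 _ (ha _ le_rfl), Or.inl rfl⟩,
      fun x hx => slpC_av_cons _ (h2 x hx), ?_⟩, ?_⟩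
    · rw [List.length_cons]
      omega
    · rw [Finset.sum_range_succ a (m + 1)]
      exact slpC_av_head _ _

private theorem slpC_sum_prod {l : List (MvPolynomial σ R)} (hl : IsSLP l) (a b : ℕ → MvPolynomial σ R) (m : ℕ)
    (ha : ∀ i, i ≤ m → Av l (a i)) (hb : ∀ i, i ≤ m → Av l (b i)) :
    ∃ l', slpC_Ext (2 * m + 1) l l' ∧ Av l' (∑ i ∈ Finset.range (m + 1), a i * b i) := by
  induction m with
  | zero =>
    refine ⟨(a 0 * b 0) :: l, ⟨⟨hl, _, _, ha 0 le_rfl, hb 0 le_rfl, Or.inr (Or.inr rfl)⟩,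
      fun x hx => slpC_av_cons _ hx, le_rfl⟩, ?_⟩
    rw [Finset.sum_range_one]
    exact slpC_av_head _ _
  | succ m ih =>
    obtain ⟨l', ⟨h1, h2, h3⟩, h4⟩ := ih (fun i hi => ha i (hi.trans (Nat.le_succ m)))
      (fun i hi => hb i (hi.trans (Nat.le_succ m)))
    refine ⟨((∑ i ∈ Finset.range (m + 1), a i * b i) + a (m + 1) * b (m + 1)) :: (a (m + 1) * b (m + 1)) :: l',
      ⟨⟨⟨h1, _, _, h2 _ (ha _ le_rfl), h2 _ (hb _ le_rfl), Or.inr (Or.inr rfl)⟩, _, _,
        slpC_av_cons _ h4, slpC_av_head _ _, Or.inl rfl⟩,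
      fun x hx => slpC_av_cons _ (slpC_av_cons _ (h2 x hx)), ?_⟩, ?_⟩
    · rw [List.length_cons, List.length_cons]
      omega
    · rw [Finset.sum_range_succ _ (m + 1)]
      exact slpC_av_head _ _

private theorem slpC_many {l : List (MvPolynomial σ R)} (hl : IsSLP l) (f : ℕ → MvPolynomial σ R) (c : ℕ → ℕ)
    (hstep : ∀ (j : ℕ) (l' : List (MvPolynomial σ R)), IsSLP l' → (∀ x, Av l x → Av l' x) →
      ∃ l'', slpC_Ext (c j) l' l'' ∧ Av l'' (f j)) (m : ℕ) :
    ∃ l', slpC_Ext (∑ j ∈ Finset.range m, c j) l l' ∧ ∀ j, j < m → Av l' (f j) := by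
  induction m with
  | zero => exact ⟨l, ⟨hl, fun x hx => hx, Nat.le_add_right _ _⟩, fun j hj => absurd hj (Nat.not_lt_zero j)⟩
  | succ m ih =>
    obtain ⟨l', ⟨h1, h2, h3⟩, h4⟩ := ih
    obtain ⟨l'', ⟨g1, g2, g3⟩, g4⟩ := hstep m l' h1 h2
    refine ⟨l'', ⟨g1, fun x hx => g2 x (h2 x hx), ?_⟩, ?_⟩
    · rw [Finset.sum_range_succ]
      omega
    · intro j hj
      rcases Nat.lt_succ_iff_lt_or_eq.1 hj with hj | rfl
      · exact g2 _ (h4 j hj)
      · exact g4

private theorem slpC_comp_mul (j : ℕ) (a b : MvPolynomial σ R) :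
    homogeneousComponent j (a * b) =
      ∑ i ∈ Finset.range (j + 1), homogeneousComponent i a * homogeneousComponent (j - i) b := by
  classical
  ext t
  rw [coeff_homogeneousComponent, coeff_sum]
  by_cases ht : t.degree = j
  · rw [if_pos ht, coeff_mul]
    simp only [coeff_mul, coeff_homogeneousComponent]
    rw [Finset.sum_comm]
    refine Finset.sum_congr rfl fun p hp => ?_
    have hp' : p.1 + p.2 = t := Finset.HasAntidiagonal.mem_antidiagonal.1 hp
    have hd : p.1.degree + p.2.degree = j := by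
      rw [← ht, ← hp', map_add]
    rw [Finset.sum_eq_single p.1.degree]
    · rw [if_pos rfl, if_pos (by omega)]
    · intro i _ hi
      rw [if_neg (Ne.symm hi), zero_mul]
    · intro hn
      exact absurd (Finset.mem_range.2 (by omega)) hn
  · rw [if_neg ht]
    refine (Finset.sum_eq_zero fun i hi => ?_).symm
    have hi' : i ≤ j := Nat.lt_succ_iff.1 (Finset.mem_range.1 hi)
    have h1 := (homogeneousComponent_isHomogeneous i a).mul (homogeneousComponent_isHomogeneous (j - i) b)
    refine h1.coeff_eq_zero ?_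
    intro h2
    exact ht (by omega)

private theorem slpC_comp_av_base {l' : List (MvPolynomial σ R)} {a : MvPolynomial σ R} (j : ℕ)
    (h : (∃ c : R, a = C c) ∨ ∃ i : σ, a = X i) : Av l' (homogeneousComponent j a) := by
  rcases h with ⟨c, rfl⟩ | ⟨i, rfl⟩
  · rw [homogeneousComponent_of_mem (isHomogeneous_C σ c)]
    split_ifs
    · exact Or.inr (Or.inl ⟨c, rfl⟩)
    · exact slpC_av_zero _
  · rw [homogeneousComponent_of_mem (isHomogeneous_X R i)]
    split_ifs
    · exact Or.inr (Or.inr ⟨i, rfl⟩)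
    · exact slpC_av_zero _

private theorem slpC_sum_odd (d : ℕ) : ∑ j ∈ Finset.range (d + 1), (2 * j + 1) = (d + 1) ^ 2 := by
  induction d with
  | zero => simp
  | succ d ih =>
    rw [Finset.sum_range_succ, ih]
    ring

private theorem slpC_main (d : ℕ) (l : List (MvPolynomial σ R)) (hl : IsSLP l) :
    ∃ l' : List (MvPolynomial σ R), IsSLP l' ∧ l'.length ≤ (d + 1) ^ 2 * l.length ∧
      ∀ a, Av l a → ∀ j, j ≤ d → Av l' (homogeneousComponent j a) := by
  induction l with
  | nil =>
    refine ⟨[], trivial, by simp, ?_⟩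
    intro a ha j _
    rcases ha with ha | ha
    · exact absurd ha List.not_mem_nil
    · exact slpC_comp_av_base j ha
  | cons g l ih =>
    obtain ⟨hl', a, b, ha, hb, hg⟩ := hl
    obtain ⟨l', h1, h2, h3⟩ := ih hl'
    have key : ∃ l'', slpC_Ext (∑ j ∈ Finset.range (d + 1), (2 * j + 1)) l' l'' ∧
        ∀ j, j < d + 1 → Av l'' (if j ≤ d then homogeneousComponent j g else 0) := by
      refine slpC_many h1 _ _ ?_ (d + 1)
      intro j l₂ hl₂ hav
      by_cases hj : j ≤ d
      · rw [if_pos hj]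
        rcases hg with rfl | rfl | rfl
        · refine ⟨(homogeneousComponent j a + homogeneousComponent j b) :: l₂,
            ⟨⟨hl₂, _, _, hav _ (h3 a ha j hj), hav _ (h3 b hb j hj), Or.inl rfl⟩,
              fun x hx => slpC_av_cons _ hx, ?_⟩, ?_⟩
          · rw [List.length_cons]
            omega
          · rw [map_add]
            exact slpC_av_head _ _
        · refine ⟨(homogeneousComponent j a - homogeneousComponent j b) :: l₂,
            ⟨⟨hl₂, _, _, hav _ (h3 a ha j hj), hav _ (h3 b hb j hj), Or.inr (Or.inl rfl)⟩,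
              fun x hx => slpC_av_cons _ hx, ?_⟩, ?_⟩
          · rw [List.length_cons]
            omega
          · rw [map_sub]
            exact slpC_av_head _ _
        · obtain ⟨l₃, h4, h5⟩ := slpC_sum_prod hl₂ (fun i => homogeneousComponent i a)
            (fun i => homogeneousComponent (j - i) b) j (fun i hi => hav _ (h3 a ha i (hi.trans hj)))
            (fun i _ => hav _ (h3 b hb (j - i) ((Nat.sub_le j i).trans hj)))
          refine ⟨l₃, h4, ?_⟩
          rw [slpC_comp_mul]
          exact h5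
      · rw [if_neg hj]
        exact ⟨l₂, ⟨hl₂, fun x hx => hx, Nat.le_add_right _ _⟩, slpC_av_zero _⟩
    obtain ⟨l'', ⟨h4, h5, h6⟩, h7⟩ := key
    refine ⟨l'', h4, ?_, ?_⟩
    · rw [slpC_sum_odd] at h6
      rw [List.length_cons, mul_add, mul_one]
      omega
    · intro c hc j hj
      rcases hc with hc | hc
      · rcases List.mem_cons.1 hc with rfl | hc
        · have := h7 j (Nat.lt_succ_of_le hj)
          rwa [if_pos hj] at this
        · exact h5 _ (h3 c (Or.inl hc) j hj)
      · exact slpC_comp_av_base j hc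

theorem Comp.tru {s : ℕ} {f : MvPolynomial σ R} (h : Comp s f) (d : ℕ) :
    Comp (2 * (d + 1) ^ 2 * s + d) (tru d f) := by
  obtain ⟨l, hs, hl, hf⟩ := h
  obtain ⟨l', h1, h2, h3⟩ := slpC_main d l hl
  obtain ⟨l'', ⟨h4, _, h6⟩, h7⟩ := slpC_sum h1 (fun j => homogeneousComponent j f) d (fun j hj => h3 f hf j hj)
  refine ⟨l'', ?_, h4, h7⟩
  have h8 : (d + 1) ^ 2 * l.length ≤ (d + 1) ^ 2 * s := Nat.mul_le_mul_left _ hs
  have h9 : 2 * (d + 1) ^ 2 * s = 2 * ((d + 1) ^ 2 * s) := by ring
  rw [h9]
  omega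

theorem coeff_tru (d : ℕ) (f : MvPolynomial σ R) (t : σ →₀ ℕ) :
    coeff t (tru d f) = if t.degree ≤ d then coeff t f else 0 := by
  unfold VPH.tru
  rw [coeff_sum]
  simp only [coeff_homogeneousComponent]
  rw [Finset.sum_ite_eq]
  simp only [Finset.mem_range, Nat.lt_succ_iff]

theorem tru_totalDegree (d : ℕ) (f : MvPolynomial σ R) : (tru d f).totalDegree ≤ d := by
  refine Finset.sup_le fun t ht => ?_
  rw [mem_support_iff, coeff_tru] at ht
  by_contra hc
  rw [if_neg] at ht
  · exact ht rfl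
  · exact hc

theorem tru_eq_self {d : ℕ} {f : MvPolynomial σ R} (h : f.totalDegree ≤ d) : tru d f = f := by
  ext t
  rw [coeff_tru]
  split_ifs with ht
  · rfl
  · refine (coeff_eq_zero_of_totalDegree_lt ?_).symm
    rw [Finsupp.degree] at ht
    exact lt_of_le_of_lt h (not_le.1 ht)

theorem tru_sub (d : ℕ) (f g : MvPolynomial σ R) : tru d (f - g) = tru d f - tru d g := by
  ext t
  rw [coeff_sub, coeff_tru, coeff_tru, coeff_tru]
  split_ifs
  · rw [coeff_sub]
  · rw [sub_zero]

theorem map_tru (d : ℕ) (φ : R →+* R') (f : MvPolynomial σ R) :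
    map φ (tru d f) = tru d (map φ f) := by
  ext t
  rw [coeff_map, coeff_tru, coeff_tru, coeff_map]
  split_ifs
  · rfl
  · exact map_zero φ

/-- polynomials all of whose terms have degree larger than `d` -/
theorem tru_eq_zero {d : ℕ} {f : MvPolynomial σ R}
    (h : f ∈ (Ideal.span (Set.range (X : σ → MvPolynomial σ R))) ^ (d + 1)) : tru d f = 0 := by
  ext t
  rw [coeff_tru, coeff_zero]
  split_ifs with ht
  · exact (mem_pow_idealOfVars_iff' (d + 1) f).1 h t (Nat.lt_succ_of_le ht)
  · rfl

end VPH
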