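import Pool.Agent.VPH.HypDefs
import Pool.Agent.VPH.SlpA
import Pool.Agent.VPH.SlpB
import Pool.Agent.VPH.SlpC

set_option autoImplicit false

/-!
# VPH-HypH: the polynomial `Wp`

Plan. `comp_W`: `rename` is free, `Y - f i` costs `S + 1`, the product of `r` of them `r * (S + 2)` (at most), `Comp.tru`, then
the substitution costs `n` (`Comp.subst` with `CompF n` for the images of the variables: `n` differences). `map_W`: naturality
(`map_tru`, `map_rename`, `map_prod`). `degree_W`: the substituted polynomials have degree at most `1`, `tru` has degree at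
most `d` (see the private lemma `SlpE_deg` in SlpE.lean). `W_generic`: for polynomials `g i` of degree at most `d`, `Wp d g x` is the image of
`Wp d` of the generic polynomials `∑_{|t| ≤ d} (variable (i, t)) X ^ t` (a finite sum: exponents `t` with `t.degree ≤ d`, e.g.
`Finset.antidiagonalTuple`/`(Finset.finsuppAntidiag univ j)` for `j ≤ d`, or take the finite set as `Set.Finite.toFinset`).
-/

namespace VPH

open MvPolynomial

variable {R R' : Type} [CommRing R] [CommRing R'] {n r : ℕ}

private theorem hypH_prod {σ : Type} {S r : ℕ} (g : Fin r → MvPolynomial σ R) (hg : ∀ i, Comp (S + 1) (g i)) :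
    Comp (r * (S + 2)) (∏ i, g i) := by
  induction r with
  | zero =>
    rw [Finset.univ_eq_empty, Finset.prod_empty, ← C_1]
    exact (comp_C 1).mono (Nat.zero_le _)
  | succ r ih =>
    rw [Fin.prod_univ_castSucc]
    refine ((ih (fun i => g i.castSucc) (fun i => hg _)).mul (hg (Fin.last r))).mono ?_
    have : (r + 1) * (S + 2) = r * (S + 2) + (S + 1) + 1 := by ring
    omega

private theorem hypH_compF (x : Fin n → R) :
    CompF n (fun i : Fin (n + 1) => (Fin.snoc (fun j => X (Fin.castSucc j) - C (x j)) (X (Fin.last n)) :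
      Fin (n + 1) → MvPolynomial (Fin (n + 1)) R) i) := by
  have h1 : CompF (n * 1) (fun j : Fin n => (X (Fin.castSucc j) - C (x j) : MvPolynomial (Fin (n + 1)) R)) :=
    CompF.of_comp fun j => (comp_X _).sub (comp_C _)
  have h2 : CompF 0 (fun _ : Unit => (X (Fin.last n) : MvPolynomial (Fin (n + 1)) R)) :=
    ⟨[], le_rfl, trivial, fun _ => Or.inr (Or.inr ⟨_, rfl⟩)⟩
  have h3 := (h1.elim h2).comp (Fin.snoc (fun j => Sum.inl j) (Sum.inr ()) : Fin (n + 1) → Fin n ⊕ Unit)
  have h4 : (Sum.elim (fun j : Fin n => (X (Fin.castSucc j) - C (x j) : MvPolynomial (Fin (n + 1)) R))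
      (fun _ : Unit => (X (Fin.last n) : MvPolynomial (Fin (n + 1)) R))) ∘
      (Fin.snoc (fun j => Sum.inl j) (Sum.inr ()) : Fin (n + 1) → Fin n ⊕ Unit) =
      fun i : Fin (n + 1) => (Fin.snoc (fun j => X (Fin.castSucc j) - C (x j)) (X (Fin.last n)) :
      Fin (n + 1) → MvPolynomial (Fin (n + 1)) R) i := by
    funext i
    refine Fin.lastCases ?_ (fun j => ?_) i
    · simp [Fin.snoc_last]
    · simp [Fin.snoc_castSucc]
  rw [h4] at h3
  exact h3.mono (by omega)

theorem comp_W {S : ℕ} (d : ℕ) (f : Fin r → MvPolynomial (Fin n) R) (x : Fin n → R)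
    (hf : ∀ i, Comp S (f i)) :
    Comp (2 * (d + 1) ^ 2 * (r * (S + 2)) + d + n) (Wp d f x) := by
  have h1 : Comp (r * (S + 2)) (∏ i, (X (Fin.last n) - rename Fin.castSucc (f i) :
      MvPolynomial (Fin (n + 1)) R)) := by
    refine hypH_prod _ fun i => ?_
    exact ((comp_X (Fin.last n)).sub ((hf i).rename Fin.castSucc)).mono (by omega)
  have h2 := h1.tru d
  refine h2.subst (aeval (Fin.snoc (fun j => X (Fin.castSucc j) - C (x j)) (X (Fin.last n)) :
    Fin (n + 1) → MvPolynomial (Fin (n + 1)) R) :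
      MvPolynomial (Fin (n + 1)) R →ₐ[R] MvPolynomial (Fin (n + 1)) R).toRingHom (fun c => ⟨c, ?_⟩) ?_
  · exact aeval_C _ c
  · have h3 := hypH_compF x
    have h4 : (fun i : Fin (n + 1) => (aeval (Fin.snoc (fun j => X (Fin.castSucc j) - C (x j)) (X (Fin.last n)) :
      Fin (n + 1) → MvPolynomial (Fin (n + 1)) R) :
      MvPolynomial (Fin (n + 1)) R →ₐ[R] MvPolynomial (Fin (n + 1)) R).toRingHom (X i)) =
      fun i : Fin (n + 1) => (Fin.snoc (fun j => X (Fin.castSucc j) - C (x j)) (X (Fin.last n)) :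
      Fin (n + 1) → MvPolynomial (Fin (n + 1)) R) i := by
      funext i
      exact aeval_X _ i
    rw [h4]
    exact h3

private theorem hypH_deg {σ τ : Type} [Fintype σ] {d : ℕ} (c : σ → MvPolynomial τ R)
    (hc : ∀ i, (c i).totalDegree ≤ 1) (p : MvPolynomial σ R)
    (hp : p.totalDegree ≤ d) : (aeval c p : MvPolynomial τ R).totalDegree ≤ d := by
  rw [aeval_def, eval₂_eq']
  refine totalDegree_finsetSum_le fun t ht => ?_
  refine (totalDegree_mul _ _).trans ?_
  have h1 : (algebraMap R (MvPolynomial τ R) (coeff t p)).totalDegree = 0 := totalDegree_C _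
  rw [h1, zero_add]
  refine (totalDegree_finsetProd _ _).trans ?_
  have h2 : ∀ i : σ, (c i ^ t i).totalDegree ≤ t i := by
    intro i
    refine (totalDegree_pow _ _).trans ?_
    exact (Nat.mul_le_mul_left _ (hc i)).trans (le_of_eq (mul_one _))
  refine (Finset.sum_le_sum fun i _ => h2 i).trans (le_trans ?_ hp)
  have h5 := le_totalDegree ht
  rw [Finsupp.sum_fintype _ _ (fun _ => rfl)] at h5
  exact h5

private theorem hypH_X {τ : Type} (i : τ) : (X i : MvPolynomial τ R).totalDegree ≤ 1 := by
  by_cases hR : Nontrivial R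
  · rw [totalDegree_X]
  · rw [not_nontrivial_iff_subsingleton] at hR
    have h4 : (X i : MvPolynomial τ R) = 0 := Subsingleton.elim _ _
    rw [h4, totalDegree_zero]
    exact Nat.zero_le _

theorem degree_W (d : ℕ) (f : Fin r → MvPolynomial (Fin n) R) (x : Fin n → R) :
    (Wp d f x).totalDegree ≤ d := by
  unfold Wp
  refine hypH_deg _ (fun i => ?_) _ (tru_totalDegree d _)
  refine Fin.lastCases ?_ (fun j => ?_) i
  · rw [Fin.snoc_last]
    exact hypH_X _
  · rw [Fin.snoc_castSucc]
    exact (totalDegree_sub_C_le _ _).trans (hypH_X _)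

private theorem hypH_map {σ τ : Type} (φ : R →+* R') (c : σ → MvPolynomial τ R) (q : MvPolynomial σ R) :
    map φ (aeval c q) = aeval (fun i => map φ (c i)) (map φ q) := by
  induction q using MvPolynomial.induction_on with
  | C a => simp [MvPolynomial.algebraMap_eq]
  | add p q hp hq => rw [map_add, map_add, hp, hq, map_add, map_add]
  | mul_X p i hp => rw [map_mul, map_mul, hp, map_mul, map_mul, map_X, aeval_X, aeval_X]

theorem map_W (φ : R →+* R') (d : ℕ) (f : Fin r → MvPolynomial (Fin n) R) (x : Fin n → R) :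
    map φ (Wp d f x) = Wp d (fun i => map φ (f i)) (fun j => φ (x j)) := by
  unfold Wp
  rw [hypH_map, map_tru]
  have h1 : (fun i => map φ ((Fin.snoc (fun j => X (Fin.castSucc j) - C (x j)) (X (Fin.last n)) :
      Fin (n + 1) → MvPolynomial (Fin (n + 1)) R) i)) =
      (Fin.snoc (fun j => X (Fin.castSucc j) - C (φ (x j))) (X (Fin.last n)) :
      Fin (n + 1) → MvPolynomial (Fin (n + 1)) R') := by
    funext i
    refine Fin.lastCases ?_ (fun j => ?_) i
    · rw [Fin.snoc_last, Fin.snoc_last, map_X]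
    · rw [Fin.snoc_castSucc, Fin.snoc_castSucc, map_sub, map_X, map_C]
  rw [h1, map_prod]
  have h2 : ∀ i : Fin r, map φ (X (Fin.last n) - rename Fin.castSucc (f i)) =
      X (Fin.last n) - rename Fin.castSucc (map φ (f i)) := by
    intro i
    rw [map_sub, map_X, map_rename]
  rw [Finset.prod_congr rfl fun i _ => h2 i]

/-- the generic polynomials of degree at most `d` -/
theorem exists_generic (d r n : ℕ) :
    ∃ G : Fin r → MvPolynomial (Fin n) (MvPolynomial ((Fin r × (Fin n →₀ ℕ)) ⊕ Fin n) ℤ),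
      ∀ (R : Type) [CommRing R] (g : Fin r → MvPolynomial (Fin n) R) (x : Fin n → R),
        (∀ i, (g i).totalDegree ≤ d) → ∀ i,
        map (eval₂Hom (Int.castRingHom R) (Sum.elim (fun p => coeff p.2 (g p.1)) x)) (G i) = g i := by
  have hfin : {t : Fin n →₀ ℕ | t.degree ≤ d}.Finite := Finsupp.finite_of_degree_le d
  refine ⟨fun i => ∑ t ∈ hfin.toFinset, monomial t (X (Sum.inl (i, t))), fun R _ g x hg i => ?_⟩
  rw [map_sum]
  have h1 : ∀ t : Fin n →₀ ℕ, map (eval₂Hom (Int.castRingHom R) (Sum.elim (fun p => coeff p.2 (g p.1)) x))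
      (monomial t (X (Sum.inl (i, t)))) = monomial t (coeff t (g i)) := by
    intro t
    rw [map_monomial]
    congr 1
    simp
  rw [Finset.sum_congr rfl fun t _ => h1 t]
  conv_rhs => rw [← support_sum_monomial_coeff (g i)]
  symm
  refine Finset.sum_subset ?_ ?_
  · intro t ht
    rw [Set.Finite.mem_toFinset, Set.mem_setOf_eq]
    have h2 := (le_totalDegree ht).trans (hg i)
    rw [Finsupp.degree_eq_sum]
    rw [Finsupp.sum_fintype _ _ (fun _ => rfl)] at h2
    exact h2
  · intro t _ ht
    rw [notMem_support_iff.mp ht, monomial_zero]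

end VPH
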