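import Pool.Agent.VPH.HypDefs
import Pool.Agent.VPH.DexA
import Pool.Agent.VPH.DexB
import Pool.Agent.VPH.SlpC

set_option autoImplicit false

/-!
# VPH-HypI: the product over all roots

`G` over `ℂ` of degree at most `d` in `X_1..X_n, Y`; over `F`: `G(x, Y) = c₀ ∏ (Y - y i)` (`d` factors). Then
`Wp d (expansions of the y i) x * c₀ = G`.

Plan. `𝔟 = (X_1, .., X_n)` in `B = MvPolynomial (Fin n) F`; `e b := dex Δ' d (C b)`, `F → B ⧸ 𝔟 ^ (d + 1)` is a ring hom `ē`
(`dex_add`, `dex_mul`, `dex_const`), it maps `algebraMap ℂ F c` to itself (`D i` is `k`-linear, kills `ℂ`), and `x j` to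
`X j + x j` (see `extr_coord` in Extr.lean). Apply it to the coefficients of the identity `G(x, Y) = C c₀ * ∏ (Y - C (y i))` in
`Polynomial F`: `G(x + X, Y) = c₀ ∏ (Y - e (y i))` in `Polynomial (B ⧸ 𝔟 ^ (d + 1))`. Lift to `MvPolynomial (Fin (n + 1)) F` (`Y` the last
variable): the difference of `map G` shifted (`X_j ↦ X_j + x_j`) and `C c₀ * ∏ (Y - rename castSucc (e (y i)))` is in the ideal
generated by `rename castSucc (𝔟 ^ (d + 1))`, which is contained in `(span (range X)) ^ (d + 1)`, so it is killed by `tru d` (`tru_eq_zero`);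
`tru d` of the shifted `G` is itself (`tru_eq_self`, degree at most `d`). Shift back.
-/

namespace VPH

open MvPolynomial

private theorem hypI_dex_zero {A : Type} [CommRing A] [Algebra ℚ A] (Δ : Derivation ℤ A A) (b : A) :
    dex Δ 0 b = b := by
  unfold dex
  simp

private theorem hypI_coord {n : ℕ} {E : Type} [Field E] [Algebra ℚ (MvPolynomial (Fin n) E)]
    {D : Fin n → Derivation ℤ E E}
    {Δ : Derivation ℤ (MvPolynomial (Fin n) E) (MvPolynomial (Fin n) E)} (h : IsDel D Δ) (d : ℕ)
    (b : E) (j : Fin n) (hb : ∀ i, D i b = if i = j then 1 else 0) :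
    (X j + C b : MvPolynomial (Fin n) E) - dex Δ d (C b) ∈
      (Ideal.span (Set.range (X : Fin n → MvPolynomial (Fin n) E))) ^ (d + 1) := by
  have h1 : Δ (C b) = X j := by
    rw [h.2 b, Finset.sum_eq_single j]
    · rw [hb j, if_pos rfl, C_1, mul_one]
    · intro i _ hi
      rw [hb i, if_neg hi, C_0, mul_zero]
    · intro hh
      exact absurd (Finset.mem_univ j) hh
  rcases d with _ | d
  · rw [hypI_dex_zero, add_sub_cancel_right, zero_add, pow_one]
    exact Ideal.subset_span ⟨j, rfl⟩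
  · have h3 : Δ (Δ (C b)) = 0 := by
      rw [h1]
      exact h.1 j
    have h2 : dex Δ (d + 1) (C b) = C b + X j :=
      (dex_lin Δ d (C b) h3).trans (congrArg (fun z : MvPolynomial (Fin n) E => C b + z) h1)
    rw [h2, add_comm (X j) (C b), sub_self]
    exact Ideal.zero_mem _

private theorem hypI_shift {n : ℕ} {F : Type} [Field F] [Algebra ℂ F] (x : Fin n → F)
    (f : MvPolynomial (Fin (n + 1)) ℂ) :
    aeval (Fin.snoc (fun j => X (Fin.castSucc j) - C (x j)) (X (Fin.last n)) :
      Fin (n + 1) → MvPolynomial (Fin (n + 1)) F)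
      (aeval (Fin.snoc (fun j => X (Fin.castSucc j) + C (x j)) (X (Fin.last n)) :
      Fin (n + 1) → MvPolynomial (Fin (n + 1)) F) f) =
      map (algebraMap ℂ F) f := by
  induction f using MvPolynomial.induction_on with
  | C a =>
    rw [aeval_C, map_C, MvPolynomial.algebraMap_apply, aeval_C, MvPolynomial.algebraMap_eq]
  | add p q hp hq =>
    rw [map_add, map_add, map_add, hp, hq]
  | mul_X p i hp =>
    rw [map_mul, map_mul, map_mul, hp, aeval_X, map_X]
    congr 1
    refine Fin.lastCases ?_ (fun j => ?_) i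
    · rw [Fin.snoc_last, aeval_X, Fin.snoc_last]
    · rw [Fin.snoc_castSucc, map_add, aeval_X, aeval_C, Fin.snoc_castSucc,
        MvPolynomial.algebraMap_eq, sub_add_cancel]

private theorem hypI_deg {R S : Type} [CommRing R] [CommRing S] [Algebra R S] {m : ℕ} {σ : Type}
    (u : Fin m → MvPolynomial σ S) (hu : ∀ i, (u i).totalDegree ≤ 1) (f : MvPolynomial (Fin m) R) :
    (aeval u f).totalDegree ≤ f.totalDegree := by
  rw [aeval_def, eval₂_eq']
  refine totalDegree_finsetSum_le fun t ht => ?_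
  refine (totalDegree_mul _ _).trans ?_
  have h1 : (algebraMap R (MvPolynomial σ S) (coeff t f)).totalDegree = 0 := by
    rw [MvPolynomial.algebraMap_apply]
    exact totalDegree_C _
  rw [h1, zero_add]
  refine (totalDegree_finsetProd _ _).trans ?_
  have h2 : ∀ i ∈ (Finset.univ : Finset (Fin m)), (u i ^ t i).totalDegree ≤ t i := by
    intro i _
    refine (totalDegree_pow _ _).trans ?_
    calc t i * (u i).totalDegree ≤ t i * 1 := Nat.mul_le_mul_left _ (hu i)
      _ = t i := mul_one _
  refine (Finset.sum_le_sum h2).trans ?_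
  have h3 : ∑ i, t i = t.sum fun _ e => e := by
    rw [Finsupp.sum_fintype _ _ fun _ => rfl]
  rw [h3]
  exact le_totalDegree ht

private theorem hypI_hom {A B Q : Type} [CommRing A] [CommRing B] [CommRing Q] [Algebra ℂ A]
    [Algebra ℂ B] {m : ℕ} (Ψ : A →+* Q) (φ : B →+* Q) (u : Fin m → A) (v : Fin m → B)
    (huv : ∀ i, Ψ (u i) = φ (v i)) (hc : ∀ c : ℂ, Ψ (algebraMap ℂ A c) = φ (algebraMap ℂ B c))
    (G : MvPolynomial (Fin m) ℂ) : Ψ (aeval u G) = φ (aeval v G) := by
  induction G using MvPolynomial.induction_on with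
  | C a => rw [aeval_C, aeval_C, hc a]
  | add p q hp hq => rw [map_add, map_add, map_add, map_add, hp, hq]
  | mul_X p i hp => rw [map_mul, map_mul, map_mul, map_mul, hp, aeval_X, aeval_X, huv i]

private theorem hypI_ren {n : ℕ} {F : Type} [Field F] (d : ℕ) (p : MvPolynomial (Fin n) F)
    (hp : p ∈ (Ideal.span (Set.range (X : Fin n → MvPolynomial (Fin n) F))) ^ d) :
    rename Fin.castSucc p ∈
      (Ideal.span (Set.range (X : Fin (n + 1) → MvPolynomial (Fin (n + 1)) F))) ^ d := by
  have h1 : Ideal.map (rename Fin.castSucc : MvPolynomial (Fin n) F →ₐ[F] _).toRingHom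
      (Ideal.span (Set.range (X : Fin n → MvPolynomial (Fin n) F))) ≤
      Ideal.span (Set.range (X : Fin (n + 1) → MvPolynomial (Fin (n + 1)) F)) := by
    rw [Ideal.map_span, Ideal.span_le]
    rintro _ ⟨_, ⟨j, rfl⟩, rfl⟩
    apply Ideal.subset_span
    exact ⟨Fin.castSucc j, (rename_X Fin.castSucc j).symm⟩
  have h2 := Ideal.mem_map_of_mem (rename Fin.castSucc : MvPolynomial (Fin n) F →ₐ[F] _).toRingHom hp
  rw [Ideal.map_pow] at h2
  exact Ideal.pow_right_mono h1 d h2

theorem prod_dex {k F : Type} [Field k] [Field F] [Algebra ℂ k] [Algebra ℂ F] [Algebra k F]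
    [IsScalarTower ℂ k F] {n d : ℕ} [Algebra ℚ (MvPolynomial (Fin n) F)] (x : Fin n → F)
    (D : Fin n → Derivation k F F)
    (hD : ∀ i j, D i (x j) = if i = j then 1 else 0)
    (Δ' : Derivation ℤ (MvPolynomial (Fin n) F) (MvPolynomial (Fin n) F))
    (hΔ' : IsDel (fun i => (D i).restrictScalars ℤ) Δ')
    (G : MvPolynomial (Fin (n + 1)) ℂ) (hG : G.totalDegree ≤ d) (c₀ : ℂ) (y : Fin d → F)
    (hy : aeval (Fin.snoc (fun i => Polynomial.C (x i)) Polynomial.X :
      Fin (n + 1) → Polynomial F) G =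
      Polynomial.C (algebraMap ℂ F c₀) * ∏ i, (Polynomial.X - Polynomial.C (y i))) :
    C (algebraMap ℂ F c₀) * Wp d (fun i => dex Δ' d (C (y i))) x = map (algebraMap ℂ F) G := by
  have hF0 : CharZero F := charZero_of_injective_algebraMap (algebraMap ℂ F).injective
  obtain ⟨J, hJ⟩ : ∃ J : Ideal (MvPolynomial (Fin (n + 1)) F),
    J = (Ideal.span (Set.range (X : Fin (n + 1) → MvPolynomial (Fin (n + 1)) F))) ^ (d + 1) := ⟨_, rfl⟩
  have hren : ∀ p ∈ (Ideal.span (Set.range (X : Fin n → MvPolynomial (Fin n) F))) ^ (d + 1),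
      rename Fin.castSucc p ∈ J := by
    intro p hp
    rw [hJ]
    exact hypI_ren (d + 1) p hp
  let e : F →+* MvPolynomial (Fin (n + 1)) F ⧸ J :=
    { toFun := fun b => Ideal.Quotient.mk J (rename Fin.castSucc (dex Δ' d (C b)))
      map_zero' := by
        rw [C_0, dex_const Δ' d 0 (map_zero _), map_zero, map_zero]
      map_one' := by
        rw [C_1, dex_const Δ' d 1 (Derivation.map_one_eq_zero _), map_one, map_one]
      map_add' := fun a b => by
        rw [C_add, dex_add, map_add, map_add]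
      map_mul' := fun a b => by
        have h1 := hren _ (dex_mul Δ' _ (fun j b hb => hΔ'.mem j b hb) d (C a) (C b))
        rw [map_sub, map_mul] at h1
        have h2 := (Ideal.Quotient.eq (I := J)).2 h1
        rw [map_mul] at h2
        rw [C_mul]
        exact h2.symm }
  have he : ∀ b, e b = Ideal.Quotient.mk J (rename Fin.castSucc (dex Δ' d (C b))) := fun b => rfl
  have heC : ∀ c : ℂ, e (algebraMap ℂ F c) = Ideal.Quotient.mk J (C (algebraMap ℂ F c)) := by
    intro c
    rw [he, dex_const Δ' d, rename_C]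
    refine (hΔ'.2 (algebraMap ℂ F c)).trans (Finset.sum_eq_zero fun i _ => ?_)
    have h2 : (D i).restrictScalars ℤ (algebraMap ℂ F c) = 0 := by
      show D i (algebraMap ℂ F c) = 0
      rw [IsScalarTower.algebraMap_apply ℂ k F]
      exact (D i).map_algebraMap _
    rw [h2, C_0, mul_zero]
  have hex : ∀ i, e (x i) = Ideal.Quotient.mk J (X (Fin.castSucc i) + C (x i)) := by
    intro i
    rw [he]
    symm
    rw [Ideal.Quotient.eq]
    have h1 := hren _ (hypI_coord hΔ' d (x i) i fun i' => hD i' i)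
    rw [map_sub, map_add, rename_X, rename_C] at h1
    exact h1
  let Ψ : Polynomial F →+* MvPolynomial (Fin (n + 1)) F ⧸ J :=
    Polynomial.eval₂RingHom e (Ideal.Quotient.mk J (X (Fin.last n)))
  have hΨC : ∀ b, Ψ (Polynomial.C b) = e b := fun b => Polynomial.eval₂_C _ _
  have hΨX : Ψ Polynomial.X = Ideal.Quotient.mk J (X (Fin.last n)) := Polynomial.eval₂_X _ _
  have hL : Ψ (aeval (Fin.snoc (fun i => Polynomial.C (x i)) Polynomial.X :
      Fin (n + 1) → Polynomial F) G) = Ideal.Quotient.mk J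
      (aeval (Fin.snoc (fun j => X (Fin.castSucc j) + C (x j)) (X (Fin.last n)) :
      Fin (n + 1) → MvPolynomial (Fin (n + 1)) F) G) := by
    refine hypI_hom Ψ (Ideal.Quotient.mk J) _ _ ?_ ?_ G
    · intro i
      refine Fin.lastCases ?_ (fun j => ?_) i
      · rw [Fin.snoc_last, Fin.snoc_last, hΨX]
      · rw [Fin.snoc_castSucc, Fin.snoc_castSucc, hΨC, hex]
    · intro c
      rw [MvPolynomial.algebraMap_apply, Polynomial.algebraMap_apply, hΨC]
      exact heC c
  have hR : Ψ (Polynomial.C (algebraMap ℂ F c₀) * ∏ i, (Polynomial.X - Polynomial.C (y i))) =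
      Ideal.Quotient.mk J (C (algebraMap ℂ F c₀) *
        ∏ i, (X (Fin.last n) - rename Fin.castSucc (dex Δ' d (C (y i))))) := by
    rw [map_mul, map_mul, map_prod, map_prod, hΨC, heC]
    congr 1
    refine Finset.prod_congr rfl fun i _ => ?_
    rw [map_sub, map_sub, hΨC, hΨX, he]
  have hmem : aeval (Fin.snoc (fun j => X (Fin.castSucc j) + C (x j)) (X (Fin.last n)) :
      Fin (n + 1) → MvPolynomial (Fin (n + 1)) F) G - C (algebraMap ℂ F c₀) *
        ∏ i, (X (Fin.last n) - rename Fin.castSucc (dex Δ' d (C (y i)))) ∈ J := by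
    rw [← Ideal.Quotient.eq, ← hL, ← hR, hy]
  rw [hJ] at hmem
  have h5 := tru_eq_zero hmem
  have h6 : (aeval (Fin.snoc (fun j => X (Fin.castSucc j) + C (x j)) (X (Fin.last n)) :
      Fin (n + 1) → MvPolynomial (Fin (n + 1)) F) G).totalDegree ≤ d := by
    refine (hypI_deg _ (fun i => ?_) G).trans hG
    refine Fin.lastCases ?_ (fun j => ?_) i
    · rw [Fin.snoc_last, totalDegree_X]
    · rw [Fin.snoc_castSucc]
      refine (totalDegree_add _ _).trans ?_
      rw [totalDegree_X, totalDegree_C]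
      exact le_of_eq rfl
  rw [tru_sub, tru_eq_self h6, sub_eq_zero] at h5
  have h7 : ∀ P : MvPolynomial (Fin (n + 1)) F,
      tru d (C (algebraMap ℂ F c₀) * P) = C (algebraMap ℂ F c₀) * tru d P := by
    intro P
    ext t
    rw [coeff_tru, coeff_C_mul, coeff_C_mul, coeff_tru]
    split_ifs
    · rfl
    · rw [mul_zero]
  rw [h7] at h5
  rw [← hypI_shift x G, h5, map_mul, aeval_C, MvPolynomial.algebraMap_eq]
  rfl

end VPH
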