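import Pool.Agent.VPH.HypDefs

set_option autoImplicit false

/-!
# VPH-HypJ: normalisation

Plan. `exists_lin`: the top homogeneous component `g_d` of `g` (`d` its total degree) is nonzero, `g_d * Y ≠ 0`, so
there is a complex point `(α, β)` with `g_d(α, β) ≠ 0`, `β ≠ 0` (`MvPolynomial.funext`). The coefficient of `Y ^ d` in
`g(X + α Y, β Y)` is `g_d(α, β)` (monomial by monomial: the coefficient of `Y ^ d` in
`∏ (X_j + α_j Y)^{t_j} (β Y)^{t_Y}` with `|t| ≤ d` is `∏ α_j^{t_j} β^{t_Y}` if `|t| = d`, else `0`; or: evaluate at `X = 0`, `Y = T`: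
`g(α T, β T)` is a univariate polynomial, its coefficient of `T ^ d` is `g_d(α, β)`, and it is the coefficient of `Y ^ d` in
`linP α β g`). `lin_inv`: the substitutions are inverse to each other. `roots_lin`: `G(x, Y)` is a polynomial in `Y` of degree `d` with leading
coefficient `c₀` (the terms of `G` with `Y ^ d` have degree at least `d`, so only `Y ^ d` itself); it splits over `F`
(`IsAlgClosed.splits`, `Polynomial.Splits.eq_prod_roots`, `card_roots`), index the roots by `Fin d`. `sep_lin`: every factor `y i` gives a zero.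
-/

namespace VPH

open MvPolynomial

private theorem hj_lin {n : ℕ} {A : Type} [CommRing A] [Algebra ℂ A] (α : Fin n → ℂ) (β : ℂ)
    (g : MvPolynomial (Fin (n + 1)) ℂ) (u : Fin (n + 1) → A) :
    aeval u (linP α β g) = aeval (Fin.snoc (fun j => u (Fin.castSucc j) +
      algebraMap ℂ A (α j) * u (Fin.last n)) (algebraMap ℂ A β * u (Fin.last n)) :
        Fin (n + 1) → A) g := by
  unfold linP
  rw [comp_aeval_apply]
  congr 2
  funext i
  refine Fin.lastCases ?_ (fun j => ?_) i
  · rw [Fin.snoc_last, Fin.snoc_last, map_mul, aeval_C, aeval_X]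
  · rw [Fin.snoc_castSucc, Fin.snoc_castSucc, map_add, map_mul, aeval_C, aeval_X, aeval_X]

private theorem hj_comp {n : ℕ} (α α' : Fin n → ℂ) (β β' : ℂ) (h1 : β * β' = 1) (h2 : ∀ j, α' j + α j * β' = 0)
    (g : MvPolynomial (Fin (n + 1)) ℂ) : linP α' β' (linP α β g) = g := by
  have h3 := hj_lin α β g (Fin.snoc (fun j => X (Fin.castSucc j) + C (α' j) * X (Fin.last n))
    (C β' * X (Fin.last n)) : Fin (n + 1) → MvPolynomial (Fin (n + 1)) ℂ)
  have h4 : linP α' β' (linP α β g) = aeval (Fin.snoc (fun j => X (Fin.castSucc j) + C (α' j) * X (Fin.last n))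
    (C β' * X (Fin.last n)) : Fin (n + 1) → MvPolynomial (Fin (n + 1)) ℂ) (linP α β g) := rfl
  rw [h4, h3]
  have h5 : (Fin.snoc (fun j => (Fin.snoc (fun j => X (Fin.castSucc j) + C (α' j) * X (Fin.last n))
      (C β' * X (Fin.last n)) : Fin (n + 1) → MvPolynomial (Fin (n + 1)) ℂ) (Fin.castSucc j) +
      algebraMap ℂ (MvPolynomial (Fin (n + 1)) ℂ) (α j) * (Fin.snoc (fun j => X (Fin.castSucc j) + C (α' j) * X (Fin.last n))
      (C β' * X (Fin.last n)) : Fin (n + 1) → MvPolynomial (Fin (n + 1)) ℂ) (Fin.last n))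
      (algebraMap ℂ (MvPolynomial (Fin (n + 1)) ℂ) β * (Fin.snoc (fun j => X (Fin.castSucc j) + C (α' j) * X (Fin.last n))
      (C β' * X (Fin.last n)) : Fin (n + 1) → MvPolynomial (Fin (n + 1)) ℂ) (Fin.last n)) :
        Fin (n + 1) → MvPolynomial (Fin (n + 1)) ℂ) = X := by
    funext i
    refine Fin.lastCases ?_ (fun j => ?_) i
    · rw [Fin.snoc_last, Fin.snoc_last, ← C_eq_algebraMap, ← mul_assoc, ← C_mul, h1, C_1, one_mul]
    · rw [Fin.snoc_castSucc, Fin.snoc_castSucc, Fin.snoc_last, ← C_eq_algebraMap, add_assoc, ← mul_assoc, ← C_mul,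
        ← add_mul, ← C_add, h2, C_0, zero_mul, add_zero]
  rw [h5, aeval_X_left_apply]

private theorem hj_sum {n : ℕ} {F : Type} [CommRing F] [Algebra ℂ F] (G : MvPolynomial (Fin (n + 1)) ℂ) (x : Fin n → F) :
    aeval (Fin.snoc (fun i => Polynomial.C (x i)) Polynomial.X : Fin (n + 1) → Polynomial F) G =
      ∑ t ∈ G.support, Polynomial.C (algebraMap ℂ F (coeff t G) * ∏ j, x j ^ t (Fin.castSucc j)) *
        Polynomial.X ^ t (Fin.last n) := by
  rw [aeval_def, eval₂_eq']
  refine Finset.sum_congr rfl fun t _ => ?_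
  rw [Fin.prod_univ_castSucc, Fin.snoc_last, ← mul_assoc]
  congr 1
  rw [Polynomial.C_mul, map_prod]
  congr 1
  refine Finset.prod_congr rfl fun j _ => ?_
  rw [Fin.snoc_castSucc, Polynomial.C_pow]

private theorem hj_deg {n : ℕ} {G : MvPolynomial (Fin (n + 1)) ℂ} {t : Fin (n + 1) →₀ ℕ} (ht : t ∈ G.support) :
    (∑ j, t (Fin.castSucc j)) + t (Fin.last n) ≤ G.totalDegree := by
  have h1 := le_totalDegree ht
  rwa [Finsupp.sum_fintype _ _ (fun _ => rfl), Fin.sum_univ_castSucc] at h1

private theorem hj_coeff {n d : ℕ} {F : Type} [CommRing F] [Algebra ℂ F] (G : MvPolynomial (Fin (n + 1)) ℂ)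
    (hG : G.totalDegree ≤ d) (x : Fin n → F) :
    (aeval (Fin.snoc (fun i => Polynomial.C (x i)) Polynomial.X : Fin (n + 1) → Polynomial F) G).coeff d =
      algebraMap ℂ F (coeff (Finsupp.single (Fin.last n) d) G) := by
  rw [hj_sum, Polynomial.finsetSum_coeff]
  simp only [Polynomial.coeff_C_mul, Polynomial.coeff_X_pow]
  rw [Finset.sum_eq_single (Finsupp.single (Fin.last n) d)]
  · rw [Finsupp.single_eq_same, if_pos rfl, mul_one]
    have h1 : ∏ j : Fin n, x j ^ (Finsupp.single (Fin.last n) d) (Fin.castSucc j) = 1 := by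
      refine Finset.prod_eq_one fun j _ => ?_
      rw [Finsupp.single_eq_of_ne (Fin.castSucc_lt_last j).ne, pow_zero]
    rw [h1, mul_one]
  · intro t ht hne
    have h1 := hj_deg ht
    rw [if_neg, mul_zero]
    intro h2
    apply hne
    ext i
    refine Fin.lastCases ?_ (fun j => ?_) i
    · rw [Finsupp.single_eq_same]
      exact h2.symm
    · rw [Finsupp.single_eq_of_ne (Fin.castSucc_lt_last j).ne]
      have h3 : t (Fin.castSucc j) ≤ ∑ j, t (Fin.castSucc j) :=
        Finset.single_le_sum (f := fun j => t (Fin.castSucc j)) (fun _ _ => Nat.zero_le _) (Finset.mem_univ j)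
      omega
  · intro h1
    rw [notMem_support_iff] at h1
    rw [h1, map_zero, zero_mul, zero_mul]

private theorem hj_natDegree {n d : ℕ} {F : Type} [CommRing F] [Algebra ℂ F] (G : MvPolynomial (Fin (n + 1)) ℂ)
    (hG : G.totalDegree ≤ d) (x : Fin n → F) :
    (aeval (Fin.snoc (fun i => Polynomial.C (x i)) Polynomial.X : Fin (n + 1) → Polynomial F) G).natDegree ≤ d := by
  rw [hj_sum]
  refine Polynomial.natDegree_sum_le_of_forall_le _ _ fun t ht => ?_
  have h1 := hj_deg ht
  refine (Polynomial.natDegree_C_mul_X_pow_le _ _).trans ?_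
  omega

theorem lin_inv {n : ℕ} (α : Fin n → ℂ) (β : ℂ) (hβ : β ≠ 0) (g : MvPolynomial (Fin (n + 1)) ℂ) :
    linP (fun j => -(α j) * β⁻¹) β⁻¹ (linP α β g) = g ∧
      linP α β (linP (fun j => -(α j) * β⁻¹) β⁻¹ g) = g := by
  refine ⟨hj_comp _ _ _ _ (mul_inv_cancel₀ hβ) (fun j => by ring) g,
    hj_comp _ _ _ _ (inv_mul_cancel₀ hβ) (fun j => ?_) g⟩
  rw [mul_assoc, inv_mul_cancel₀ hβ]
  ring

theorem lin_totalDegree {n : ℕ} (α : Fin n → ℂ) (β : ℂ) (g : MvPolynomial (Fin (n + 1)) ℂ) :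
    (linP α β g).totalDegree ≤ g.totalDegree := by
  unfold linP
  rw [aeval_def, eval₂_eq']
  refine totalDegree_finsetSum_le fun t ht => ?_
  have h1 := le_totalDegree ht
  rw [Finsupp.sum_fintype _ _ (fun _ => rfl)] at h1
  refine (totalDegree_mul _ _).trans ?_
  rw [← C_eq_algebraMap, totalDegree_C, zero_add]
  refine (totalDegree_finsetProd _ _).trans ((Finset.sum_le_sum fun i _ => ?_).trans h1)
  refine (totalDegree_pow _ _).trans ?_
  have h2 : ((Fin.snoc (fun j => X (Fin.castSucc j) + C (α j) * X (Fin.last n))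
    (C β * X (Fin.last n)) : Fin (n + 1) → MvPolynomial (Fin (n + 1)) ℂ) i).totalDegree ≤ 1 := by
    have h3 : ∀ c : ℂ, ((C c * X (Fin.last n) : MvPolynomial (Fin (n + 1)) ℂ)).totalDegree ≤ 1 := by
      intro c
      refine (totalDegree_mul _ _).trans ?_
      rw [totalDegree_C, totalDegree_X]
    refine Fin.lastCases ?_ (fun j => ?_) i
    · rw [Fin.snoc_last]
      exact h3 β
    · rw [Fin.snoc_castSucc]
      refine (totalDegree_add _ _).trans (max_le ?_ (h3 _))
      rw [totalDegree_X]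
  calc _ ≤ t i * 1 := Nat.mul_le_mul_left _ h2
    _ = t i := mul_one _

theorem lin_mul {n : ℕ} (α : Fin n → ℂ) (β : ℂ) (g h : MvPolynomial (Fin (n + 1)) ℂ) :
    linP α β (g * h) = linP α β g * linP α β h := by
  unfold linP
  rw [map_mul]

private theorem hj_top {n : ℕ} (g : MvPolynomial (Fin (n + 1)) ℂ) (hg : g ≠ 0) :
    homogeneousComponent g.totalDegree g ≠ 0 := by
  obtain ⟨t, ht, ht2⟩ := Finset.exists_mem_eq_sup g.support (support_nonempty.2 hg) fun s => s.sum fun _ e => e
  intro h0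
  have h1 := congrArg (coeff t) h0
  rw [coeff_homogeneousComponent, if_pos, coeff_zero] at h1
  · exact (mem_support_iff.1 ht) h1
  · have h2 : g.totalDegree = t.sum fun _ e => e := ht2
    rw [h2]
    rfl

theorem exists_lin {n : ℕ} (g : MvPolynomial (Fin (n + 1)) ℂ) (hg : g ≠ 0) :
    ∃ (α : Fin n → ℂ) (β : ℂ), β ≠ 0 ∧
      coeff (Finsupp.single (Fin.last n) g.totalDegree) (linP α β g) ≠ 0 := by
  obtain ⟨γ, hγ⟩ : ∃ γ : Fin (n + 1) → ℂ,
      eval γ (homogeneousComponent g.totalDegree g * X (Fin.last n)) ≠ 0 := by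
    by_contra hcon
    push Not at hcon
    have h1 : homogeneousComponent g.totalDegree g * X (Fin.last n) = 0 := by
      apply MvPolynomial.funext
      intro x
      rw [hcon x, map_zero]
    rcases mul_eq_zero.1 h1 with h2 | h2
    · exact hj_top g hg h2
    · exact X_ne_zero _ h2
  rw [map_mul, eval_X] at hγ
  refine ⟨fun j => γ (Fin.castSucc j), γ (Fin.last n), right_ne_zero_of_mul hγ, ?_⟩
  have h1 := hj_coeff (F := ℂ) (linP (fun j => γ (Fin.castSucc j)) (γ (Fin.last n)) g) (lin_totalDegree _ _ g)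
    (fun _ => 0)
  rw [hj_lin] at h1
  have h2 : (Fin.snoc (fun j => (Fin.snoc (fun _ : Fin n => Polynomial.C (0 : ℂ)) Polynomial.X :
      Fin (n + 1) → Polynomial ℂ) (Fin.castSucc j) + algebraMap ℂ (Polynomial ℂ) (γ (Fin.castSucc j)) *
      (Fin.snoc (fun _ : Fin n => Polynomial.C (0 : ℂ)) Polynomial.X : Fin (n + 1) → Polynomial ℂ) (Fin.last n))
      (algebraMap ℂ (Polynomial ℂ) (γ (Fin.last n)) *
      (Fin.snoc (fun _ : Fin n => Polynomial.C (0 : ℂ)) Polynomial.X : Fin (n + 1) → Polynomial ℂ) (Fin.last n)) :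
      Fin (n + 1) → Polynomial ℂ) = fun i => Polynomial.C (γ i) * Polynomial.X := by
    funext i
    refine Fin.lastCases ?_ (fun j => ?_) i
    · rw [Fin.snoc_last, Fin.snoc_last]
      rfl
    · rw [Fin.snoc_castSucc, Fin.snoc_castSucc, Fin.snoc_last, map_zero, zero_add]
      rfl
  rw [h2] at h1
  have h3 : (aeval (fun i => Polynomial.C (γ i) * Polynomial.X) g : Polynomial ℂ).coeff g.totalDegree =
      eval γ (homogeneousComponent g.totalDegree g) := by
    rw [aeval_def, eval₂_eq', Polynomial.finsetSum_coeff, homogeneousComponent_apply, map_sum, Finset.sum_filter]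
    refine Finset.sum_congr rfl fun t _ => ?_
    have h4 : ∏ i, (Polynomial.C (γ i) * Polynomial.X) ^ t i =
        Polynomial.C (∏ i, γ i ^ t i) * Polynomial.X ^ (Finsupp.degree t) := by
      simp only [mul_pow]
      rw [Finset.prod_mul_distrib, Finset.prod_pow_eq_pow_sum, map_prod, Finsupp.degree_eq_sum]
      congr 1
      refine Finset.prod_congr rfl fun i _ => ?_
      rw [Polynomial.C_pow]
    rw [h4, ← mul_assoc]
    have h5 : (algebraMap ℂ (Polynomial ℂ)) (coeff t g) * Polynomial.C (∏ i, γ i ^ t i) =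
        Polynomial.C (coeff t g * ∏ i, γ i ^ t i) := by
      rw [Polynomial.C_mul]
      rfl
    rw [h5, Polynomial.coeff_C_mul, Polynomial.coeff_X_pow, eval_monomial, Finsupp.prod_fintype _ _ (fun _ => pow_zero _)]
    by_cases h6 : Finsupp.degree t = g.totalDegree
    · rw [if_pos h6.symm, if_pos h6, mul_one]
    · rw [if_neg (fun h7 => h6 h7.symm), if_neg h6, mul_zero]
  rw [h3] at h1
  intro h4
  rw [h4, map_zero] at h1
  exact (left_ne_zero_of_mul hγ) h1

theorem aeval_lin {n : ℕ} {F : Type} [Field F] [Algebra ℂ F] (α : Fin n → ℂ) (β : ℂ)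
    (g : MvPolynomial (Fin (n + 1)) ℂ) (u : Fin (n + 1) → F) :
    aeval u (linP α β g) = aeval (Fin.snoc (fun j => u (Fin.castSucc j) +
      algebraMap ℂ F (α j) * u (Fin.last n)) (algebraMap ℂ F β * u (Fin.last n)) :
        Fin (n + 1) → F) g :=
  hj_lin α β g u

private theorem hj_list {F : Type} [Field F] (l : List F) {d : ℕ} (hd : l.length = d) :
    ∃ y : Fin d → F, (l.map fun x => Polynomial.X - Polynomial.C x).prod =
      ∏ i, (Polynomial.X - Polynomial.C (y i)) := by
  subst hd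
  refine ⟨fun i => l.get i, ?_⟩
  rw [← List.prod_ofFn]
  congr 1
  conv_lhs => rw [← List.ofFn_get l]
  rw [List.map_ofFn]
  rfl

theorem roots_lin {n d : ℕ} {F : Type} [Field F] [IsAlgClosed F] [Algebra ℂ F]
    (G : MvPolynomial (Fin (n + 1)) ℂ) (hG : G.totalDegree ≤ d)
    (h0 : coeff (Finsupp.single (Fin.last n) d) G ≠ 0) (x : Fin n → F) :
    ∃ y : Fin d → F, aeval (Fin.snoc (fun i => Polynomial.C (x i)) Polynomial.X :
      Fin (n + 1) → Polynomial F) G =
      Polynomial.C (algebraMap ℂ F (coeff (Finsupp.single (Fin.last n) d) G)) *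
        ∏ i, (Polynomial.X - Polynomial.C (y i)) := by
  obtain ⟨P, hP⟩ : ∃ P : Polynomial F, P = aeval (Fin.snoc (fun i => Polynomial.C (x i)) Polynomial.X :
      Fin (n + 1) → Polynomial F) G := ⟨_, rfl⟩
  have h1 : P.coeff d = algebraMap ℂ F (coeff (Finsupp.single (Fin.last n) d) G) := by
    rw [hP]
    exact hj_coeff G hG x
  have h2 : P.natDegree ≤ d := by
    rw [hP]
    exact hj_natDegree G hG x
  have h3 : P.coeff d ≠ 0 := by
    rw [h1]
    intro h4
    apply h0
    exact (map_eq_zero_iff _ (algebraMap ℂ F).injective).1 h4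
  have h4 : P.natDegree = d := le_antisymm h2 (Polynomial.le_natDegree_of_ne_zero h3)
  have h5 := (IsAlgClosed.splits P).eq_prod_roots
  have h6 : P.roots.card = d := by
    rw [IsAlgClosed.card_roots_eq_natDegree, h4]
  obtain ⟨y, hy⟩ := hj_list P.roots.toList (d := d) (by rw [Multiset.length_toList, h6])
  refine ⟨y, ?_⟩
  rw [← hP, ← hy, ← h1, ← Multiset.prod_coe, ← Multiset.map_coe, Multiset.coe_toList]
  have h7 : P.leadingCoeff = P.coeff d := by rw [Polynomial.leadingCoeff, h4]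
  rw [← h7]
  exact h5

theorem root_zero {n d : ℕ} {F : Type} [Field F] [Algebra ℂ F]
    (G : MvPolynomial (Fin (n + 1)) ℂ) (c₀ : ℂ) (x : Fin n → F) (y : Fin d → F)
    (hy : aeval (Fin.snoc (fun i => Polynomial.C (x i)) Polynomial.X :
      Fin (n + 1) → Polynomial F) G =
      Polynomial.C (algebraMap ℂ F c₀) * ∏ i, (Polynomial.X - Polynomial.C (y i))) (i : Fin d) :
    aeval (Fin.snoc x (y i) : Fin (n + 1) → F) G = 0 := by
  have h1 := congrArg (fun p : Polynomial F => ((Polynomial.aeval (y i) : Polynomial F →ₐ[F] F).restrictScalars ℂ) p) hy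
  rw [comp_aeval_apply] at h1
  have h2 : (fun j => ((Polynomial.aeval (y i) : Polynomial F →ₐ[F] F).restrictScalars ℂ)
      ((Fin.snoc (fun i => Polynomial.C (x i)) Polynomial.X : Fin (n + 1) → Polynomial F) j)) =
      (Fin.snoc x (y i) : Fin (n + 1) → F) := by
    funext j
    refine Fin.lastCases ?_ (fun k => ?_) j
    · rw [Fin.snoc_last, Fin.snoc_last, AlgHom.restrictScalars_apply, Polynomial.aeval_X]
    · rw [Fin.snoc_castSucc, Fin.snoc_castSucc, AlgHom.restrictScalars_apply, Polynomial.aeval_C]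
      rfl
  rw [h2] at h1
  rw [h1, map_mul, map_prod, Finset.prod_eq_zero (Finset.mem_univ i), mul_zero]
  rw [AlgHom.restrictScalars_apply, map_sub, Polynomial.aeval_X, Polynomial.aeval_C]
  exact sub_self _

end VPH
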