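import Pool.Agent.VPH.HypDefs
import Pool.Agent.VPH.SlpA
import Pool.Agent.VPH.SlpB

set_option autoImplicit false

/-!
# VPH-HypK: the closure and linear maps of polynomials

Plan. `Bd.linear`: let `q` vanish on all `g` over `m` variables with degree `≤ d`, `Comp S' g`. The map
`f ↦ (coefficients of Λ f)` is linear in the coefficients of `f`; because only finitely many exponents `t` have degree `≤ d`, there is a
polynomial `q'` in the coefficients of `f` with `q'(f) = q(Λ f)` for all `f` of degree at most `d`: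
`q' := aeval (fun u => ∑_{|t| ≤ d} C (coeff u (Λ (monomial t 1))) * X t) q`. It vanishes on the computed ones, so `q'(f) = 0`.
`Bd.lin`: `linP` is `ℂ`-linear and costs `2 * n + 1` operations (`CompF` of the images of the variables: `n` products and `n` sums, one
product). `Bd.smul`: one product. `Bd.eval_last`: setting the last variable to `0`: `aeval (Fin.snoc X 0)`, no
cost (constants and variables are free: `Comp.subst` with `t = 0`).
-/

namespace VPH

open MvPolynomial

private theorem HypK_totalDegree_aeval {R : Type} [CommRing R] {m : ℕ} {σ : Type}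
    (u : Fin m → MvPolynomial σ R) (hu : ∀ i, (u i).totalDegree ≤ 1) (f : MvPolynomial (Fin m) R) :
    (aeval u f).totalDegree ≤ f.totalDegree := by
  rw [aeval_def, eval₂_eq']
  refine totalDegree_finsetSum_le fun t ht => ?_
  refine (totalDegree_mul _ _).trans ?_
  have h1 : (algebraMap R (MvPolynomial σ R) (coeff t f)).totalDegree = 0 := by
    rw [MvPolynomial.algebraMap_eq]
    exact totalDegree_C _
  rw [h1, zero_add]
  refine (totalDegree_finsetProd _ _).trans ?_
  have h2 : ∀ i ∈ (Finset.univ : Finset (Fin m)), (u i ^ t i).totalDegree ≤ t i := by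
    intro i _
    refine (totalDegree_pow _ _).trans ?_
    calc t i * (u i).totalDegree ≤ t i * 1 := Nat.mul_le_mul_left _ (hu i)
      _ = t i := mul_one _
  refine (Finset.sum_le_sum h2).trans ?_
  have h3 : ∑ i, t i = t.sum fun _ e => e := by
    rw [Finsupp.sum_fintype _ _ fun _ => rfl]
  rw [h3]
  exact le_totalDegree ht

private theorem HypK_eval_aeval {σ τ : Type} (x : τ → ℂ) (F : σ → MvPolynomial τ ℂ)
    (q : MvPolynomial σ ℂ) : eval x (aeval F q) = eval (fun u => eval x (F u)) q := by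
  induction q using MvPolynomial.induction_on with
  | C a => rw [aeval_C, MvPolynomial.algebraMap_eq, eval_C, eval_C]
  | add p r hp hr => rw [map_add, map_add, map_add, hp, hr]
  | mul_X p i hp => rw [map_mul, map_mul, map_mul, hp, aeval_X, eval_X]

theorem Bd.linear {n m d S S' : ℕ} {f : MvPolynomial (Fin n) ℂ} (h : Bd d S f)
    (hf : f.totalDegree ≤ d) (Λ : MvPolynomial (Fin n) ℂ →ₗ[ℂ] MvPolynomial (Fin m) ℂ)
    (h1 : ∀ g : MvPolynomial (Fin n) ℂ, g.totalDegree ≤ d → (Λ g).totalDegree ≤ d)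
    (h2 : ∀ g : MvPolynomial (Fin n) ℂ, Comp S g → Comp S' (Λ g)) : Bd d S' (Λ f) := by
  intro q hq
  have hT : Set.Finite {t : Fin n →₀ ℕ | t.degree ≤ d} := Finsupp.finite_of_degree_le d
  have key : ∀ g : MvPolynomial (Fin n) ℂ, g.totalDegree ≤ d → ∀ u : Fin m →₀ ℕ,
      coeff u (Λ g) = ∑ t ∈ hT.toFinset, coeff u (Λ (monomial t 1)) * coeff t g := by
    intro g hg u
    have h3 : g = ∑ t ∈ hT.toFinset, (coeff t g) • (monomial t 1 : MvPolynomial (Fin n) ℂ) := by
      conv_lhs => rw [g.as_sum]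
      have h4 : g.support ⊆ hT.toFinset := by
        intro t ht
        rw [Set.Finite.mem_toFinset]
        exact (le_totalDegree ht).trans hg
      rw [← Finset.sum_subset h4]
      · refine Finset.sum_congr rfl fun t _ => ?_
        rw [smul_monomial, smul_eq_mul, mul_one]
      · intro t _ ht
        rw [notMem_support_iff.1 ht, zero_smul]
    conv_lhs => rw [h3]
    rw [map_sum, coeff_sum]
    refine Finset.sum_congr rfl fun t _ => ?_
    rw [map_smul, coeff_smul, smul_eq_mul, mul_comm]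
  have key2 : ∀ g : MvPolynomial (Fin n) ℂ, g.totalDegree ≤ d →
      eval (fun t => coeff t g) (aeval (fun u : Fin m →₀ ℕ => ∑ t ∈ hT.toFinset,
        C (coeff u (Λ (monomial t 1))) * (X t : MvPolynomial (Fin n →₀ ℕ) ℂ)) q) =
      eval (fun u => coeff u (Λ g)) q := by
    intro g hg
    have h5 : (fun u => coeff u (Λ g)) = fun u : Fin m →₀ ℕ => eval (fun t => coeff t g)
        (∑ t ∈ hT.toFinset, C (coeff u (Λ (monomial t 1))) * (X t : MvPolynomial (Fin n →₀ ℕ) ℂ)) := by
      funext u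
      rw [key g hg u, map_sum]
      refine Finset.sum_congr rfl fun t _ => ?_
      rw [map_mul, eval_C, eval_X]
    rw [h5]
    exact HypK_eval_aeval _ _ _
  rw [← key2 f hf]
  refine h _ fun g hg hg' => ?_
  rw [key2 g hg]
  exact hq _ (h1 g hg) (h2 g hg')

theorem Bd.lin {n d S : ℕ} {f : MvPolynomial (Fin (n + 1)) ℂ} (h : Bd d S f)
    (hf : f.totalDegree ≤ d) (α : Fin n → ℂ) (β : ℂ) : Bd d (S + (2 * n + 1)) (linP α β f) := by
  have hu : ∀ i, ((Fin.snoc (fun j => X (Fin.castSucc j) + C (α j) * X (Fin.last n))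
      (C β * X (Fin.last n)) : Fin (n + 1) → MvPolynomial (Fin (n + 1)) ℂ) i).totalDegree ≤ 1 := by
    have hX : ∀ (i : Fin (n + 1)), (X i : MvPolynomial (Fin (n + 1)) ℂ).totalDegree ≤ 1 :=
      fun i => (totalDegree_X i).le
    have hCX : ∀ (c : ℂ) (i : Fin (n + 1)),
        (C c * X i : MvPolynomial (Fin (n + 1)) ℂ).totalDegree ≤ 1 := by
      intro c i
      refine (totalDegree_mul _ _).trans ?_
      rw [totalDegree_C, totalDegree_X]
    intro i
    refine Fin.lastCases ?_ (fun j => ?_) i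
    · rw [Fin.snoc_last]
      exact hCX _ _
    · rw [Fin.snoc_castSucc]
      exact (totalDegree_add _ _).trans (max_le (hX _) (hCX _ _))
  refine h.linear hf (aeval (Fin.snoc (fun j => X (Fin.castSucc j) + C (α j) * X (Fin.last n))
      (C β * X (Fin.last n)) : Fin (n + 1) → MvPolynomial (Fin (n + 1)) ℂ)).toLinearMap
    (fun g hg => (HypK_totalDegree_aeval _ hu g).trans hg) (fun g hg => ?_)
  refine hg.subst (aeval (Fin.snoc (fun j => X (Fin.castSucc j) + C (α j) * X (Fin.last n))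
      (C β * X (Fin.last n)) : Fin (n + 1) → MvPolynomial (Fin (n + 1)) ℂ) :
      MvPolynomial (Fin (n + 1)) ℂ →ₐ[ℂ] MvPolynomial (Fin (n + 1)) ℂ).toRingHom
    (fun a => ⟨a, MvPolynomial.aeval_C _ a⟩) ?_
  have h3 : ∀ j : Fin n, Comp 2
      (X (Fin.castSucc j) + C (α j) * X (Fin.last n) : MvPolynomial (Fin (n + 1)) ℂ) := fun j =>
    (comp_X _).add ((comp_C _).mul (comp_X _))
  have h4 : ∀ _ : Fin 1, Comp 1 (C β * X (Fin.last n) : MvPolynomial (Fin (n + 1)) ℂ) := fun _ =>
    (comp_C _).mul (comp_X _)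
  obtain ⟨l, hl1, hl2, hl3⟩ := (CompF.of_comp h3).elim (CompF.of_comp h4)
  refine ⟨l, by omega, hl2, fun i => ?_⟩
  show Av l (aeval _ (X i))
  rw [aeval_X]
  refine Fin.lastCases ?_ (fun j => ?_) i
  · rw [Fin.snoc_last]
    exact hl3 (Sum.inr 0)
  · rw [Fin.snoc_castSucc]
    exact hl3 (Sum.inl j)

theorem Bd.smul {n d S : ℕ} {f : MvPolynomial (Fin n) ℂ} (h : Bd d S f)
    (hf : f.totalDegree ≤ d) (c : ℂ) : Bd d (S + 1) (C c * f) := by
  refine h.linear hf (LinearMap.mulLeft ℂ (C c : MvPolynomial (Fin n) ℂ)) (fun g hg => ?_)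
    (fun g hg => ?_)
  · show (C c * g).totalDegree ≤ d
    refine (totalDegree_mul _ _).trans ?_
    rw [totalDegree_C, zero_add]
    exact hg
  · exact ((comp_C c).mul hg).mono (by omega)

/-- minus the value at `Y = 0` -/
theorem Bd.last {n d S : ℕ} {f : MvPolynomial (Fin (n + 1)) ℂ} (h : Bd d S f)
    (hf : f.totalDegree ≤ d) :
    Bd d (S + 1) (-(aeval (Fin.snoc X 0 : Fin (n + 1) → MvPolynomial (Fin n) ℂ) f)) := by
  have hu : ∀ i, ((Fin.snoc X 0 : Fin (n + 1) → MvPolynomial (Fin n) ℂ) i).totalDegree ≤ 1 := by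
    intro i
    refine Fin.lastCases ?_ (fun j => ?_) i
    · rw [Fin.snoc_last, totalDegree_zero]
      exact Nat.zero_le _
    · rw [Fin.snoc_castSucc, totalDegree_X]
  refine h.linear hf (-(aeval (Fin.snoc X 0 : Fin (n + 1) → MvPolynomial (Fin n) ℂ) :
      MvPolynomial (Fin (n + 1)) ℂ →ₐ[ℂ] MvPolynomial (Fin n) ℂ).toLinearMap) (fun g hg => ?_)
    (fun g hg => ?_)
  · show (-(aeval (Fin.snoc X 0 : Fin (n + 1) → MvPolynomial (Fin n) ℂ) g)).totalDegree ≤ d
    rw [totalDegree_neg]
    exact (HypK_totalDegree_aeval _ hu g).trans hg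
  · show Comp (S + 1) (-(aeval (Fin.snoc X 0 : Fin (n + 1) → MvPolynomial (Fin n) ℂ) g))
    have h3 : Comp (S + 0) (aeval (Fin.snoc X 0 : Fin (n + 1) → MvPolynomial (Fin n) ℂ) g) := by
      refine hg.subst (aeval (Fin.snoc X 0 : Fin (n + 1) → MvPolynomial (Fin n) ℂ) :
        MvPolynomial (Fin (n + 1)) ℂ →ₐ[ℂ] MvPolynomial (Fin n) ℂ).toRingHom
        (fun a => ⟨a, MvPolynomial.aeval_C _ a⟩) ⟨[], le_rfl, trivial, fun i => ?_⟩
      show Av [] (aeval _ (X i))
      rw [aeval_X]
      refine Fin.lastCases ?_ (fun j => ?_) i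
      · rw [Fin.snoc_last]
        exact Or.inr (Or.inl ⟨0, C_0.symm⟩)
      · rw [Fin.snoc_castSucc]
        exact Or.inr (Or.inr ⟨j, rfl⟩)
    have h4 := (comp_C (0 : ℂ)).sub h3
    rw [C_0, zero_sub] at h4
    exact h4.mono (by omega)

end VPH
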