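import Pool.Agent.VPH.MainE
import Pool.Agent.VPH.HypA
import Pool.Agent.VPH.HypB
import Pool.Agent.VPH.HypC
import Pool.Agent.VPH.HypD
import Pool.Agent.VPH.HypF
import Pool.Agent.VPH.HypG
import Pool.Agent.VPH.HypH
import Pool.Agent.VPH.HypI
import Pool.Agent.VPH.HypJ
import Pool.Agent.VPH.HypK

set_option autoImplicit false

/-!
# VPH-Hyp (helper69): the theorem for irreducible hypersurfaces (assembly)
-/

namespace VPH

open MvPolynomial

theorem Bd.mono_deg {n d d' S : ℕ} {f : MvPolynomial (Fin n) ℂ} (h : Bd d S f) (hd : d ≤ d') :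
    Bd d' S f :=
  fun q hq => h q fun g hg hc => hq g (hg.trans hd) hc

/-- from the closure of the factors to the closure of the product -/
theorem bd_of_factors {F : Type} [Field F] [Algebra ℂ F] {n d S : ℕ}
    (f : Fin d → MvPolynomial (Fin n) F) (hf : ∀ i, BdF F d S (f i))
    (hfd : ∀ i, (f i).totalDegree ≤ d) (x : Fin n → F)
    (G : MvPolynomial (Fin (n + 1)) ℂ) (c₀ : ℂ) (hc₀ : c₀ ≠ 0)
    (h : C (algebraMap ℂ F c₀) * Wp d f x = map (algebraMap ℂ F) G) :
    Bd d (2 * (d + 1) ^ 2 * (d * (S + 2)) + d + n) (C c₀⁻¹ * G) := by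
  intro q hq
  obtain ⟨Gn, hGn⟩ := exists_generic d d n
  have hW : Wp d f x = map (algebraMap ℂ F) (C c₀⁻¹ * G) := by
    rw [map_mul, map_C, ← h, ← mul_assoc, ← C_mul, ← map_mul, inv_mul_cancel₀ hc₀, map_one, C_1,
      one_mul]
  let W : MvPolynomial (Fin (n + 1)) (MvPolynomial ((Fin d × (Fin n →₀ ℕ)) ⊕ Fin n) ℤ) :=
    Wp d Gn (fun j => X (Sum.inr j))
  have hspec : ∀ (R : Type) [CommRing R] (g : Fin d → MvPolynomial (Fin n) R) (x : Fin n → R),
      (∀ i, (g i).totalDegree ≤ d) →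
      map (eval₂Hom (Int.castRingHom R) (Sum.elim (fun p => coeff p.2 (g p.1)) x)) W =
        Wp d g x := by
    intro R _ g x hg
    rw [map_W]
    congr 1
    · funext i
      exact hGn R g x hg i
    · funext j
      simp
  let Q : MvPolynomial ((Fin d × (Fin n →₀ ℕ)) ⊕ Fin n) ℂ :=
    aeval (fun t => map (Int.castRingHom ℂ) (coeff t W)) q
  have hQ : ∀ (R : Type) [CommRing R] [Algebra ℂ R] (g : Fin d → MvPolynomial (Fin n) R)
      (x : Fin n → R), (∀ i, (g i).totalDegree ≤ d) →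
      aeval (Sum.elim (fun p => coeff p.2 (g p.1)) x) Q = aeval (fun t => coeff t (Wp d g x)) q := by
    intro R _ _ g x hg
    rw [← hspec R g x hg]
    change aeval (Sum.elim (fun p => coeff p.2 (g p.1)) x)
      (aeval (fun t => map (Int.castRingHom ℂ) (coeff t W)) q) = _
    rw [← AlgHom.comp_apply, comp_aeval]
    congr 2
    funext t
    rw [coeff_map]
    change aeval (Sum.elim (fun p => coeff p.2 (g p.1)) x) (map (Int.castRingHom ℂ) (coeff t W)) =
      eval₂ (Int.castRingHom R) (Sum.elim (fun p => coeff p.2 (g p.1)) x) (coeff t W)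
    rw [aeval_def, eval₂_map]
    congr 1
    exact RingHom.ext_int _ _
  have h1 := vanish_prod f hf x Q (by
    intro g x hg
    have h2 := hQ ℂ g x (fun i => (hg i).1)
    have h3 : eval (Sum.elim (fun p => coeff p.2 (g p.1)) x) Q =
        aeval (Sum.elim (fun p => coeff p.2 (g p.1)) x) Q := by
      rw [← coe_aeval_eq_eval]
      rfl
    rw [h3, h2]
    have h4 := hq (Wp d g x) (degree_W d g x) (comp_W d g x fun i => (hg i).2)
    rw [← h4, ← coe_aeval_eq_eval]
    rfl)
  rw [hQ F f x hfd, hW] at h1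
  have h5 : algebraMap ℂ F (eval (fun t => coeff t (C c₀⁻¹ * G)) q) = 0 := by
    rw [← h1, eval, coe_eval₂Hom, eval₂_comp_left, RingHom.comp_id, aeval_def]
    congr 1
  exact (algebraMap ℂ F).injective (h5.trans (map_zero _).symm)

end VPH
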