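import Pool.Agent.VPH.DexB

set_option autoImplicit false

/-!
# Project VPH, part 2 (hypersurfaces): definitions
-/

namespace VPH

open MvPolynomial

/-- `f`, a polynomial over `F ⊇ ℂ`, is in the Zariski closure (defined over `ℂ`) of the complex
polynomials of degree at most `d` computed with at most `S` operations -/
def BdF (F : Type) [Field F] [Algebra ℂ F] {n : ℕ} (d S : ℕ) (f : MvPolynomial (Fin n) F) : Prop :=
  ∀ q : MvPolynomial (Fin n →₀ ℕ) ℂ,
    (∀ g : MvPolynomial (Fin n) ℂ, g.totalDegree ≤ d → Comp S g → eval (fun t => coeff t g) q = 0) →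
    aeval (fun t => coeff t f) q = 0

/-- the product of the `Y - f i`, truncated, shifted by `x` in the first `n` variables; `Y` is the last
variable -/
noncomputable def Wp {R : Type} [CommRing R] {n r : ℕ} (d : ℕ) (f : Fin r → MvPolynomial (Fin n) R)
    (x : Fin n → R) : MvPolynomial (Fin (n + 1)) R :=
  aeval (Fin.snoc (fun j => X (Fin.castSucc j) - C (x j)) (X (Fin.last n)) :
    Fin (n + 1) → MvPolynomial (Fin (n + 1)) R)
    (tru d (∏ i, (X (Fin.last n) - rename Fin.castSucc (f i))))

/-- the linear substitution `X_i ↦ X_i + α_i Y`, `Y ↦ β Y` -/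
noncomputable def linP {R : Type} [CommRing R] {n : ℕ} (α : Fin n → R) (β : R)
    (g : MvPolynomial (Fin (n + 1)) R) : MvPolynomial (Fin (n + 1)) R :=
  aeval (Fin.snoc (fun j => X (Fin.castSucc j) + C (α j) * X (Fin.last n))
    (C β * X (Fin.last n)) : Fin (n + 1) → MvPolynomial (Fin (n + 1)) R) g

end VPH
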