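import Pool.Agent.VPH.Defs

set_option autoImplicit false

/-!
# VPH-SlpD: the universal computation

Every constant `c` of the computation is replaced by the variable `X c` of `MvPolynomial E ℤ`.
-/

namespace VPH

open MvPolynomial

private theorem slpd_av {σ E E' : Type} [CommRing E] [CommRing E'] (ε : E' →+* E) (hε : Function.Surjective ε)
    (l' : List (MvPolynomial σ E')) {a : MvPolynomial σ E} (h : Av (l'.map (map ε)) a) :
    ∃ a', Av l' a' ∧ map ε a' = a := by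
  rcases h with h | ⟨c, rfl⟩ | ⟨i, rfl⟩
  · obtain ⟨a', h1, h2⟩ := List.mem_map.1 h
    exact ⟨a', Or.inl h1, h2⟩
  · obtain ⟨c', rfl⟩ := hε c
    exact ⟨C c', Or.inr (Or.inl ⟨c', rfl⟩), map_C ε c'⟩
  · exact ⟨X i, Or.inr (Or.inr ⟨i, rfl⟩), map_X ε i⟩

private theorem slpd_slp {σ E E' : Type} [CommRing E] [CommRing E'] (ε : E' →+* E) (hε : Function.Surjective ε)
    (l : List (MvPolynomial σ E)) (h : IsSLP l) :
    ∃ l' : List (MvPolynomial σ E'), IsSLP l' ∧ l'.map (map ε) = l := by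
  induction l with
  | nil => exact ⟨[], trivial, rfl⟩
  | cons g l ih =>
    obtain ⟨h1, a, b, ha, hb, hg⟩ := h
    obtain ⟨l', h2, rfl⟩ := ih h1
    obtain ⟨a', ha', rfl⟩ := slpd_av ε hε l' ha
    obtain ⟨b', hb', rfl⟩ := slpd_av ε hε l' hb
    rcases hg with rfl | rfl | rfl
    · refine ⟨(a' + b') :: l', ⟨h2, a', b', ha', hb', Or.inl rfl⟩, ?_⟩
      rw [List.map_cons, map_add]
    · refine ⟨(a' - b') :: l', ⟨h2, a', b', ha', hb', Or.inr (Or.inl rfl)⟩, ?_⟩
      rw [List.map_cons, map_sub]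
    · refine ⟨(a' * b') :: l', ⟨h2, a', b', ha', hb', Or.inr (Or.inr rfl)⟩, ?_⟩
      rw [List.map_cons, map_mul]

theorem univ_comp {σ E : Type} [CommRing E] {s : ℕ} {P : MvPolynomial σ E} (h : Comp s P) :
    ∃ Φ : MvPolynomial σ (MvPolynomial E ℤ),
      map (aeval (id : E → E) : MvPolynomial E ℤ →ₐ[ℤ] E).toRingHom Φ = P ∧ Comp s Φ := by
  obtain ⟨l, h1, h2, h3⟩ := h
  have hε : Function.Surjective (aeval (id : E → E) : MvPolynomial E ℤ →ₐ[ℤ] E).toRingHom := by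
    intro c
    refine ⟨X c, ?_⟩
    show aeval (id : E → E) (X c : MvPolynomial E ℤ) = c
    rw [aeval_X]
    rfl
  obtain ⟨l', h4, rfl⟩ := slpd_slp _ hε l h2
  obtain ⟨Φ, h5, h6⟩ := slpd_av _ hε l' h3
  rw [List.length_map] at h1
  exact ⟨Φ, h6, l', h1, h4, h5⟩

end VPH
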