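import Pool.Agent.VPH.HypDefs
import Pool.Agent.VPH.SlpB
import Pool.Agent.VPH.SlpC
import Pool.Agent.VPH.SlpD

set_option autoImplicit false

/-!
# VPH-HypE: residues of computations are in the closure, over `F`

As `closure_step` in SlpE.lean, without the shift.
-/

namespace VPH

open MvPolynomial

theorem closure_stepF {E F : Type} [Field E] [Field F] [Algebra ℂ E] [Algebra ℂ F] (O : Subring E)
    (ρ : O →+* F)
    (base : ∀ c : ℂ, ∃ hc : algebraMap ℂ E c ∈ O, ρ ⟨algebraMap ℂ E c, hc⟩ = algebraMap ℂ F c)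
    {n d S₀ : ℕ} (P : MvPolynomial (Fin n) E) (hP : Comp S₀ P) (f : MvPolynomial (Fin n) F)
    (H : Res O ρ (tru d P) f) : BdF F d (2 * (d + 1) ^ 2 * S₀ + d) f := by
  intro q hq
  obtain ⟨Φ, hΦ, hcomp⟩ := univ_comp hP
  set ε : MvPolynomial E ℤ →+* E := (aeval (id : E → E) : MvPolynomial E ℤ →ₐ[ℤ] E).toRingHom with hε
  set Ψ : MvPolynomial (Fin n) (MvPolynomial E ℤ) := tru d Φ with hΨ
  have hΨc : Comp (2 * (d + 1) ^ 2 * S₀ + d) Ψ := hcomp.tru d
  have hΨE : map ε Ψ = tru d P := by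
    rw [hΨ, map_tru, hΦ]
  -- the polynomial in the constants
  have hq' : aeval (fun t => map (Int.castRingHom ℂ) (coeff t Ψ)) q = (0 : MvPolynomial E ℂ) := by
    refine MvPolynomial.funext fun γ => ?_
    rw [map_zero]
    have h1 : (map (eval₂Hom (Int.castRingHom ℂ) γ) Ψ).totalDegree ≤ d := by
      rw [hΨ, map_tru]
      exact tru_totalDegree d _
    have h2 := hq (map (eval₂Hom (Int.castRingHom ℂ) γ) Ψ) h1 (hΨc.map _)
    rw [← h2, aeval_def, ← coe_eval₂Hom, ← RingHom.comp_apply, comp_eval₂Hom, eval, coe_eval₂Hom]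
    congr 1
    · ext c
      simp [MvPolynomial.algebraMap_eq]
    · funext t
      rw [coeff_map]
      change eval γ (map (Int.castRingHom ℂ) (coeff t Ψ)) = eval₂ (Int.castRingHom ℂ) γ (coeff t Ψ)
      rw [eval_map]
  have hE : eval₂ (algebraMap ℂ E) (fun t => coeff t (map ε Ψ)) q = 0 := by
    have h1 := congrArg (aeval (id : E → E) : MvPolynomial E ℂ →ₐ[ℂ] E) hq'
    rw [map_zero] at h1
    rw [← h1]
    have h2 : (aeval (id : E → E) : MvPolynomial E ℂ →ₐ[ℂ] E)
        (aeval (fun t => map (Int.castRingHom ℂ) (coeff t Ψ)) q) =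
        aeval (fun t => aeval (id : E → E) (map (Int.castRingHom ℂ) (coeff t Ψ))) q := by
      rw [← AlgHom.comp_apply, comp_aeval]
    rw [h2, aeval_def]
    congr 1
    funext t
    rw [coeff_map]
    exact (aeval_map_algebraMap ℂ (id : E → E) (coeff t Ψ)).symm
  rw [hΨE] at hE
  obtain ⟨P', hP1, hP2⟩ := H
  have hmem : ∀ c : ℂ, algebraMap ℂ E c ∈ O := fun c => (base c).1
  set j : ℂ →+* O := (algebraMap ℂ E).codRestrict O hmem with hj
  have hj1 : O.subtype.comp j = algebraMap ℂ E := by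
    ext c
    rfl
  have hj2 : ρ.comp j = algebraMap ℂ F := by
    ext c
    obtain ⟨hc, h1⟩ := base c
    rw [RingHom.comp_apply, ← h1]
    rfl
  have hO : eval₂ j (fun t => coeff t P') q = 0 := by
    apply Subtype.val_injective
    change O.subtype (eval₂ j (fun t => coeff t P') q) = O.subtype 0
    rw [eval₂_comp_left, map_zero, hj1, ← hE]
    congr 1
    funext t
    rw [Function.comp_apply, ← hP1, coeff_map]
  have hF := congrArg ρ hO
  rw [eval₂_comp_left, map_zero, hj2] at hF
  have h3 : (ρ ∘ fun t => coeff t P') = fun t => coeff t f := by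
    funext t
    rw [Function.comp_apply, ← coeff_map, hP2]
  rw [h3] at hF
  rw [aeval_def]
  exact hF

end VPH
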