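import Pool.Agent.VPH.Hyp

set_option autoImplicit false

/-!
# VPH-HypMain (helper69): the theorem for irreducible hypersurfaces
-/

namespace VPH

open MvPolynomial

/-- the new coordinates -/
noncomputable def newP {n : ℕ} (α : Fin n → ℂ) (β : ℂ) : Fin (n + 1) → MvPolynomial (Fin (n + 1)) ℂ :=
  Fin.snoc (fun j => X (Fin.castSucc j) + C (α j) * X (Fin.last n)) (C β * X (Fin.last n))

theorem comp_newP {n : ℕ} (α : Fin n → ℂ) (β : ℂ) (j : Fin (n + 1)) : Comp 2 (newP α β j) := by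
  refine Fin.lastCases ?_ (fun i => ?_) j
  · rw [newP, Fin.snoc_last]
    exact ((comp_C β).mul (comp_X _)).mono (by norm_num)
  · rw [newP, Fin.snoc_castSucc]
    exact ((comp_X _).add ((comp_C (α i)).mul (comp_X _))).mono (by norm_num)

theorem linP_eq {n : ℕ} (α : Fin n → ℂ) (β : ℂ) (g : MvPolynomial (Fin (n + 1)) ℂ) :
    linP α β g = aeval (newP α β) g := rfl

theorem linP_dvd {n : ℕ} (α : Fin n → ℂ) (β : ℂ) (hβ : β ≠ 0) (g p : MvPolynomial (Fin (n + 1)) ℂ)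
    (h : g ∣ linP (fun j => -(α j) * β⁻¹) β⁻¹ p) : linP α β g ∣ p := by
  obtain ⟨c, hc⟩ := h
  refine ⟨linP α β c, ?_⟩
  rw [← lin_mul, ← hc, (lin_inv α β hβ p).2]

theorem hyp_cost (n D d s M r : ℕ) (hn : n + 1 ≤ M) (hD : D ≤ d) :
    (2 * (D + 1) ^ 2 * (D * ((2 * (D + 1) ^ 2 * (n + D * ((0 + (4 * (M + 1)) ^ (r + 1) + (n + 1)) *
      (s + 3) + 2 * (0 + (4 * (M + 1)) ^ (r + 1) + (n + 1)) ^ 2 +
      (0 + (4 * (M + 1)) ^ (r + 1) + (n + 1)))) + D) + 2)) + D + n) + 1 + (2 * n + 1) ≤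
    16 * (d + 1) ^ 6 * (s + 10) * (4 * (M + 1)) ^ (2 * (r + 1)) := by
  set g := (4 * (M + 1)) ^ (r + 1) with hg
  have h1 : (4 * (M + 1)) ^ (2 * (r + 1)) = g ^ 2 := by rw [hg, ← pow_mul, mul_comm 2 (r + 1)]
  have h2 : 4 * (M + 1) ≤ g := Nat.le_self_pow (by omega) _
  rw [h1]
  have h3 : 4 * (n + 1) ≤ g := by omega
  have h4 : 8 ≤ g := by omega
  obtain ⟨γ, hγ⟩ : ∃ γ, γ = 0 + g + (n + 1) := ⟨_, rfl⟩
  rw [← hγ]
  have h5 : 4 * γ ≤ 5 * g := by omega
  have h6 : 16 * γ ^ 2 ≤ 25 * g ^ 2 := by nlinarith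
  have h7 : 8 * g ≤ g ^ 2 := by nlinarith
  -- the inner term
  obtain ⟨A, hA⟩ : ∃ A, A = γ * (s + 3) + 2 * γ ^ 2 + γ := ⟨_, rfl⟩
  have h8 : A ≤ g ^ 2 * (s + 7) := by
    have e1 : γ * (s + 3) * 32 ≤ 5 * g ^ 2 * (s + 3) := by nlinarith
    have e2 : 16 * (2 * γ ^ 2) ≤ 50 * g ^ 2 := by omega
    have e3 : 32 * γ ≤ 5 * g ^ 2 := by nlinarith
    nlinarith
  rw [← hA]
  have h9 : n + D * A ≤ (D + 1) * (g ^ 2 * (s + 7)) := by
    have e1 : D * A ≤ D * (g ^ 2 * (s + 7)) := Nat.mul_le_mul_left _ h8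
    have e2 : n ≤ g ^ 2 * (s + 7) := by nlinarith
    nlinarith
  obtain ⟨B, hB⟩ : ∃ B, B = n + D * A := ⟨_, rfl⟩
  rw [← hB] at h9 ⊢
  have h10 : 2 * (D + 1) ^ 2 * B + D + 2 ≤ 2 * (D + 1) ^ 3 * (g ^ 2 * (s + 8)) := by
    have e1 : 2 * (D + 1) ^ 2 * B ≤ 2 * (D + 1) ^ 2 * ((D + 1) * (g ^ 2 * (s + 7))) :=
      Nat.mul_le_mul_left _ h9
    have e2 : D + 2 ≤ 2 * (D + 1) ^ 3 * g ^ 2 := by
      have a1 : D + 2 ≤ 2 * (D + 1) := by omega
      have a2 : D + 1 ≤ (D + 1) ^ 3 := Nat.le_self_pow (by omega) _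
      have a3 : 2 * (D + 1) ^ 3 * 1 ≤ 2 * (D + 1) ^ 3 * g ^ 2 :=
        Nat.mul_le_mul_left _ (by nlinarith)
      omega
    nlinarith
  have h11 : D * (2 * (D + 1) ^ 2 * B + D + 2) ≤ 2 * (D + 1) ^ 4 * (g ^ 2 * (s + 8)) := by
    have e1 : D * (2 * (D + 1) ^ 2 * B + D + 2) ≤
        (D + 1) * (2 * (D + 1) ^ 3 * (g ^ 2 * (s + 8))) := Nat.mul_le_mul (by omega) h10
    calc _ ≤ _ := e1
      _ = _ := by ring
  have h12 : 2 * (D + 1) ^ 2 * (D * (2 * (D + 1) ^ 2 * B + D + 2)) ≤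
      4 * (D + 1) ^ 6 * (g ^ 2 * (s + 8)) := by
    calc _ ≤ 2 * (D + 1) ^ 2 * (2 * (D + 1) ^ 4 * (g ^ 2 * (s + 8))) := Nat.mul_le_mul_left _ h11
      _ = _ := by ring
  have h13 : D + n + 1 + (2 * n + 1) ≤ (D + 1) ^ 6 * g ^ 2 := by
    have a1 : D + 1 ≤ (D + 1) ^ 6 := Nat.le_self_pow (by omega) _
    have a2 : D + n + 1 + (2 * n + 1) ≤ (D + 1) * g := by nlinarith
    have a3 : (D + 1) * g ≤ (D + 1) ^ 6 * g ^ 2 := Nat.mul_le_mul a1 (by nlinarith)
    omega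
  have h14 : (D + 1) ^ 6 ≤ (d + 1) ^ 6 := Nat.pow_le_pow_left (by omega) _
  have h15 : 4 * (D + 1) ^ 6 * (g ^ 2 * (s + 8)) + (D + 1) ^ 6 * g ^ 2 ≤
      16 * (D + 1) ^ 6 * (s + 10) * g ^ 2 := by nlinarith [Nat.zero_le ((D + 1) ^ 6 * g ^ 2 * s), Nat.zero_le ((D + 1) ^ 6 * g ^ 2)]
  have h16 : 16 * (D + 1) ^ 6 * (s + 10) * g ^ 2 ≤ 16 * (d + 1) ^ 6 * (s + 10) * g ^ 2 :=
    Nat.mul_le_mul_right _ (Nat.mul_le_mul_right _ (Nat.mul_le_mul_left _ h14))
  omega

/-- a root of `G(ξ, Y) ≠ 0` is algebraic -/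
theorem isAlg_of_root {k F : Type} [Field k] [Field F] [Algebra ℂ k] [Algebra ℂ F] [Algebra k F]
    [IsScalarTower ℂ k F] {n : ℕ} (G : MvPolynomial (Fin (n + 1)) ℂ) (ξ : Fin n → F) (y₀ : F)
    (K : IntermediateField k F) (hξ : ∀ i, ξ i ∈ K)
    (h0 : aeval (Fin.snoc ξ y₀ : Fin (n + 1) → F) G = 0)
    (h1 : aeval (Fin.snoc (fun i => Polynomial.C (ξ i)) Polynomial.X :
      Fin (n + 1) → Polynomial F) G ≠ 0) : IsAlgebraic K y₀ := by
  let P : Polynomial K := aeval (Fin.snoc (fun i => Polynomial.C (⟨ξ i, hξ i⟩ : K)) Polynomial.X :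
      Fin (n + 1) → Polynomial K) G
  have hP : P.map (algebraMap K F) = aeval (Fin.snoc (fun i => Polynomial.C (ξ i)) Polynomial.X :
      Fin (n + 1) → Polynomial F) G := by
    have e1 : P.map (algebraMap K F) =
        (Polynomial.mapRingHom (algebraMap K F)) (aeval (Fin.snoc (fun i =>
          Polynomial.C (⟨ξ i, hξ i⟩ : K)) Polynomial.X : Fin (n + 1) → Polynomial K) G) := rfl
    rw [e1, aeval_def, hom_eval₂, aeval_def]
    congr 1
    · refine RingHom.ext fun c => ?_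
      rw [RingHom.comp_apply, Polynomial.algebraMap_apply, Polynomial.coe_mapRingHom,
        Polynomial.map_C, Polynomial.algebraMap_apply]
      rfl
    · funext j
      refine Fin.lastCases ?_ (fun i => ?_) j
      · simp
      · simp
  refine ⟨P, ?_, ?_⟩
  · intro h
    apply h1
    rw [← hP, h, Polynomial.map_zero]
  · have e2 : Polynomial.aeval y₀ P = Polynomial.eval y₀ (P.map (algebraMap K F)) := by
      rw [Polynomial.aeval_def, Polynomial.eval_map]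
    rw [e2, hP, ← h0]
    have e3 : Polynomial.eval y₀ (aeval (Fin.snoc (fun i => Polynomial.C (ξ i)) Polynomial.X :
        Fin (n + 1) → Polynomial F) G) = (Polynomial.evalRingHom y₀) (aeval (Fin.snoc (fun i =>
          Polynomial.C (ξ i)) Polynomial.X : Fin (n + 1) → Polynomial F) G) := rfl
    rw [e3, aeval_def, hom_eval₂, aeval_def]
    congr 1
    · ext c
      simp
    · funext j
      refine Fin.lastCases ?_ (fun i => ?_) j
      · simp
      · simp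

theorem hyp_thm {n d s : ℕ} (g : MvPolynomial (Fin (n + 1)) ℂ) (hg : Irreducible g)
    (hd : g.totalDegree ≤ d) (φ : Fml ℂ (n + 1)) (hφ : φ.Siz s)
    (e : MvPolynomial (Fin (n + 1)) ℂ) (he : ¬ g ∣ e)
    (hT : ∀ u : Fin (n + 1) → ℂ, aeval u g = 0 → aeval u e ≠ 0 → φ.holds ℂ u)
    (q : MvPolynomial (Fin (n + 1)) ℂ) (hq : q ≠ 0)
    (hTq : ∀ u : Fin (n + 1) → ℂ, φ.holds ℂ u → aeval u q = 0) :
    Bd d (16 * (d + 1) ^ 6 * (s + 10) * (4 * (φ.tot + 1)) ^ (2 * (φ.rk + 1))) g := by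
  obtain ⟨F, _, _, _, x, hx, hB⟩ := exists_big
  -- the generic point
  have hx' : AlgebraicIndependent ℂ (fun i : Fin (n + 1) => x i) :=
    hx.comp (fun i : Fin (n + 1) => (i : ℕ)) Fin.val_injective
  set h : Fin (n + 1) → F := fun i => x i with hh
  have hc0 : Cheap ℂ F (s + 3) h 0 := cheap_init h ((algInd_iff ℂ h).1 hx')
  -- the generic point of the hypersurface
  obtain ⟨Fa, _, _, _, a, ha, hta⟩ := exists_gp g hg
  have htr : tr ℂ a = n := by omega
  have htr2 : ∀ (Fc : Type) [Field Fc] [Algebra ℂ Fc] (c : Fin (n + 1) → Fc)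
      (p : MvPolynomial (Fin (n + 1)) ℂ), p ≠ 0 → aeval c p = 0 → tr ℂ c ≤ n := by
    intro Fc _ _ c p hp hcp
    by_contra hcon
    have h1 := tr_le ℂ c
    have h2 : AlgebraicIndependent ℂ c := (algInd_iff ℂ c).2 (by omega)
    exact hp (h2.eq_zero_of_aeval_eq_zero p hcp)
  have hM : MaxPt ℂ φ h a := by
    refine ⟨?_, ?_, ?_⟩
    · obtain ⟨b', hb1, hb2, hb3⟩ := transfer₂ Fa φ g e a
      refine hb1.2 (hT b' (hb2.1 ((ha g).2 dvd_rfl)) fun h0 => ?_)
      exact he ((ha e).1 (hb3.2 h0))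
    · intro p hp
      rw [hx'.eq_zero_of_aeval_eq_zero p hp, map_zero]
    · intro Fc j1 j2 j3 j4 j5 c hc _ hca
      have e : j3 = j4 := Algebra.algebra_ext _ _ fun r =>
        @IsScalarTower.algebraMap_apply ℂ ℂ Fc _ _ _ _ j4 j3 j5 r
      subst e
      refine hca.symm_of_tr ?_
      rw [htr]
      obtain ⟨b', hb1, hb2⟩ := transfer Fc φ q c
      exact htr2 Fc c q hq (hb2.2 (hTq b' (hb1.1 hc)))
  have hG := good_main (s + 3) s (by omega) φ.rk (n + 1) φ rfl hφ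
  obtain ⟨k', F', i1, i2, i3, i4, i5, i6, i7, i8, i9, i10, i11, i12, a', hB', hea, ht, hc⟩ :=
    hG ℂ F Fa h 0 a hB hc0 hM
  have e1 : i3 = i7 := Algebra.algebra_ext _ _ fun r =>
    @IsScalarTower.algebraMap_apply ℂ ℂ k' _ _ _ _ i7 i3 i8 r
  subst e1
  have e2 : i4 = i9 := Algebra.algebra_ext _ _ fun r => by
    rw [@IsScalarTower.algebraMap_apply ℂ k' F' _ _ _ _ i5 i4 i6 r,
      @IsScalarTower.algebraMap_apply ℂ k' F' _ _ _ _ i5 i9 i10 r]
  subst e2
  have hk0 : CharZero k' := charZero_of_injective_algebraMap (algebraMap ℂ k').injective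
  have hF0 : CharZero F' := charZero_of_injective_algebraMap (algebraMap ℂ F').injective
  -- normalisation
  obtain ⟨α, β, hβ, hc₀⟩ := exists_lin g hg.ne_zero
  set D := g.totalDegree with hD
  set G := linP α β g with hGd
  set c₀ := coeff (Finsupp.single (Fin.last n) D) G with hc₀d
  have hGdeg : G.totalDegree ≤ D := lin_totalDegree α β g
  have hG0 : G ≠ 0 := by
    intro h0
    apply hc₀
    rw [hc₀d, h0, coeff_zero]
  set α' : Fin n → ℂ := fun j => -(α j) * β⁻¹ with hα'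
  set b : Fin (n + 1) → F' := fun j => aeval a' (newP α' β⁻¹ j) with hb
  have hblin : ∀ p : MvPolynomial (Fin (n + 1)) ℂ, aeval b p = aeval a' (linP α' β⁻¹ p) := by
    intro p
    rw [linP_eq, ← AlgHom.comp_apply, comp_aeval]
  have ha' : ∀ p : MvPolynomial (Fin (n + 1)) ℂ, aeval a' p = 0 ↔ g ∣ p := fun p =>
    ⟨fun hp => (ha p).1 ((hea p).2 hp), fun hp => (hea p).1 ((ha p).2 hp)⟩
  have hbG : ∀ p : MvPolynomial (Fin (n + 1)) ℂ, aeval b p = 0 → G ∣ p := by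
    intro p hp
    rw [hblin] at hp
    exact linP_dvd α β hβ g p ((ha' _).1 hp)
  have hbG0 : aeval b G = 0 := by
    rw [hblin, hGd, (lin_inv α β hβ g).1]
    exact (ha' g).2 dvd_rfl
  -- `a'` in terms of `b`
  have hab : ∀ j, a' j = aeval b (newP α β j) := by
    intro j
    rw [hblin]
    have h1 : newP α β j = linP α β (X j) := by rw [linP_eq, aeval_X]
    rw [h1, (lin_inv α β hβ (X j)).1, aeval_X]
  have hmem : ∀ (p : MvPolynomial (Fin (n + 1)) ℂ) {m : ℕ} (c : Fin m → F')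
      (v : Fin (n + 1) → F') (_ : ∀ j, v j ∈ IntermediateField.adjoin k' (Set.range c)),
      aeval v p ∈ IntermediateField.adjoin k' (Set.range c) := by
    intro p m c v hv
    rw [aeval_def, eval₂_eq]
    refine sum_mem fun t _ => mul_mem ?_ (prod_mem fun i _ => pow_mem (hv i) _)
    rw [@IsScalarTower.algebraMap_apply ℂ k' F' _ _ _ _ i5 i4 i6]
    exact (IntermediateField.adjoin k' (Set.range c)).algebraMap_mem _
  have htb : tr k' b = n := by
    have h1 : tr k' b ≤ tr k' a' := tr_le_of_mem k' b a' fun j =>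
      hmem _ a' a' fun i => IntermediateField.subset_adjoin k' _ ⟨i, rfl⟩
    have h2 : tr k' a' ≤ tr k' b := tr_le_of_mem k' a' b fun j => by
      rw [hab j]
      exact hmem _ b b fun i => IntermediateField.subset_adjoin k' _ ⟨i, rfl⟩
    rw [ht, htr] at h1 h2
    omega
  have htbC : tr ℂ b = n := by
    have h1 := tr_const_le ℂ k' b
    have h2 := htr2 F' b G hG0 hbG0
    omega
  -- `b` is cheap
  have hcb : Cheap k' F' (s + 3) b (0 + (4 * (φ.tot + 1)) ^ (φ.rk + 1) + (n + 1)) := by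
    have h1 := cheap_poly (by omega) hc (newP α' β⁻¹) (comp_newP α' β⁻¹)
    have h2 : Fin.append a' b ∘ Fin.natAdd (n + 1) = b :=
      funext fun j => Fin.append_right a' b j
    have h3 := cheap_reindex (k := k') (F := F') h1 (Fin.natAdd (n + 1)) (by
      change tr k' (Fin.append a' b ∘ Fin.natAdd (n + 1)) = tr k' (Fin.append a' b)
      rw [h2]
      apply le_antisymm
      · have := tr_comp_le k' (Fin.append a' b) (Fin.natAdd (n + 1))
        rwa [h2] at this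
      · apply tr_le_of_mem
        intro j
        refine Fin.addCases (fun i => ?_) (fun i => ?_) j
        · rw [Fin.append_left, hab i]
          exact hmem _ b b fun i => IntermediateField.subset_adjoin k' _ ⟨i, rfl⟩
        · rw [Fin.append_right]
          exact IntermediateField.subset_adjoin k' _ ⟨i, rfl⟩)
    have h4 : Fin.append a' (fun j => aeval a' (newP α' β⁻¹ j)) ∘ Fin.natAdd (n + 1) = b := h2
    rwa [h4] at h3
  -- split off the last coordinate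
  obtain ⟨ξ, hξ⟩ : ∃ ξ : Fin n → F', ξ = b ∘ Fin.castSucc := ⟨_, rfl⟩
  obtain ⟨y₀, hy₀⟩ : ∃ y₀ : F', y₀ = b (Fin.last n) := ⟨_, rfl⟩
  have hbs : b = Fin.snoc ξ y₀ := by rw [hξ, hy₀]; exact eq_snoc b
  -- the roots
  obtain ⟨y, hy⟩ := roots_lin G hGdeg hc₀ ξ
  have hyr : ∀ i, aeval (Fin.snoc ξ (y i) : Fin (n + 1) → F') G = 0 :=
    root_zero G _ ξ y hy
  -- `ξ` is algebraically independent
  have hξt : tr k' ξ = n := by
    apply le_antisymm (tr_le k' ξ)
    refine le_trans (le_of_eq htb.symm) (tr_le_of_alg k' b ξ fun j => ?_)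
    refine Fin.lastCases ?_ (fun i => ?_) j
    · -- `y₀` is a root of `G(ξ, Y)`
      rw [← hy₀]
      have hξm : ∀ i, ξ i ∈ IntermediateField.adjoin k' (Set.range ξ) := fun i =>
        IntermediateField.subset_adjoin k' _ ⟨i, rfl⟩
      exact isAlg_of_root G ξ y₀ (IntermediateField.adjoin k' (Set.range ξ)) hξm
        (by rw [← hbs]; exact hbG0) (by
          rw [hy]
          refine mul_ne_zero ?_ (Finset.prod_ne_zero_iff.2 fun i _ => Polynomial.X_sub_C_ne_zero _)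
          rw [Ne, Polynomial.C_eq_zero, map_eq_zero_iff _ (algebraMap ℂ F').injective]
          exact hc₀)
    · refine isAlgebraic_algebraMap
        (⟨b (Fin.castSucc i), IntermediateField.subset_adjoin k' _ ⟨i, by rw [hξ]; rfl⟩⟩ :
          IntermediateField.adjoin k' (Set.range ξ))
  have hξi : AlgebraicIndependent k' ξ := (algInd_iff k' ξ).2 hξt
  obtain ⟨Dv, hDv⟩ := der_ind ξ hξi
  obtain ⟨Δ', hΔ'⟩ := exists_delta fun i => (Dv i).restrictScalars ℤ
  -- the conjugate points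
  have hconj : ∀ i, Cheap k' F' (s + 3) (Fin.snoc ξ (y i) : Fin (n + 1) → F')
      (0 + (4 * (φ.tot + 1)) ^ (φ.rk + 1) + (n + 1)) := by
    intro i
    have s1 : Sp ℂ b (Fin.snoc ξ (y i) : Fin (n + 1) → F') := by
      intro p hp
      obtain ⟨c, hc'⟩ := hbG p hp
      rw [hc', map_mul, hyr i, zero_mul]
    have s2 : Sp k' b (Fin.snoc ξ (y i) : Fin (n + 1) → F') :=
      grow (k := ℂ) b _ (by rw [htb, htbC]) s1
    have s3 : tr k' b ≤ tr k' (Fin.snoc ξ (y i) : Fin (n + 1) → F') := by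
      have h1 := tr_comp_le k' (Fin.snoc ξ (y i) : Fin (n + 1) → F') Fin.castSucc
      have h2 : (Fin.snoc ξ (y i) : Fin (n + 1) → F') ∘ Fin.castSucc = ξ := by
        funext j; simp
      rw [h2, hξt] at h1
      rwa [htb]
    exact cheap_conj s2 (s2.symm_of_tr s3) hcb
  have hbd : ∀ i, BdF F' D _ (dex Δ' D (C (y i))) := fun i =>
    extractF D ξ (y i) (by
      have := htr2 F' (Fin.snoc ξ (y i) : Fin (n + 1) → F') G hG0 (hyr i)
      exact (tr_const_le ℂ k' _).trans this) (hconj i) Dv hDv Δ' hΔ'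
  have hprod := prod_dex (k := k') ξ Dv hDv Δ' hΔ' G hGdeg c₀ y hy
  have hfin := bd_of_factors (fun i => dex Δ' D (C (y i))) hbd
    (fun i => hΔ'.dex_totalDegree D (y i)) ξ G c₀ hc₀ hprod
  have hdeg1 : (C c₀⁻¹ * G).totalDegree ≤ D := by
    refine (totalDegree_mul _ _).trans ?_
    rw [totalDegree_C, zero_add]
    exact hGdeg
  have h1 := hfin.smul hdeg1 c₀
  have e3 : C c₀ * (C c₀⁻¹ * G) = G := by
    rw [← mul_assoc, ← C_mul, mul_inv_cancel₀ hc₀, C_1, one_mul]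
  rw [e3] at h1
  have h2 := (h1.lin hGdeg α' β⁻¹)
  rw [hGd, (lin_inv α β hβ g).1] at h2
  refine ((h2.mono_deg hd).mono ?_)
  exact hyp_cost n D d s φ.tot φ.rk φ.le_tot hd

end VPH
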