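import Pool.Agent.VPH.KeyC

set_option autoImplicit false

/-!
# VPH-KeyD: the derivation is bounded on `M ∩ V`

Plan. `V₁ = V ∩ F₀(ε)`, `D` maps `V₁` to `V₁` (`der_base`). `D` maps `M` to `M` (separability). The
integral closure `B` of `V₁` in `M` is a finite `V₁`-module, so some nonzero `δ ∈ M ∩ V` multiplies the
derivatives of its finitely many generators, hence of all elements of `B`, into `V`. For general
`b ∈ M ∩ V` use `fraction`: `s * b = b'`, `D b = (D b' - b * D s) / s`.
-/

namespace VPH

private theorem KeyD_poly {L F : Type} [Field L] [Field F] [Algebra L F] (M : IntermediateField L F)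
    (D : Derivation ℤ F F) (hL : ∀ x : L, ∃ y : L, D (algebraMap L F x) = algebraMap L F y)
    (b : F) (hb : b ∈ M) (P : Polynomial L) :
    ∃ r ∈ M, D (Polynomial.aeval b P) = r + Polynomial.aeval b (Polynomial.derivative P) * D b := by
  induction P using Polynomial.induction_on' with
  | add p q hp hq =>
    obtain ⟨r, hr, h1⟩ := hp
    obtain ⟨r', hr', h2⟩ := hq
    refine ⟨r + r', add_mem hr hr', ?_⟩
    rw [map_add, map_add, h1, h2, Polynomial.derivative_add, map_add]
    ring
  | monomial n a =>
    obtain ⟨y, hy⟩ := hL a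
    refine ⟨algebraMap L F y * b ^ n, mul_mem (M.algebraMap_mem y) (pow_mem hb n), ?_⟩
    rw [Polynomial.derivative_monomial, Polynomial.aeval_monomial, Polynomial.aeval_monomial,
      Derivation.leibniz, Derivation.leibniz_pow, hy, map_mul, map_natCast]
    simp only [smul_eq_mul, nsmul_eq_mul]
    ring

private theorem KeyD_mem {L F : Type} [Field L] [Field F] [Algebra L F] [CharZero L]
    (M : IntermediateField L F) [FiniteDimensional L M]
    (D : Derivation ℤ F F) (hL : ∀ x : L, ∃ y : L, D (algebraMap L F x) = algebraMap L F y)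
    (b : F) (hb : b ∈ M) : D b ∈ M := by
  have hint : IsIntegral L b := by
    have h := (Algebra.IsIntegral.isIntegral (R := L) (⟨b, hb⟩ : M))
    exact h.map M.val
  obtain ⟨r, hr, h⟩ := KeyD_poly M D hL b hb (minpoly L b)
  rw [minpoly.aeval, map_zero] at h
  have hne : Polynomial.aeval b (Polynomial.derivative (minpoly L b)) ≠ 0 :=
    (minpoly.irreducible hint).separable.aeval_derivative_ne_zero (minpoly.aeval L b)
  have hmem : Polynomial.aeval b (Polynomial.derivative (minpoly L b)) ∈ M := by
    have : Polynomial.aeval b (Polynomial.derivative (minpoly L b))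
        = M.val (Polynomial.aeval (⟨b, hb⟩ : M) (Polynomial.derivative (minpoly L b))) := by
      rw [← Polynomial.aeval_algHom_apply]
      rfl
    rw [this]
    exact (Polynomial.aeval (⟨b, hb⟩ : M) (Polynomial.derivative (minpoly L b))).2
  have : D b = -r / Polynomial.aeval b (Polynomial.derivative (minpoly L b)) := by
    field_simp
    linear_combination -h
  rw [this]
  exact div_mem (neg_mem hr) hmem

private theorem KeyD_inv {F : Type} [Field F] {K : Type} [Field K] [Algebra K F] (V : ValuationSubring F)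
    (M : IntermediateField K F) (x : F) (hx : x ∈ M) : ∃ δ ∈ M, δ ≠ 0 ∧ δ ∈ V ∧ δ * x ∈ V := by
  by_cases h : x ∈ V
  · exact ⟨1, M.one_mem, one_ne_zero, V.one_mem, by simpa using h⟩
  · have hx0 : x ≠ 0 := fun h0 => h (h0 ▸ V.zero_mem)
    refine ⟨x⁻¹, M.inv_mem hx, inv_ne_zero hx0, (V.mem_or_inv_mem x).resolve_left h, ?_⟩
    rw [inv_mul_cancel₀ hx0]
    exact V.one_mem

private theorem KeyD_fin {F : Type} [Field F] {K : Type} [Field K] [Algebra K F] (V : ValuationSubring F)
    (M : IntermediateField K F) {ι : Type} (s : Finset ι) (f : ι → F) (hf : ∀ i ∈ s, f i ∈ M) :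
    ∃ δ ∈ M, δ ≠ 0 ∧ δ ∈ V ∧ ∀ i ∈ s, δ * f i ∈ V := by
  classical
  induction s using Finset.induction_on with
  | empty => exact ⟨1, M.one_mem, one_ne_zero, V.one_mem, by simp⟩
  | insert a s ha ih =>
    obtain ⟨δ, h1, h2, h3, h4⟩ := ih (fun i hi => hf i (Finset.mem_insert_of_mem hi))
    obtain ⟨δ', h1', h2', h3', h4'⟩ := KeyD_inv V M (f a) (hf a (Finset.mem_insert_self a s))
    refine ⟨δ * δ', mul_mem h1 h1', mul_ne_zero h2 h2', V.mul_mem _ _ h3 h3', ?_⟩
    intro i hi
    rcases Finset.mem_insert.1 hi with rfl | hi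
    · rw [mul_assoc]
      exact V.mul_mem _ _ h3 h4'
    · have : δ * δ' * f i = δ' * (δ * f i) := by ring
      rw [this]
      exact V.mul_mem _ _ h3' (h4 i hi)

theorem bounded {F₀ F : Type} [Field F₀] [Field F] [Algebra F₀ F] [CharZero F₀] (ε : F)
    (hε : Transcendental F₀ ε) (V : ValuationSubring F) (h0 : ∀ x : F₀, algebraMap F₀ F x ∈ V)
    (h1 : V.valuation ε < 1) (M : IntermediateField (IntermediateField.adjoin F₀ {ε}) F)
    [FiniteDimensional (IntermediateField.adjoin F₀ {ε}) M] (D : Derivation ℤ F F)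
    (hD : ∀ x : F₀, ∃ y : F₀, D (algebraMap F₀ F x) = algebraMap F₀ F y) (hDε : D ε = 0) :
    ∃ δ ∈ M, δ ≠ 0 ∧ ∀ b ∈ M, b ∈ V → δ * D b ∈ V := by
  classical
  have hdvr : IsDiscreteValuationRing (V.comap (algebraMap (IntermediateField.adjoin F₀ {ε}) F)) :=
    base_dvr ε hε V h0 h1
  have hchar : CharZero (IntermediateField.adjoin F₀ {ε}) :=
    charZero_of_injective_algebraMap (FaithfulSMul.algebraMap_injective F₀ _)
  -- the derivation on the base field
  have hL : ∀ x : IntermediateField.adjoin F₀ {ε}, ∃ y : IntermediateField.adjoin F₀ {ε},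
      D (algebraMap (IntermediateField.adjoin F₀ {ε}) F x)
        = algebraMap (IntermediateField.adjoin F₀ {ε}) F y := by
    intro x
    by_cases hxV : (x : F) ∈ V
    · exact ⟨⟨_, (der_base ε hε V h0 h1 D hD hDε x x.2 hxV).1⟩, rfl⟩
    · have hx0 : (x : F) ≠ 0 := fun h => hxV (h ▸ V.zero_mem)
      have hi : (x : F)⁻¹ ∈ V := (V.mem_or_inv_mem _).resolve_left hxV
      have hi' : (x : F)⁻¹ ∈ IntermediateField.adjoin F₀ {ε} :=
        (IntermediateField.adjoin F₀ {ε}).inv_mem x.2
      have h2 := (der_base ε hε V h0 h1 D hD hDε _ hi' hi).1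
      have h3 : D (x : F) = -((x : F) ^ 2 * D ((x : F)⁻¹)) := by
        have := Derivation.leibniz D (x : F) ((x : F)⁻¹)
        rw [mul_inv_cancel₀ hx0, Derivation.map_one_eq_zero] at this
        simp only [smul_eq_mul] at this
        have h4 : (x : F) * ((x : F)⁻¹ * D (x : F)) = D (x : F) := by
          rw [← mul_assoc, mul_inv_cancel₀ hx0, one_mul]
        linear_combination (-(x : F)) * this - h4
      have h5 : D (x : F) ∈ IntermediateField.adjoin F₀ {ε} := by
        rw [h3]
        exact neg_mem (mul_mem (pow_mem x.2 2) h2)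
      exact ⟨⟨_, h5⟩, rfl⟩
  have hDM : ∀ b ∈ M, D b ∈ M := fun b hb => KeyD_mem M D hL b hb
  -- the integral closure is finite
  have hfin : Module.Finite (V.comap (algebraMap (IntermediateField.adjoin F₀ {ε}) F))
      (integralClosure (V.comap (algebraMap (IntermediateField.adjoin F₀ {ε}) F)) M) :=
    IsIntegralClosure.finite (V.comap (algebraMap (IntermediateField.adjoin F₀ {ε}) F))
      (IntermediateField.adjoin F₀ {ε}) M
      (integralClosure (V.comap (algebraMap (IntermediateField.adjoin F₀ {ε}) F)) M)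
  obtain ⟨S, hS⟩ := hfin.fg_top
  obtain ⟨δ, hδM, hδ0, hδV, hδ⟩ := KeyD_fin V M S (fun b => D ((b : M) : F)) (fun b _ => hDM _ (b : M).2)
  -- integral elements lie in `V`
  have hinV : ∀ b : F, IsIntegral (V.comap (algebraMap (IntermediateField.adjoin F₀ {ε}) F)) b → b ∈ V := by
    intro b hb
    obtain ⟨p, hp, hpb⟩ := hb
    let φ : (V.comap (algebraMap (IntermediateField.adjoin F₀ {ε}) F)) →+* V :=
      ((algebraMap (IntermediateField.adjoin F₀ {ε}) F).comp
        (V.comap (algebraMap (IntermediateField.adjoin F₀ {ε}) F)).subtype).codRestrict V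
        (fun x => x.2)
    have hi : IsIntegral V b := by
      refine ⟨p.map φ, hp.map φ, ?_⟩
      rw [Polynomial.eval₂_map]
      exact hpb
    obtain ⟨y, hy⟩ := IsIntegrallyClosed.isIntegral_iff.1 hi
    rw [← hy]
    exact y.2
  have key : ∀ b : integralClosure (V.comap (algebraMap (IntermediateField.adjoin F₀ {ε}) F)) M,
      δ * D ((b : M) : F) ∈ V := by
    intro b
    have hb : b ∈ Submodule.span (V.comap (algebraMap (IntermediateField.adjoin F₀ {ε}) F))
        (S : Set (integralClosure (V.comap (algebraMap (IntermediateField.adjoin F₀ {ε}) F)) M)) := by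
      rw [hS]
      trivial
    induction hb using Submodule.span_induction with
    | mem x hx => exact hδ x hx
    | zero => simp
    | add x y _ _ hx hy =>
      have : δ * D (((x + y : integralClosure (V.comap (algebraMap (IntermediateField.adjoin F₀ {ε}) F)) M) : M) : F)
          = δ * D ((x : M) : F) + δ * D ((y : M) : F) := by
        rw [← mul_add, ← map_add]
        rfl
      rw [this]
      exact V.add_mem _ _ hx hy
    | smul c x _ hx =>
      have hxV : ((x : M) : F) ∈ V := by
        refine hinV _ ?_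
        have h := x.2
        exact (isIntegral_algebraMap_iff (R := V.comap (algebraMap (IntermediateField.adjoin F₀ {ε}) F))
          (A := M) (B := F) (x := (x : M)) Subtype.val_injective).2 h
      have hcV := (der_base ε hε V h0 h1 D hD hDε _ (c : IntermediateField.adjoin F₀ {ε}).2 c.2).2
      have hcV' : ((c : IntermediateField.adjoin F₀ {ε}) : F) ∈ V := c.2
      have hc : (((c • x : integralClosure (V.comap (algebraMap (IntermediateField.adjoin F₀ {ε}) F)) M) : M) : F)
          = ((c : IntermediateField.adjoin F₀ {ε}) : F) * ((x : M) : F) := rfl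
      rw [hc, Derivation.leibniz]
      simp only [smul_eq_mul]
      have : δ * (((c : IntermediateField.adjoin F₀ {ε}) : F) * D ((x : M) : F)
          + ((x : M) : F) * D ((c : IntermediateField.adjoin F₀ {ε}) : F))
          = ((c : IntermediateField.adjoin F₀ {ε}) : F) * (δ * D ((x : M) : F))
          + δ * (((x : M) : F) * D ((c : IntermediateField.adjoin F₀ {ε}) : F)) := by ring
      rw [this]
      exact V.add_mem _ _ (V.mul_mem _ _ hcV' hx) (V.mul_mem _ _ hδV (V.mul_mem _ _ hxV hcV))
  have key' : ∀ b ∈ M, IsIntegral (V.comap (algebraMap (IntermediateField.adjoin F₀ {ε}) F)) b →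
      δ * D b ∈ V := by
    intro b hb hi
    have hi' : IsIntegral (V.comap (algebraMap (IntermediateField.adjoin F₀ {ε}) F)) (⟨b, hb⟩ : M) :=
      (isIntegral_algebraMap_iff (R := V.comap (algebraMap (IntermediateField.adjoin F₀ {ε}) F))
          (A := M) (B := F) (x := (⟨b, hb⟩ : M)) Subtype.val_injective).1 hi
    exact key ⟨⟨b, hb⟩, hi'⟩
  refine ⟨δ, hδM, hδ0, ?_⟩
  intro b hb hbV
  obtain ⟨s, hsM, b', hbM, hs1, hsb, hsi, hbi⟩ := fraction ε hε V h0 h1 M b hb hbV
  have hs0 : s ≠ 0 := by
    rintro rfl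
    rw [map_zero] at hs1
    exact zero_ne_one hs1
  have h2 := key' s hsM hsi
  have h3 := key' b' hbM hbi
  have hsV : s⁻¹ ∈ V := by
    rw [← ValuationSubring.valuation_le_one_iff, map_inv₀, hs1, inv_one]
  have h4 : D b' = s * D b + b * D s := by
    rw [← hsb, Derivation.leibniz]
    simp only [smul_eq_mul]
  have h5 : δ * D b = s⁻¹ * (δ * D b' - b * (δ * D s)) := by
    rw [h4]
    field_simp
    ring
  rw [h5]
  exact V.mul_mem _ _ hsV (sub_mem h3 (V.mul_mem _ _ hbV h2))

end VPH
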