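import Pool.Agent.VPH.KeyA
import Pool.Agent.VPH.KeyD

set_option autoImplicit false

/-!
# VPH-Key: the derivation preserves the valuation ring and its maximal ideal

Plan. Given `x ∈ V`, let `M = L(x)`, `L = F₀(ε)`, finite over `L`; `π` from `uniformizer`, `δ` from
`bounded`. `v(ε) = v(π) ^ e`, `e ≥ 1`; `u := ε / π ^ e`, `v(u) = 1`. Let `Q c` be: `π ^ c * D b ∈ V` for all `b ∈ M ∩ V`.
`Q c` holds for some `c : ℕ` (`v(δ) = v(π) ^ c'`). `Q (c + 1) → Q c`: let `b ∈ M ∩ V`, `b₀ ∈ F₀` with `v(b - b₀) < 1`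
(`residue`), `b₁ := (b - b₀) / π ∈ M ∩ V` (because `v(b - b₀)` is a positive power of `v(π)`).
`D b = D b₀ + b₁ * D π + π * D b₁`; `D b₀ ∈ F₀ ⊆ V`; from `0 = D ε = π ^ e * D u + e * u * π ^ (e - 1) * D π` we get
`D π = - π * D u / (e * u)`, so `π ^ c * D π = - π ^ (c + 1) * D u / (e * u) ∈ V`, and `π ^ c * π * D b₁ ∈ V`. So `Q 0`:
`D b ∈ V`, and `D π = - π * D u / (e * u) ∈ m`; if `v(b) < 1`, `b ∈ M`, then `b = π * b₁`, `D b = b₁ * D π + π * D b₁ ∈ m`.
-/

namespace VPH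

private theorem Key_pos {F : Type} [Field F] (V : ValuationSubring F) (π b : F) (c : ℤ)
    (hπ0 : π ≠ 0) (hπ : V.valuation π < 1) (hb : V.valuation b = V.valuation π ^ c)
    (hb1 : V.valuation b < 1) : 1 ≤ c := by
  by_contra h
  have h2 : c ≤ 0 := by omega
  have h3 : 0 < V.valuation π := zero_lt_iff.2 ((Valuation.ne_zero_iff _).2 hπ0)
  have h4 := one_le_zpow_of_nonpos₀ h3 hπ.le h2
  rw [← hb] at h4
  exact absurd hb1 (not_lt.2 h4)

private theorem Key_main {F₀ F : Type} [Field F₀] [Field F] [Algebra F₀ F] [CharZero F₀] (ε : F)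
    (V : ValuationSubring F) (h0 : ∀ x : F₀, algebraMap F₀ F x ∈ V) (h1 : V.valuation ε < 1)
    (hε0 : ε ≠ 0) (D : Derivation ℤ F F)
    (hD : ∀ x : F₀, ∃ y : F₀, D (algebraMap F₀ F x) = algebraMap F₀ F y) (hDε : D ε = 0)
    (M : Subfield F) (hεM : ε ∈ M) (hF₀M : ∀ x : F₀, algebraMap F₀ F x ∈ M)
    (hres : ∀ x ∈ V, ∃ x₀ : F₀, V.valuation (x - algebraMap F₀ F x₀) < 1)
    (π : F) (hπM : π ∈ M) (hπ0 : π ≠ 0) (hπ : V.valuation π < 1)
    (hun : ∀ b ∈ M, b ≠ 0 → ∃ c : ℤ, V.valuation b = V.valuation π ^ c)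
    (δ : F) (hδM : δ ∈ M) (hδ0 : δ ≠ 0) (hδ : ∀ b ∈ M, b ∈ V → δ * D b ∈ V) :
    (∀ b ∈ M, b ∈ V → D b ∈ V) ∧ ∀ b ∈ M, V.valuation b < 1 → V.valuation (D b) < 1 := by
  haveI : CharZero F := charZero_of_injective_algebraMap (algebraMap F₀ F).injective
  have hvπ : 0 < V.valuation π := zero_lt_iff.2 ((Valuation.ne_zero_iff _).2 hπ0)
  have hπV : π ∈ V := (V.valuation_le_one_iff π).1 hπ.le
  have hdiv : ∀ b ∈ M, V.valuation b < 1 → b / π ∈ M ∧ b / π ∈ V := by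
    intro b hb hb1
    refine ⟨M.div_mem hb hπM, ?_⟩
    rw [← V.valuation_le_one_iff]
    rcases eq_or_ne b 0 with rfl | hb0
    · simp
    · obtain ⟨c, hc⟩ := hun b hb hb0
      have hc1 := Key_pos V π b c hπ0 hπ hc hb1
      rw [map_div₀, hc, div_eq_mul_inv, ← zpow_sub_one₀ hvπ.ne']
      exact zpow_le_one₀ hvπ hπ.le (by omega)
  -- the element u
  obtain ⟨c, hc⟩ := hun ε hεM hε0
  have hc1 := Key_pos V π ε c hπ0 hπ hc h1
  obtain ⟨e, rfl⟩ : ∃ e : ℕ, c = (e : ℤ) + 1 := ⟨(c - 1).toNat, by omega⟩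
  set u : F := ε / π ^ (e + 1) with hu
  have hpe : (π ^ (e + 1) : F) ≠ 0 := pow_ne_zero _ hπ0
  have hεu : ε = π ^ (e + 1) * u := by rw [hu]; field_simp
  have huM : u ∈ M := M.div_mem hεM (M.pow_mem hπM _)
  have hvu : V.valuation u = 1 := by
    rw [hu, map_div₀, hc, map_pow]
    have : (V.valuation π ^ (((e : ℤ) + 1)) : V.ValueGroup) = V.valuation π ^ (e + 1) := by
      exact_mod_cast (zpow_natCast (V.valuation π) (e + 1))
    rw [this]
    exact div_self (pow_ne_zero _ hvπ.ne')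
  have huV : u ∈ V := (V.valuation_le_one_iff u).1 hvu.le
  have hu0 : u ≠ 0 := by
    intro h
    rw [h, map_zero] at hvu
    exact zero_ne_one hvu
  have huiV : u⁻¹ ∈ V := by
    rw [← V.valuation_le_one_iff, map_inv₀, hvu, inv_one]
  have hnV : (((e + 1 : ℕ) : F))⁻¹ ∈ V := by
    have := h0 (((e + 1 : ℕ) : F₀))⁻¹
    rwa [map_inv₀, map_natCast] at this
  have hn0 : ((e + 1 : ℕ) : F) ≠ 0 := by exact_mod_cast Nat.succ_ne_zero e
  have hDπ : D π = - (π * D u * ((((e + 1 : ℕ) : F))⁻¹ * u⁻¹)) := by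
    have h := hDε
    rw [hεu, Derivation.leibniz, Derivation.leibniz_pow] at h
    simp only [smul_eq_mul, nsmul_eq_mul, Nat.add_sub_cancel] at h
    have h' : π ^ e * (π * D u + ((e + 1 : ℕ) : F) * u * D π) = 0 := by
      rw [← h]; ring
    have h'' := (mul_eq_zero.1 h').resolve_left (pow_ne_zero _ hπ0)
    have h3 : ((e + 1 : ℕ) : F) * u * D π = - (π * D u) := by linear_combination h''
    have h4 : D π = (((e + 1 : ℕ) : F) * u)⁻¹ * (- (π * D u)) := by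
      rw [← h3, ← mul_assoc, inv_mul_cancel₀ (mul_ne_zero hn0 hu0), one_mul]
    rw [h4, mul_inv]; ring
  -- the descent
  have hQ : ∀ c : ℕ, (∀ b ∈ M, b ∈ V → π ^ c * D b ∈ V) → ∀ b ∈ M, b ∈ V → D b ∈ V := by
    intro c
    induction c with
    | zero => intro h b hb hbV; simpa using h b hb hbV
    | succ c ih =>
      intro h
      apply ih
      intro b hb hbV
      obtain ⟨b₀, hb₀⟩ := hres b hbV
      obtain ⟨hM1, hV1⟩ := hdiv _ (M.sub_mem hb (hF₀M b₀)) hb₀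
      set b₁ : F := (b - algebraMap F₀ F b₀) / π with hb₁
      have hbe : b = algebraMap F₀ F b₀ + π * b₁ := by rw [hb₁]; field_simp; ring
      obtain ⟨y, hy⟩ := hD b₀
      have hpD : π ^ c * D π ∈ V := by
        rw [hDπ]
        have : π ^ c * -(π * D u * ((((e + 1 : ℕ) : F))⁻¹ * u⁻¹)) =
            - ((π ^ (c + 1) * D u) * ((((e + 1 : ℕ) : F))⁻¹ * u⁻¹)) := by ring
        rw [this]
        exact V.neg_mem _ (V.mul_mem _ _ (h u huM huV) (V.mul_mem _ _ hnV huiV))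
      have hexp : π ^ c * D b = π ^ c * algebraMap F₀ F y + ((π ^ (c + 1) * D b₁) +
          b₁ * (π ^ c * D π)) := by
        conv_lhs => rw [hbe]
        rw [map_add, hy, Derivation.leibniz, smul_eq_mul, smul_eq_mul]
        ring
      rw [hexp]
      exact V.add_mem _ _ (V.mul_mem _ _ (pow_mem hπV _) (h0 y))
        (V.add_mem _ _ (h b₁ hM1 hV1) (V.mul_mem _ _ hV1 hpD))
  have hA : ∀ b ∈ M, b ∈ V → D b ∈ V := by
    obtain ⟨c', hc'⟩ := hun δ hδM hδ0
    apply hQ c'.toNat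
    intro b hb hbV
    have h2 := hδ b hb hbV
    rw [← V.valuation_le_one_iff] at h2 ⊢
    rw [map_mul] at h2 ⊢
    refine le_trans (mul_le_mul_left ?_ _) h2
    rw [hc', map_pow, ← zpow_natCast]
    exact zpow_le_zpow_right_of_le_one₀ hvπ hπ.le (Int.self_le_toNat c')
  refine ⟨hA, ?_⟩
  intro b hb hb1
  obtain ⟨hM1, hV1⟩ := hdiv b hb hb1
  set b₁ : F := b / π with hb₁
  have hbe : b = π * b₁ := by rw [hb₁]; field_simp
  have hvDπ : V.valuation (D π) < 1 := by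
    rw [hDπ, Valuation.map_neg]
    have : π * D u * ((((e + 1 : ℕ) : F))⁻¹ * u⁻¹) = π * (D u * ((((e + 1 : ℕ) : F))⁻¹ * u⁻¹)) := by
      ring
    rw [this, map_mul]
    have h5 : V.valuation (D u * ((((e + 1 : ℕ) : F))⁻¹ * u⁻¹)) ≤ 1 :=
      (V.valuation_le_one_iff _).2 (V.mul_mem _ _ (hA u huM huV) (V.mul_mem _ _ hnV huiV))
    exact lt_of_le_of_lt (mul_le_of_le_one_right' h5) hπ
  have hexp : D b = π * D b₁ + b₁ * D π := by
    conv_lhs => rw [hbe]
    rw [Derivation.leibniz, smul_eq_mul, smul_eq_mul]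
  rw [hexp]
  apply Valuation.map_add_lt
  · rw [map_mul]
    exact lt_of_le_of_lt (mul_le_of_le_one_right' ((V.valuation_le_one_iff _).2 (hA b₁ hM1 hV1))) hπ
  · rw [map_mul]
    exact lt_of_le_of_lt (mul_le_of_le_one_left' ((V.valuation_le_one_iff _).2 hV1)) hvDπ

theorem key {F₀ F : Type} [Field F₀] [Field F] [Algebra F₀ F] [IsAlgClosed F₀] [CharZero F₀] (ε : F)
    (hε : Transcendental F₀ ε) (hF : ∀ y : F, IsAlgebraic (IntermediateField.adjoin F₀ {ε}) y)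
    (V : ValuationSubring F) (h0 : ∀ x : F₀, algebraMap F₀ F x ∈ V) (h1 : V.valuation ε < 1)
    (D : Derivation ℤ F F)
    (hD : ∀ x : F₀, ∃ y : F₀, D (algebraMap F₀ F x) = algebraMap F₀ F y) (hDε : D ε = 0) :
    (∀ x ∈ V, D x ∈ V) ∧ ∀ x, V.valuation x < 1 → V.valuation (D x) < 1 := by
  have hε0 : ε ≠ 0 := by
    rintro rfl
    exact hε (isAlgebraic_zero)
  have hmain : ∀ x : F, (x ∈ V → D x ∈ V) ∧ (V.valuation x < 1 → V.valuation (D x) < 1) := by
    intro x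
    let L := IntermediateField.adjoin F₀ {ε}
    let M : IntermediateField L F := IntermediateField.adjoin L {x}
    haveI : FiniteDimensional L M := IntermediateField.adjoin.finiteDimensional (hF x).isIntegral
    have hxM : x ∈ M := IntermediateField.mem_adjoin_simple_self L x
    obtain ⟨π, hπM, hπ0, hπ, hun⟩ := uniformizer ε hε V h0 h1 M
    obtain ⟨δ, hδM, hδ0, hδ⟩ := bounded ε hε V h0 h1 M D hD hDε
    have hεM : ε ∈ M := by
      have h : algebraMap L F ⟨ε, IntermediateField.mem_adjoin_simple_self F₀ ε⟩ ∈ M :=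
        M.algebraMap_mem _
      exact h
    have hF₀M : ∀ y : F₀, algebraMap F₀ F y ∈ M := by
      intro y
      have h : algebraMap L F (algebraMap F₀ L y) ∈ M := M.algebraMap_mem _
      exact h
    obtain ⟨hA, hB⟩ := Key_main ε V h0 h1 hε0 D hD hDε M.toSubfield hεM hF₀M
      (fun y hy => residue ε hε hF V h0 h1 y hy) π hπM hπ0 hπ hun δ hδM hδ0 hδ
    exact ⟨hA x hxM, hB x hxM⟩
  exact ⟨fun x hx => (hmain x).1 hx, fun x hx => (hmain x).2 hx⟩

end VPH
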