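import Pool.Agent.VPH.Defs

set_option autoImplicit false

/-!
# VPH-KeyA: residues
-/

namespace VPH

open scoped IntermediateField.algebraAdjoinAdjoin in
private theorem KeyA_alg {F₀ F : Type} [Field F₀] [Field F] [Algebra F₀ F] (ε x : F)
    (hx : IsAlgebraic (IntermediateField.adjoin F₀ {ε}) x) :
    ∃ Q : Polynomial (Polynomial F₀), Q ≠ 0 ∧
      Q.eval₂ ((Polynomial.aeval ε : Polynomial F₀ →ₐ[F₀] F) : Polynomial F₀ →+* F) x = 0 := by
  have h1 : IsAlgebraic (Algebra.adjoin F₀ {ε}) x :=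
    (IsFractionRing.isAlgebraic_iff (Algebra.adjoin F₀ {ε}) (IntermediateField.adjoin F₀ {ε}) F).2 hx
  obtain ⟨p, hp, hpx⟩ := h1
  let φ : Polynomial F₀ →+* Algebra.adjoin F₀ {ε} :=
    (Polynomial.aeval (⟨ε, Algebra.self_mem_adjoin_singleton F₀ ε⟩ : Algebra.adjoin F₀ {ε}) :
      Polynomial F₀ →ₐ[F₀] Algebra.adjoin F₀ {ε})
  have hφ1 : (algebraMap (Algebra.adjoin F₀ {ε}) F).comp φ =
      ((Polynomial.aeval ε : Polynomial F₀ →ₐ[F₀] F) : Polynomial F₀ →+* F) := by
    apply Polynomial.ringHom_ext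
    · intro c
      show ((Polynomial.aeval (⟨ε, Algebra.self_mem_adjoin_singleton F₀ ε⟩ : Algebra.adjoin F₀ {ε})
        (Polynomial.C c) : Algebra.adjoin F₀ {ε}) : F) = Polynomial.aeval ε (Polynomial.C c)
      rw [Polynomial.aeval_C, Polynomial.aeval_C]
      rfl
    · show ((Polynomial.aeval (⟨ε, Algebra.self_mem_adjoin_singleton F₀ ε⟩ : Algebra.adjoin F₀ {ε})
        Polynomial.X : Algebra.adjoin F₀ {ε}) : F) = Polynomial.aeval ε Polynomial.X
      rw [Polynomial.aeval_X, Polynomial.aeval_X]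
  have hφ : Function.Surjective φ := by
    rintro ⟨y, hy⟩
    have hy' := hy
    rw [Algebra.adjoin_singleton_eq_range_aeval] at hy'
    obtain ⟨q, hq⟩ := hy'
    refine ⟨q, Subtype.ext ?_⟩
    have h2 := congrArg (fun f : Polynomial F₀ →+* F => f q) hφ1
    exact h2.trans hq
  obtain ⟨Q, hQ⟩ := Polynomial.map_surjective φ hφ p
  refine ⟨Q, ?_, ?_⟩
  · rintro rfl
    exact hp (by rw [← hQ, Polynomial.map_zero])
  · rw [← hφ1, ← Polynomial.eval₂_map, hQ]
    exact hpx

private theorem KeyA_prim {F₀ F : Type} [Field F₀] [Field F] [Algebra F₀ F] (ε x : F) (hε : ε ≠ 0)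
    (hx : IsAlgebraic (IntermediateField.adjoin F₀ {ε}) x) :
    ∃ Q : Polynomial (Polynomial F₀), Q.map Polynomial.constantCoeff ≠ 0 ∧
      Q.eval₂ ((Polynomial.aeval ε : Polynomial F₀ →ₐ[F₀] F) : Polynomial F₀ →+* F) x = 0 := by
  obtain ⟨Q, hQ, hQx⟩ := KeyA_alg ε x hx
  have hu : ¬ IsUnit (Polynomial.C (Polynomial.X : Polynomial F₀)) := by
    rw [Polynomial.isUnit_C]
    exact Polynomial.not_isUnit_X
  obtain ⟨n, Q', h1, h2⟩ := WfDvdMonoid.max_power_factor' hQ hu
  refine ⟨Q', ?_, ?_⟩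
  · intro h
    apply h1
    rw [Polynomial.C_dvd_iff_dvd_coeff]
    intro i
    rw [Polynomial.X_dvd_iff]
    have h3 := congrArg (fun p => Polynomial.coeff p i) h
    simp only [Polynomial.coeff_map, Polynomial.coeff_zero] at h3
    exact h3
  · rw [h2, Polynomial.eval₂_mul, Polynomial.eval₂_pow, Polynomial.eval₂_C] at hQx
    rcases mul_eq_zero.1 hQx with h3 | h3
    · exfalso
      have h4 : ((Polynomial.aeval ε : Polynomial F₀ →ₐ[F₀] F) : Polynomial F₀ →+* F) Polynomial.X = 0 :=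
        eq_zero_of_pow_eq_zero h3
      have h5 : (Polynomial.aeval ε : Polynomial F₀ →ₐ[F₀] F) Polynomial.X = 0 := h4
      rw [Polynomial.aeval_X] at h5
      exact hε h5
    · exact h3

theorem residue {F₀ F : Type} [Field F₀] [Field F] [Algebra F₀ F] [IsAlgClosed F₀] (ε : F)
    (hε : Transcendental F₀ ε) (hF : ∀ y : F, IsAlgebraic (IntermediateField.adjoin F₀ {ε}) y)
    (V : ValuationSubring F) (h0 : ∀ x : F₀, algebraMap F₀ F x ∈ V) (h1 : V.valuation ε < 1)
    (x : F) (hx : x ∈ V) : ∃ x₀ : F₀, V.valuation (x - algebraMap F₀ F x₀) < 1 := by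
  have hε0 : ε ≠ 0 := by
    rintro rfl
    exact hε isAlgebraic_zero
  obtain ⟨Q, hQ0, hQ⟩ := KeyA_prim ε x hε0 (hF x)
  let ι : F₀ →+* V := (algebraMap F₀ F).codRestrict V.toSubring h0
  have hεV : ε ∈ V := by
    rw [← V.valuation_le_one_iff]
    exact le_of_lt h1
  let ε' : V := ⟨ε, hεV⟩
  let x' : V := ⟨x, hx⟩
  let π : V →+* IsLocalRing.ResidueField V := IsLocalRing.residue V
  have hπε : π ε' = 0 := by
    rw [IsLocalRing.residue_eq_zero_iff, V.valuation_lt_one_iff]
    exact h1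
  let θ : Polynomial F₀ →+* V := Polynomial.eval₂RingHom ι ε'
  have hθ : (V.subtype).comp θ = ((Polynomial.aeval ε : Polynomial F₀ →ₐ[F₀] F) : Polynomial F₀ →+* F) := by
    apply Polynomial.ringHom_ext
    · intro c
      show ((Polynomial.eval₂ ι ε' (Polynomial.C c) : V) : F) = Polynomial.aeval ε (Polynomial.C c)
      rw [Polynomial.eval₂_C, Polynomial.aeval_C]
      rfl
    · show ((Polynomial.eval₂ ι ε' Polynomial.X : V) : F) = Polynomial.aeval ε Polynomial.X
      rw [Polynomial.eval₂_X, Polynomial.aeval_X]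
  have h3 : Q.eval₂ θ x' = 0 := by
    have h4 : V.subtype (Q.eval₂ θ x') = 0 := by
      rw [Polynomial.hom_eval₂, hθ]
      exact hQ
    exact Subtype.ext h4
  have h5 : π.comp θ = (π.comp ι).comp Polynomial.constantCoeff := by
    apply Polynomial.ringHom_ext
    · intro c
      show π (Polynomial.eval₂ ι ε' (Polynomial.C c)) = π (ι (Polynomial.constantCoeff (Polynomial.C c)))
      rw [Polynomial.eval₂_C, Polynomial.constantCoeff_apply, Polynomial.coeff_C_zero]
    · show π (Polynomial.eval₂ ι ε' Polynomial.X) = π (ι (Polynomial.constantCoeff Polynomial.X))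
      rw [Polynomial.eval₂_X, hπε, Polynomial.constantCoeff_apply, Polynomial.coeff_X_zero, map_zero, map_zero]
  have h6 : (Q.map Polynomial.constantCoeff).eval₂ (π.comp ι) (π x') = 0 := by
    rw [Polynomial.eval₂_map, ← h5, ← Polynomial.hom_eval₂, h3, map_zero]
  have h7 : ((Q.map Polynomial.constantCoeff).map (π.comp ι)).IsRoot (π x') := by
    rw [Polynomial.IsRoot, Polynomial.eval_map]
    exact h6
  obtain ⟨x₀, hx₀⟩ := (IsAlgClosed.splits (Q.map Polynomial.constantCoeff)).mem_range_of_isRoot hQ0 h7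
  refine ⟨x₀, ?_⟩
  have h8 : π (x' - ι x₀) = 0 := by
    rw [map_sub, sub_eq_zero]
    exact hx₀.symm
  rw [IsLocalRing.residue_eq_zero_iff, V.valuation_lt_one_iff] at h8
  exact h8

end VPH
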