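import Pool.Agent.VPH.Defs

set_option autoImplicit false

/-!
# VPH-KeyB: the discrete valuation ring of `F₀(ε)`

Plan. An element of `F₀(ε)` is `P(ε) / Q(ε)`, `P, Q ∈ F₀[T]` coprime
(`IntermediateField.mem_adjoin_simple_iff`). A polynomial value `P(ε)` is in `V`, and it is a unit of `V` iff
`P(0) ≠ 0` (`P(ε) ≡ P(0)` modulo `m`). So every nonzero element of `F₀(ε)` is a unit of `V` times `ε ^ n`, `n : ℤ`,
and `V ∩ F₀(ε)` is a discrete valuation ring with uniformizer `ε`
(`IsDiscreteValuationRing.ofHasUnitMulPowIrreducibleFactorization` or via principal ideals).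
`der_base`: for `x = P(ε)/Q(ε) ∈ V` with `Q(0) ≠ 0`: `D x = (P^D(ε) Q(ε) - P(ε) Q^D(ε)) / Q(ε) ^ 2`, where `P^D` has
the coefficients `D c ∈ F₀`.
-/

namespace VPH

namespace KeyBAux

open Polynomial

variable {F₀ F : Type} [Field F₀] [Field F] [Algebra F₀ F] {ε : F}

/-- every value of a polynomial is in `V` -/
theorem aeval_mem (V : ValuationSubring F) (h0 : ∀ x : F₀, algebraMap F₀ F x ∈ V)
    (h1 : V.valuation ε < 1) (P : F₀[X]) : aeval ε P ∈ V := by
  have hε : ε ∈ V := (V.valuation_le_one_iff ε).1 h1.le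
  induction P using Polynomial.induction_on with
  | C a => simpa using h0 a
  | add p q hp hq => simpa using V.add_mem _ _ hp hq
  | monomial n a _ => simpa using V.mul_mem _ _ (h0 a) (pow_mem hε (n + 1))

theorem v_const (V : ValuationSubring F) (h0 : ∀ x : F₀, algebraMap F₀ F x ∈ V) {c : F₀}
    (hc : c ≠ 0) : V.valuation (algebraMap F₀ F c) = 1 := by
  have hc' : algebraMap F₀ F c ≠ 0 := by
    simpa using hc
  apply le_antisymm ((V.valuation_le_one_iff _).2 (h0 c))
  have h := (V.valuation_le_one_iff _).2 (h0 c⁻¹)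
  rw [map_inv₀, map_inv₀] at h
  by_contra hlt
  push Not at hlt
  have h2 : V.valuation (algebraMap F₀ F c) ≠ 0 := (Valuation.ne_zero_iff _).2 hc'
  have h3 := (one_lt_inv₀ (zero_lt_iff.2 h2)).2 hlt
  exact absurd h (not_le.2 h3)

/-- `Q(0) ≠ 0`: the value is a unit -/
theorem v_aeval (V : ValuationSubring F) (h0 : ∀ x : F₀, algebraMap F₀ F x ∈ V)
    (h1 : V.valuation ε < 1) {Q : F₀[X]} (hQ : Q.coeff 0 ≠ 0) : V.valuation (aeval ε Q) = 1 := by
  have e : aeval ε Q = aeval ε Q.divX * ε + algebraMap F₀ F (Q.coeff 0) := by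
    conv_lhs => rw [← Polynomial.divX_mul_X_add Q]
    simp
  have hlt : V.valuation (aeval ε Q.divX * ε) < V.valuation (algebraMap F₀ F (Q.coeff 0)) := by
    rw [v_const V h0 hQ, map_mul]
    have h2 := (V.valuation_le_one_iff _).2 (aeval_mem V h0 h1 Q.divX)
    exact mul_lt_one_of_nonneg_of_lt_one_right h2 zero_le h1
  rw [e, Valuation.map_add_eq_of_lt_right _ hlt, v_const V h0 hQ]

/-- a nonzero polynomial is a power of `X` times a polynomial with constant term -/
theorem poly_form (P : F₀[X]) (hP : P ≠ 0) : ∃ (n : ℕ) (Q : F₀[X]), P = X ^ n * Q ∧ Q.coeff 0 ≠ 0 := by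
  obtain ⟨Q, h1, h2⟩ := Polynomial.exists_eq_pow_rootMultiplicity_mul_and_not_dvd P hP 0
  refine ⟨Polynomial.rootMultiplicity 0 P, Q, ?_, ?_⟩
  · simpa using h1
  · intro h
    apply h2
    simpa using Polynomial.X_dvd_iff.2 h

/-- the form of the elements of `F₀(ε)` -/
theorem form {x : F} (hx : x ∈ IntermediateField.adjoin F₀ {ε}) (hx0 : x ≠ 0) :
    ∃ (n : ℤ) (A B : F₀[X]), A.coeff 0 ≠ 0 ∧ B.coeff 0 ≠ 0 ∧
      x = ε ^ n * (aeval ε A / aeval ε B) := by
  obtain ⟨r, s, hrs⟩ := (IntermediateField.mem_adjoin_simple_iff F₀ x).1 hx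
  have hr : r ≠ 0 := by
    rintro rfl
    simp at hrs
    exact hx0 hrs
  have hs : s ≠ 0 := by
    rintro rfl
    simp at hrs
    exact hx0 hrs
  obtain ⟨m, A, hA, hA0⟩ := poly_form r hr
  obtain ⟨n, B, hB, hB0⟩ := poly_form s hs
  by_cases hε0 : ε = 0
  · -- then the powers are 0 or 1
    subst hε0
    refine ⟨0, A, B, hA0, hB0, ?_⟩
    have hm : m = 0 := by
      by_contra hm
      rw [hrs, hA] at hx0
      simp [hm] at hx0
    have hn : n = 0 := by
      by_contra hn
      rw [hrs, hB] at hx0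
      simp [hn] at hx0
    rw [hrs, hA, hB, hm, hn]
    simp
  · refine ⟨(m : ℤ) - n, A, B, hA0, hB0, ?_⟩
    rw [hrs, hA, hB, zpow_sub₀ hε0]
    simp only [map_mul, map_pow, aeval_X, zpow_natCast]
    rw [mul_div_mul_comm]

theorem form_v (V : ValuationSubring F) (h0 : ∀ x : F₀, algebraMap F₀ F x ∈ V) (hε0 : ε ≠ 0)
    (h1 : V.valuation ε < 1) {x : F} (hx : x ∈ IntermediateField.adjoin F₀ {ε}) (hx0 : x ≠ 0)
    (hV : x ∈ V) :
    ∃ (n : ℕ) (A B : F₀[X]), A.coeff 0 ≠ 0 ∧ B.coeff 0 ≠ 0 ∧
      x = ε ^ n * (aeval ε A / aeval ε B) := by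
  obtain ⟨n, A, B, hA, hB, h⟩ := form hx hx0
  have hv : V.valuation x = V.valuation ε ^ n := by
    rw [h, map_mul, map_zpow₀, map_div₀, v_aeval V h0 h1 hA, v_aeval V h0 h1 hB]
    simp
  have hle := (V.valuation_le_one_iff x).2 hV
  rcases lt_or_ge n 0 with hn | hn
  · exfalso
    rw [hv] at hle
    have hpos : 0 < V.valuation ε := zero_lt_iff.2 ((Valuation.ne_zero_iff _).2 hε0)
    exact absurd hle (not_le.2 (one_lt_zpow_of_neg₀ hpos h1 hn))
  · obtain ⟨m, rfl⟩ := Int.eq_ofNat_of_zero_le hn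
    exact ⟨m, A, B, hA, hB, by simpa using h⟩

end KeyBAux

open KeyBAux Polynomial in
theorem base_dvr {F₀ F : Type} [Field F₀] [Field F] [Algebra F₀ F] (ε : F)
    (hε : Transcendental F₀ ε) (V : ValuationSubring F) (h0 : ∀ x : F₀, algebraMap F₀ F x ∈ V)
    (h1 : V.valuation ε < 1) :
    IsDiscreteValuationRing (V.comap (algebraMap (IntermediateField.adjoin F₀ {ε}) F)) := by
  have hε0 : ε ≠ 0 := by
    rintro rfl
    exact hε isAlgebraic_zero
  have hεV : ε ∈ V := (V.valuation_le_one_iff ε).1 h1.le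
  have hpos : 0 < V.valuation ε := zero_lt_iff.2 ((Valuation.ne_zero_iff _).2 hε0)
  set K := IntermediateField.adjoin F₀ {ε} with hK
  have hεK : ε ∈ K := IntermediateField.mem_adjoin_simple_self F₀ ε
  set W := V.comap (algebraMap K F) with hW
  have hmem : ∀ y : K, (y : F) ∈ V → y ∈ W := fun y hy => hy
  let e : W := ⟨⟨ε, hεK⟩, hmem _ hεV⟩
  -- units
  have hunit : ∀ a : W, V.valuation ((a : K) : F) = 1 → IsUnit a := by
    intro a ha
    have ha0 : ((a : K) : F) ≠ 0 := by
      intro h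
      rw [h] at ha
      simp at ha
    have hinv : (a : K)⁻¹ ∈ W := by
      have : V.valuation (((a : K) : F)⁻¹) ≤ 1 := by
        rw [map_inv₀, ha, inv_one]
      exact hmem _ ((V.valuation_le_one_iff _).1 this)
    refine IsUnit.of_mul_eq_one ⟨(a : K)⁻¹, hinv⟩ ?_
    apply Subtype.ext
    have ha1 : (a : K) ≠ 0 := by
      intro h
      exact ha0 (by rw [h]; rfl)
    exact mul_inv_cancel₀ ha1
  have hunit' : ∀ a : W, IsUnit a → V.valuation ((a : K) : F) = 1 := by
    intro a ha
    obtain ⟨b, hb⟩ := ha.exists_right_inv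
    have hb' : ((a : K) : F) * ((b : K) : F) = 1 := by
      have := congrArg (fun w : W => ((w : K) : F)) hb
      simpa using this
    have ha1 : V.valuation ((a : K) : F) ≤ 1 := (V.valuation_le_one_iff _).2 a.2
    have hb1 : V.valuation ((b : K) : F) ≤ 1 := (V.valuation_le_one_iff _).2 b.2
    have := congrArg V.valuation hb'
    rw [map_mul, map_one] at this
    apply le_antisymm ha1
    calc (1 : V.ValueGroup) = V.valuation ((a : K) : F) * V.valuation ((b : K) : F) := this.symm
      _ ≤ V.valuation ((a : K) : F) * 1 := by gcongr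
      _ = _ := mul_one _
  have hform : ∀ a : W, a ≠ 0 → ∃ n : ℕ, ∃ u : W, IsUnit u ∧ e ^ n * u = a := by
    intro a ha
    have ha0 : ((a : K) : F) ≠ 0 := by
      intro h
      apply ha
      apply Subtype.ext
      apply Subtype.ext
      exact h
    have haV : ((a : K) : F) ∈ V := a.2
    obtain ⟨n, A, B, hA, hB, h⟩ := form_v V h0 hε0 h1 (a : K).2 ha0 haV
    have hq : aeval ε A / aeval ε B ∈ K :=
      (IntermediateField.mem_adjoin_simple_iff F₀ _).2 ⟨A, B, rfl⟩
    have hvq : V.valuation (aeval ε A / aeval ε B) = 1 := by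
      rw [map_div₀, v_aeval V h0 h1 hA, v_aeval V h0 h1 hB]
      simp
    have hqV : (⟨aeval ε A / aeval ε B, hq⟩ : K) ∈ W :=
      hmem _ ((V.valuation_le_one_iff _).1 hvq.le)
    refine ⟨n, ⟨⟨aeval ε A / aeval ε B, hq⟩, hqV⟩, hunit _ hvq, ?_⟩
    apply Subtype.ext
    apply Subtype.ext
    rw [h]
    simp [e]
  refine IsDiscreteValuationRing.ofHasUnitMulPowIrreducibleFactorization ⟨e, ?_, ?_⟩
  · refine ⟨?_, ?_⟩
    · intro hu
      have := hunit' e hu
      exact absurd this h1.ne
    · intro a b hab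
      have hea : e ≠ 0 := by
        intro h
        apply hε0
        have := congrArg (fun w : W => ((w : K) : F)) h
        simpa [e] using this
      have ha : a ≠ 0 := by
        rintro rfl
        apply hea
        rw [hab, zero_mul]
      have hb : b ≠ 0 := by
        rintro rfl
        apply hea
        rw [hab, mul_zero]
      obtain ⟨m, u, hu, hua⟩ := hform a ha
      obtain ⟨n, w, hw, hwb⟩ := hform b hb
      have hva : V.valuation ((a : K) : F) = V.valuation ε ^ m := by
        rw [← hua]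
        have : (((e ^ m * u : W) : K) : F) = ε ^ m * ((u : K) : F) := by simp [e]
        rw [this, map_mul, map_pow, hunit' u hu, mul_one]
      have hvb : V.valuation ((b : K) : F) = V.valuation ε ^ n := by
        rw [← hwb]
        have : (((e ^ n * w : W) : K) : F) = ε ^ n * ((w : K) : F) := by simp [e]
        rw [this, map_mul, map_pow, hunit' w hw, mul_one]
      have hmn : V.valuation ε ^ (m + n) = V.valuation ε ^ 1 := by
        rw [pow_add, ← hva, ← hvb, ← map_mul, pow_one]
        have := congrArg (fun w : W => ((w : K) : F)) hab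
        have h3 : ε = ((a : K) : F) * ((b : K) : F) := by simpa [e] using this
        rw [← h3]
      have hmn1 : m + n = 1 := by
        rcases lt_trichotomy (m + n) 1 with h | h | h
        · exact absurd hmn (pow_lt_pow_right_of_lt_one₀ hpos h1 h).ne'
        · exact h
        · exact absurd hmn (pow_lt_pow_right_of_lt_one₀ hpos h1 h).ne
      rcases Nat.eq_zero_or_pos m with hm | hm
      · left
        rw [hm, pow_zero] at hva
        exact hunit a hva
      · right
        have hn : n = 0 := by omega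
        rw [hn, pow_zero] at hvb
        exact hunit b hvb
  · intro x hx
    obtain ⟨n, u, hu, hux⟩ := hform x hx
    exact ⟨n, hu.unit, hux⟩

open KeyBAux Polynomial in
theorem der_base {F₀ F : Type} [Field F₀] [Field F] [Algebra F₀ F] (ε : F)
    (hε : Transcendental F₀ ε) (V : ValuationSubring F) (h0 : ∀ x : F₀, algebraMap F₀ F x ∈ V)
    (h1 : V.valuation ε < 1) (D : Derivation ℤ F F)
    (hD : ∀ x : F₀, ∃ y : F₀, D (algebraMap F₀ F x) = algebraMap F₀ F y) (hDε : D ε = 0) (x : F)
    (hx : x ∈ IntermediateField.adjoin F₀ {ε}) (hV : x ∈ V) :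
    D x ∈ IntermediateField.adjoin F₀ {ε} ∧ D x ∈ V := by
  have hε0 : ε ≠ 0 := by
    rintro rfl
    exact hε isAlgebraic_zero
  set K := IntermediateField.adjoin F₀ {ε} with hK
  have hεK : ε ∈ K := IntermediateField.mem_adjoin_simple_self F₀ ε
  have haK : ∀ P : F₀[X], aeval ε P ∈ K := by
    intro P
    refine (IntermediateField.mem_adjoin_simple_iff F₀ _).2 ⟨P, 1, by simp⟩
  have haV : ∀ P : F₀[X], aeval ε P ∈ V := aeval_mem V h0 h1
  -- the derivative of a polynomial value is a polynomial value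
  have hDP : ∀ P : F₀[X], ∃ P' : F₀[X], D (aeval ε P) = aeval ε P' := by
    intro P
    induction P using Polynomial.induction_on with
    | C a =>
      obtain ⟨y, hy⟩ := hD a
      exact ⟨C y, by simp [hy]⟩
    | add p q hp hq =>
      obtain ⟨p', hp'⟩ := hp
      obtain ⟨q', hq'⟩ := hq
      exact ⟨p' + q', by simp [hp', hq']⟩
    | monomial n a _ =>
      obtain ⟨y, hy⟩ := hD a
      refine ⟨C y * X ^ (n + 1), ?_⟩
      have e1 : aeval ε (C a * X ^ (n + 1) : F₀[X]) = algebraMap F₀ F a * ε ^ (n + 1) := by simp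
      have e2 : aeval ε (C y * X ^ (n + 1) : F₀[X]) = algebraMap F₀ F y * ε ^ (n + 1) := by simp
      rw [e1, e2, Derivation.leibniz, Derivation.leibniz_pow, hDε, hy]
      simp only [smul_zero, smul_eq_mul, mul_zero, zero_add]
      ring
  by_cases hx0 : x = 0
  · subst hx0
    simp
  obtain ⟨n, A, B, hA, hB, h⟩ := form_v V h0 hε0 h1 hx hx0 hV
  have hvB := v_aeval V h0 h1 hB
  have hB0 : aeval ε B ≠ 0 := by
    intro h
    rw [h] at hvB
    simp at hvB
  have hBV : (aeval ε B)⁻¹ ∈ V := by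
    apply (V.valuation_le_one_iff _).1
    rw [map_inv₀, hvB, inv_one]
  obtain ⟨P', hP'⟩ := hDP (X ^ n * A)
  obtain ⟨B', hB'⟩ := hDP B
  have hxP : x * aeval ε B = aeval ε (X ^ n * A) := by
    rw [h]
    simp only [map_mul, map_pow, aeval_X]
    field_simp
  have hDx : D x = (aeval ε P' - x * aeval ε B') * (aeval ε B)⁻¹ := by
    have h2 := congrArg D hxP
    rw [hP', Derivation.leibniz, hB', smul_eq_mul, smul_eq_mul] at h2
    field_simp
    linear_combination h2
  rw [hDx]
  refine ⟨?_, ?_⟩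
  · exact mul_mem (sub_mem (haK _) (mul_mem hx (haK _))) (inv_mem (haK _))
  · exact mul_mem (sub_mem (haV _) (mul_mem hV (haV _))) hBV

end VPH
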