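import Pool.Agent.VPH.KeyB

set_option autoImplicit false

/-!
# VPH-KeyC: the valuation ring in a finite extension

`L = F₀(ε)`, `M / L` finite inside `F`, `V₁ = V ∩ L` a discrete valuation ring (`base_dvr`).

Plan. `B := integralClosure V₁ M` is a Dedekind domain (`integralClosure.isDedekindDomain V₁ L M` / `IsIntegralClosure.isDedekindDomain`,
separable because `CharZero`), its fraction field is `M`, and `B ⊆ V` (valuation rings are integrally closed). Let
`𝔭 := m_V ∩ B`, a nonzero prime (contains `ε`). The localisation `B_𝔭` is a discrete valuation ring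
(`IsLocalization.AtPrime.isDiscreteValuationRing_of_dedekind_domain`); let `π` (in `B_𝔭`, or even in `B`) be a uniformizer: every
nonzero element of `M` is `π ^ c` times a unit of `B_𝔭`, `c : ℤ`. Elements `s ∈ B ∖ 𝔭` have `v(s) = 1`, so units of
`B_𝔭` have `v = 1`, and `v(π) < 1`: this is `uniformizer`. If `b ∈ M ∩ V`, `b = π ^ c * unit` then `c ≥ 0`, so `b ∈ B_𝔭`,
`b = b' / s`: this is `fraction`.
-/

namespace VPH

/-- uniformizer at a nonzero prime of a Dedekind domain, inside the domain -/
private theorem KeyC_ded {B : Type} [CommRing B] [IsDedekindDomain B] (q : Ideal B)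
    [hqp : q.IsPrime] (hqb : q ≠ ⊥) :
    ∃ p ∈ q, p ≠ 0 ∧ ∀ b : B, b ≠ 0 → ∃ n : ℕ, ∃ s t : B, s ∉ q ∧ t ∉ q ∧ s * b = t * p ^ n := by
  have hdvr : IsDiscreteValuationRing (Localization.AtPrime q) :=
    IsLocalization.AtPrime.isDiscreteValuationRing_of_dedekind_domain _ hqb _
  obtain ⟨w, hw⟩ := IsDiscreteValuationRing.exists_irreducible (Localization.AtPrime q)
  obtain ⟨p, s0, hps⟩ := IsLocalization.exists_mk'_eq q.primeCompl w
  have hinj : Function.Injective (algebraMap B (Localization.AtPrime q)) :=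
    IsLocalization.injective _ q.primeCompl_le_nonZeroDivisors
  have hpirr : Irreducible (algebraMap B (Localization.AtPrime q) p) := by
    have h1 : w * algebraMap B (Localization.AtPrime q) (s0 : B) = algebraMap B _ p := by
      rw [← hps]; exact IsLocalization.mk'_spec _ _ _
    have h2 : IsUnit (algebraMap B (Localization.AtPrime q) (s0 : B)) :=
      IsLocalization.map_units _ s0
    rw [← h1]
    exact (irreducible_mul_isUnit h2).2 hw
  have hpq : p ∈ q := by
    by_contra hp
    exact hpirr.1 (IsLocalization.map_units (Localization.AtPrime q) (⟨p, hp⟩ : q.primeCompl))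
  have hp0 : p ≠ 0 := by
    rintro rfl
    rw [map_zero] at hpirr
    exact hpirr.ne_zero rfl
  refine ⟨p, hpq, hp0, ?_⟩
  intro b hb
  have hb' : algebraMap B (Localization.AtPrime q) b ≠ 0 := by
    intro h; exact hb (hinj (by rw [h, map_zero]))
  obtain ⟨n, u, hu⟩ := IsDiscreteValuationRing.eq_unit_mul_pow_irreducible hb' hpirr
  obtain ⟨t, s, hts⟩ := IsLocalization.exists_mk'_eq q.primeCompl (u : Localization.AtPrime q)
  have h1 : (u : Localization.AtPrime q) * algebraMap B _ (s : B) = algebraMap B _ t := by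
    rw [← hts]; exact IsLocalization.mk'_spec _ _ _
  refine ⟨n, s, t, s.2, ?_, ?_⟩
  · intro ht
    have h2 : IsUnit (algebraMap B (Localization.AtPrime q) t) := by
      rw [← h1]
      exact u.isUnit.mul (IsLocalization.map_units _ s)
    exact (IsLocalization.AtPrime.isUnit_to_map_iff (Localization.AtPrime q) q t).1 h2 ht
  · apply hinj
    rw [map_mul, map_mul, map_pow, hu, ← h1]
    ring

/-- the same with the fraction field -/
private theorem KeyC_frac {B M : Type} [CommRing B] [IsDedekindDomain B] [Field M]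
    [Algebra B M] [IsFractionRing B M] (q : Ideal B) [hqp : q.IsPrime] (hqb : q ≠ ⊥) :
    ∃ p ∈ q, p ≠ 0 ∧ ∀ x : M, x ≠ 0 → ∃ n m : ℕ, ∃ s t : B, s ∉ q ∧ t ∉ q ∧
      algebraMap B M s * algebraMap B M p ^ m * x = algebraMap B M t * algebraMap B M p ^ n := by
  obtain ⟨p, hp, hp0, h⟩ := KeyC_ded q hqb
  refine ⟨p, hp, hp0, ?_⟩
  intro x hx
  obtain ⟨b1, b2, hb2, hbx⟩ := IsFractionRing.div_surjective B x
  have hb20 : b2 ≠ 0 := nonZeroDivisors.ne_zero hb2
  have hb20' : algebraMap B M b2 ≠ 0 := by
    rw [Ne, IsFractionRing.to_map_eq_zero_iff]; exact hb20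
  have hbF : x * algebraMap B M b2 = algebraMap B M b1 := by
    rw [← hbx]; field_simp
  have hb10 : b1 ≠ 0 := by
    rintro rfl
    rw [map_zero] at hbF
    rcases mul_eq_zero.1 hbF with h | h
    · exact hx h
    · exact hb20' h
  obtain ⟨n1, s1, t1, hs1, ht1, h1⟩ := h b1 hb10
  obtain ⟨n2, s2, t2, hs2, ht2, h2⟩ := h b2 hb20
  have h1F : algebraMap B M s1 * algebraMap B M b1 = algebraMap B M t1 * algebraMap B M p ^ n1 := by
    rw [← map_mul, h1, map_mul, map_pow]
  have h2F : algebraMap B M s2 * algebraMap B M b2 = algebraMap B M t2 * algebraMap B M p ^ n2 := by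
    rw [← map_mul, h2, map_mul, map_pow]
  refine ⟨n1, n2, s1 * t2, t1 * s2, ?_, ?_, ?_⟩
  · intro h
    rcases hqp.mem_or_mem h with h | h
    · exact hs1 h
    · exact ht2 h
  · intro h
    rcases hqp.mem_or_mem h with h | h
    · exact ht1 h
    · exact hs2 h
  · rw [map_mul, map_mul]
    calc algebraMap B M s1 * algebraMap B M t2 * algebraMap B M p ^ n2 * x
        = algebraMap B M s1 * x * (algebraMap B M t2 * algebraMap B M p ^ n2) := by ring
      _ = algebraMap B M s1 * x * (algebraMap B M s2 * algebraMap B M b2) := by rw [h2F]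
      _ = algebraMap B M s2 * (algebraMap B M s1 * (x * algebraMap B M b2)) := by ring
      _ = algebraMap B M s2 * (algebraMap B M t1 * algebraMap B M p ^ n1) := by rw [hbF, h1F]
      _ = algebraMap B M t1 * algebraMap B M s2 * algebraMap B M p ^ n1 := by ring

/-- the same inside a field with a valuation -/
private theorem KeyC_val {B M F : Type} [CommRing B] [IsDedekindDomain B] [Field M]
    [Algebra B M] [IsFractionRing B M] [Field F] [Algebra M F] [Algebra B F] [IsScalarTower B M F]
    (V : ValuationSubring F) (hBV : ∀ b : B, algebraMap B F b ∈ V) (e : B) (he : e ≠ 0)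
    (hev : V.valuation (algebraMap B F e) < 1) :
    ∃ p : B, p ≠ 0 ∧ V.valuation (algebraMap B F p) < 1 ∧
      ∀ x : M, x ≠ 0 → ∃ n m : ℕ, ∃ s t : B, V.valuation (algebraMap B F s) = 1 ∧
        V.valuation (algebraMap B F t) = 1 ∧
        algebraMap B F s * algebraMap B F p ^ m * algebraMap M F x =
          algebraMap B F t * algebraMap B F p ^ n := by
  let φ : B →+* V := RingHom.codRestrict (algebraMap B F) V hBV
  let q : Ideal B := (IsLocalRing.maximalIdeal V).comap φ
  have hqp : q.IsPrime := Ideal.comap_isPrime φ _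
  have hmem : ∀ b, b ∈ q ↔ V.valuation (algebraMap B F b) < 1 := by
    intro b
    have : algebraMap B F b = ((φ b : V) : F) := rfl
    rw [this, ← ValuationSubring.valuation_lt_one_iff]
    rfl
  have hnmem : ∀ b, b ∉ q → V.valuation (algebraMap B F b) = 1 := by
    intro b hb
    rw [hmem] at hb
    exact le_antisymm ((V.valuation_le_one_iff _).2 (hBV b)) (not_lt.1 hb)
  have hqb : q ≠ ⊥ := by
    intro h
    have h2 : e ∈ q := (hmem e).2 hev
    rw [h, Ideal.mem_bot] at h2
    exact he h2
  obtain ⟨p, hp, hp0, h⟩ := KeyC_frac (M := M) q hqb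
  refine ⟨p, hp0, (hmem p).1 hp, ?_⟩
  intro x hx
  obtain ⟨n, m, s, t, hs, ht, h1⟩ := h x hx
  refine ⟨n, m, s, t, hnmem s hs, hnmem t ht, ?_⟩
  have h2 := congrArg (algebraMap M F) h1
  rw [map_mul, map_mul, map_mul, map_pow, map_pow, ← IsScalarTower.algebraMap_apply B M F,
    ← IsScalarTower.algebraMap_apply B M F, ← IsScalarTower.algebraMap_apply B M F] at h2
  exact h2

private theorem KeyC_core {L F : Type} [Field L] [Field F] [Algebra L F] [CharZero L]
    (V : ValuationSubring F) (M : IntermediateField L F) [FiniteDimensional L M]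
    [IsDiscreteValuationRing (V.comap (algebraMap L F))] (e : L) (he : e ≠ 0)
    (hev : V.valuation (algebraMap L F e) < 1) :
    ∃ p ∈ M, p ≠ 0 ∧ V.valuation p < 1 ∧ IsIntegral (V.comap (algebraMap L F)) p ∧
      ∀ x ∈ M, x ≠ 0 → ∃ n m : ℕ, ∃ s ∈ M, ∃ t ∈ M, V.valuation s = 1 ∧ V.valuation t = 1 ∧
        IsIntegral (V.comap (algebraMap L F)) s ∧ IsIntegral (V.comap (algebraMap L F)) t ∧
        s * p ^ m * x = t * p ^ n := by
  have hD : IsDedekindDomain (integralClosure (V.comap (algebraMap L F)) M) :=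
    integralClosure.isDedekindDomain (V.comap (algebraMap L F)) L M
  have hFr : IsFractionRing (integralClosure (V.comap (algebraMap L F)) M) M :=
      integralClosure.isFractionRing_of_finite_extension L M
  have hint : ∀ b : integralClosure (V.comap (algebraMap L F)) M,
      IsIntegral (V.comap (algebraMap L F)) ((b : M) : F) := by
    intro b
    have h1 : IsIntegral (V.comap (algebraMap L F)) (b : M) := b.2
    exact h1.map (IsScalarTower.toAlgHom (V.comap (algebraMap L F)) M F)
  have hBV : ∀ b : integralClosure (V.comap (algebraMap L F)) M, ((b : M) : F) ∈ V := by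
    intro b
    have h1 := hint b
    have h2 : IsIntegral V ((b : M) : F) := by
      obtain ⟨P, hP, hP0⟩ := h1
      let ψ : (V.comap (algebraMap L F)) →+* V :=
        RingHom.codRestrict ((algebraMap L F).comp (algebraMap (V.comap (algebraMap L F)) L)) V
          (fun a => a.2)
      refine ⟨P.map ψ, hP.map ψ, ?_⟩
      rw [Polynomial.eval₂_map]
      exact hP0
    obtain ⟨y, hy⟩ := IsIntegrallyClosed.isIntegral_iff.1 h2
    rw [← hy]
    exact y.2
  have heV : e ∈ V.comap (algebraMap L F) := by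
    rw [ValuationSubring.mem_comap]
    exact (V.valuation_le_one_iff _).1 hev.le
  obtain ⟨p, hp0, hp1, h⟩ := KeyC_val (B := integralClosure (V.comap (algebraMap L F)) M)
    (M := M) (F := F) V hBV
    (algebraMap (V.comap (algebraMap L F)) (integralClosure (V.comap (algebraMap L F)) M) ⟨e, heV⟩)
    (by
      intro h
      apply he
      have h1 := congrArg (fun y : integralClosure (V.comap (algebraMap L F)) M => ((y : M) : F)) h
      apply (algebraMap L F).injective
      rw [map_zero]
      exact h1) hev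
  refine ⟨((p : M) : F), (p : M).2, ?_, hp1, hint p, ?_⟩
  · intro h
    apply hp0
    apply Subtype.ext
    apply Subtype.ext
    exact h
  · intro x hx hx0
    obtain ⟨n, m, s, t, hs, ht, h1⟩ := h ⟨x, hx⟩ (by
      intro h; exact hx0 (congrArg Subtype.val h))
    exact ⟨n, m, ((s : M) : F), (s : M).2, ((t : M) : F), (t : M).2, hs, ht, hint s, hint t, h1⟩

theorem uniformizer {F₀ F : Type} [Field F₀] [Field F] [Algebra F₀ F] [CharZero F₀] (ε : F)
    (hε : Transcendental F₀ ε) (V : ValuationSubring F) (h0 : ∀ x : F₀, algebraMap F₀ F x ∈ V)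
    (h1 : V.valuation ε < 1) (M : IntermediateField (IntermediateField.adjoin F₀ {ε}) F)
    [FiniteDimensional (IntermediateField.adjoin F₀ {ε}) M] :
    ∃ π ∈ M, π ≠ 0 ∧ V.valuation π < 1 ∧
      ∀ b ∈ M, b ≠ 0 → ∃ c : ℤ, V.valuation b = V.valuation π ^ c := by
  have he0 : ε ≠ 0 := by
    rintro rfl
    exact hε (isAlgebraic_zero)
  have hD := base_dvr ε hε V h0 h1
  have hcz : CharZero (IntermediateField.adjoin F₀ {ε}) :=
    charZero_of_injective_algebraMap (algebraMap F₀ (IntermediateField.adjoin F₀ {ε})).injective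
  obtain ⟨p, hpM, hp0, hp1, -, h⟩ := KeyC_core V M
    (⟨ε, IntermediateField.mem_adjoin_simple_self F₀ ε⟩ : IntermediateField.adjoin F₀ {ε})
    (fun h => he0 (congrArg Subtype.val h)) h1
  refine ⟨p, hpM, hp0, hp1, ?_⟩
  intro b hb hb0
  obtain ⟨n, m, s, -, t, -, hs, ht, -, -, h2⟩ := h b hb hb0
  have h3 := congrArg V.valuation h2
  rw [map_mul, map_mul, map_mul, hs, ht, one_mul, one_mul, map_pow, map_pow] at h3
  have hv0 : V.valuation p ≠ 0 := (Valuation.ne_zero_iff _).2 hp0
  refine ⟨(n : ℤ) - m, ?_⟩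
  rw [zpow_sub₀ hv0, zpow_natCast, zpow_natCast, eq_div_iff (pow_ne_zero _ hv0), mul_comm]
  exact h3

/-- elements of `M ∩ V` are fractions of elements integral over `V ∩ F₀(ε)`, the denominator a unit
of `V` -/
theorem fraction {F₀ F : Type} [Field F₀] [Field F] [Algebra F₀ F] [CharZero F₀] (ε : F)
    (hε : Transcendental F₀ ε) (V : ValuationSubring F) (h0 : ∀ x : F₀, algebraMap F₀ F x ∈ V)
    (h1 : V.valuation ε < 1) (M : IntermediateField (IntermediateField.adjoin F₀ {ε}) F)
    [FiniteDimensional (IntermediateField.adjoin F₀ {ε}) M] (b : F) (hb : b ∈ M) (hV : b ∈ V) :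
    ∃ s ∈ M, ∃ b' ∈ M, V.valuation s = 1 ∧ s * b = b' ∧
      IsIntegral (V.comap (algebraMap (IntermediateField.adjoin F₀ {ε}) F)) s ∧
      IsIntegral (V.comap (algebraMap (IntermediateField.adjoin F₀ {ε}) F)) b' := by
  have he0 : ε ≠ 0 := by
    rintro rfl
    exact hε (isAlgebraic_zero)
  have hD := base_dvr ε hε V h0 h1
  have hcz : CharZero (IntermediateField.adjoin F₀ {ε}) :=
    charZero_of_injective_algebraMap (algebraMap F₀ (IntermediateField.adjoin F₀ {ε})).injective
  obtain ⟨p, hpM, hp0, hp1, hpi, h⟩ := KeyC_core V M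
    (⟨ε, IntermediateField.mem_adjoin_simple_self F₀ ε⟩ : IntermediateField.adjoin F₀ {ε})
    (fun h => he0 (congrArg Subtype.val h)) h1
  by_cases hb0 : b = 0
  · subst hb0
    exact ⟨1, one_mem M, 0, zero_mem M, map_one _, by rw [mul_zero], isIntegral_one, isIntegral_zero⟩
  obtain ⟨n, m, s, hsM, t, htM, hs, ht, hsi, hti, h2⟩ := h b hb hb0
  have h3 := congrArg V.valuation h2
  rw [map_mul, map_mul, map_mul, hs, ht, one_mul, one_mul, map_pow, map_pow] at h3
  have hv0 : V.valuation p ≠ 0 := (Valuation.ne_zero_iff _).2 hp0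
  have hvb : V.valuation b ≤ 1 := (V.valuation_le_one_iff _).2 hV
  have hmn : m ≤ n := by
    by_contra hlt
    push Not at hlt
    have h4 : V.valuation p ^ m * V.valuation b ≤ V.valuation p ^ m := mul_le_of_le_one_right' hvb
    rw [h3] at h4
    have h5 : V.valuation p ^ m < V.valuation p ^ n :=
      pow_lt_pow_right_of_lt_one₀ (zero_lt_iff.2 hv0) hp1 hlt
    exact absurd h4 (not_le.2 h5)
  refine ⟨s, hsM, t * p ^ (n - m), mul_mem htM (pow_mem hpM _), hs, ?_, hsi,
    hti.mul (hpi.pow _)⟩
  have h6 : p ^ m ≠ 0 := pow_ne_zero _ hp0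
  apply mul_left_cancel₀ h6
  calc p ^ m * (s * b) = s * p ^ m * b := by ring
    _ = t * p ^ n := h2
    _ = p ^ m * (t * p ^ (n - m)) := by
        rw [← Nat.sub_add_cancel hmn, pow_add, Nat.add_sub_cancel]; ring

end VPH
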