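import Mathlib

set_option autoImplicit false

/-!
# VPH-KruA: primes of height one in a polynomial ring

A prime `p ≠ ⊥` of height at most one is generated by a prime element `q`, which is not a constant; every
nonzero multiple of `q` contains each variable of `q`.
-/

namespace VPH

open MvPolynomial

theorem height_one_poly {k : Type} [Field k] {r : ℕ} (p : Ideal (MvPolynomial (Fin r) k))
    [p.IsPrime] (hp : p.height ≤ 1) (h0 : p ≠ ⊥) :
    ∃ i : Fin r, ∀ q ∈ p, q ≠ 0 → i ∈ q.vars := by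
  obtain ⟨q, hqp, hq⟩ := Ideal.IsPrime.exists_mem_prime_of_ne_bot ‹p.IsPrime› h0
  have hI : (Ideal.span {q} : Ideal (MvPolynomial (Fin r) k)).IsPrime :=
    (Ideal.span_singleton_prime hq.ne_zero).2 hq
  have hle : Ideal.span {q} ≤ p := (Ideal.span_singleton_le_iff_mem _).2 hqp
  have hbot : (⊥ : Ideal (MvPolynomial (Fin r) k)) < Ideal.span {q} := by
    rw [bot_lt_iff_ne_bot, Ne, Ideal.span_singleton_eq_bot]
    exact hq.ne_zero
  have heq : Ideal.span {q} = p := by
    by_contra hne
    have hlt : Ideal.span {q} < p := lt_of_le_of_ne hle hne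
    have hb : (⊥ : Ideal (MvPolynomial (Fin r) k)).IsPrime := Ideal.isPrime_bot
    have h1 := Ideal.height_add_one_le_of_lt_of_isPrime hbot
    have h2 := Ideal.height_add_one_le_of_lt_of_isPrime hlt
    have h3 : (1 : ℕ∞) ≤ (Ideal.span {q}).height := le_trans (by simp) h1
    have h4 : (1 : ℕ∞) + 1 ≤ 1 := le_trans (add_le_add_left h3 1) (h2.trans hp)
    exact absurd h4 (by norm_num)
  have hvars : q.vars ≠ ∅ := by
    intro hv
    rw [vars_eq_empty_iff_eq_C] at hv
    apply hq.not_isUnit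
    have hc : coeff 0 q ≠ 0 := by
      intro hc
      rw [hc, C_0] at hv
      exact hq.ne_zero hv
    rw [hv]
    exact (IsUnit.mk0 _ hc).map C
  obtain ⟨i, hi⟩ := Finset.nonempty_iff_ne_empty.2 hvars
  refine ⟨i, fun x hx hx0 => ?_⟩
  rw [← heq, Ideal.mem_span_singleton] at hx
  obtain ⟨y, rfl⟩ := hx
  rw [mem_vars_iff_degreeOf_ne_zero] at hi ⊢
  rw [degreeOf_mul_eq (left_ne_zero_of_mul hx0) (right_ne_zero_of_mul hx0)]
  omega

end VPH
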