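import Pool.Agent.VPH.RkB

set_option autoImplicit false

/-!
# VPH-PlaB: the transcendence basis

`h ⇒ b`, `p(h) ≠ 0`, `p(b) = 0`, `tr b + 1 = tr h`, `F` of infinite transcendence degree over `k`.
There are `κ` (with `b ∘ κ` a transcendence basis of `b`) and an infinite family `t`, algebraically
independent over `k[h]`, such that `(h ∘ κ, t)` and `p(h)` together are a transcendence basis of `F` over `k`.
-/

namespace VPH

open MvPolynomial

private theorem PlaB_indep {k F Fb : Type} [Field k] [Field F] [Field Fb] [Algebra k F]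
    [Algebra k Fb] {N r : ℕ} {h : Fin N → F} {b : Fin N → Fb} (H : Sp k h b) (κ : Fin r → Fin N)
    (hb : AlgebraicIndependent k (b ∘ κ)) : AlgebraicIndependent k (h ∘ κ) := by
  rw [algebraicIndependent_iff] at hb ⊢
  intro q hq
  refine hb q ?_
  have h1 : aeval h (rename κ q) = 0 := by rw [aeval_rename]; exact hq
  have h2 := H _ h1
  rwa [aeval_rename] at h2

private theorem PlaB_trans {k F Fb : Type} [Field k] [Field F] [Field Fb] [Algebra k F]
    [Algebra k Fb] {N r : ℕ} {h : Fin N → F} {b : Fin N → Fb} (H : Sp k h b) (κ : Fin r → Fin N)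
    (hb : AlgebraicIndependent k (b ∘ κ)) (p : MvPolynomial (Fin N) k)
    (hp : aeval h p ≠ 0) (bp : aeval b p = 0) :
    Transcendental (Algebra.adjoin k (Set.range (h ∘ κ))) (aeval h p) := by
  intro halg
  obtain ⟨q, hq0, hq⟩ := halg.exists_nonzero_coeff_and_aeval_eq_zero
    (mem_nonZeroDivisors_of_ne_zero hp)
  have hc0 : ∀ z ∈ Algebra.adjoin k (Set.range (h ∘ κ)),
      ∃ Q : MvPolynomial (Fin r) k, aeval (h ∘ κ) Q = z := by
    intro z hz
    rw [Algebra.adjoin_range_eq_range_aeval] at hz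
    exact hz
  have hc : ∀ i, ∃ Q : MvPolynomial (Fin r) k, aeval (h ∘ κ) Q = (q.coeff i : F) :=
    fun i => hc0 _ (q.coeff i).2
  choose Q hQ using hc
  have h2 : aeval h (∑ i ∈ Finset.range (q.natDegree + 1), rename κ (Q i) * p ^ i) = 0 := by
    rw [map_sum, ← hq, Polynomial.aeval_eq_sum_range]
    refine Finset.sum_congr rfl (fun i _ => ?_)
    rw [map_mul, map_pow, aeval_rename, hQ]
    rfl
  have h3 := H _ h2
  rw [map_sum, Finset.sum_eq_single 0] at h3
  · rw [pow_zero, mul_one, aeval_rename] at h3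
    have h4 : Q 0 = 0 := (algebraicIndependent_iff.1 hb) _ h3
    have h5 := hQ 0
    rw [h4, map_zero] at h5
    exact hq0 (Subtype.ext h5.symm)
  · intro i _ hi
    rw [map_mul, map_pow, bp, zero_pow hi, mul_zero]
  · intro h0
    exact absurd (Finset.mem_range.2 (Nat.succ_pos _)) h0

theorem basis {k F Fb : Type} [Field k] [Field F] [Field Fb] [Algebra k F] [Algebra k Fb] {N : ℕ}
    (hB : Big k F) (h : Fin N → F) (b : Fin N → Fb) (H : Sp k h b) (p : MvPolynomial (Fin N) k)
    (hp : aeval h p ≠ 0) (bp : aeval b p = 0) (ht : tr k b + 1 = tr k h) :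
    ∃ (r : ℕ) (κ : Fin r → Fin N) (τ : Type) (_ : Infinite τ) (t : τ → F),
      AlgebraicIndependent k (b ∘ κ) ∧
      AlgebraicIndependent (Algebra.adjoin k (Set.range h)) t ∧
      AlgebraicIndependent k (Sum.elim (fun _ : Unit => aeval h p) (Sum.elim (h ∘ κ) t)) ∧
      ∀ y : F, IsAlgebraic (IntermediateField.adjoin k
        (Set.range (Sum.elim (fun _ : Unit => aeval h p) (Sum.elim (h ∘ κ) t)))) y := by
  obtain ⟨κ, -, hbκ, -⟩ := exists_basis k b
  have hhκ : AlgebraicIndependent k (h ∘ κ) := PlaB_indep H κ hbκ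
  have memh : ∀ j, h j ∈ Algebra.adjoin k (Set.range h) :=
    fun j => Algebra.subset_adjoin ⟨j, rfl⟩
  have memε : aeval h p ∈ Algebra.adjoin k (Set.range h) := by
    rw [Algebra.adjoin_range_eq_range_aeval]
    exact ⟨p, rfl⟩
  have hind : AlgebraicIndependent k (Sum.elim (fun _ : Unit => aeval h p) (h ∘ κ)) := by
    rw [AlgebraicIndependent.sumElim_iff]
    refine ⟨hhκ, ?_⟩
    rw [algebraicIndependent_unique_type_iff]
    exact PlaB_trans H κ hbκ p hp bp
  have hx' : (Algebra.adjoin k (Set.range h)).val ∘ (Sum.elim (fun _ : Unit => ⟨aeval h p, memε⟩)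
      (fun i => ⟨h (κ i), memh _⟩) : Unit ⊕ Fin (tr k b) → Algebra.adjoin k (Set.range h)) =
      Sum.elim (fun _ : Unit => aeval h p) (h ∘ κ) := by
    funext i
    rcases i with i | i <;> rfl
  have hx'ind : AlgebraicIndependent k (Sum.elim (fun _ : Unit => ⟨aeval h p, memε⟩)
      (fun i => ⟨h (κ i), memh _⟩) : Unit ⊕ Fin (tr k b) → Algebra.adjoin k (Set.range h)) := by
    refine AlgebraicIndependent.of_comp (Algebra.adjoin k (Set.range h)).val ?_
    rw [hx']
    exact hind
  have hx'b : IsTranscendenceBasis k (Sum.elim (fun _ : Unit => ⟨aeval h p, memε⟩)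
      (fun i => ⟨h (κ i), memh _⟩) : Unit ⊕ Fin (tr k b) → Algebra.adjoin k (Set.range h)) := by
    refine hx'ind.isTranscendenceBasis_of_trdeg_le_of_finite ?_
    rw [← tr_cast k h, ← ht]
    rw [Cardinal.mk_sum, Cardinal.lift_id, Cardinal.lift_id, Cardinal.mk_fin, Cardinal.mk_fintype,
      Fintype.card_unit]
    push_cast
    rw [add_comm]
  obtain ⟨τ, t, htb⟩ := exists_isTranscendenceBasis' (Algebra.adjoin k (Set.range h)) F
  have hinf : Infinite τ := by
    rw [Cardinal.infinite_iff, htb.cardinalMk_eq_trdeg]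
    by_contra hlt
    rw [not_le] at hlt
    have h1 : Algebra.trdeg k F < Cardinal.aleph0 := by
      rw [← trdeg_add_eq k (Algebra.adjoin k (Set.range h)), ← tr_cast k h]
      exact Cardinal.add_lt_aleph0 (Cardinal.natCast_lt_aleph0) hlt
    exact absurd hB (not_le.2 h1)
  have hall := hx'b.sumElim_comp htb
  have hall2 : IsTranscendenceBasis k
      (Sum.elim (fun _ : Unit => aeval h p) (Sum.elim (h ∘ κ) t)) := by
    refine (isTranscendenceBasis_equiv'
      ((Equiv.sumAssoc Unit (Fin (tr k b)) τ).symm.trans (Equiv.sumComm _ _)) ?_).2 hall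
    funext i
    rcases i with i | i | i <;> rfl
  exact ⟨tr k b, κ, τ, hinf, t, hbκ, htb.1, hall2.1, fun y => hall2.isAlgebraic_field.isAlgebraic y⟩

end VPH
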