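import Pool.Agent.VPH.PlaA
import Pool.Agent.VPH.PlaB
import Pool.Agent.VPH.KeyA

set_option autoImplicit false

/-!
# VPH-Pla: the place
-/

namespace VPH

open MvPolynomial

private theorem Pla_poly {k F Fb : Type} [Field k] [Field F] [Field Fb] [Algebra k F] [Algebra k Fb] {N r : ℕ}
    {τ : Type} (h : Fin N → F) (b : Fin N → Fb) (κ : Fin r → Fin N) (t : τ → F)
    (hb : AlgebraicIndependent k (b ∘ κ)) (q : MvPolynomial (Fin r ⊕ τ) k) :
    ∃ q' : MvPolynomial τ (MvPolynomial (Fin N) k),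
      eval t (map (aeval h : MvPolynomial (Fin N) k →ₐ[k] F).toRingHom q') = aeval (Sum.elim (h ∘ κ) t) q ∧
      (map (aeval b : MvPolynomial (Fin N) k →ₐ[k] Fb).toRingHom q' = 0 → q = 0) := by
  set Φ : MvPolynomial (Fin r ⊕ τ) k →+* MvPolynomial τ (MvPolynomial (Fin r) k) :=
    ((sumAlgEquiv k τ (Fin r)).toRingEquiv.toRingHom).comp
      (rename (R := k) (Sum.swap : Fin r ⊕ τ → τ ⊕ Fin r)).toRingHom with hΦ
  have hinj : Function.Injective Φ := by
    rw [hΦ, RingHom.coe_comp]
    refine Function.Injective.comp (sumAlgEquiv k τ (Fin r)).injective ?_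
    exact rename_injective _ (Equiv.sumComm (Fin r) τ).injective
  refine ⟨map (rename (R := k) κ).toRingHom (Φ q), ?_, ?_⟩
  · have h1 : ((eval t).comp ((map (aeval h : MvPolynomial (Fin N) k →ₐ[k] F).toRingHom).comp
        ((map (rename (R := k) κ).toRingHom).comp Φ))) =
        (aeval (Sum.elim (h ∘ κ) t) : MvPolynomial (Fin r ⊕ τ) k →ₐ[k] F).toRingHom := by
      refine MvPolynomial.ringHom_ext ?_ ?_
      · intro c
        simp [hΦ]
      · rintro (i | i)
        · simp [hΦ]
        · simp [hΦ]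
    exact RingHom.congr_fun h1 q
  · intro h0
    rw [map_map] at h0
    have h1 : (aeval b : MvPolynomial (Fin N) k →ₐ[k] Fb).toRingHom.comp (rename (R := k) κ).toRingHom =
        (aeval (b ∘ κ) : MvPolynomial (Fin r) k →ₐ[k] Fb).toRingHom := by
      refine MvPolynomial.ringHom_ext ?_ ?_
      · intro c
        simp
      · intro i
        simp
    rw [h1] at h0
    have h2 : Function.Injective (map (σ := τ) (aeval (b ∘ κ) : MvPolynomial (Fin r) k →ₐ[k] Fb).toRingHom) :=
      map_injective _ hb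
    have h3 : Φ q = 0 := h2 (by rw [h0, map_zero])
    exact hinj (by rw [h3, map_zero])

open IntermediateField.algebraAdjoinAdjoin in
theorem place {k F Fb : Type} [Field k] [Field F] [Field Fb] [Algebra k F] [Algebra k Fb] {N : ℕ}
    [IsAlgClosed F] (hB : Big k F) (h : Fin N → F) (b : Fin N → Fb) (H : Sp k h b)
    (p : MvPolynomial (Fin N) k) (hp : aeval h p ≠ 0) (bp : aeval b p = 0)
    (ht : tr k b + 1 = tr k h) :
    ∃ (F₀ : IntermediateField k F) (V : ValuationSubring F) (ψ : V →+* F₀) (hV : ∀ j, h j ∈ V),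
      IsAlgClosed F₀ ∧ Big k F₀ ∧
      (∀ x : F₀, ∃ hx : (x : F) ∈ V, ψ ⟨(x : F), hx⟩ = x) ∧
      (∀ v : V, ψ v = 0 ↔ V.valuation (v : F) < 1) ∧
      Transcendental F₀ (aeval h p) ∧
      (∀ y : F, IsAlgebraic (IntermediateField.adjoin F₀ {aeval h p}) y) ∧
      V.valuation (aeval h p) < 1 ∧
      (∀ q : MvPolynomial (Fin N) k, aeval (fun j => ψ ⟨h j, hV j⟩) q = 0 ↔ aeval b q = 0) := by
  classical
  obtain ⟨r, κ, τ, hτ, t, hbk, ht', hai, halg⟩ := basis hB h b H p hp bp ht
  obtain ⟨V, hVk, hVh, hVt, hdom⟩ := dom h b H t ht'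
  have hC : ∀ q : MvPolynomial (Fin N) k, V.valuation (aeval h q) < 1 ↔ aeval b q = 0 := by
    intro q
    have h1 := hdom (C q)
    rw [map_C, map_C, eval_C, C_eq_zero] at h1
    exact h1
  have hε : V.valuation (aeval h p) < 1 := (hC p).2 bp
  set x : Fin r ⊕ τ → F := Sum.elim (h ∘ κ) t with hx
  have hxV : ∀ i, x i ∈ V := by
    rintro (i | i)
    · exact hVh _
    · exact hVt i
  have hpV : ∀ q : MvPolynomial (Fin r ⊕ τ) k, aeval x q ∈ V := by
    intro q
    induction q using MvPolynomial.induction_on with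
    | C c =>
      rw [aeval_C]
      exact hVk c
    | add q1 q2 h1 h2 =>
      rw [map_add]
      exact V.add_mem _ _ h1 h2
    | mul_X q1 i h1 =>
      rw [map_mul, aeval_X]
      exact V.mul_mem _ _ h1 (hxV i)
  have hL : ∀ y ∈ IntermediateField.adjoin k (Set.range x), y ∈ V := by
    intro y hy
    obtain ⟨q1, q2, rfl⟩ := (IntermediateField.mem_adjoin_range_iff k x y).1 hy
    by_cases hq : q2 = 0
    · rw [hq, map_zero, div_zero]
      exact V.zero_mem
    · obtain ⟨q', hq1, hq2⟩ := Pla_poly h b κ t hbk q2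
      have h1 : ¬ V.valuation (aeval x q2) < 1 := by
        intro h2
        rw [hx, ← hq1] at h2
        exact hq (hq2 ((hdom q').1 h2))
      have h2 : V.valuation (aeval x q2) = 1 :=
        le_antisymm ((V.valuation_le_one_iff _).2 (hpV q2)) (not_lt.1 h1)
      rw [← V.valuation_le_one_iff, map_div₀, h2, div_one]
      exact (V.valuation_le_one_iff _).2 (hpV q1)
  -- the algebraic closure
  set L₀ : IntermediateField k F := IntermediateField.adjoin k (Set.range x) with hL₀
  set F₁ : IntermediateField L₀ F := algebraicClosure L₀ F with hF₁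
  set F₀ : IntermediateField k F := F₁.restrictScalars k with hF₀
  have hmem : ∀ y : F, y ∈ F₀ ↔ IsIntegral L₀ y := fun y => Iff.rfl
  have hLF : ∀ y ∈ L₀, y ∈ F₀ := by
    intro y hy
    rw [hmem]
    exact isIntegral_algebraMap (R := L₀) (A := F) (x := ⟨y, hy⟩)
  have hcl : IsAlgClosed F₀ := by
    have h1 : IsAlgClosed F₁ := IsAlgClosure.isAlgClosed L₀
    exact h1
  have hFV : ∀ y ∈ F₀, y ∈ V := by
    intro y hy
    have h1 : IsIntegral L₀ y := hy
    let φ : L₀ →+* V :=
      { toFun := fun z => ⟨z.1, hL z.1 z.2⟩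
        map_one' := rfl
        map_mul' := fun _ _ => rfl
        map_zero' := rfl
        map_add' := fun _ _ => rfl }
    have h2 : IsIntegral V (RingHom.id F y) := IsIntegral.map_of_comp_eq φ (RingHom.id F) (by
      ext z
      rfl) h1
    obtain ⟨z, hz⟩ := IsIntegrallyClosed.isIntegral_iff.1 h2
    rw [RingHom.id_apply] at hz
    rw [← hz]
    exact z.2
  have htF : ∀ i, x i ∈ F₀ := fun i => hLF _ (IntermediateField.subset_adjoin _ _ ⟨i, rfl⟩)
  have hbig : Big k F₀ := by
    have h1 : AlgebraicIndependent k x := by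
      have h2 := hai.comp (Sum.inr : Fin r ⊕ τ → Unit ⊕ (Fin r ⊕ τ)) Sum.inr_injective
      exact h2
    have h2 : AlgebraicIndependent k t := by
      have h3 := h1.comp (Sum.inr : τ → Fin r ⊕ τ) Sum.inr_injective
      exact h3
    have h3 : AlgebraicIndependent k (fun i : τ => (⟨t i, htF (Sum.inr i)⟩ : F₀)) :=
      AlgebraicIndependent.of_comp F₀.val h2
    unfold Big
    exact (Cardinal.aleph0_le_mk τ).trans h3.cardinalMk_le_trdeg
  have htr : Transcendental F₀ (aeval h p) := by
    intro hal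
    have h1 : IsIntegral F₁ (aeval h p) := isAlgebraic_iff_isIntegral.1 hal
    have h2 : IsIntegral L₀ (aeval h p) := isIntegral_trans (A := F₁) _ h1
    have h3 : IsAlgebraic L₀ (aeval h p) := isAlgebraic_iff_isIntegral.2 h2
    have h4 : IsAlgebraic (Algebra.adjoin k (Set.range x)) (aeval h p) :=
      (IsFractionRing.isAlgebraic_iff (Algebra.adjoin k (Set.range x)) L₀ F).2 h3
    have h5 := (AlgebraicIndependent.sumElim_iff.1 hai).2
    rw [algebraicIndependent_unique_type_iff] at h5
    exact h5 h4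
  have hF : ∀ y : F, IsAlgebraic (IntermediateField.adjoin F₀ {aeval h p}) y := by
    intro y
    set M : IntermediateField k F := IntermediateField.adjoin k
      (Set.range (Sum.elim (fun _ : Unit => aeval h p) x)) with hM
    have h1 : M ≤ (IntermediateField.adjoin F₀ {aeval h p}).restrictScalars k := by
      rw [hM, IntermediateField.adjoin_le_iff]
      rintro _ ⟨i | i, rfl⟩
      · exact IntermediateField.mem_adjoin_simple_self F₀ (aeval h p)
      · exact (IntermediateField.adjoin F₀ {aeval h p}).algebraMap_mem ⟨x i, htF i⟩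
    let φ : M →+* IntermediateField.adjoin F₀ {aeval h p} :=
      { toFun := fun z => ⟨z.1, h1 z.2⟩
        map_one' := rfl
        map_mul' := fun _ _ => rfl
        map_zero' := rfl
        map_add' := fun _ _ => rfl }
    have h2 : IsIntegral (IntermediateField.adjoin F₀ {aeval h p}) (RingHom.id F y) :=
      IsIntegral.map_of_comp_eq φ (RingHom.id F) (by
        ext z
        rfl) (isAlgebraic_iff_isIntegral.1 (halg y))
    exact isAlgebraic_iff_isIntegral.2 h2
  let ι₀ : F₀ →+* V :=
    { toFun := fun z => ⟨z.1, hFV z.1 z.2⟩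
      map_one' := rfl
      map_mul' := fun _ _ => rfl
      map_zero' := rfl
      map_add' := fun _ _ => rfl }
  have hbij : Function.Bijective ((IsLocalRing.residue V).comp ι₀) := by
    refine ⟨RingHom.injective _, ?_⟩
    intro z
    obtain ⟨v, rfl⟩ := IsLocalRing.residue_surjective z
    obtain ⟨x₀, hx₀⟩ := residue (F₀ := F₀) (aeval h p) htr hF V (fun z => hFV z.1 z.2) hε v.1 v.2
    refine ⟨x₀, ?_⟩
    have h1 : v - ι₀ x₀ ∈ IsLocalRing.maximalIdeal V := by
      rw [V.valuation_lt_one_iff]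
      exact hx₀
    rw [← IsLocalRing.residue_eq_zero_iff, map_sub, sub_eq_zero] at h1
    exact h1.symm
  let e : F₀ ≃+* IsLocalRing.ResidueField V := RingEquiv.ofBijective ((IsLocalRing.residue V).comp ι₀) hbij
  let ψ : V →+* F₀ := (e.symm : IsLocalRing.ResidueField V →+* F₀).comp (IsLocalRing.residue V)
  have hψ : ∀ z : F₀, ψ (ι₀ z) = z := by
    intro z
    show e.symm (e z) = z
    exact e.symm_apply_apply z
  have hψ0 : ∀ v : V, ψ v = 0 ↔ V.valuation (v : F) < 1 := by
    intro v
    rw [← V.valuation_lt_one_iff, ← IsLocalRing.residue_eq_zero_iff]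
    show e.symm (IsLocalRing.residue V v) = 0 ↔ _
    exact e.symm.map_eq_zero_iff
  have hψq : ∀ q : MvPolynomial (Fin N) k, ∃ hq : aeval h q ∈ V,
      ψ ⟨aeval h q, hq⟩ = aeval (fun j => ψ ⟨h j, hVh j⟩) q := by
    intro q
    induction q using MvPolynomial.induction_on with
    | C c =>
      have h1 : aeval h (C c : MvPolynomial (Fin N) k) = algebraMap k F c := aeval_C _ _
      refine ⟨by rw [h1]; exact hVk c, ?_⟩
      refine (congrArg ψ (Subtype.ext h1 : _ = ι₀ (algebraMap k F₀ c))).trans ?_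
      rw [hψ]
      exact (aeval_C _ _).symm
    | add q1 q2 h1 h2 =>
      obtain ⟨hq1, h1⟩ := h1
      obtain ⟨hq2, h2⟩ := h2
      refine ⟨by rw [map_add]; exact V.add_mem _ _ hq1 hq2, ?_⟩
      refine (congrArg ψ (Subtype.ext (map_add _ _ _) : _ = (⟨aeval h q1, hq1⟩ : V) + ⟨aeval h q2, hq2⟩)).trans ?_
      rw [map_add, map_add, ← h1, ← h2]
    | mul_X q1 i h1 =>
      obtain ⟨hq1, h1⟩ := h1
      have h3 : aeval h (q1 * X i) = aeval h q1 * h i := by rw [map_mul, aeval_X]
      refine ⟨by rw [h3]; exact V.mul_mem _ _ hq1 (hVh i), ?_⟩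
      refine (congrArg ψ (Subtype.ext h3 : _ = (⟨aeval h q1, hq1⟩ : V) * ⟨h i, hVh i⟩)).trans ?_
      rw [map_mul, map_mul, ← h1, aeval_X]
  refine ⟨F₀, V, ψ, hVh, hcl, hbig, fun z => ⟨hFV z.1 z.2, hψ z⟩, hψ0, htr, hF, hε, ?_⟩
  intro q
  obtain ⟨hq, h1⟩ := hψq q
  rw [← h1, hψ0, ← hC q]

end VPH
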