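import Pool.Agent.VPH.RkA

set_option autoImplicit false

/-!
# VPH-RkC: adding coordinates

Plan. `tr_append_le`: a basis of `h` together with `z` generates. `exists_transc`: if every `z j` is
algebraic over `k(h)` then so are all coordinates of `append h z` and `tr k (append h z) ≤ tr k h`
(`tr_le_of_alg`); so some `z j` is transcendental over `k(h)`; then a basis of `h` with `z j` is
algebraically independent. `exists_gen`: `trdeg k F` is infinite and `k(h)` has finite transcendence
degree, so `F` has infinite transcendence degree over `k(h)`; choose `m` algebraically independent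
elements. `Sp.append_gen`: `z` is algebraically independent over `k(h)` (count: a basis of `h` with `z`
has `tr k h + m` members and must be independent); write `p(u, v) = ∑ p_t(u) v ^ t`; `p(h, ζ) = 0` gives
`p_t (h) = 0`, so `p_t (a) = 0`, so `p (a, z) = 0`.
-/

namespace VPH

open MvPolynomial

variable (k : Type) [Field k] {F : Type} [Field F] [Algebra k F] {N m : ℕ}

private theorem RkC_mem (h : Fin N → F) (j : Fin N) : h j ∈ IntermediateField.adjoin k (Set.range h) :=
  IntermediateField.subset_adjoin k _ ⟨j, rfl⟩

private theorem RkC_alg_mem (K : IntermediateField k F) {x : F} (hx : x ∈ K) : IsAlgebraic K x :=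
  isAlgebraic_algebraMap (⟨x, hx⟩ : K)

/-- algebraic over a subalgebra of an intermediate field -/
private theorem RkC_up (S : Subalgebra k F) (K : IntermediateField k F) (hSK : S ≤ K.toSubalgebra) {x : F}
    (hx : IsAlgebraic S x) : IsAlgebraic K x := by
  letI : Algebra S K := (Subalgebra.inclusion hSK).toRingHom.toAlgebra
  haveI : IsScalarTower S K F := IsScalarTower.of_algebraMap_eq fun _ => rfl
  exact hx.extendScalars (R := S) (S := K) (Subalgebra.inclusion_injective hSK)

private theorem RkC_up' {N' : ℕ} (h' : Fin N' → F) (h : Fin N → F) (H : ∀ j, ∃ i, h i = h' j) {x : F}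
    (hx : IsAlgebraic (Algebra.adjoin k (Set.range h')) x) :
    IsAlgebraic (IntermediateField.adjoin k (Set.range h)) x := by
  refine RkC_up k _ _ (Algebra.adjoin_le ?_) hx
  rintro _ ⟨j, rfl⟩
  obtain ⟨i, hi⟩ := H j
  rw [← hi]
  exact RkC_mem k h i

theorem tr_append_le (h : Fin N → F) (z : Fin m → F) : tr k (Fin.append h z) ≤ tr k h + m := by
  obtain ⟨κ, -, -, hκ⟩ := exists_basis k h
  refine (tr_le_of_alg k (Fin.append h z) (Fin.append (h ∘ κ) z) fun j => ?_).trans (tr_le k _)
  induction j using Fin.addCases with
  | left j =>
    rw [Fin.append_left]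
    refine RkC_up' k (h ∘ κ) _ (fun i => ⟨Fin.castAdd m i, ?_⟩) (hκ j)
    rw [Fin.append_left]
  | right j =>
    rw [Fin.append_right]
    refine RkC_alg_mem k _ ?_
    have h1 := RkC_mem k (Fin.append (h ∘ κ) z) (Fin.natAdd _ j)
    rw [Fin.append_right] at h1
    exact h1

theorem tr_le_append (h : Fin N → F) (z : Fin m → F) : tr k h ≤ tr k (Fin.append h z) := by
  have h1 := tr_comp_le k (Fin.append h z) (Fin.castAdd m)
  have h2 : Fin.append h z ∘ Fin.castAdd m = h := by
    funext i
    exact Fin.append_left h z i
  rw [h2] at h1
  exact h1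

/-- the basis of `h` together with `z` is algebraically independent if the elements of `z` are algebraically
independent over the algebraic closure of `k(h)`: one element -/
private theorem RkC_trans (h : Fin N → F) (θ : F)
    (H : ¬ IsAlgebraic (IntermediateField.adjoin k (Set.range h)) θ) :
    tr k (Fin.append h (fun _ : Fin 1 => θ)) = tr k h + 1 := by
  refine le_antisymm (tr_append_le k h _) ?_
  obtain ⟨κ, -, hκ1, -⟩ := exists_basis k h
  have h1 : AlgebraicIndependent k (Fin.append (h ∘ κ) (fun _ : Fin 1 => θ)) := by
    have h2 : AlgebraicIndependent k (fun o : Option (Fin (tr k h)) => o.elim θ (h ∘ κ)) := by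
      rw [hκ1.option_iff_transcendental]
      intro h3
      refine H (RkC_up' k (h ∘ κ) h (fun i => ⟨κ i, rfl⟩) h3)
    have h4 := h2.comp (fun i : Fin (tr k h + 1) =>
      (Fin.append (fun j : Fin (tr k h) => some j) (fun _ : Fin 1 => none) i : Option (Fin (tr k h)))) (by
        intro i j hij
        induction i using Fin.addCases with
        | left i =>
          induction j using Fin.addCases with
          | left j =>
            simp only [Fin.append_left, Option.some.injEq] at hij
            rw [hij]
          | right j =>
            simp only [Fin.append_left, Fin.append_right] at hij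
            exact absurd hij (by simp)
        | right i =>
          induction j using Fin.addCases with
          | left j =>
            simp only [Fin.append_left, Fin.append_right] at hij
            exact absurd hij (by simp)
          | right j =>
            rw [Subsingleton.elim i j])
    refine (iff_of_eq ?_).1 h4
    congr 1
    funext i
    induction i using Fin.addCases with
    | left i => simp only [Function.comp, Fin.append_left, Option.elim]
    | right i => simp only [Function.comp, Fin.append_right, Option.elim]
  refine card_le_tr k _ _ h1 fun j => ?_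
  induction j using Fin.addCases with
  | left j =>
    rw [Fin.append_left]
    refine RkC_alg_mem k _ ?_
    have h1 := RkC_mem k (Fin.append h (fun _ : Fin 1 => θ)) (Fin.castAdd 1 (κ j))
    rw [Fin.append_left] at h1
    exact h1
  | right j =>
    rw [Fin.append_right]
    refine RkC_alg_mem k _ ?_
    have h1 := RkC_mem k (Fin.append h (fun _ : Fin 1 => θ)) (Fin.natAdd N j)
    rw [Fin.append_right] at h1
    exact h1

theorem exists_transc (h : Fin N → F) (z : Fin m → F) (H : tr k (Fin.append h z) ≠ tr k h) :
    ∃ j, tr k (Fin.append h (fun _ : Fin 1 => z j)) = tr k h + 1 := by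
  by_contra hc
  refine H (le_antisymm (tr_le_of_alg k _ _ fun j => ?_) (tr_le_append k h z))
  induction j using Fin.addCases with
  | left j =>
    rw [Fin.append_left]
    exact RkC_alg_mem k _ (RkC_mem k h j)
  | right j =>
    rw [Fin.append_right]
    by_contra h1
    exact hc ⟨j, RkC_trans k h (z j) h1⟩

/-- there is a transcendental element over `k(h)` -/
private theorem RkC_ex (hB : Big k F) (h : Fin N → F) :
    ∃ θ : F, ¬ IsAlgebraic (IntermediateField.adjoin k (Set.range h)) θ := by
  by_contra hc
  obtain ⟨ι, x, hx⟩ := exists_isTranscendenceBasis' k F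
  have h1 : Cardinal.aleph0 ≤ Cardinal.mk ι := by
    rw [hx.cardinalMk_eq_trdeg]
    exact hB
  haveI : Infinite ι := Cardinal.infinite_iff.2 h1
  have h2 : AlgebraicIndependent k (x ∘ fun i : Fin (tr k h + 1) => Infinite.natEmbedding ι i.1) := by
    refine hx.1.comp _ fun i j hij => ?_
    exact Fin.ext ((Infinite.natEmbedding ι).injective hij)
  have h3 := card_le_tr k h _ h2 fun j => by
    by_contra h4
    exact hc ⟨_, h4⟩
  omega

theorem exists_gen (hB : Big k F) (h : Fin N → F) (m : ℕ) :
    ∃ ζ : Fin m → F, tr k (Fin.append h ζ) = tr k h + m := by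
  induction m with
  | zero =>
    refine ⟨Fin.elim0, le_antisymm (tr_append_le k h _) ?_⟩
    rw [Nat.add_zero]
    exact tr_le_append k h _
  | succ m ih =>
    obtain ⟨ζ, hζ⟩ := ih
    obtain ⟨θ, hθ⟩ := RkC_ex k hB (Fin.append h ζ)
    have h1 := RkC_trans k _ θ hθ
    refine ⟨Fin.append ζ (fun _ : Fin 1 => θ), le_antisymm (tr_append_le k h _) ?_⟩
    have h2 : tr k h + (m + 1) = tr k (Fin.append (Fin.append h ζ) (fun _ : Fin 1 => θ)) := by
      rw [h1, hζ, Nat.add_assoc]
    rw [h2]
    refine tr_le_of_mem k _ _ fun j => ?_
    induction j using Fin.addCases with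
    | left j =>
      rw [Fin.append_left]
      induction j using Fin.addCases with
      | left j =>
        rw [Fin.append_left]
        have h3 := RkC_mem k (Fin.append h (Fin.append ζ (fun _ : Fin 1 => θ))) (Fin.castAdd (m + 1) j)
        rw [Fin.append_left] at h3
        exact h3
      | right j =>
        rw [Fin.append_right]
        have h3 := RkC_mem k (Fin.append h (Fin.append ζ (fun _ : Fin 1 => θ))) (Fin.natAdd N (Fin.castAdd 1 j))
        rw [Fin.append_right, Fin.append_left] at h3
        exact h3
    | right j =>
      rw [Fin.append_right]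
      have h3 := RkC_mem k (Fin.append h (Fin.append ζ (fun _ : Fin 1 => θ))) (Fin.natAdd N (Fin.natAdd m j))
      rw [Fin.append_right, Fin.append_right] at h3
      exact h3

/-- a coordinate which is a nonconstant: `h j` is transcendental over `k` iff it is not algebraic -/
theorem transc_of_tr (h : Fin N → F) (θ : F)
    (H : tr k (Fin.append h (fun _ : Fin 1 => θ)) = tr k h + 1) : Transcendental k θ := by
  intro h1
  have h2 : tr k (Fin.append h (fun _ : Fin 1 => θ)) ≤ tr k h := by
    refine tr_le_of_alg k _ _ fun j => ?_
    induction j using Fin.addCases with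
    | left j =>
      rw [Fin.append_left]
      exact RkC_alg_mem k _ (RkC_mem k h j)
    | right j =>
      rw [Fin.append_right]
      exact h1.tower_top _
  omega

/-- a polynomial in the last coordinates with coefficients in the first ones -/
private noncomputable def RkC_th (k : Type) [Field k] (N m : ℕ) :
    MvPolynomial (Fin (N + m)) k →ₐ[k] MvPolynomial (Fin m) (MvPolynomial (Fin N) k) :=
  aeval (Fin.append (fun i => C (X i)) (fun j => X j))

private theorem RkC_ev {F : Type} [Field F] [Algebra k F] (u : Fin N → F) (v : Fin m → F)
    (p : MvPolynomial (Fin (N + m)) k) :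
    eval₂ ((aeval u : MvPolynomial (Fin N) k →ₐ[k] F) : MvPolynomial (Fin N) k →+* F) v (RkC_th k N m p) =
      aeval (Fin.append u v) p := by
  induction p using MvPolynomial.induction_on with
  | C a =>
    have h1 : RkC_th k N m (C a) = C (C a) := by
      unfold RkC_th
      rw [aeval_C]
      rfl
    rw [h1, eval₂_C, aeval_C]
    exact aeval_C u a
  | add p q hp hq =>
    rw [map_add, eval₂_add, hp, hq, map_add]
  | mul_X p i hp =>
    rw [map_mul, eval₂_mul, hp, map_mul]
    congr 1
    unfold RkC_th
    rw [aeval_X, aeval_X]
    induction i using Fin.addCases with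
    | left i =>
      rw [Fin.append_left, Fin.append_left, eval₂_C]
      exact aeval_X u i
    | right i =>
      rw [Fin.append_right, Fin.append_right, eval₂_X]

theorem Sp.append_gen {Fa : Type} [Field Fa] [Algebra k Fa] {h : Fin N → F} {a : Fin N → Fa}
    (H : Sp k h a) (ζ : Fin m → F) (hζ : tr k (Fin.append h ζ) = tr k h + m) (z : Fin m → Fa) :
    Sp k (Fin.append h ζ) (Fin.append a z) := by
  obtain ⟨κ, -, hκ1, hκ⟩ := exists_basis k h
  have h1 : AlgebraicIndependent k (Fin.append (h ∘ κ) ζ) := by
    rw [algInd_iff]
    refine le_antisymm (tr_le k _) (le_trans (le_of_eq hζ.symm) ?_)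
    refine tr_le_of_alg k _ _ fun j => ?_
    induction j using Fin.addCases with
    | left j =>
      rw [Fin.append_left]
      refine RkC_up' k (h ∘ κ) _ (fun i => ⟨Fin.castAdd m i, ?_⟩) (hκ j)
      rw [Fin.append_left]
    | right j =>
      rw [Fin.append_right]
      refine RkC_alg_mem k _ ?_
      have h1 := RkC_mem k (Fin.append (h ∘ κ) ζ) (Fin.natAdd _ j)
      rw [Fin.append_right] at h1
      exact h1
  have h2 : AlgebraicIndependent k (Sum.elim ζ (h ∘ κ)) := by
    have h3 := h1.comp (Sum.elim (Fin.natAdd (tr k h)) (Fin.castAdd m)) (by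
      rintro (i | i) (j | j) hij
      · simp only [Sum.elim_inl] at hij
        rw [Fin.natAdd_injective _ _ hij]
      · simp only [Sum.elim_inl, Sum.elim_inr] at hij
        have h4 := congrArg Fin.val hij
        simp only [Fin.val_natAdd, Fin.val_castAdd] at h4
        have h5 := j.2
        omega
      · simp only [Sum.elim_inl, Sum.elim_inr] at hij
        have h4 := congrArg Fin.val hij
        simp only [Fin.val_natAdd, Fin.val_castAdd] at h4
        have h5 := i.2
        omega
      · simp only [Sum.elim_inr] at hij
        rw [Fin.castAdd_injective _ _ hij])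
    refine (iff_of_eq ?_).1 h3
    congr 1
    funext i
    rcases i with i | i
    · simp only [Function.comp, Sum.elim_inl, Fin.append_right]
    · simp only [Function.comp, Sum.elim_inr, Fin.append_left]
  have h3 := (AlgebraicIndependent.sumElim_iff.1 h2).2
  have h4 := h3.subalgebraAlgebraicClosure
  intro p hp
  rw [← RkC_ev] at hp ⊢
  have hmem : ∀ c : MvPolynomial (Fin N) k,
      aeval h c ∈ Subalgebra.algebraicClosure (Algebra.adjoin k (Set.range (h ∘ κ))) F := by
    intro c
    induction c using MvPolynomial.induction_on with
    | C a =>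
      rw [aeval_C, IsScalarTower.algebraMap_apply k (Algebra.adjoin k (Set.range (h ∘ κ))) F]
      exact Subalgebra.algebraMap_mem _ _
    | add p q hp hq => rw [map_add]; exact add_mem hp hq
    | mul_X p i hp =>
      rw [map_mul, aeval_X]
      exact mul_mem hp (hκ i)
  let φ : MvPolynomial (Fin N) k →+* Subalgebra.algebraicClosure (Algebra.adjoin k (Set.range (h ∘ κ))) F :=
    ((aeval h : MvPolynomial (Fin N) k →ₐ[k] F) : MvPolynomial (Fin N) k →+* F).codRestrict
      (Subalgebra.algebraicClosure (Algebra.adjoin k (Set.range (h ∘ κ))) F) hmem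
  have h5 : aeval ζ (map φ (RkC_th k N m p)) = 0 := by
    rw [← hp, aeval_def, eval₂_map]
    rfl
  have h6 : map φ (RkC_th k N m p) = 0 := by
    have h7 := algebraicIndependent_iff.1 h4
    exact h7 _ h5
  have h7 : ∀ t, aeval a (coeff t (RkC_th k N m p)) = 0 := by
    intro t
    apply H
    have h8 := congrArg (coeff t) h6
    rw [coeff_map, coeff_zero] at h8
    exact congrArg Subtype.val h8
  rw [eval₂_eq]
  refine Finset.sum_eq_zero fun t _ => ?_
  have h8 : ((aeval a : MvPolynomial (Fin N) k →ₐ[k] Fa) : MvPolynomial (Fin N) k →+* Fa)
    (coeff t (RkC_th k N m p)) = 0 := h7 t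
  rw [h8, zero_mul]

/-- the inversion at the coordinate `i` -/
theorem tr_inv (h : Fin N → F) (z : Fin m → F) (i : Fin m) (hi : z i ≠ 0) :
    tr k (Fin.append h (fun j => if j = i then (z i)⁻¹ else z j * (z i)⁻¹)) =
      tr k (Fin.append h z) := by
  refine le_antisymm (tr_le_of_mem k _ _ fun j => ?_) (tr_le_of_mem k _ _ fun j => ?_)
  · have hz : ∀ l, z l ∈ IntermediateField.adjoin k (Set.range (Fin.append h z)) := by
      intro l
      have h3 := RkC_mem k (Fin.append h z) (Fin.natAdd N l)
      rw [Fin.append_right] at h3
      exact h3
    induction j using Fin.addCases with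
    | left j =>
      rw [Fin.append_left]
      have h3 := RkC_mem k (Fin.append h z) (Fin.castAdd m j)
      rw [Fin.append_left] at h3
      exact h3
    | right j =>
      rw [Fin.append_right]
      by_cases hj : j = i
      · rw [if_pos hj]
        exact inv_mem (hz i)
      · rw [if_neg hj]
        exact mul_mem (hz j) (inv_mem (hz i))
  · set w : Fin m → F := fun j => if j = i then (z i)⁻¹ else z j * (z i)⁻¹ with hw
    have hz : ∀ l, w l ∈ IntermediateField.adjoin k (Set.range (Fin.append h w)) := by
      intro l
      have h3 := RkC_mem k (Fin.append h w) (Fin.natAdd N l)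
      rw [Fin.append_right] at h3
      exact h3
    have hi' : z i ∈ IntermediateField.adjoin k (Set.range (Fin.append h w)) := by
      have h4 := inv_mem (hz i)
      have h5 : w i = (z i)⁻¹ := by rw [hw]; simp
      rw [h5, inv_inv] at h4
      exact h4
    induction j using Fin.addCases with
    | left j =>
      rw [Fin.append_left]
      have h3 := RkC_mem k (Fin.append h w) (Fin.castAdd m j)
      rw [Fin.append_left] at h3
      exact h3
    | right j =>
      rw [Fin.append_right]
      by_cases hj : j = i
      · rw [hj]
        exact hi'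
      · have h5 : w j = z j * (z i)⁻¹ := by rw [hw]; simp [hj]
        have h6 : z j = w j * z i := by rw [h5, mul_assoc, inv_mul_cancel₀ hi, mul_one]
        rw [h6]
        exact mul_mem (hz j) hi'

end VPH
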