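import Pool.Agent.VPH.RkA

set_option autoImplicit false

/-!
# VPH-RkD: larger constants

`k → k' → F`. `tr_const_le`: independent over `k'` implies independent over `k`.
`tr_sub`: extend a basis of `h ∘ κ` over `k` (among its coordinates) to a basis of `h` over `k` (among the
coordinates of `h`, `exists_isTranscendenceBasis_between` or the matroid); this basis has `tr k h = tr k' h`
members and generates `k'(h)` up to algebraic elements, so it is algebraically independent over `k'`; its
subset is so too.
-/

namespace VPH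

open MvPolynomial

variable (k k' : Type) [Field k] [Field k'] [Algebra k k'] {F : Type} [Field F] [Algebra k F]
  [Algebra k' F] [IsScalarTower k k' F] {N N' : ℕ}

theorem tr_const_le (h : Fin N → F) : tr k' h ≤ tr k h := by
  obtain ⟨κ, -, h2, -⟩ := exists_basis k' h
  exact card_le_tr k h (h ∘ κ) (h2.restrictScalars (algebraMap k k').injective) fun j =>
    isAlgebraic_algebraMap (⟨h (κ j), IntermediateField.subset_adjoin _ _ ⟨κ j, rfl⟩⟩ :
      IntermediateField.adjoin k (Set.range h))

/-- algebraic over `k(S)` implies algebraic over `k'(S)` -/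
private theorem rkd_ext (S : Set F) (x : F) (hx : IsAlgebraic (Algebra.adjoin k S) x) :
    IsAlgebraic (IntermediateField.adjoin k' S) x := by
  have hsub : ∀ y ∈ Algebra.adjoin k S, y ∈ IntermediateField.adjoin k' S := by
    intro y hy
    induction hy using Algebra.adjoin_induction with
    | mem y hy => exact IntermediateField.subset_adjoin _ _ hy
    | algebraMap r =>
      rw [IsScalarTower.algebraMap_apply k k' F]
      exact (IntermediateField.adjoin k' S).algebraMap_mem _
    | add x y _ _ hx hy => exact add_mem hx hy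
    | mul x y _ _ hx hy => exact mul_mem hx hy
  let f : Algebra.adjoin k S →+* IntermediateField.adjoin k' S :=
    { toFun := fun y => ⟨y.1, hsub y.1 y.2⟩
      map_one' := rfl
      map_mul' := fun _ _ => rfl
      map_zero' := rfl
      map_add' := fun _ _ => rfl }
  letI : Algebra (Algebra.adjoin k S) (IntermediateField.adjoin k' S) := f.toAlgebra
  haveI : IsScalarTower (Algebra.adjoin k S) (IntermediateField.adjoin k' S) F :=
    IsScalarTower.of_algebraMap_eq fun _ => rfl
  refine hx.extendScalars (S := IntermediateField.adjoin k' S) ?_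
  intro a b hab
  have h1 : f a = f b := hab
  exact Subtype.ext (congrArg (fun t : IntermediateField.adjoin k' S => (t : F)) h1)

open AlgebraicIndependent in
theorem tr_sub (h : Fin N → F) (ht : tr k' h = tr k h) (κ : Fin N' → Fin N) :
    tr k' (h ∘ κ) = tr k (h ∘ κ) := by
  refine le_antisymm (tr_const_le k k' _) ?_
  obtain ⟨κ1, -, h2, -⟩ := exists_basis k (h ∘ κ)
  have hI : (matroid k F).Indep (Set.range ((h ∘ κ) ∘ κ1)) := h2.to_subtype_range
  obtain ⟨J, hJ, hIJ⟩ := hI.subset_isBasis_of_subset
    (show Set.range ((h ∘ κ) ∘ κ1) ⊆ Set.range h from by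
      rintro _ ⟨j, rfl⟩
      exact ⟨κ (κ1 j), rfl⟩)
  rw [matroid_isBasis_iff] at hJ
  obtain ⟨hJ1, hJ2, hJ3⟩ := hJ
  have hfin : Finite J := (Set.finite_range h).subset hJ2
  obtain ⟨n, ⟨e⟩⟩ := Finite.exists_equiv_fin J
  have hrange : Set.range (fun i => (e.symm i : F)) = J := by
    ext x
    constructor
    · rintro ⟨i, rfl⟩
      exact (e.symm i).2
    · intro hx
      exact ⟨e ⟨x, hx⟩, by simp⟩
  have hy : AlgebraicIndependent k (fun i => (e.symm i : F)) := by
    have h1 : AlgebraicIndependent k (Subtype.val : J → F) := hJ1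
    exact h1.comp e.symm e.symm.injective
  -- `n = tr k h`
  have hn : n ≤ tr k h := card_le_tr k h _ hy fun i => by
    obtain ⟨j, hj⟩ := hJ2 (e.symm i).2
    rw [← hj]
    exact isAlgebraic_algebraMap (⟨h j, IntermediateField.subset_adjoin _ _ ⟨j, rfl⟩⟩ :
      IntermediateField.adjoin k (Set.range h))
  have h3 : tr k' h ≤ tr k' (fun i => (e.symm i : F)) := tr_le_of_alg k' h _ fun j => by
    rw [hrange]
    exact rkd_ext k k' J (h j) (hJ3 _ ⟨j, rfl⟩)
  have h4 : tr k' (fun i => (e.symm i : F)) = n := by
    refine le_antisymm (tr_le k' _) ?_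
    rw [ht] at h3
    exact hn.trans h3
  have h5 : AlgebraicIndependent k' (fun i => (e.symm i : F)) := (algInd_iff k' _).2 h4
  -- the subfamily
  have hinj : Function.Injective ((h ∘ κ) ∘ κ1) := h2.injective
  have h6 : AlgebraicIndependent k' ((h ∘ κ) ∘ κ1) := by
    have h7 : ∀ j, ((h ∘ κ) ∘ κ1) j ∈ J := fun j => hIJ ⟨j, rfl⟩
    have h8 := h5.comp (fun j => e ⟨((h ∘ κ) ∘ κ1) j, h7 j⟩) (fun j j' hjj => by
      have h9 := e.injective hjj
      exact hinj (congrArg Subtype.val h9))
    have h9 : (fun i => (e.symm i : F)) ∘ (fun j => e ⟨((h ∘ κ) ∘ κ1) j, h7 j⟩) = (h ∘ κ) ∘ κ1 := by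
      funext j
      simp
    rwa [h9] at h8
  exact card_le_tr k' (h ∘ κ) _ h6 fun j =>
    isAlgebraic_algebraMap (⟨(h ∘ κ) (κ1 j), IntermediateField.subset_adjoin _ _ ⟨κ1 j, rfl⟩⟩ :
      IntermediateField.adjoin k' (Set.range (h ∘ κ)))

end VPH
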