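import Pool.Agent.VPH.RkA

set_option autoImplicit false

/-!
# VPH-RkE: the algebraic closure of `k(θ)` as new field of constants

Plan. `exists_cl`: `algebraicClosure k⟮θ⟯ F` (an intermediate field of `F / k⟮θ⟯`; algebraically closed
because `F` is), restrict scalars to `k`. `tr_cl`: `k'` is algebraic over `k(θ)`, so `k'(h)` and
`k(θ)(h)` have the same transcendence degree over `k(θ)`, and
`trdeg k (k(h, θ)) = trdeg k (k(θ)) + trdeg (k(θ)) (k(θ)(h))` (`Algebra.trdeg_add_eq`,
`Algebra.IsAlgebraic.algebraicIndependent_iff`-type lemmas in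
`Mathlib/RingTheory/AlgebraicIndependent/AlgebraicClosure.lean`; a concrete way: a family `y` is
algebraically independent over `k'` iff over `k(θ)` iff `(θ, y)` is algebraically independent over `k`).
`big_cl`: the same count with infinite families.
-/

namespace VPH

open MvPolynomial

variable (k : Type) [Field k] {F : Type} [Field F] [Algebra k F] {N : ℕ}

/-- `k'` is an algebraic closure of `k(θ)` in `F` -/
def IsCl (k' : IntermediateField k F) (θ : F) : Prop :=
  IsAlgClosed k' ∧ θ ∈ k' ∧ ∀ x ∈ k', IsAlgebraic (IntermediateField.adjoin k {θ}) x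

theorem exists_cl [IsAlgClosed F] (θ : F) : ∃ k' : IntermediateField k F, IsCl k k' θ := by
  refine ⟨(algebraicClosure (IntermediateField.adjoin k {θ}) F).restrictScalars k, ?_, ?_, ?_⟩
  · have h : IsAlgClosed (algebraicClosure (IntermediateField.adjoin k {θ}) F) :=
      (algebraicClosure.isAlgClosure (IntermediateField.adjoin k {θ}) F).isAlgClosed
    exact h
  · rw [IntermediateField.mem_restrictScalars, mem_algebraicClosure_iff]
    exact isAlgebraic_algebraMap
      (⟨θ, IntermediateField.mem_adjoin_simple_self k θ⟩ : IntermediateField.adjoin k {θ})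
  · intro x hx
    rw [IntermediateField.mem_restrictScalars, mem_algebraicClosure_iff] at hx
    exact hx

private theorem RkE_alg {A B L : Type} [CommRing A] [CommRing B] [Field L] [Algebra A L] [Algebra B L]
    (i : A →+* B) (hi : ∀ a, algebraMap B L (i a) = algebraMap A L a) (hinj : Function.Injective i)
    {x : L} (h : IsAlgebraic A x) : IsAlgebraic B x := by
  obtain ⟨p, hp, h0⟩ := h
  refine ⟨p.map i, (Polynomial.map_ne_zero_iff hinj).2 hp, ?_⟩
  have h1 : (algebraMap B L).comp i = algebraMap A L := RingHom.ext hi
  rw [Polynomial.aeval_def, Polynomial.eval₂_map, h1]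
  rw [Polynomial.aeval_def] at h0
  exact h0

theorem tr_cl (k' : IntermediateField k F) (θ : F) (hk : IsCl k k' θ) (hθ : Transcendental k θ)
    (h : Fin N → F) : tr k' h + 1 = tr k (Fin.append h (fun _ : Fin 1 => θ)) := by
  obtain ⟨κ, hκ, hind, halg⟩ := exists_basis k' h
  refine le_antisymm ?_ ?_
  · refine card_le_tr k (Fin.append h (fun _ : Fin 1 => θ)) (Fin.append (h ∘ κ) (fun _ : Fin 1 => θ)) ?_ ?_
    · have hθ1 : AlgebraicIndependent k (fun _ : Fin 1 => θ) := by
        rw [algebraicIndependent_unique_type_iff]
        exact hθ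
      have h1 := hθ1.sumElim_of_tower (S := k') (y := h ∘ κ)
        (by rintro _ ⟨i, rfl⟩; exact ⟨⟨θ, hk.2.1⟩, rfl⟩) hind
      have h2 : Fin.append (h ∘ κ) (fun _ : Fin 1 => θ) =
          Sum.elim (h ∘ κ) (fun _ : Fin 1 => θ) ∘ finSumFinEquiv.symm := by
        funext i
        refine Fin.addCases (fun i => ?_) (fun i => ?_) i <;> simp
      rw [h2]
      exact h1.comp _ finSumFinEquiv.symm.injective
    · intro j
      have h1 : Fin.append (h ∘ κ) (fun _ : Fin 1 => θ) j ∈
          Set.range (Fin.append h (fun _ : Fin 1 => θ)) := by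
        refine Fin.addCases (fun i => ?_) (fun i => ?_) j
        · rw [Fin.append_left]
          exact ⟨Fin.castAdd 1 (κ i), by rw [Fin.append_left]; rfl⟩
        · rw [Fin.append_right]
          exact ⟨Fin.natAdd N i, by rw [Fin.append_right]⟩
      exact isAlgebraic_algebraMap
        (⟨_, IntermediateField.subset_adjoin k _ h1⟩ :
          IntermediateField.adjoin k (Set.range (Fin.append h (fun _ : Fin 1 => θ))))
  · refine (tr_le_of_alg k (Fin.append h (fun _ : Fin 1 => θ))
      (Fin.append (h ∘ κ) (fun _ : Fin 1 => θ)) ?_).trans (tr_le k _)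
    intro j
    obtain ⟨L, hL⟩ : ∃ L : IntermediateField k F, L = IntermediateField.adjoin k
        (Set.range (Fin.append (h ∘ κ) (fun _ : Fin 1 => θ))) := ⟨_, rfl⟩
    rw [← hL]
    have hθL : θ ∈ L := by
      rw [hL]
      exact IntermediateField.subset_adjoin k _ ⟨Fin.natAdd _ 0, by rw [Fin.append_right]⟩
    have hκL : ∀ i, h (κ i) ∈ L := by
      intro i
      rw [hL]
      exact IntermediateField.subset_adjoin k _ ⟨Fin.castAdd 1 i, by rw [Fin.append_left]; rfl⟩
    have hle : IntermediateField.adjoin k {θ} ≤ L := by
      rw [IntermediateField.adjoin_le_iff]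
      rintro _ rfl
      exact hθL
    refine Fin.addCases (fun i => ?_) (fun i => ?_) j
    · rw [Fin.append_left]
      have hA : ∀ x ∈ Algebra.adjoin k' (Set.range (h ∘ κ)), x ∈ algebraicClosure L F := by
        intro x hx
        induction hx using Algebra.adjoin_induction with
        | mem x hx =>
          obtain ⟨i, rfl⟩ := hx
          rw [mem_algebraicClosure_iff]
          exact isAlgebraic_algebraMap (⟨h (κ i), hκL i⟩ : L)
        | algebraMap r =>
          rw [mem_algebraicClosure_iff]
          exact RkE_alg (IntermediateField.inclusion hle).toRingHom (fun a => rfl)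
            (IntermediateField.inclusion hle).toRingHom.injective (hk.2.2 r.1 r.2)
        | add x y _ _ hx hy => exact add_mem hx hy
        | mul x y _ _ hx hy => exact mul_mem hx hy
      let φ : Algebra.adjoin k' (Set.range (h ∘ κ)) →+* algebraicClosure L F :=
        { toFun := fun x => ⟨x.1, hA x.1 x.2⟩
          map_one' := rfl
          map_mul' := fun _ _ => rfl
          map_zero' := rfl
          map_add' := fun _ _ => rfl }
      have h1 : IsAlgebraic (algebraicClosure L F) (h i) :=
        RkE_alg φ (fun a => rfl) (fun a b hab => Subtype.ext (congrArg (fun z : algebraicClosure L F => (z : F)) hab)) (halg i)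
      exact (isIntegral_trans (R := L) (A := algebraicClosure L F) (h i) h1.isIntegral).isAlgebraic
    · rw [Fin.append_right]
      exact isAlgebraic_algebraMap (⟨θ, hθL⟩ : L)

theorem big_cl (k' : IntermediateField k F) (θ : F) (hk : IsCl k k' θ) (hB : Big k F) :
    Big k' F := by
  unfold Big at hB ⊢
  have h1 : Algebra.trdeg k k' + Algebra.trdeg k' F = Algebra.trdeg k F :=
    trdeg_add_eq (R := k) (S := k') (A := F)
  have h2 : Algebra.trdeg k k' ≤ 1 := by
    by_contra hcon
    rw [not_le] at hcon
    obtain ⟨s, hs⟩ := exists_isTranscendenceBasis k k'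
    have h3 : (1 : Cardinal) < Cardinal.mk s := by
      rw [hs.cardinalMk_eq_trdeg]
      exact hcon
    rw [Cardinal.one_lt_iff_nontrivial] at h3
    obtain ⟨x, y, hxy⟩ := h3
    have h4 : AlgebraicIndependent k (fun i : Fin 2 => (((![x, y] i : s) : k') : F)) := by
      have h5 := hs.1.comp ![x, y] (by
        intro i j hij
        fin_cases i <;> fin_cases j <;> simp_all)
      exact h5.map' (f := k'.val) k'.val.injective
    have h5 := card_le_tr k (fun _ : Fin 1 => θ) _ h4 (by
      intro j
      have h6 := hk.2.2 _ ((![x, y] j : s) : k').2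
      have h7 : Set.range (fun _ : Fin 1 => θ) = {θ} := Set.range_const
      rw [h7]
      exact h6)
    have h6 := tr_le k (fun _ : Fin 1 => θ)
    omega
  by_contra hcon
  rw [not_le] at hcon
  have h3 : Algebra.trdeg k F < Cardinal.aleph0 := by
    rw [← h1]
    exact Cardinal.add_lt_aleph0 (h2.trans_lt Cardinal.one_lt_aleph0) hcon
  exact absurd hB (not_le.2 h3)

/-- a transcendental element which is one of the coordinates -/
theorem tr_append_self (h : Fin N → F) (j : Fin N) :
    tr k (Fin.append h (fun _ : Fin 1 => h j)) = tr k h := by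
  refine le_antisymm (tr_le_of_mem k _ _ fun i => ?_) (tr_le_of_mem k _ _ fun i => ?_)
  · refine Fin.addCases (fun i => ?_) (fun i => ?_) i
    · rw [Fin.append_left]
      exact IntermediateField.subset_adjoin k _ ⟨i, rfl⟩
    · rw [Fin.append_right]
      exact IntermediateField.subset_adjoin k _ ⟨j, rfl⟩
  · exact IntermediateField.subset_adjoin k _ ⟨Fin.castAdd 1 i, by rw [Fin.append_left]⟩

end VPH
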