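import Pool.Agent.VPH.RkA

set_option autoImplicit false

/-!
# VPH-StgC: first rules for cheap points
-/

namespace VPH

open MvPolynomial

variable {k F : Type} [Field k] [Field F] [Algebra ℂ k] [Algebra ℂ F] [Algebra k F]
  [IsScalarTower ℂ k F] {s N N' g g' : ℕ}

/-- the trivial stage -/
private theorem stgc_triv (k F : Type) [Field k] [Field F] [Algebra ℂ k] [Algebra ℂ F] [Algebra k F]
    [IsScalarTower ℂ k F] :
    Stg k F F (⊤ : Subring F) (⊤ : Subring F).subtype (algebraMap k F).fieldRange where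
  surj := fun x => ⟨⟨x, Subring.mem_top x⟩, rfl⟩
  inv := fun _ _ => Subring.mem_top _
  base := fun _ => ⟨Subring.mem_top _, rfl⟩
  baseK := fun c => ⟨algebraMap ℂ k c, (IsScalarTower.algebraMap_apply ℂ k F c).symm⟩
  lift := by
    intro D
    refine ⟨D.restrictScalars ℤ, ?_, fun b => ⟨Subring.mem_top _, rfl⟩⟩
    rintro x ⟨c, rfl⟩
    exact D.map_algebraMap c

theorem cheap_init (h : Fin N → F) (ht : tr k h = N) : Cheap k F s h 0 :=
  ⟨F, inferInstance, inferInstance, ⊤, (⊤ : Subring F).subtype, (algebraMap k F).fieldRange,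
    stgc_triv k F, N, h, id, fun _ => Subring.mem_top _, fun i => i.elim0, fun _ => rfl,
    fun i => i.elim0, fun i => i.elim0, fun i => i.elim0, linearIndependent_empty_type,
    by rw [ht, Nat.add_zero]⟩

theorem cheap_reindex {h : Fin N → F} (H : Cheap k F s h g) (κ : Fin N' → Fin N)
    (ht : tr k (h ∘ κ) = tr k h) : Cheap k F s (h ∘ κ) g := by
  obtain ⟨E, iE, iC, O, ρ, K, hS, m, c, ι, hc, G, h1, h2, h3, h4, h5, h6⟩ := H
  refine ⟨E, iE, iC, O, ρ, K, hS, m, c, ι ∘ κ, fun j => hc (κ j), G, fun j => h1 (κ j), h2, h3, h4,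
    h5, ?_⟩
  rw [ht]
  exact h6

end VPH
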