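import Pool.Agent.VPH.RkA
import Pool.Agent.VPH.SlpB

set_option autoImplicit false

/-!
# VPH-StgD: padding and new generic coordinates

Plan. `cheap_pad`: one new coordinate with value `0` and the equation `w = 0` (`Comp 0`, gradient the new
unit vector); the old equations are renamed by `Fin.castSucc` / `Fin.castAdd` (`Comp.rename`), their gradients are
extended by `0`. `cheap_mono`: iterate. `cheap_gen`: `m'` new coordinates, lifts of the `ζ j` (`surj`), the
old equations renamed by `Fin.castAdd`; `ι' = Fin.append (castAdd ∘ ι) natAdd` up to casts. Use the fact that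
`pderiv` of a renamed polynomial (injective renaming) is the renamed derivative, or `0` for a new variable.
-/

namespace VPH

open MvPolynomial

variable {k F : Type} [Field k] [Field F] [Algebra ℂ k] [Algebra ℂ F] [Algebra k F]
  [IsScalarTower ℂ k F] {s N m' g g' : ℕ}

private lemma coeff_mem_aux {E σ τ : Type} [Field E] (K : Subfield E) {κ : σ → τ} (hκ : Function.Injective κ)
    {p : MvPolynomial σ E} (hp : ∀ t, coeff t p ∈ K) (t : τ →₀ ℕ) : coeff t (rename κ p) ∈ K := by
  by_cases h : coeff t (rename κ p) = 0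
  · rw [h]
    exact K.zero_mem
  · obtain ⟨u, hu, -⟩ := coeff_rename_ne_zero κ p t h
    rw [← hu, coeff_rename_mapDomain κ hκ]
    exact hp u

private lemma pder_zero_aux {E σ τ : Type} [Field E] {κ : σ → τ} {l : τ} (hl : ∀ i, κ i ≠ l)
    (p : MvPolynomial σ E) : pderiv l (rename κ p) = 0 := by
  classical
  refine pderiv_eq_zero_of_notMem_vars fun h => ?_
  obtain ⟨i, -, hi⟩ := Finset.mem_image.1 (vars_rename κ p h)
  exact hl i hi

theorem cheap_pad {h : Fin N → F} (H : Cheap k F s h g) : Cheap k F s h (g + 1) := by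
  obtain ⟨E, iE, iA, O, ρ, K, hS, m, c, ι, hc, G, h1, h2, h3, h4, h5, h6⟩ := H
  have hcs : ∀ l, (Fin.snoc c (0 : E) : Fin (m + 1) → E) (Fin.castSucc l) = c l := fun l => Fin.snoc_castSucc (α := fun _ => E) _ _ _
  have hcl : (Fin.snoc c (0 : E) : Fin (m + 1) → E) (Fin.last m) = 0 := Fin.snoc_last (α := fun _ => E) _ _
  have hG1 : ∀ i, (Fin.snoc (fun i => rename Fin.castSucc (G i)) (X (Fin.last m)) :
      Fin (g + 1) → MvPolynomial (Fin (m + 1)) E) (Fin.castSucc i) = rename Fin.castSucc (G i) :=
    fun i => Fin.snoc_castSucc (α := fun _ => MvPolynomial (Fin (m + 1)) E) _ _ _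
  have hG2 : (Fin.snoc (fun i => rename Fin.castSucc (G i)) (X (Fin.last m)) :
      Fin (g + 1) → MvPolynomial (Fin (m + 1)) E) (Fin.last g) = X (Fin.last m) :=
    Fin.snoc_last (α := fun _ => MvPolynomial (Fin (m + 1)) E) _ _
  have hcomp : (Fin.snoc c (0 : E) : Fin (m + 1) → E) ∘ Fin.castSucc = c := funext hcs
  refine ⟨E, iE, iA, O, ρ, K, hS, m + 1, Fin.snoc c 0, fun j => Fin.castSucc (ι j), ?_,
    Fin.snoc (fun i => rename Fin.castSucc (G i)) (X (Fin.last m)), ?_, ?_, ?_, ?_, ?_, ?_⟩
  · intro j
    rw [hcs]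
    exact hc j
  · intro j
    exact (congrArg ρ (Subtype.ext (hcs (ι j)))).trans (h1 j)
  · intro i
    refine Fin.lastCases ?_ (fun i => ?_) i
    · rw [hG2]
      exact ⟨[], Nat.zero_le _, trivial, Or.inr (Or.inr ⟨_, rfl⟩)⟩
    · rw [hG1]
      exact (h2 i).rename _
  · intro i
    refine Fin.lastCases ?_ (fun i => ?_) i
    · intro t
      rw [hG2]
      classical
      rw [coeff_X']
      split_ifs
      · exact K.one_mem
      · exact K.zero_mem
    · intro t
      rw [hG1]
      exact coeff_mem_aux K (Fin.castSucc_injective m) (h3 i) t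
  · intro i
    refine Fin.lastCases ?_ (fun i => ?_) i
    · rw [hG2, aeval_X, hcl]
    · rw [hG1, aeval_rename, hcomp]
      exact h4 i
  · rw [Fintype.linearIndependent_iff] at h5 ⊢
    intro a ha
    have hlast : a (Fin.last g) = 0 := by
      have h7 := congrFun ha (Fin.last m)
      rw [Finset.sum_apply, Fin.sum_univ_castSucc] at h7
      rw [Finset.sum_eq_zero] at h7
      · simp only [Pi.smul_apply, hG2, Pi.zero_apply, zero_add, smul_eq_mul, pderiv_X_self, map_one, mul_one] at h7
        exact h7
      · intro i _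
        simp only [Pi.smul_apply, hG1, smul_eq_mul]
        rw [pder_zero_aux (fun i => (Fin.castSucc_lt_last i).ne), map_zero, mul_zero]
    have hrest : ∀ i, a (Fin.castSucc i) = 0 := by
      refine h5 (fun i => a (Fin.castSucc i)) ?_
      funext l
      have h7 := congrFun ha (Fin.castSucc l)
      rw [Finset.sum_apply, Fin.sum_univ_castSucc] at h7
      simp only [Pi.smul_apply, hlast, zero_mul, add_zero, Pi.zero_apply, hG1, smul_eq_mul] at h7
      rw [Finset.sum_apply]
      simp only [Pi.smul_apply, Pi.zero_apply, smul_eq_mul]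
      rw [← h7]
      refine Finset.sum_congr rfl fun i _ => ?_
      rw [pderiv_rename (Fin.castSucc_injective m), aeval_rename, hcomp]
    intro i
    refine Fin.lastCases hlast (fun i => hrest i) i
  · omega

theorem cheap_mono {h : Fin N → F} (H : Cheap k F s h g) (hg : g ≤ g') : Cheap k F s h g' := by
  induction g', hg using Nat.le_induction with
  | base => exact H
  | succ n _ ih => exact cheap_pad ih

theorem cheap_gen {h : Fin N → F} (H : Cheap k F s h g) (ζ : Fin m' → F)
    (hζ : tr k (Fin.append h ζ) = tr k h + m') : Cheap k F s (Fin.append h ζ) g := by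
  obtain ⟨E, iE, iA, O, ρ, K, hS, m, c, ι, hc, G, h1, h2, h3, h4, h5, h6⟩ := H
  choose d hd using fun j => hS.surj (ζ j)
  have hcl : ∀ l, Fin.append c (fun j => (d j : E)) (Fin.castAdd m' l) = c l := fun l => Fin.append_left _ _ _
  have hcr : ∀ l, Fin.append c (fun j => (d j : E)) (Fin.natAdd m l) = d l := fun l => Fin.append_right _ _ _
  have hιl : ∀ j, Fin.append (fun j => Fin.castAdd m' (ι j)) (fun j => Fin.natAdd m j) (Fin.castAdd m' j)
      = Fin.castAdd m' (ι j) := fun j => Fin.append_left _ _ _
  have hιr : ∀ j, Fin.append (fun j => Fin.castAdd m' (ι j)) (fun j => Fin.natAdd m j) (Fin.natAdd N j)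
      = Fin.natAdd m j := fun j => Fin.append_right _ _ _
  have hcomp : Fin.append c (fun j => (d j : E)) ∘ Fin.castAdd m' = c := funext hcl
  have e1 : ∀ j, Fin.append c (fun j => (d j : E)) (Fin.append (fun j => Fin.castAdd m' (ι j))
      (fun j => Fin.natAdd m j) (Fin.castAdd m' j)) = c (ι j) := fun j => by rw [hιl, hcl]
  have e2 : ∀ j, Fin.append c (fun j => (d j : E)) (Fin.append (fun j => Fin.castAdd m' (ι j))
      (fun j => Fin.natAdd m j) (Fin.natAdd N j)) = d j := fun j => by rw [hιr, hcr]
  refine ⟨E, iE, iA, O, ρ, K, hS, m + m', Fin.append c (fun j => (d j : E)),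
    Fin.append (fun j => Fin.castAdd m' (ι j)) (fun j => Fin.natAdd m j), ?_,
    fun i => rename (Fin.castAdd m') (G i), ?_, ?_, ?_, ?_, ?_, ?_⟩
  · intro j
    refine Fin.addCases (fun j => ?_) (fun j => ?_) j
    · rw [e1]
      exact hc j
    · rw [e2]
      exact (d j).2
  · intro j
    refine Fin.addCases (fun j => ?_) (fun j => ?_) j
    · exact (congrArg ρ (Subtype.ext (e1 j))).trans ((h1 j).trans (Fin.append_left h ζ j).symm)
    · exact (congrArg ρ (Subtype.ext (e2 j))).trans ((hd j).trans (Fin.append_right h ζ j).symm)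
  · intro i
    exact (h2 i).rename _
  · intro i t
    exact coeff_mem_aux K (Fin.castAdd_injective m m') (h3 i) t
  · intro i
    rw [aeval_rename, hcomp]
    exact h4 i
  · rw [Fintype.linearIndependent_iff] at h5 ⊢
    intro a ha
    refine h5 a ?_
    funext l
    have h7 := congrFun ha (Fin.castAdd m' l)
    rw [Finset.sum_apply] at h7 ⊢
    simp only [Pi.smul_apply, Pi.zero_apply, smul_eq_mul] at h7 ⊢
    rw [← h7]
    refine Finset.sum_congr rfl fun i _ => ?_
    rw [pderiv_rename (Fin.castAdd_injective m m'), aeval_rename, hcomp]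
  · omega

end VPH
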