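import Pool.Agent.VPH.RkC
import Pool.Agent.VPH.SlpA
import Pool.Agent.VPH.SlpB

set_option autoImplicit false

/-!
# VPH-StgE: inversion

Plan. Let `z'_j ∈ O` be the coordinates of `c` over `z j` (indices `ι (natAdd N j)`), `z'_i⁻¹ ∈ O` by `inv`. New
coordinates `y_j`, `j < m'`: `y_i = z'_i⁻¹`, `y_j = z'_j * z'_i⁻¹` for `j ≠ i`, in `O` with residues as needed. New
equations `w_{z_i} * y_i - 1 = 0` and `w_{z_i} * y_j - w_{z_j} = 0`, two operations each (`s ≥ 2`), coefficients
`0, 1, -1 ∈ K`. Gradients: the new equations have the matrix `z'_i • 1` in the new variables, the old equations do not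
contain them; so all `g + m'` gradients are independent (project a relation to the new variables first). The number
of coordinates is `m + m' ≤ tr k (h, z) + g + m'`, and `tr_inv`. Indices: old coordinates `Fin.castAdd`, new ones
`Fin.natAdd`; equations `Fin.append` (`Fin (g + m')`).
-/

namespace VPH

open MvPolynomial

variable {k F : Type} [Field k] [Field F] [Algebra ℂ k] [Algebra ℂ F] [Algebra k F]
  [IsScalarTower ℂ k F] {s N m' g : ℕ}

private theorem StgE_coeff {E : Type} [Field E] {K : Subfield E} {m n : ℕ} {f : Fin m → Fin n}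
    (hf : Function.Injective f) {P : MvPolynomial (Fin m) E} (hP : ∀ t, coeff t P ∈ K)
    (t : Fin n →₀ ℕ) : coeff t (rename f P) ∈ K := by
  by_cases h : coeff t (rename f P) = 0
  · rw [h]
    exact K.zero_mem
  · obtain ⟨u, rfl, -⟩ := coeff_rename_ne_zero f P t h
    rw [coeff_rename_mapDomain f hf]
    exact hP u

/-- the new equations -/
private noncomputable def StgE_eq (E : Type) [CommRing E] {m m' : ℕ} (ζ : Fin m' → Fin m) (i j : Fin m') :
    MvPolynomial (Fin (m + m')) E :=
  X (Fin.castAdd m' (ζ i)) * X (Fin.natAdd m j) -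
    (if j = i then C 1 else X (Fin.castAdd m' (ζ j)))

private theorem StgE_eq_comp (E : Type) [CommRing E] {m m' : ℕ} (ζ : Fin m' → Fin m) (i j : Fin m') :
    Comp 2 (StgE_eq E ζ i j) := by
  have h1 : Comp 1 (X (Fin.castAdd m' (ζ i)) * X (Fin.natAdd m j) : MvPolynomial (Fin (m + m')) E) :=
    (comp_X _).mul (comp_X _)
  have h2 : Comp 0 ((if j = i then C 1 else X (Fin.castAdd m' (ζ j))) : MvPolynomial (Fin (m + m')) E) := by
    split_ifs
    · exact comp_C 1
    · exact comp_X _
  exact h1.sub h2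

private theorem StgE_eq_map {E E' : Type} [CommRing E] [CommRing E'] (φ : E →+* E') {m m' : ℕ}
    (ζ : Fin m' → Fin m) (i j : Fin m') : map φ (StgE_eq E ζ i j) = StgE_eq E' ζ i j := by
  unfold StgE_eq
  rw [map_sub, map_mul, map_X, map_X]
  split_ifs
  · rw [map_C, map_one]
  · rw [map_X]

private theorem StgE_eq_coeff {E : Type} [Field E] (K : Subfield E) {m m' : ℕ} (ζ : Fin m' → Fin m)
    (i j : Fin m') (t : Fin (m + m') →₀ ℕ) : coeff t (StgE_eq E ζ i j) ∈ K := by
  rw [← StgE_eq_map K.subtype ζ i j, coeff_map]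
  exact (coeff t (StgE_eq K ζ i j)).2

private theorem StgE_eq_aeval {E : Type} [Field E] {m m' : ℕ} (ζ : Fin m' → Fin m)
    (i j : Fin m') (c : Fin m → E) (hi : c (ζ i) ≠ 0) :
    aeval (Fin.append c (fun j : Fin m' => if j = i then (c (ζ i))⁻¹ else c (ζ j) * (c (ζ i))⁻¹))
      (StgE_eq E ζ i j) = 0 := by
  unfold StgE_eq
  rw [map_sub, map_mul, aeval_X, aeval_X, Fin.append_left, Fin.append_right]
  by_cases h : j = i
  · rw [if_pos h, if_pos h, aeval_C, mul_inv_cancel₀ hi, map_one, sub_self]
  · rw [if_neg h, if_neg h, aeval_X, Fin.append_left]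
    field_simp
    ring

private theorem StgE_eq_pderiv {E : Type} [Field E] {m m' : ℕ} (ζ : Fin m' → Fin m)
    (i j l : Fin m') (c : Fin m → E) (y : Fin m' → E) :
    aeval (Fin.append c y) (pderiv (Fin.natAdd m l) (StgE_eq E ζ i j)) =
      if j = l then c (ζ i) else 0 := by
  classical
  have hne : ∀ a : Fin m, Fin.castAdd m' a ≠ Fin.natAdd m l := by
    intro a h
    have := congrArg Fin.val h
    simp at this
    have := a.2
    omega
  unfold StgE_eq
  rw [map_sub, pderiv_mul, pderiv_X, pderiv_X]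
  have h2 : pderiv (Fin.natAdd m l) ((if j = i then C 1 else X (Fin.castAdd m' (ζ j))) :
      MvPolynomial (Fin (m + m')) E) = 0 := by
    split_ifs
    · exact pderiv_C
    · rw [pderiv_X, Pi.single_eq_of_ne]
      exact hne _
  rw [h2, sub_zero, Pi.single_eq_of_ne (hne _), zero_mul, zero_add, map_mul, aeval_X, Fin.append_left]
  by_cases h : j = l
  · subst h
    rw [Pi.single_eq_same, map_one, mul_one, if_pos rfl]
  · rw [if_neg h, Pi.single_eq_of_ne, map_zero, mul_zero]
    intro h'
    apply h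
    have := congrArg Fin.val h'
    simp at this
    exact Fin.ext this

private theorem StgE_old_pderiv {E : Type} [Field E] {m m' : ℕ} (P : MvPolynomial (Fin m) E)
    (l : Fin m') : pderiv (Fin.natAdd m l) (rename (Fin.castAdd m') P) = 0 := by
  classical
  apply pderiv_eq_zero_of_notMem_vars
  intro h
  have h1 := vars_rename (Fin.castAdd m') P h
  rw [Finset.mem_image] at h1
  obtain ⟨a, -, ha⟩ := h1
  have := congrArg Fin.val ha
  simp at this
  have := a.2
  omega

theorem cheap_inv (hs : 2 ≤ s) {h : Fin N → F} {z : Fin m' → F}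
    (H : Cheap k F s (Fin.append h z) g) (i : Fin m') (hi : z i ≠ 0) :
    Cheap k F s (Fin.append h (fun j => if j = i then (z i)⁻¹ else z j * (z i)⁻¹)) (g + m') := by
  obtain ⟨E, _, _, O, ρ, K, hS, m, c, ι, hc, G, hρ, hG, hK, h0, hlin, hm⟩ := H
  -- the coordinates over `z`
  obtain ⟨ζ, hζ⟩ : ∃ ζ : Fin m' → Fin m, ∀ j, ζ j = ι (Fin.natAdd N j) := ⟨_, fun _ => rfl⟩
  have hzO : ∀ j, c (ζ j) ∈ O := fun j => by
    rw [hζ]
    exact hc _
  have hzρ : ∀ j, ρ ⟨c (ζ j), hzO j⟩ = z j := fun j => by
    have h1 := hρ (Fin.natAdd N j)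
    rw [Fin.append_right] at h1
    rw [← h1]
    congr 2
    rw [hζ]
  have hzi : c (ζ i) ≠ 0 := by
    intro h1
    apply hi
    rw [← hzρ i]
    have : (⟨c (ζ i), hzO i⟩ : O) = 0 := Subtype.ext h1
    rw [this, map_zero]
  have hinv : (c (ζ i))⁻¹ ∈ O := hS.inv ⟨c (ζ i), hzO i⟩ (by rw [hzρ i]; exact hi)
  have hinvρ : ρ ⟨(c (ζ i))⁻¹, hinv⟩ = (z i)⁻¹ := by
    have h1 : ρ (⟨c (ζ i), hzO i⟩ * ⟨(c (ζ i))⁻¹, hinv⟩) = 1 := by
      rw [← map_one ρ]
      congr 1
      exact Subtype.ext (mul_inv_cancel₀ hzi)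
    rw [map_mul, hzρ i] at h1
    exact eq_inv_of_mul_eq_one_right h1
  obtain ⟨y, hy⟩ : ∃ y : Fin m' → E,
      y = fun j => if j = i then (c (ζ i))⁻¹ else c (ζ j) * (c (ζ i))⁻¹ := ⟨_, rfl⟩
  have hyρ : ∀ j, ∃ hj : y j ∈ O, ρ ⟨y j, hj⟩ = if j = i then (z i)⁻¹ else z j * (z i)⁻¹ := by
    intro j
    by_cases hji : j = i
    · have h1 : y j = (c (ζ i))⁻¹ := by rw [hy]; exact if_pos hji
      refine ⟨h1 ▸ hinv, ?_⟩
      rw [if_pos hji, ← hinvρ]
      congr 1
      exact Subtype.ext h1
    · have h1 : y j = c (ζ j) * (c (ζ i))⁻¹ := by rw [hy]; exact if_neg hji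
      refine ⟨h1 ▸ O.mul_mem (hzO j) hinv, ?_⟩
      rw [if_neg hji, ← hinvρ, ← hzρ j, ← map_mul]
      congr 1
      exact Subtype.ext h1
  have hall : ∀ j : Fin (N + m'), ∃ hj : Fin.append c y
      ((Fin.append (fun a => Fin.castAdd m' (ι (Fin.castAdd m' a))) (fun b : Fin m' => Fin.natAdd m b) :
        Fin (N + m') → Fin (m + m')) j) ∈ O, ρ ⟨_, hj⟩ =
      Fin.append h (fun j => if j = i then (z i)⁻¹ else z j * (z i)⁻¹) j := by
    intro j
    refine Fin.addCases (fun a => ?_) (fun b => ?_) j
    · have h1 := hρ (Fin.castAdd m' a)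
      simp only [Fin.append_left] at h1 ⊢
      exact ⟨hc _, h1⟩
    · simp only [Fin.append_right]
      exact hyρ b
  refine ⟨E, inferInstance, inferInstance, O, ρ, K, hS, m + m', Fin.append c y,
    Fin.append (fun a => Fin.castAdd m' (ι (Fin.castAdd m' a))) (fun b : Fin m' => Fin.natAdd m b),
    fun j => (hall j).1,
    Fin.append (fun a => rename (Fin.castAdd m') (G a)) (fun b => StgE_eq E ζ i b),
    fun j => (hall j).2, ?_, ?_, ?_, ?_, ?_⟩
  · intro a
    refine Fin.addCases (fun a => ?_) (fun b => ?_) a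
    · rw [Fin.append_left]
      exact (hG a).rename _
    · rw [Fin.append_right]
      exact (StgE_eq_comp E ζ i b).mono hs
  · intro a t
    refine Fin.addCases (fun a => ?_) (fun b => ?_) a
    · rw [Fin.append_left]
      exact StgE_coeff (Fin.castAdd_injective m m') (hK a) t
    · rw [Fin.append_right]
      exact StgE_eq_coeff K ζ i b t
  · intro a
    refine Fin.addCases (fun a => ?_) (fun b => ?_) a
    · rw [Fin.append_left, aeval_rename]
      have : Fin.append c y ∘ Fin.castAdd m' = c := by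
        funext a
        exact Fin.append_left c y a
      rw [this]
      exact h0 a
    · rw [Fin.append_right, hy]
      exact StgE_eq_aeval ζ i b c hzi
  · rw [Fintype.linearIndependent_iff] at hlin ⊢
    intro a ha
    rw [Fin.sum_univ_add] at ha
    simp only [Fin.append_left, Fin.append_right] at ha
    have hnew : ∀ l : Fin m', a (Fin.natAdd g l) = 0 := by
      intro l
      have h1 := congrFun ha (Fin.natAdd m l)
      simp only [Pi.add_apply, Finset.sum_apply, Pi.smul_apply, Pi.zero_apply, StgE_old_pderiv,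
        StgE_eq_pderiv, map_zero, smul_eq_mul] at h1
      simp only [mul_ite, mul_zero, Finset.sum_ite_eq', Finset.mem_univ, if_true,
        Finset.sum_const_zero, zero_add] at h1
      exact (mul_eq_zero.1 h1).resolve_right hzi
    have hold : ∀ l : Fin g, a (Fin.castAdd m' l) = 0 := by
      refine hlin (fun l => a (Fin.castAdd m' l)) ?_
      funext l
      have h1 := congrFun ha (Fin.castAdd m' l)
      simp only [Pi.add_apply, Finset.sum_apply, Pi.smul_apply, Pi.zero_apply, hnew, zero_smul,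
        Finset.sum_const_zero, add_zero] at h1
      simp only [Finset.sum_apply, Pi.smul_apply, Pi.zero_apply]
      rw [← h1]
      refine Finset.sum_congr rfl fun b _ => ?_
      have h2 : Fin.append c y ∘ Fin.castAdd m' = c := by
        funext a
        exact Fin.append_left c y a
      rw [pderiv_rename (Fin.castAdd_injective m m'), aeval_rename, h2]
    intro b
    refine Fin.addCases (fun b => ?_) (fun b => ?_) b
    · exact hold b
    · exact hnew b
  · rw [tr_inv k h z i hi]
    omega

end VPH
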