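import Pool.Agent.VPH.StgA
import Pool.Agent.VPH.StgB
import Pool.Agent.VPH.RkE

set_option autoImplicit false

/-!
# VPH-StgF: the slice
-/

namespace VPH

open MvPolynomial

theorem cheap_slice {k F : Type} [Field k] [Field F] [Algebra ℂ k] [Algebra ℂ F] [Algebra k F]
    [IsScalarTower ℂ k F] {s N g : ℕ} (hs : 1 ≤ s) {h : Fin N → F} (H : Cheap k F s h g)
    (j : Fin N) (hj : Transcendental k (h j)) (k' : IntermediateField k F) (hk : IsCl k k' (h j)) :
    Cheap k' F s h (g + 1) := by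
  have hchar : CharZero k := charZero_of_injective_algebraMap (algebraMap ℂ k).injective
  obtain ⟨E, iE, iA, O, ρ, K, hS, m, c, ι, hc, G, hρ, hG, hGK, hG0, hGi, hm⟩ := H
  have hε : Transcendental k (aeval (fun i => ρ ⟨c (ι i), hc i⟩) (X j : MvPolynomial (Fin N) ℂ)) := by
    rw [aeval_X, hρ j]
    exact hj
  obtain ⟨h1, h2, h3, h4⟩ := adjoin_eqs (k := k) O ρ K hS c ι hc G hG hGK hG0 hGi (X j) (comp_X j) hs hε
  have he : aeval (fun i => c (ι i)) (X j : MvPolynomial (Fin N) ℂ) = c (ι j) := aeval_X _ _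
  have hmem : ρ ⟨c (ι j), hc j⟩ ∈ k' := by
    rw [hρ j]
    exact hk.2.1
  have htr : Transcendental k (ρ ⟨c (ι j), hc j⟩) := by
    rw [hρ j]
    exact hj
  have hl := lifts_const O ρ K hS.inv hS.lift ⟨c (ι j), hc j⟩ htr k' hmem
  refine ⟨E, iE, iA, O, ρ, Subfield.closure ((K : Set E) ∪ {aeval (fun i => c (ι i)) (X j : MvPolynomial (Fin N) ℂ)}),
    ⟨hS.surj, hS.inv, hS.base, fun a => Subfield.subset_closure (Or.inl (hS.baseK a)), ?_⟩,
    m, c, ι, hc, newG G ι (X j) (aeval (fun i => c (ι i)) (X j : MvPolynomial (Fin N) ℂ)), hρ, h1, h2, h3, h4, ?_⟩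
  · rw [he]
    exact hl
  · have e1 := tr_cl k k' (h j) hk hj h
    rw [tr_append_self] at e1
    omega

end VPH
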