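import Pool.Agent.VPH.StgA
import Pool.Agent.VPH.Key

set_option autoImplicit false

/-!
# VPH-StgG: the stage composed with a place

Plan. `O' = subO O ρ V`, `ρ' = subρ O ρ V ψ`, `K' = Subfield.closure (K ∪ {e})`, `ε = ρ e`, `v(ε) < 1`.
`surj`: `ψ` is onto (identity on `F₀`) and `ρ` is onto. `inv`: `ρ' b ≠ 0` means `v(ρ b) = 1`, so `ρ b ≠ 0`,
`b⁻¹ ∈ O`, `ρ (b⁻¹) = (ρ b)⁻¹ ∈ V`. `base`: `ρ (algebraMap ℂ E c) = algebraMap ℂ F c`, which is the coercion of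
`algebraMap ℂ F₀ c`. `baseK`: clear. `lift`: let `D₁ : Derivation k F₀ F₀`; `der_ext` gives `D : Derivation k F F`
with `D ε = 0` extending `D₁`. `key` (for `D` as a `ℤ`-derivation, `Derivation.restrictScalars ℤ`): `D` preserves `V` and its maximal ideal, so
`ψ (D v) = D₁ (ψ v)` for `v ∈ V` (write `v = v₀ + (element of m)`, `v₀ = ψ v`). `lift_corr` gives `D'` with `D'(K) = 0`, `D' e = 0`,
`ρ D' = D ρ` on `O`; `der_closure`: `D'` kills `K'`. For `b ∈ O'`: `ρ (D' b) = D (ρ b) ∈ V`, so `D' b ∈ O'`, and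
`ρ' (D' b) = ψ (D (ρ b)) = D₁ (ψ (ρ b)) = D₁ (ρ' b)`.
-/

namespace VPH

theorem stg_comp {k F E : Type} [Field k] [Field F] [Algebra ℂ k] [Algebra ℂ F] [Algebra k F]
    [IsScalarTower ℂ k F] [Field E] [Algebra ℂ E] (O : Subring E) (ρ : O →+* F) (K : Subfield E)
    (hS : Stg k F E O ρ K) (F₀ : IntermediateField k F) [IsAlgClosed F₀] (V : ValuationSubring F)
    (ψ : V →+* F₀) (hψ : ∀ x : F₀, ∃ hx : (x : F) ∈ V, ψ ⟨(x : F), hx⟩ = x)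
    (hψ0 : ∀ v : V, ψ v = 0 ↔ V.valuation (v : F) < 1) (e : O) (he : Transcendental F₀ (ρ e))
    (hF : ∀ y : F, IsAlgebraic (IntermediateField.adjoin F₀ {ρ e}) y)
    (hv : V.valuation (ρ e) < 1) :
    Stg k F₀ E (subO O ρ V) (subρ O ρ V ψ) (Subfield.closure ((K : Set E) ∪ {(e : E)})) := by
  haveI : CharZero k := charZero_of_injective_algebraMap (algebraMap ℂ k).injective
  haveI : CharZero F₀ := charZero_of_injective_algebraMap (algebraMap k F₀).injective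
  refine ⟨?_, ?_, ?_, ?_, ?_⟩
  · intro x
    obtain ⟨hx, hx'⟩ := hψ x
    obtain ⟨b, hb⟩ := hS.surj (x : F)
    have hb' : (b : E) ∈ subO O ρ V := ⟨b.2, by
      have : ρ ⟨(b : E), b.2⟩ = (x : F) := hb
      rw [this]; exact hx⟩
    refine ⟨⟨(b : E), hb'⟩, ?_⟩
    have h2 : (⟨ρ ⟨(b : E), b.2⟩, hb'.2⟩ : V) = ⟨(x : F), hx⟩ := Subtype.ext hb
    change ψ ⟨ρ ⟨(b : E), b.2⟩, hb'.2⟩ = x
    rw [h2, hx']
  · intro b hb
    have hb1 : ¬ V.valuation (ρ ⟨b.1, b.2.1⟩) < 1 := fun h => hb ((hψ0 ⟨ρ ⟨b.1, b.2.1⟩, b.2.2⟩).2 h)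
    have hne : ρ ⟨b.1, b.2.1⟩ ≠ 0 := by
      intro h
      apply hb1
      rw [h, map_zero]
      exact zero_lt_one
    have hinv : (b : E)⁻¹ ∈ O := hS.inv ⟨b.1, b.2.1⟩ hne
    refine ⟨hinv, ?_⟩
    have hbE : (b : E) ≠ 0 := by
      intro h
      apply hne
      have : (⟨b.1, b.2.1⟩ : O) = 0 := Subtype.ext h
      rw [this, map_zero]
    have hm : ρ ⟨(b : E)⁻¹, hinv⟩ * ρ ⟨b.1, b.2.1⟩ = 1 := by
      rw [← map_mul, ← map_one ρ]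
      congr 1
      exact Subtype.ext (inv_mul_cancel₀ hbE)
    have hr : ρ ⟨(b : E)⁻¹, hinv⟩ = (ρ ⟨b.1, b.2.1⟩)⁻¹ := eq_inv_of_mul_eq_one_left hm
    rw [hr, ← V.valuation_le_one_iff, map_inv₀]
    have h1 : V.valuation (ρ ⟨b.1, b.2.1⟩) = 1 :=
      le_antisymm ((V.valuation_le_one_iff _).2 b.2.2) (not_lt.1 hb1)
    rw [h1, inv_one]
  · intro c
    obtain ⟨hc, hc'⟩ := hS.base c
    obtain ⟨hx, hx'⟩ := hψ (algebraMap ℂ F₀ c)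
    have hcc : ρ ⟨algebraMap ℂ E c, hc⟩ = ((algebraMap ℂ F₀ c : F₀) : F) := hc'
    refine ⟨⟨hc, by rw [hcc]; exact hx⟩, ?_⟩
    have h2 : (⟨ρ ⟨algebraMap ℂ E c, hc⟩, by rw [hcc]; exact hx⟩ : V) =
        ⟨((algebraMap ℂ F₀ c : F₀) : F), hx⟩ := Subtype.ext hcc
    change ψ ⟨ρ ⟨algebraMap ℂ E c, hc⟩, _⟩ = _
    rw [h2, hx']
  · intro c
    exact Subfield.subset_closure (Or.inl (hS.baseK c))
  · intro D₁
    obtain ⟨D, hD0, hD⟩ := der_ext (k := k) (F₀ := F₀) (F := F) (ρ e) he D₁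
    have hek : Transcendental k (ρ e) := fun h => he (h.tower_top (L := F₀))
    obtain ⟨D', hK, hD'e, hD'⟩ := lift_corr O ρ K hS.inv hS.lift e hek D hD0
    have h0 : ∀ x : F₀, algebraMap F₀ F x ∈ V := fun x => (hψ x).1
    obtain ⟨k1, k2⟩ := key (F₀ := F₀) (F := F) (ρ e) he hF V h0 hv (D.restrictScalars ℤ)
      (fun x => ⟨D₁ x, hD x⟩) hD0
    refine ⟨D', fun x hx => der_closure K e D' hK hD'e x hx, ?_⟩
    intro b
    obtain ⟨hb, hb'⟩ := hD' ⟨b.1, b.2.1⟩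
    have hV : D (ρ ⟨b.1, b.2.1⟩) ∈ V := k1 _ b.2.2
    refine ⟨⟨hb, by rw [hb']; exact hV⟩, ?_⟩
    have h2 : (⟨ρ ⟨D' b.1, hb⟩, by rw [hb']; exact hV⟩ : V) = ⟨D (ρ ⟨b.1, b.2.1⟩), hV⟩ :=
      Subtype.ext hb'
    change ψ ⟨ρ ⟨D' b.1, hb⟩, _⟩ = D₁ (ψ ⟨ρ ⟨b.1, b.2.1⟩, b.2.2⟩)
    rw [h2]
    -- the residue map commutes with the derivations
    have hgen : ∀ (v : V) (hDv : D (v : F) ∈ V), ψ ⟨D (v : F), hDv⟩ = D₁ (ψ v) := by
      intro v hDv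
      obtain ⟨hx, hx'⟩ := hψ (ψ v)
      obtain ⟨hy, hy'⟩ := hψ (D₁ (ψ v))
      have hm : V.valuation ((v : F) - ((ψ v : F₀) : F)) < 1 := by
        have h3 : ψ (v - ⟨((ψ v : F₀) : F), hx⟩) = 0 := by
          rw [map_sub, hx', sub_self]
        exact (hψ0 _).1 h3
      have hDm : V.valuation (D ((v : F) - ((ψ v : F₀) : F))) < 1 := k2 _ hm
      have hDx : D (((ψ v : F₀) : F)) = ((D₁ (ψ v) : F₀) : F) := hD (ψ v)
      have h4 : V.valuation (D (v : F) - ((D₁ (ψ v) : F₀) : F)) < 1 := by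
        rw [← hDx, ← map_sub]; exact hDm
      have h5 : ψ (⟨D (v : F), hDv⟩ - ⟨((D₁ (ψ v) : F₀) : F), hy⟩) = 0 := (hψ0 _).2 h4
      rw [map_sub, hy', sub_eq_zero] at h5
      exact h5
    exact hgen ⟨ρ ⟨b.1, b.2.1⟩, b.2.2⟩ hV

end VPH
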