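import Pool.Agent.VPH.StgB
import Pool.Agent.VPH.StgG

set_option autoImplicit false

/-!
# VPH-StgH: the divisor step for a given place

Plan. The data `E, O, ρ, K, m, c, ι, G` of `H`; `e := aeval (c ∘ ι) p ∈ O`, `ρ e = aeval h p` (`aeval_mem`).
`stg_comp` gives the stage over `(k, F₀)` (the constants `ℂ` act on `F₀` through `k`). The coordinates
`c (ι j)` are in `subO O ρ V` because `h j ∈ V`, residues `ψ (h j)`. The equations: `adjoin_eqs` (`ε` is transcendental over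
`k` since it is over `F₀`). `m ≤ tr k h + g = tr k h₁ + 1 + g`.
-/

namespace VPH

open MvPolynomial

theorem cheap_div {k F : Type} [Field k] [Field F] [Algebra ℂ k] [Algebra ℂ F] [Algebra k F]
    [IsScalarTower ℂ k F] {s s' N g : ℕ} {h : Fin N → F} (H : Cheap k F s h g)
    (p : MvPolynomial (Fin N) ℂ) (hp : Comp s' p) (hs : s' + 1 ≤ s)
    (F₀ : IntermediateField k F) [IsAlgClosed F₀] (V : ValuationSubring F)
    (ψ : V →+* F₀) (hV : ∀ j, h j ∈ V)
    (hψ : ∀ x : F₀, ∃ hx : (x : F) ∈ V, ψ ⟨(x : F), hx⟩ = x)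
    (hψ0 : ∀ v : V, ψ v = 0 ↔ V.valuation (v : F) < 1) (he : Transcendental F₀ (aeval h p))
    (hF : ∀ y : F, IsAlgebraic (IntermediateField.adjoin F₀ {aeval h p}) y)
    (hv : V.valuation (aeval h p) < 1) (ht : tr k (fun j => ψ ⟨h j, hV j⟩) + 1 = tr k h) :
    Cheap k F₀ s (fun j => ψ ⟨h j, hV j⟩) (g + 1) := by
  obtain ⟨E, iE, iA, O, ρ, K, hS, m, c, ι, hc, G, hρ, hG, hGK, hG0, hGi, hm⟩ := H
  have : CharZero k := charZero_of_injective_algebraMap (algebraMap ℂ k).injective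
  obtain ⟨hemem, heres⟩ := aeval_mem O ρ hS.base (fun j => ⟨c (ι j), hc j⟩) p
  have hfun : (fun j => ρ ⟨c (ι j), hc j⟩) = h := funext hρ
  have hres : ρ ⟨aeval (fun j => c (ι j)) p, hemem⟩ = aeval h p := by
    rw [← hfun]
    exact heres
  have hstg := stg_comp O ρ K hS F₀ V ψ hψ hψ0 ⟨aeval (fun j => c (ι j)) p, hemem⟩
    (by rw [hres]; exact he) (by rw [hres]; exact hF) (by rw [hres]; exact hv)
  have htk : Transcendental k (aeval (fun j => ρ ⟨c (ι j), hc j⟩) p) := by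
    rw [hfun]
    intro halg
    exact he (halg.extendScalars (FaithfulSMul.algebraMap_injective k F₀))
  obtain ⟨h1, h2, h3, h4⟩ := adjoin_eqs O ρ K hS c ι hc G hG hGK hG0 hGi p hp hs htk
  have hmem : ∀ j, c (ι j) ∈ subO O ρ V := fun j => ⟨hc j, by rw [hρ j]; exact hV j⟩
  refine ⟨E, iE, iA, subO O ρ V, subρ O ρ V ψ, _, hstg, m, c, ι, hmem,
    newG G ι p (aeval (fun j => c (ι j)) p), ?_, h1, h2, h3, h4, ?_⟩
  · intro j
    show ψ ⟨ρ ⟨c (ι j), hc j⟩, _⟩ = ψ ⟨h j, hV j⟩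
    congr 1
    exact Subtype.ext (hρ j)
  · omega

end VPH
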