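import Pool.Agent.VPH.TypA

set_option autoImplicit false

/-!
# VPH-TypB: truth depends only on the equations; transfer to `ℂ`

Plan. `holds_of_type` (countable `R`): induction on the formula, `extm` in both directions for the
quantifiers. `descend`: for `φ : Fml ℂ N` the (finite) set of all coefficients of its polynomials; for a
subring `R` of `ℂ` containing them there is `ψ : Fml R N` with the same truth in every field over `ℂ`
(`MvPolynomial.mem_range_map_iff_coeffs_subset` or so; `Algebra R F` is the instance from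
`Algebra ℂ F`; `aeval_map_algebraMap`). A finitely generated subring of `ℂ` (`Algebra.adjoin ℤ` or
`Subring.closure` of a finite set) is countable. `holds_iff`, `transfer` follow; a field containing `ℂ` is
uncountable. For `transfer` start with the empty point (`N = 0`: the equations are about constants in `R`)
and apply `extm` from `F` to `ℂ` with `m = N` (`Fin (0 + N)`; the subring `R` contains the coefficients of
`φ` and of `q`).
-/

namespace VPH

open MvPolynomial

theorem holds_of_type (R : Type) [CommRing R] [Countable R] (F F' : Type) [Field F] [Field F']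
    [IsAlgClosed F] [IsAlgClosed F'] [Uncountable F] [Uncountable F'] [Algebra R F] [Algebra R F']
    {N : ℕ} (φ : Fml R N) (a : Fin N → F) (a' : Fin N → F')
    (H : ∀ p : MvPolynomial (Fin N) R, aeval a p = 0 ↔ aeval a' p = 0) :
    φ.holds F a ↔ φ.holds F' a' := by
  induction φ with
  | qf l p B =>
    simp only [Fml.holds]
    have : {i | aeval a (p i) = 0} = {i | aeval a' (p i) = 0} := by
      ext i
      exact H (p i)
    rw [this]
  | ex m φ ih =>
    simp only [Fml.holds]
    constructor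
    · rintro ⟨z, hz⟩
      obtain ⟨z', hz'⟩ := extm R F F' a a' H z
      exact ⟨z', (ih _ _ hz').1 hz⟩
    · rintro ⟨z', hz⟩
      obtain ⟨z, hz'⟩ := extm R F' F a' a (fun p => (H p).symm) z'
      exact ⟨z, (ih _ _ (fun p => (hz' p).symm)).2 hz⟩
  | al m φ ih =>
    simp only [Fml.holds]
    constructor
    · intro h z'
      obtain ⟨z, hz'⟩ := extm R F' F a' a (fun p => (H p).symm) z'
      exact (ih _ _ (fun p => (hz' p).symm)).1 (h z)
    · intro h z
      obtain ⟨z', hz'⟩ := extm R F F' a a' H z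
      exact (ih _ _ hz').2 (h z')

private theorem TypB_lift {N : ℕ} (p : MvPolynomial (Fin N) ℂ) (R : Subring ℂ)
    (hR : (p.coeffs : Set ℂ) ⊆ R) :
    ∃ p0 : MvPolynomial (Fin N) R, ∀ (F : Type) [Field F] [Algebra ℂ F] (a : Fin N → F),
      aeval a p = aeval a p0 := by
  have h1 : p ∈ Set.range (MvPolynomial.map (σ := Fin N) (algebraMap R ℂ)) := by
    rw [mem_range_map_iff_coeffs_subset]
    intro c hc
    exact ⟨⟨c, hR hc⟩, rfl⟩
  obtain ⟨p0, hp0⟩ := h1
  refine ⟨p0, fun F _ _ a => ?_⟩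
  rw [← hp0, aeval_map_algebraMap]

theorem descend {N : ℕ} (φ : Fml ℂ N) :
    ∃ S : Set ℂ, S.Finite ∧ ∀ R : Subring ℂ, S ⊆ R → ∃ ψ : Fml R N,
      ∀ (F : Type) [Field F] [Algebra ℂ F] (a : Fin N → F), φ.holds F a ↔ ψ.holds F a := by
  induction φ with
  | qf l p B =>
    refine ⟨⋃ i, ((p i).coeffs : Set ℂ), Set.finite_iUnion (fun i => (p i).coeffs.finite_toSet), ?_⟩
    intro R hR
    choose p0 hp0 using fun i => TypB_lift (p i) R
      ((Set.subset_iUnion (fun i => ((p i).coeffs : Set ℂ)) i).trans hR)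
    refine ⟨.qf l p0 B, fun F _ _ a => ?_⟩
    simp only [Fml.holds]
    have : {i | aeval a (p i) = 0} = {i | aeval a (p0 i) = 0} := by
      ext i
      change aeval a (p i) = 0 ↔ aeval a (p0 i) = 0
      rw [hp0 i F a]
    rw [this]
  | ex m φ ih =>
    obtain ⟨S, hS, h⟩ := ih
    refine ⟨S, hS, fun R hR => ?_⟩
    obtain ⟨ψ, hψ⟩ := h R hR
    refine ⟨.ex m ψ, fun F _ _ a => ?_⟩
    simp only [Fml.holds]
    exact exists_congr fun z => hψ F _
  | al m φ ih =>
    obtain ⟨S, hS, h⟩ := ih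
    refine ⟨S, hS, fun R hR => ?_⟩
    obtain ⟨ψ, hψ⟩ := h R hR
    refine ⟨.al m ψ, fun F _ _ a => ?_⟩
    simp only [Fml.holds]
    exact forall_congr' fun z => hψ F _

private theorem TypB_ring (S : Set ℂ) (hS : S.Finite) :
    ∃ R : Subring ℂ, S ⊆ R ∧ Countable R := by
  have : Finite S := hS
  have : Countable S := Finite.to_countable
  refine ⟨(MvPolynomial.aeval (R := ℤ) (Subtype.val : S → ℂ)).toRingHom.range, ?_, ?_⟩
  · intro s hs
    refine ⟨X ⟨s, hs⟩, ?_⟩
    simp
  · have : Countable (MvPolynomial S ℤ) := by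
      rw [← Cardinal.mk_le_aleph0_iff]
      refine MvPolynomial.cardinalMk_le_max.trans ?_
      simp
    exact (RingHom.rangeRestrict_surjective _).countable

private theorem TypB_unc (F : Type) [Field F] [Algebra ℂ F] : Uncountable F := by
  have : Uncountable ℂ := by
    rw [← Cardinal.aleph0_lt_mk_iff, Cardinal.mk_complex]
    exact Cardinal.aleph0_lt_continuum
  exact (algebraMap ℂ F).injective.uncountable

theorem holds_iff (F F' : Type) [Field F] [Field F'] [IsAlgClosed F] [IsAlgClosed F']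
    [Algebra ℂ F] [Algebra ℂ F'] {N : ℕ} (φ : Fml ℂ N) (a : Fin N → F) (a' : Fin N → F')
    (H : ∀ p : MvPolynomial (Fin N) ℂ, aeval a p = 0 ↔ aeval a' p = 0) :
    φ.holds F a ↔ φ.holds F' a' := by
  obtain ⟨S, hS, h⟩ := descend φ
  obtain ⟨R, hR, hc⟩ := TypB_ring S hS
  obtain ⟨ψ, hψ⟩ := h R hR
  have := TypB_unc F
  have := TypB_unc F'
  rw [hψ F a, hψ F' a']
  apply holds_of_type R F F'
  intro p
  have h1 := H (MvPolynomial.map (algebraMap R ℂ) p)
  rwa [aeval_map_algebraMap, aeval_map_algebraMap] at h1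

theorem transfer (F : Type) [Field F] [IsAlgClosed F] [Algebra ℂ F] {N : ℕ} (φ : Fml ℂ N)
    (q : MvPolynomial (Fin N) ℂ) (b : Fin N → F) :
    ∃ b' : Fin N → ℂ, (φ.holds F b ↔ φ.holds ℂ b') ∧ (aeval b q = 0 ↔ aeval b' q = 0) := by
  obtain ⟨S, hS, h⟩ := descend φ
  obtain ⟨R, hR, hc⟩ := TypB_ring (S ∪ (q.coeffs : Set ℂ)) (hS.union q.coeffs.finite_toSet)
  obtain ⟨ψ, hψ⟩ := h R (Set.subset_union_left.trans hR)
  obtain ⟨q0, hq0⟩ := TypB_lift q R (Set.subset_union_right.trans hR)
  have := TypB_unc F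
  have := TypB_unc ℂ
  have H0 : ∀ p : MvPolynomial (Fin 0) R,
      aeval (Fin.elim0 : Fin 0 → F) p = 0 ↔ aeval (Fin.elim0 : Fin 0 → ℂ) p = 0 := by
    intro p
    obtain ⟨c, rfl⟩ := MvPolynomial.C_surjective (Fin 0) p
    rw [algHom_C, algHom_C]
    have e : algebraMap R F c = algebraMap ℂ F (algebraMap R ℂ c) := rfl
    rw [e]
    exact map_eq_zero_iff _ (algebraMap ℂ F).injective
  obtain ⟨b', hb'⟩ := extm R F ℂ Fin.elim0 Fin.elim0 H0 b
  have H1 : ∀ p : MvPolynomial (Fin N) R, aeval b p = 0 ↔ aeval b' p = 0 := by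
    intro p
    have h1 := hb' (rename (Fin.cast (Nat.zero_add N).symm) p)
    rw [Fin.elim0_append, Fin.elim0_append, aeval_rename, aeval_rename] at h1
    exact h1
  refine ⟨b', ?_, ?_⟩
  · rw [hψ F b, hψ ℂ b']
    exact holds_of_type R F ℂ ψ b b' H1
  · rw [hq0 F b, hq0 ℂ b']
    exact H1 q0

end VPH
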