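import Pool.Agent.VPH.RkA
import Pool.Agent.VPH.RkB
import Pool.Agent.VPH.RkC
import Pool.Agent.VPH.RkD
import Pool.Agent.VPH.RkE
import Pool.Agent.VPH.TypB
import Pool.Agent.VPH.GroB
import Pool.Agent.VPH.BcE
import Pool.Agent.VPH.Cen
import Pool.Agent.VPH.Kru
import Pool.Agent.VPH.Pla
import Pool.Agent.VPH.StgC
import Pool.Agent.VPH.StgD
import Pool.Agent.VPH.StgE
import Pool.Agent.VPH.StgF
import Pool.Agent.VPH.StgH

set_option autoImplicit false

/-!
# VPH-MainA (helper69): specialisations, maximal points, the divisor step, slices, projections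
-/

namespace VPH

open MvPolynomial

section sp

variable {k : Type} [Field k] {F Fa Fb : Type} [Field F] [Field Fa] [Field Fb] [Algebra k F]
  [Algebra k Fa] [Algebra k Fb] {N m : ℕ}

theorem Sp.refl (h : Fin N → F) : Sp k h h := fun _ h => h

theorem Sp.trans {h : Fin N → F} {a : Fin N → Fa} {b : Fin N → Fb} (H : Sp k h a)
    (H' : Sp k a b) : Sp k h b := fun p hp => H' p (H p hp)

theorem Sp.restrict {k' : Type} [Field k'] [Algebra k k'] [Algebra k' F] [Algebra k' Fa]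
    [IsScalarTower k k' F] [IsScalarTower k k' Fa] {h : Fin N → F} {a : Fin N → Fa}
    (H : Sp k' h a) : Sp k h a := by
  intro p hp
  have := H (map (algebraMap k k') p) (by rwa [aeval_map_algebraMap])
  rwa [aeval_map_algebraMap] at this

theorem Sp.tr_eq {h : Fin N → F} {a : Fin N → Fa} (H : Sp k h a) (H' : Sp k a h) :
    tr k h = tr k a := le_antisymm H'.tr_le H.tr_le

theorem append_castAdd {α : Type} (h : Fin N → α) (z : Fin m → α) :
    Fin.append h z ∘ Fin.castAdd m = h := by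
  funext i; simp

theorem append_split {α : Type} (b : Fin (N + m) → α) :
    Fin.append (b ∘ Fin.castAdd m) (b ∘ Fin.natAdd N) = b := by
  funext i
  refine Fin.addCases (fun j => ?_) (fun j => ?_) i <;> simp

theorem Sp.left {h : Fin N → F} {z : Fin m → F} {b : Fin (N + m) → Fa}
    (H : Sp k (Fin.append h z) b) : Sp k h (b ∘ Fin.castAdd m) := by
  have := H.comp (Fin.castAdd m)
  rwa [append_castAdd] at this

theorem Sp.right {h : Fin N → F} {z : Fin m → F} {b : Fin (N + m) → Fa}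
    (H : Sp k b (Fin.append h z)) : Sp k (b ∘ Fin.castAdd m) h := by
  have := H.comp (Fin.castAdd m)
  rwa [append_castAdd] at this

end sp

theorem Fml.holds_neg {N : ℕ} (φ : Fml ℂ N) (F : Type) [Field F] [Algebra ℂ F] (u : Fin N → F) :
    φ.neg.holds F u ↔ ¬ φ.holds F u := by
  induction φ with
  | qf l p B => simp [Fml.neg, Fml.holds]
  | ex m φ ih => simp only [Fml.neg, Fml.holds, ih, not_exists]
  | al m φ ih => simp only [Fml.neg, Fml.holds, ih, not_forall]

theorem Fml.rk_neg {N : ℕ} (φ : Fml ℂ N) : φ.neg.rk = φ.rk := by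
  induction φ with
  | qf l p B => rfl
  | ex m φ ih => simp only [Fml.neg, Fml.rk, ih]
  | al m φ ih => simp only [Fml.neg, Fml.rk, ih]

theorem Fml.tot_neg {N : ℕ} (φ : Fml ℂ N) : φ.neg.tot = φ.tot := by
  induction φ with
  | qf l p B => rfl
  | ex m φ ih => simp only [Fml.neg, Fml.tot, ih]
  | al m φ ih => simp only [Fml.neg, Fml.tot, ih]

theorem Fml.siz_neg {N : ℕ} (s : ℕ) (φ : Fml ℂ N) (h : φ.Siz s) : φ.neg.Siz s := by
  induction φ with
  | qf l p B => exact h
  | ex m φ ih => exact ih h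
  | al m φ ih => exact ih h

theorem Fml.le_tot {N : ℕ} (φ : Fml ℂ N) : N ≤ φ.tot := by
  induction φ with
  | qf l p B => exact le_rfl
  | ex m φ ih => simp only [Fml.tot]; omega
  | al m φ ih => simp only [Fml.tot]; omega

/-- truth and equal equations over `k` -/
theorem holds_of_sp {k : Type} [Field k] [Algebra ℂ k] {F F' : Type} [Field F] [Field F']
    [IsAlgClosed F] [IsAlgClosed F'] [Algebra ℂ F] [Algebra ℂ F'] [Algebra k F] [Algebra k F']
    [IsScalarTower ℂ k F] [IsScalarTower ℂ k F'] {N : ℕ} (φ : Fml ℂ N) {a : Fin N → F}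
    {a' : Fin N → F'} (H : Sp k a a') (H' : Sp k a' a) (h : φ.holds F a) : φ.holds F' a' := by
  refine (holds_iff F F' φ a a' fun p => ⟨fun hp => ?_, fun hp => ?_⟩).1 h
  · exact (Sp.restrict (k := ℂ) H) p hp
  · exact (Sp.restrict (k := ℂ) H') p hp

section

variable {k : Type} [Field k] [Algebra ℂ k]

theorem exists_max {F Fa : Type} [Field F] [Algebra k F] [Field Fa] [IsAlgClosed Fa]
    [Algebra ℂ Fa] [Algebra k Fa] [IsScalarTower ℂ k Fa] {N : ℕ} (φ : Fml ℂ N) (h : Fin N → F)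
    (a : Fin N → Fa) (ha : φ.holds Fa a) (H : Sp k h a) :
    ∃ (Fb : Type) (_ : Field Fb) (_ : IsAlgClosed Fb) (_ : Algebra ℂ Fb) (_ : Algebra k Fb)
      (_ : IsScalarTower ℂ k Fb) (b : Fin N → Fb), MaxPt k φ h b ∧ Sp k b a := by
  classical
  let P : ℕ → Prop := fun n => ∃ (Fb : Type) (_ : Field Fb) (_ : IsAlgClosed Fb)
    (_ : Algebra ℂ Fb) (_ : Algebra k Fb) (_ : IsScalarTower ℂ k Fb) (b : Fin N → Fb),
    φ.holds Fb b ∧ Sp k h b ∧ Sp k b a ∧ tr k b = n
  have hP : P (tr k a) := ⟨Fa, _, ‹_›, _, _, ‹_›, a, ha, H, Sp.refl a, rfl⟩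
  have hle : tr k a ≤ N := tr_le k a
  obtain ⟨Fb, i1, i2, i3, i4, i5, b, hb, h1, h2, h3⟩ := Nat.findGreatest_spec hle hP
  refine ⟨Fb, i1, i2, i3, i4, i5, b, ⟨hb, h1, ?_⟩, h2⟩
  intro Fc _ _ _ _ _ c hc hc1 hc2
  refine hc2.symm_of_tr ?_
  rw [h3]
  exact Nat.le_findGreatest (tr_le k c) ⟨Fc, _, ‹_›, _, _, ‹_›, c, hc, hc1, hc2.trans h2, rfl⟩

theorem div_step {F Fa : Type} [Field F] [IsAlgClosed F] [Algebra ℂ F] [Algebra k F]
    [IsScalarTower ℂ k F] [Field Fa] [Algebra ℂ Fa] [Algebra k Fa] [IsScalarTower ℂ k Fa]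
    {N s s' g : ℕ} (hB : Big k F) {h : Fin N → F} (H : Cheap k F s h g) (a : Fin N → Fa)
    (Ha : Sp k h a) (p : MvPolynomial (Fin N) ℂ) (hp : Comp s' p) (hs : s' + 1 ≤ s)
    (h1 : aeval h p ≠ 0) (h2 : aeval a p = 0) :
    ∃ (F₀ : Type) (_ : Field F₀) (_ : IsAlgClosed F₀) (_ : Algebra ℂ F₀) (_ : Algebra k F₀)
      (_ : IsScalarTower ℂ k F₀) (h' : Fin N → F₀), Big k F₀ ∧ Sp k h h' ∧ Sp k h' a ∧
      tr k h' + 1 = tr k h ∧ Cheap k F₀ s h' (g + 1) := by
  have e1 : aeval h (map (algebraMap ℂ k) p) = aeval h p := aeval_map_algebraMap _ _ _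
  have e2 : aeval a (map (algebraMap ℂ k) p) = aeval a p := aeval_map_algebraMap _ _ _
  obtain ⟨Fb, _, _, b, hb1, hb2, hb3, hb4⟩ := krull h a Ha (map (algebraMap ℂ k) p)
    (by rwa [e1]) (by rwa [e2])
  obtain ⟨F₀, V, ψ, hV, i1, hB', hψ, hψ0, he, hF, hv, hq⟩ := place hB h b hb1
    (map (algebraMap ℂ k) p) (by rwa [e1]) hb3 hb4
  rw [e1] at he hF hv
  have s1 : Sp k b (fun j => ψ ⟨h j, hV j⟩) := fun q hq' => (hq q).2 hq'
  have s2 : Sp k (fun j => ψ ⟨h j, hV j⟩) b := fun q hq' => (hq q).1 hq'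
  have ht : tr k (fun j => ψ ⟨h j, hV j⟩) + 1 = tr k h := by rw [s2.tr_eq s1, hb4]
  exact ⟨F₀, inferInstance, i1, inferInstance, inferInstance, inferInstance,
    fun j => ψ ⟨h j, hV j⟩, hB', hb1.trans s1, s2.trans hb2, ht,
    cheap_div H p hp hs F₀ V ψ hV hψ hψ0 he hF hv ht⟩

end

/-- slices until the coordinates `z` are algebraic over `k(h)` -/
theorem slices_aux (n : ℕ) : ∀ (k F : Type) [Field k] [IsAlgClosed k] [Field F] [IsAlgClosed F]
    [Algebra ℂ k] [Algebra ℂ F] [Algebra k F] [IsScalarTower ℂ k F] (N m s g : ℕ)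
    (_ : 1 ≤ s) (_ : Big k F) (h : Fin N → F) (z : Fin m → F)
    (_ : Cheap k F s (Fin.append h z) g) (_ : tr k (Fin.append h z) = tr k h + n),
    ∃ (k' : Type) (_ : Field k') (_ : IsAlgClosed k') (_ : Algebra ℂ k') (_ : Algebra k k')
      (_ : Algebra k' F) (_ : IsScalarTower ℂ k k') (_ : IsScalarTower ℂ k' F)
      (_ : IsScalarTower k k' F), Big k' F ∧ tr k' h = tr k h ∧
      tr k' (Fin.append h z) = tr k' h ∧ Cheap k' F s (Fin.append h z) (g + n) := by
  induction n with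
  | zero =>
    intro k F _ _ _ _ _ _ _ _ N m s g hs hB h z H ht
    exact ⟨k, _, ‹_›, _, Algebra.id k, _, inferInstance, ‹_›, inferInstance, hB, rfl, ht, H⟩
  | succ n ih =>
    intro k F _ _ _ _ _ _ _ _ N m s g hs hB h z H ht
    obtain ⟨j, hj⟩ := exists_transc k h z (by omega)
    have hθ : Transcendental k (z j) := transc_of_tr k h (z j) hj
    obtain ⟨k₁, hk₁⟩ := exists_cl k (z j)
    have : IsAlgClosed k₁ := hk₁.1
    have hzj : Fin.append h z (Fin.natAdd N j) = z j := by simp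
    have H₁ : Cheap k₁ F s (Fin.append h z) (g + 1) :=
      cheap_slice hs H (Fin.natAdd N j) (by rw [hzj]; exact hθ) k₁ (by rw [hzj]; exact hk₁)
    have hB₁ : Big k₁ F := big_cl k k₁ (z j) hk₁ hB
    have t1 : tr k₁ h = tr k h := by
      have := tr_cl k k₁ (z j) hk₁ hθ h
      omega
    have t2 : tr k₁ (Fin.append h z) = tr k₁ h + n := by
      have := tr_cl k k₁ (z j) hk₁ hθ (Fin.append h z)
      have e := tr_append_self k (Fin.append h z) (Fin.natAdd N j)
      rw [hzj] at e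
      omega
    have : IsScalarTower ℂ k₁ F := IsScalarTower.of_algebraMap_eq fun _ => rfl
    obtain ⟨k', i1, i2, i3, i4, i5, i6, i7, i8, hB', ht1, ht2, H'⟩ :=
      ih k₁ F N m s (g + 1) hs hB₁ h z H₁ t2
    let _ : Algebra k k' := ((algebraMap k₁ k').comp (algebraMap k k₁)).toAlgebra
    have : IsScalarTower k k₁ k' := IsScalarTower.of_algebraMap_eq' rfl
    have : IsScalarTower k k' F := by
      refine IsScalarTower.of_algebraMap_eq fun x => ?_
      have e1 : algebraMap k F x = algebraMap k₁ F (algebraMap k k₁ x) :=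
        IsScalarTower.algebraMap_apply k k₁ F x
      have e2 : algebraMap k₁ F (algebraMap k k₁ x) =
          algebraMap k' F (algebraMap k₁ k' (algebraMap k k₁ x)) :=
        IsScalarTower.algebraMap_apply k₁ k' F _
      rw [e1, e2]; rfl
    have : IsScalarTower ℂ k k' := by
      refine IsScalarTower.of_algebraMap_eq fun x => ?_
      have e1 : algebraMap ℂ k' x = algebraMap k₁ k' (algebraMap ℂ k₁ x) :=
        IsScalarTower.algebraMap_apply ℂ k₁ k' x
      have e2 : algebraMap ℂ k₁ x = algebraMap k k₁ (algebraMap ℂ k x) :=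
        IsScalarTower.algebraMap_apply ℂ k k₁ x
      rw [e1, e2]; rfl
    refine ⟨k', i1, i2, i3, inferInstance, i5, inferInstance, i7, inferInstance, hB',
      by rw [ht1, t1], ht2, ?_⟩
    have : g + 1 + n = g + (n + 1) := by omega
    rwa [this] at H'

theorem slices {k F : Type} [Field k] [IsAlgClosed k] [Field F] [IsAlgClosed F]
    [Algebra ℂ k] [Algebra ℂ F] [Algebra k F] [IsScalarTower ℂ k F] {N m s g : ℕ}
    (hs : 1 ≤ s) (hB : Big k F) (h : Fin N → F) (z : Fin m → F)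
    (H : Cheap k F s (Fin.append h z) g) :
    ∃ (k' : Type) (_ : Field k') (_ : IsAlgClosed k') (_ : Algebra ℂ k') (_ : Algebra k k')
      (_ : Algebra k' F) (_ : IsScalarTower ℂ k k') (_ : IsScalarTower ℂ k' F)
      (_ : IsScalarTower k k' F), Big k' F ∧ tr k' h = tr k h ∧
      tr k' (Fin.append h z) = tr k' h ∧ Cheap k' F s (Fin.append h z) (g + m) := by
  obtain ⟨n, hn⟩ := Nat.exists_eq_add_of_le (tr_le_append k h z)
  have hnm : n ≤ m := by have := tr_append_le k h z; omega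
  obtain ⟨k', i1, i2, i3, i4, i5, i6, i7, i8, hB', ht1, ht2, H'⟩ :=
    slices_aux n k F N m s g hs hB h z H hn
  exact ⟨k', i1, i2, i3, i4, i5, i6, i7, i8, hB', ht1, ht2, cheap_mono H' (by omega)⟩

end VPH
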