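import Pool.Agent.VPH.MainA

set_option autoImplicit false

/-!
# VPH-MainB (helper69): results over larger constants
-/

namespace VPH

open MvPolynomial

theorem Rch.self {k F Fa : Type} [Field k] [IsAlgClosed k] [Algebra ℂ k] [Field F] [IsAlgClosed F]
    [Algebra ℂ F] [Algebra k F] [IsScalarTower ℂ k F] [Field Fa] [Algebra k Fa] {s N g : ℕ}
    {h : Fin N → F} {a : Fin N → Fa} (hB : Big k F) (H : Cheap k F s h g) (h1 : Sp k h a)
    (h2 : Sp k a h) : Rch k s a g :=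
  ⟨k, F, _, _, _, _, _, ‹_›, Algebra.id k, inferInstance, _, inferInstance, ‹_›, ‹_›, h, hB,
    fun p => ⟨h2 p, h1 p⟩, h1.tr_eq h2, H⟩

theorem Rch.mono {k Fa : Type} [Field k] [Algebra ℂ k] [Field Fa] [Algebra k Fa] {s N g g' : ℕ}
    {a : Fin N → Fa} (H : Rch k s a g) (hg : g ≤ g') : Rch k s a g' := by
  obtain ⟨k', F', i1, i2, i3, i4, i5, i6, i7, i8, i9, i10, i11, i12, a', hB, he, ht, hc⟩ := H
  exact ⟨k', F', i1, i2, i3, i4, i5, i6, i7, i8, i9, i10, i11, i12, a', hB, he, ht,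
    cheap_mono hc hg⟩

theorem tower_comp {k k' K : Type} [Field k] [Field k'] [Field K] [Algebra ℂ k] [Algebra ℂ k']
    [Algebra k k'] [IsScalarTower ℂ k k'] [Algebra k' K] [Algebra ℂ K] [IsScalarTower ℂ k' K] :
    ∃ (_ : Algebra k K), IsScalarTower k k' K ∧ IsScalarTower ℂ k K := by
  let _ : Algebra k K := ((algebraMap k' K).comp (algebraMap k k')).toAlgebra
  have : IsScalarTower k k' K := IsScalarTower.of_algebraMap_eq' rfl
  refine ⟨inferInstance, this, IsScalarTower.of_algebraMap_eq fun x => ?_⟩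
  rw [IsScalarTower.algebraMap_apply ℂ k' K, IsScalarTower.algebraMap_apply ℂ k k' x]
  rfl

theorem Rch.of_base {k k' Fa Fb : Type} [Field k] [Field k'] [Algebra ℂ k] [Algebra ℂ k']
    [Algebra k k'] [IsScalarTower ℂ k k'] [Field Fa] [Field Fb] [Algebra k Fa] [Algebra k' Fb]
    [Algebra k Fb] [IsScalarTower k k' Fb] {s N g : ℕ} {a : Fin N → Fa} {b : Fin N → Fb}
    (h1 : Sp k a b) (h2 : Sp k b a) (ht : tr k' b = tr k a) (H : Rch k' s b g) : Rch k s a g := by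
  obtain ⟨k₁, F₁, i1, i2, i3, i4, i5, i6, i7, i8, i9, i10, i11, i12, b', hB, he, ht', hc⟩ := H
  -- `k → k' → k₁ → F₁`, and `k' → F₁`
  obtain ⟨j1, j2, j3⟩ := tower_comp (k := k) (k' := k') (K := k₁)
  have j4 : IsScalarTower ℂ k' F₁ := by
    refine IsScalarTower.of_algebraMap_eq fun x => ?_
    rw [IsScalarTower.algebraMap_apply ℂ k₁ F₁, IsScalarTower.algebraMap_apply ℂ k' k₁,
      IsScalarTower.algebraMap_apply k' k₁ F₁]
  obtain ⟨j5, j6, j7⟩ := tower_comp (k := k) (k' := k') (K := F₁)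
  have j8 : IsScalarTower k k₁ F₁ := by
    refine IsScalarTower.of_algebraMap_eq fun x => ?_
    rw [IsScalarTower.algebraMap_apply k k' F₁, IsScalarTower.algebraMap_apply k k' k₁,
      IsScalarTower.algebraMap_apply k' k₁ F₁]
  refine ⟨k₁, F₁, i1, i2, i3, i4, i5, i6, j1, j3, j5, j8, i11, i12, b', hB, fun p => ?_,
    by rw [ht', ht], hc⟩
  have e := he (map (algebraMap k k') p)
  rw [aeval_map_algebraMap, aeval_map_algebraMap] at e
  exact ⟨fun hp => e.1 (h1 p hp), fun hp => h2 p (e.2 hp)⟩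

/-- slices and projection -/
theorem Rch.slice {k Fb : Type} [Field k] [Algebra ℂ k] [Field Fb] [Algebra k Fb]
    {s N m g : ℕ} (hs : 1 ≤ s) {b : Fin (N + m) → Fb} (H : Rch k s b g) :
    ∃ (k' F' : Type) (_ : Field k') (_ : Field F') (_ : Algebra ℂ k') (_ : Algebra ℂ F')
      (_ : Algebra k' F') (_ : IsScalarTower ℂ k' F') (_ : Algebra k k')
      (_ : IsScalarTower ℂ k k') (_ : Algebra k F') (_ : IsScalarTower k k' F')
      (_ : IsAlgClosed k') (_ : IsAlgClosed F') (b' : Fin (N + m) → F'), Big k' F' ∧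
      Sp k b b' ∧ Sp k b' b ∧ tr k' (b' ∘ Fin.castAdd m) = tr k (b ∘ Fin.castAdd m) ∧
      tr k' b' = tr k' (b' ∘ Fin.castAdd m) ∧ Cheap k' F' s b' (g + m) := by
  obtain ⟨k₁, F₁, i1, i2, i3, i4, i5, i6, i7, i8, i9, i10, i11, i12, b', hB, he, ht, hc⟩ := H
  have s1 : Sp k b b' := fun p hp => (he p).1 hp
  have s2 : Sp k b' b := fun p hp => (he p).2 hp
  have hc' : Cheap k₁ F₁ s (Fin.append (b' ∘ Fin.castAdd m) (b' ∘ Fin.natAdd N)) g := by
    rwa [append_split]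
  obtain ⟨k₂, c1, c2, c3, c4, c5, c6, c7, c8, hB₂, t1, t2, hc₂⟩ :=
    slices hs hB (b' ∘ Fin.castAdd m) (b' ∘ Fin.natAdd N) hc'
  rw [append_split] at t2 hc₂
  -- `k → k₁ → k₂ → F₁`
  obtain ⟨j1, j2, j3⟩ := tower_comp (k := k) (k' := k₁) (K := k₂)
  have j8 : IsScalarTower k k₂ F₁ := by
    refine IsScalarTower.of_algebraMap_eq fun x => ?_
    rw [IsScalarTower.algebraMap_apply k k₁ F₁, IsScalarTower.algebraMap_apply k k₁ k₂,
      IsScalarTower.algebraMap_apply k₁ k₂ F₁]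
  have t3 : tr k₁ b' = tr k b' := by rw [ht, s1.tr_eq s2]
  have t4 : tr k₁ (b' ∘ Fin.castAdd m) = tr k (b' ∘ Fin.castAdd m) := tr_sub k k₁ b' t3 _
  have t5 : tr k (b' ∘ Fin.castAdd m) = tr k (b ∘ Fin.castAdd m) :=
    (s2.comp (Fin.castAdd m)).tr_eq (s1.comp (Fin.castAdd m))
  exact ⟨k₂, F₁, c1, i2, c3, i4, c5, c7, j1, j3, i9, j8, c2, i12, b', hB₂, s1, s2,
    by rw [t1, t4, t5], t2, hc₂⟩

/-- maximality over larger constants and under smaller points -/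
theorem MaxPt.step {k k' F Fa F₄ Fb : Type} [Field k] [IsAlgClosed k] [Field k'] [Algebra ℂ k]
    [Algebra ℂ k'] [Algebra k k'] [IsScalarTower ℂ k k'] [Field F] [Algebra k F] [Field Fa]
    [IsAlgClosed Fa] [Algebra ℂ Fa] [Algebra k Fa] [IsScalarTower ℂ k Fa] [Field F₄]
    [Algebra k' F₄] [Algebra k F₄] [IsScalarTower k k' F₄] [Field Fb] [IsAlgClosed Fb]
    [Algebra ℂ Fb] [Algebra k Fb] [Algebra k' Fb] [IsScalarTower ℂ k' Fb] [IsScalarTower ℂ k Fb]
    [IsScalarTower k k' Fb] {N : ℕ} {φ : Fml ℂ N} {h : Fin N → F} {a : Fin N → Fa}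
    (H : MaxPt k φ h a) (h₄ : Fin N → F₄) (b : Fin N → Fb) (s1 : Sp k h h₄) (s2 : Sp k' h₄ b)
    (s3 : Sp k a b) (s4 : Sp k b a) (ht : tr k' b = tr k a) : MaxPt k' φ h₄ b := by
  refine ⟨holds_of_sp φ s3 s4 H.1, s2, ?_⟩
  intro Fc _ _ _ _ _ c hc c1 c2
  obtain ⟨j1, j2, j3⟩ := tower_comp (k := k) (k' := k') (K := Fc)
  have c1' : Sp k h₄ c := c1.restrict
  have c2' : Sp k c b := c2.restrict
  have r := H.2.2 Fc c hc (s1.trans c1') (c2'.trans s4)
  have : CharZero k := charZero_of_injective_algebraMap (algebraMap ℂ k).injective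
  exact grow b c (by rw [ht, s4.tr_eq s3]) (s4.trans r)

end VPH
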