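import Pool.Agent.VPH.MainB

set_option autoImplicit false

/-!
# VPH-MainC (helper69): the induction over the quantifier blocks
-/

namespace VPH

open MvPolynomial

/-- the main lemma for the formula `φ` with at most `D` additional equations -/
def Good (s : ℕ) {N : ℕ} (φ : Fml ℂ N) (D : ℕ) : Prop :=
  ∀ (k F Fa : Type) [Field k] [IsAlgClosed k] [Algebra ℂ k] [Field F] [IsAlgClosed F]
    [Algebra ℂ F] [Algebra k F] [IsScalarTower ℂ k F] [Field Fa] [IsAlgClosed Fa] [Algebra ℂ Fa]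
    [Algebra k Fa] [IsScalarTower ℂ k Fa] (h : Fin N → F) (g : ℕ) (a : Fin N → Fa),
    Big k F → Cheap k F s h g → MaxPt k φ h a → Rch k s a (g + D)

/-- smaller points -/
theorem MaxPt.under {k F F' Fa : Type} [Field k] [Algebra ℂ k] [Field F] [Algebra k F] [Field F']
    [Algebra k F'] [Field Fa] [Algebra ℂ Fa] [Algebra k Fa] {N : ℕ} {φ : Fml ℂ N}
    {h : Fin N → F} {a : Fin N → Fa} (H : MaxPt k φ h a) (h' : Fin N → F') (s1 : Sp k h h')
    (s2 : Sp k h' a) : MaxPt k φ h' a :=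
  ⟨H.1, s2, fun Fc _ _ _ _ _ c hc c1 c2 => H.2.2 Fc c hc (s1.trans c1) c2⟩

/-- the point itself satisfies the formula -/
theorem MaxPt.self {k F Fa : Type} [Field k] [IsAlgClosed k] [Algebra ℂ k] [Field F]
    [IsAlgClosed F] [Algebra ℂ F] [Algebra k F] [IsScalarTower ℂ k F] [Field Fa] [Algebra ℂ Fa]
    [Algebra k Fa] {N s g : ℕ} {φ : Fml ℂ N} {h : Fin N → F} {a : Fin N → Fa}
    (H : MaxPt k φ h a) (hB : Big k F) (hc : Cheap k F s h g) (hφ : φ.holds F h) :
    Rch k s a g :=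
  Rch.self hB hc H.2.1 (H.2.2 F h hφ (Sp.refl h) H.2.1)

theorem good_qf {N l s s' : ℕ} (p : Fin l → MvPolynomial (Fin N) ℂ) (B : Set (Set (Fin l)))
    (hp : ∀ i, Comp s' (p i)) (hs : s' + 1 ≤ s) : Good s (.qf l p B) N := by
  intro k F Fa _ _ _ _ _ _ _ _ _ _ _ _ _ h g a hB hc hM
  have key : ∀ (n : ℕ) (F : Type) [Field F] [IsAlgClosed F] [Algebra ℂ F] [Algebra k F]
      [IsScalarTower ℂ k F] (h : Fin N → F) (g : ℕ), Big k F → Cheap k F s h g →
      MaxPt k (.qf l p B) h a → tr k h = n → Rch k s a (g + n) := by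
    intro n
    induction n with
    | zero =>
      intro F _ _ _ _ _ h g hB hc hM ht
      by_cases hφ : (Fml.qf l p B).holds F h
      · exact hM.self hB hc hφ
      · exfalso
        have s1 : Sp k a h := hM.2.1.symm_of_tr (by omega)
        exact hφ (holds_of_sp _ s1 hM.2.1 hM.1)
    | succ n ih =>
      intro F _ _ _ _ _ h g hB hc hM ht
      by_cases hφ : (Fml.qf l p B).holds F h
      · exact (hM.self hB hc hφ).mono (by omega)
      · have : ∃ i, aeval h (p i) ≠ 0 ∧ aeval a (p i) = 0 := by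
          by_contra hcon
          push Not at hcon
          apply hφ
          have hset : {i | aeval h (p i) = 0} = {i | aeval a (p i) = 0} := by
            ext i
            constructor
            · intro hi
              exact (Sp.restrict (k := ℂ) hM.2.1) _ hi
            · intro hi
              by_contra hne
              exact hcon i hne hi
          have h1 : {i | aeval a (p i) = 0} ∈ B := hM.1
          change {i | aeval h (p i) = 0} ∈ B
          rw [hset]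
          exact h1
        obtain ⟨i, hi1, hi2⟩ := this
        obtain ⟨F₀, j1, j2, j3, j4, j5, h', hB', s1, s2, ht', hc'⟩ :=
          div_step hB hc a hM.2.1 (p i) (hp i) hs hi1 hi2
        have := ih F₀ h' (g + 1) hB' hc' (hM.under h' s1 s2) (by omega)
        exact this.mono (by omega)
  exact (key (tr k h) F h g hB hc hM rfl).mono (by have := tr_le k h; omega)

theorem good_ex {N m s D : ℕ} (B : Fml ℂ (N + m)) (hs : 1 ≤ s) (hG : Good s B D) :
    Good s (.ex m B) (D + m) := by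
  intro k F Fa _ _ _ _ _ _ _ _ _ _ _ _ _ h g a hB hc hM
  obtain ⟨z, hz⟩ : ∃ z : Fin m → Fa, B.holds Fa (Fin.append a z) := hM.1
  obtain ⟨ζ, hζ⟩ := exists_gen k hB h m
  have hc1 := cheap_gen hc ζ hζ
  have s1 : Sp k (Fin.append h ζ) (Fin.append a z) := Sp.append_gen k hM.2.1 ζ hζ z
  obtain ⟨Fb, i1, i2, i3, i4, i5, b, hb, hba⟩ := exists_max B (Fin.append h ζ) (Fin.append a z) hz s1
  have r := hG k F Fb (Fin.append h ζ) g b hB hc1 hb
  -- the first coordinates of `b` are equivalent to `a`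
  have t1 : Sp k h (b ∘ Fin.castAdd m) := hb.2.1.left
  have t2 : Sp k (b ∘ Fin.castAdd m) a := hba.right
  have t3 : Sp k a (b ∘ Fin.castAdd m) := by
    refine hM.2.2 Fb (b ∘ Fin.castAdd m) ?_ t1 t2
    refine ⟨b ∘ Fin.natAdd N, ?_⟩
    rw [append_split]
    exact hb.1
  obtain ⟨k', F', c1, c2, c3, c4, c5, c6, c7, c8, c9, c10, c11, c12, b', hB', u1, u2, ht1, ht2, hc'⟩ :=
    r.slice hs
  have hc'' : Cheap k' F' s (b' ∘ Fin.castAdd m) (g + D + m) := cheap_reindex hc' _ ht2.symm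
  have v1 : Sp k a (b' ∘ Fin.castAdd m) := t3.trans (u1.comp _)
  have v2 : Sp k (b' ∘ Fin.castAdd m) a := (u2.comp _).trans t2
  have hR : Rch k' s (b' ∘ Fin.castAdd m) (g + D + m) :=
    Rch.self hB' hc'' (Sp.refl _) (Sp.refl _)
  refine (Rch.of_base v1 v2 ?_ hR).mono (by omega)
  rw [ht1]
  exact t2.tr_eq t3

/-- the residue map gives a specialisation -/
theorem Sp.of_place {k F R : Type} [Field k] [Field F] [Algebra k F] [Field R] [Algebra k R]
    (V : ValuationSubring F) (ψ : V →+* R)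
    (hψ : ∀ c : k, ∃ hc : algebraMap k F c ∈ V, ψ ⟨algebraMap k F c, hc⟩ = algebraMap k R c)
    {N : ℕ} (u : Fin N → F) (hu : ∀ j, u j ∈ V) : Sp k u (fun j => ψ ⟨u j, hu j⟩) := by
  intro p hp
  let θ : k →+* V := (algebraMap k F).codRestrict V.toSubring (fun c => (hψ c).1)
  have h1 : (eval₂ θ (fun j => (⟨u j, hu j⟩ : V)) p : V) = 0 := by
    apply Subtype.ext
    have : V.subtype (eval₂ θ (fun j => (⟨u j, hu j⟩ : V)) p) = aeval u p := by
      rw [MvPolynomial.hom_eval₂, aeval_def]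
      rfl
    change V.subtype (eval₂ θ (fun j => (⟨u j, hu j⟩ : V)) p) = 0
    rw [this, hp]
  have h2 : ψ (eval₂ θ (fun j => (⟨u j, hu j⟩ : V)) p) = aeval (fun j => ψ ⟨u j, hu j⟩) p := by
    rw [MvPolynomial.hom_eval₂, aeval_def]
    have : ψ.comp θ = algebraMap k R := by
      ext c
      exact (hψ c).2
    rw [this]
  rw [← h2, h1, map_zero]

theorem Sp.of_place_append {k F R : Type} [Field k] [Field F] [Algebra k F] [Field R]
    [Algebra k R] (V : ValuationSubring F) (ψ : V →+* R)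
    (hψ : ∀ c : k, ∃ hc : algebraMap k F c ∈ V, ψ ⟨algebraMap k F c, hc⟩ = algebraMap k R c)
    {N m : ℕ} (u : Fin N → F) (hu : ∀ j, u j ∈ V) (z : Fin m → F) (hz : ∀ j, z j ∈ V) :
    Sp k (Fin.append u z) (Fin.append (fun j => ψ ⟨u j, hu j⟩) (fun j => ψ ⟨z j, hz j⟩)) := by
  have hall : ∀ j, Fin.append u z j ∈ V := by
    intro j
    refine Fin.addCases (fun i => ?_) (fun i => ?_) j
    · rw [Fin.append_left]; exact hu i
    · rw [Fin.append_right]; exact hz i
  have h := Sp.of_place V ψ hψ (Fin.append u z) hall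
  have e : (fun j => ψ ⟨Fin.append u z j, hall j⟩) =
      Fin.append (fun j => ψ ⟨u j, hu j⟩) (fun j => ψ ⟨z j, hz j⟩) := by
    funext j
    refine Fin.addCases (fun i => ?_) (fun i => ?_) j
    · have e : (⟨Fin.append u z (Fin.castAdd m i), hall _⟩ : V) = ⟨u i, hu i⟩ :=
        Subtype.ext (Fin.append_left _ _ _)
      refine (congrArg ψ e).trans ?_
      rw [Fin.append_left]
    · have e : (⟨Fin.append u z (Fin.natAdd N i), hall _⟩ : V) = ⟨z i, hz i⟩ :=
        Subtype.ext (Fin.append_right _ _ _)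
      refine (congrArg ψ e).trans ?_
      rw [Fin.append_right]
  rwa [e] at h

/-- the induction step for a universal block: one round -/
theorem al_round {N m s D : ℕ} (B : Fml ℂ (N + m)) (hs : 2 ≤ s) (hG : Good s B D)
    (hG' : Good s B.neg D) (k F Fa : Type) [Field k] [IsAlgClosed k] [Algebra ℂ k] [Field F]
    [IsAlgClosed F] [Algebra ℂ F] [Algebra k F] [IsScalarTower ℂ k F] [Field Fa] [IsAlgClosed Fa]
    [Algebra ℂ Fa] [Algebra k Fa] [IsScalarTower ℂ k Fa] (h : Fin N → F) (g : ℕ) (a : Fin N → Fa)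
    (hB : Big k F) (hc : Cheap k F s h g) (hM : MaxPt k (.al m B) h a)
    (hφ : ¬ (Fml.al m B).holds F h) :
    ∃ (k₂ R Fb : Type) (_ : Field k₂) (_ : IsAlgClosed k₂) (_ : Algebra ℂ k₂) (_ : Algebra k k₂)
      (_ : IsScalarTower ℂ k k₂) (_ : Field R) (_ : IsAlgClosed R) (_ : Algebra ℂ R)
      (_ : Algebra k R) (_ : Algebra k₂ R) (_ : IsScalarTower ℂ k R) (_ : IsScalarTower ℂ k₂ R)
      (_ : IsScalarTower k k₂ R) (_ : Field Fb) (_ : Algebra k Fb) (_ : Algebra k₂ Fb)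
      (_ : IsScalarTower k k₂ Fb) (a₃ : Fin N → R) (b : Fin (N + m) → Fb),
      Sp k a a₃ ∧ Sp k a₃ a ∧ tr k₂ a₃ = tr k a ∧ Sp k h (b ∘ Fin.castAdd m) ∧
      Sp k₂ (b ∘ Fin.castAdd m) a₃ ∧ tr k₂ b < tr k h ∧ Rch k₂ s b (g + 2 * D + 2 * m + 1) := by
  -- a point of the negation over `h`
  obtain ⟨ζ₀, hζ₀⟩ : ∃ z : Fin m → F, ¬ B.holds F (Fin.append h z) := by
    by_contra hcon
    push Not at hcon
    exact hφ hcon
  obtain ⟨ζ, hζ⟩ := exists_gen k hB h m
  have hc1 := cheap_gen hc ζ hζ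
  have s0 : Sp k (Fin.append h ζ) (Fin.append h ζ₀) := Sp.append_gen k (Sp.refl h) ζ hζ ζ₀
  obtain ⟨Fb₂, i1, i2, i3, i4, i5, b₂, hb₂, hb₂'⟩ := exists_max B.neg (Fin.append h ζ)
    (Fin.append h ζ₀) ((Fml.holds_neg B F _).2 hζ₀) s0
  have r := hG' k F Fb₂ (Fin.append h ζ) g b₂ hB hc1 hb₂
  obtain ⟨k₂, F₁, c1, c2, c3, c4, c5, c6, c7, c8, c9, c10, c11, c12, b₃, hB₂, u1, u2, ht1, ht2,
    hc2⟩ := r.slice (by omega)
  have j1 : IsScalarTower ℂ k F₁ := by
    refine IsScalarTower.of_algebraMap_eq fun x => ?_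
    rw [IsScalarTower.algebraMap_apply ℂ k₂ F₁, IsScalarTower.algebraMap_apply ℂ k k₂,
      IsScalarTower.algebraMap_apply k k₂ F₁]
  have hz : CharZero k := charZero_of_injective_algebraMap (algebraMap ℂ k).injective
  have v1 : Sp k h (b₃ ∘ Fin.castAdd m) := hb₂.2.1.left.trans (u1.comp _)
  have v2 : Sp k (b₃ ∘ Fin.castAdd m) h := (u2.comp _).trans hb₂'.right
  have ht3 : tr k₂ (b₃ ∘ Fin.castAdd m) = tr k h := by
    rw [ht1]
    exact (hb₂'.right).tr_eq hb₂.2.1.left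
  -- base change of `a`
  obtain ⟨Ω, d1, d2, d3, d4, d5, d6, d7, d8, a₂, he, ht4⟩ := exists_bc k k₂ a
  have e1 : Sp k a a₂ := fun p hp => (he p).1 hp
  have e2 : Sp k a₂ a := fun p hp => (he p).2 hp
  have H : Sp k₂ (b₃ ∘ Fin.castAdd m) a₂ := by
    refine grow (k := k) _ _ ?_ ((v2.trans hM.2.1).trans e1)
    rw [ht3]
    exact v1.tr_eq v2
  -- the place
  obtain ⟨V, R, f1, f2, f3, f4, f5, ψ, hV, -, hψ0, hψ, hq⟩ :=
    centre k₂ F₁ (b₃ ∘ Fin.castAdd m) a₂ H
  obtain ⟨j2, j3, j4⟩ := tower_comp (k := k) (k' := k₂) (K := R)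
  set a₃ : Fin N → R := fun j => ψ ⟨(b₃ ∘ Fin.castAdd m) j, hV j⟩ with ha₃
  have w1 : Sp k₂ a₃ a₂ := fun p hp => (hq p).1 hp
  have w2 : Sp k₂ a₂ a₃ := fun p hp => (hq p).2 hp
  have x1 : Sp k a a₃ := e1.trans w2.restrict
  have x2 : Sp k a₃ a := (w1.restrict (k := k)).trans e2
  have ht5 : tr k₂ a₃ = tr k a := by rw [w1.tr_eq w2, ht4]
  have hall : (Fml.al m B).holds R a₃ := holds_of_sp _ x1 x2 hM.1
  have hnot : ¬ B.holds F₁ b₃ := (Fml.holds_neg B F₁ b₃).1 (holds_of_sp _ u1 u2 hb₂.1)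
  by_cases hint : ∀ j, (b₃ ∘ Fin.natAdd N) j ∈ V
  · -- case 1
    have s1 := Sp.of_place_append V ψ hψ (b₃ ∘ Fin.castAdd m) hV (b₃ ∘ Fin.natAdd N) hint
    rw [append_split] at s1
    obtain ⟨Fb, g1, g2, g3, g4, g5, b₄, hb₄, hb₄'⟩ := exists_max B b₃ _ (hall _) s1
    have r4 := hG k₂ F₁ Fb b₃ (g + D + m) b₄ hB₂ hc2 hb₄
    obtain ⟨j5, j6, j7⟩ := tower_comp (k := k) (k' := k₂) (K := Fb)
    refine ⟨k₂, R, Fb, c1, c11, c3, c7, c8, f1, f2, f3, j2, f4, j4, f5, j3, g1, j5, g4, j6, a₃,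
      b₄, x1, x2, ht5, v1.trans ((hb₄.2.1.comp (Fin.castAdd m)).restrict), hb₄'.right, ?_,
      r4.mono (by omega)⟩
    rw [← ht3, ← ht2]
    by_contra hcon
    have s2 : Sp k₂ b₄ b₃ := hb₄.2.1.symm_of_tr (by omega)
    exact hnot (holds_of_sp _ s2 hb₄.2.1 hb₄.1)
  · -- case 2
    push Not at hint
    obtain ⟨j₀, hj₀⟩ := hint
    have : Nonempty (Fin m) := ⟨j₀⟩
    obtain ⟨i, hi⟩ := Finite.exists_max (fun j => V.valuation ((b₃ ∘ Fin.natAdd N) j))
    have hvi : 1 < V.valuation ((b₃ ∘ Fin.natAdd N) i) := by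
      refine lt_of_lt_of_le ?_ (hi j₀)
      rw [← not_le, ValuationSubring.valuation_le_one_iff]
      exact hj₀
    have hi0 : (b₃ ∘ Fin.natAdd N) i ≠ 0 := by
      intro h0
      rw [h0, map_zero] at hvi
      exact absurd hvi (by simp)
    have hc3 := cheap_inv (i := i) hs (h := b₃ ∘ Fin.castAdd m) (z := b₃ ∘ Fin.natAdd N)
      (by rw [append_split]; exact hc2) hi0
    have ht6 := tr_inv k₂ (b₃ ∘ Fin.castAdd m) (b₃ ∘ Fin.natAdd N) i hi0
    rw [append_split] at ht6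
    set η : Fin m → F₁ := fun j => if j = i then ((b₃ ∘ Fin.natAdd N) i)⁻¹ else
      (b₃ ∘ Fin.natAdd N) j * ((b₃ ∘ Fin.natAdd N) i)⁻¹ with hη
    have hvi' : V.valuation ((b₃ ∘ Fin.natAdd N) i)⁻¹ < 1 := by
      rw [map_inv₀]
      exact inv_lt_one_of_one_lt₀ hvi
    have hηi : η i = ((b₃ ∘ Fin.natAdd N) i)⁻¹ := by simp [hη]
    have hηV : ∀ j, η j ∈ V := by
      intro j
      rw [← ValuationSubring.valuation_le_one_iff]
      by_cases hji : j = i
      · rw [hji, hηi]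
        exact hvi'.le
      · have : η j = (b₃ ∘ Fin.natAdd N) j * ((b₃ ∘ Fin.natAdd N) i)⁻¹ := by simp [hη, hji]
        rw [this, map_mul, map_inv₀]
        have hp : 0 < V.valuation ((b₃ ∘ Fin.natAdd N) i) := lt_trans zero_lt_one hvi
        rw [← div_eq_mul_inv, div_le_one₀ hp]
        exact hi j
    have s1 := Sp.of_place_append V ψ hψ (b₃ ∘ Fin.castAdd m) hV η hηV
    have hψη : ψ ⟨η i, hηV i⟩ = 0 := by
      rw [hψ0]
      change V.valuation (η i) < 1
      rw [hηi]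
      exact hvi'
    obtain ⟨F₀, g1, g2, g3, g4, g5, b₄, hB₄, s2, s3, ht7, hc4⟩ :=
      div_step hB₂ hc3 _ s1 (X (Fin.natAdd N i)) (comp_X _) (by omega)
        (by rw [aeval_X, Fin.append_right, hηi]; exact inv_ne_zero hi0)
        (by rw [aeval_X, Fin.append_right]; exact hψη)
    obtain ⟨j5, j6, j7⟩ := tower_comp (k := k) (k' := k₂) (K := F₀)
    have r4 : Rch k₂ s b₄ (g + D + m + m + 1) := Rch.self hB₄ hc4 (Sp.refl _) (Sp.refl _)
    refine ⟨k₂, R, F₀, c1, c11, c3, c7, c8, f1, f2, f3, j2, f4, j4, f5, j3, g1, j5, g4, j6, a₃,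
      b₄, x1, x2, ht5, v1.trans (s2.left.restrict), s3.right, by omega, r4.mono (by omega)⟩

theorem good_al {N m s D : ℕ} (B : Fml ℂ (N + m)) (hs : 2 ≤ s) (hG : Good s B D)
    (hG' : Good s B.neg D) : Good s (.al m B) (N * (2 * D + 3 * m + 1)) := by
  have key : ∀ (n : ℕ) (k F Fa : Type) [Field k] [IsAlgClosed k] [Algebra ℂ k] [Field F]
      [IsAlgClosed F] [Algebra ℂ F] [Algebra k F] [IsScalarTower ℂ k F] [Field Fa]
      [IsAlgClosed Fa] [Algebra ℂ Fa] [Algebra k Fa] [IsScalarTower ℂ k Fa] (h : Fin N → F)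
      (g : ℕ) (a : Fin N → Fa), Big k F → Cheap k F s h g → MaxPt k (.al m B) h a →
      tr k h ≤ n → Rch k s a (g + n * (2 * D + 3 * m + 1)) := by
    intro n
    induction n with
    | zero =>
      intro k F Fa _ _ _ _ _ _ _ _ _ _ _ _ _ h g a hB hc hM ht
      by_cases hφ : (Fml.al m B).holds F h
      · exact (hM.self hB hc hφ).mono (by omega)
      · exfalso
        have s1 : Sp k a h := hM.2.1.symm_of_tr (by omega)
        exact hφ (holds_of_sp _ s1 hM.2.1 hM.1)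
    | succ n ih =>
      intro k F Fa _ _ _ _ _ _ _ _ _ _ _ _ _ h g a hB hc hM ht
      by_cases hφ : (Fml.al m B).holds F h
      · exact (hM.self hB hc hφ).mono (by omega)
      · obtain ⟨k₂, R, Fb, i1, i2, i3, i4, i5, i6, i7, i8, i9, i10, i11, i12, i13, i14, i15, i16,
          i17, a₃, b, s1, s2, ht2, s3, s4, hlt, hR⟩ := al_round B hs hG hG' k F Fa h g a hB hc hM hφ
        -- slices and projection of `b`
        obtain ⟨k₄, F₄, c1, c2, c3, c4, c5, c6, c7, c8, c9, c10, c11, c12, b', hB', u1, u2, ht3,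
          ht4, hc'⟩ := hR.slice (by omega)
        have hc'' : Cheap k₄ F₄ s (b' ∘ Fin.castAdd m) (g + 2 * D + 2 * m + 1 + m) :=
          cheap_reindex hc' _ ht4.symm
        -- base change of `a₃` over `k₄`
        obtain ⟨Ω, d1, d2, d3, d4, d5, d6, d7, d8, a₄, he, ht5⟩ := exists_bc k₂ k₄ a₃
        obtain ⟨j1, j2, j3⟩ := tower_comp (k := k) (k' := k₂) (K := k₄)
        obtain ⟨j4, j5, j6⟩ := tower_comp (k := k) (k' := k₂) (K := Ω)
        have j7 : IsScalarTower k k₄ Ω := by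
          refine IsScalarTower.of_algebraMap_eq fun x => ?_
          rw [IsScalarTower.algebraMap_apply k k₂ Ω, IsScalarTower.algebraMap_apply k k₂ k₄,
            IsScalarTower.algebraMap_apply k₂ k₄ Ω]
        have j8 : IsScalarTower ℂ k₂ F₄ := by
          refine IsScalarTower.of_algebraMap_eq fun x => ?_
          rw [IsScalarTower.algebraMap_apply ℂ k₄ F₄, IsScalarTower.algebraMap_apply ℂ k₂ k₄,
            IsScalarTower.algebraMap_apply k₂ k₄ F₄]
        obtain ⟨j9, j10, j11⟩ := tower_comp (k := k) (k' := k₂) (K := F₄)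
        have j12 : IsScalarTower k k₄ F₄ := by
          refine IsScalarTower.of_algebraMap_eq fun x => ?_
          rw [IsScalarTower.algebraMap_apply k k₂ F₄, IsScalarTower.algebraMap_apply k k₂ k₄,
            IsScalarTower.algebraMap_apply k₂ k₄ F₄]
        have e1 : Sp k₂ a₃ a₄ := fun p hp => (he p).1 hp
        have e2 : Sp k₂ a₄ a₃ := fun p hp => (he p).2 hp
        have hz : CharZero k₂ := charZero_of_injective_algebraMap (algebraMap ℂ k₂).injective
        -- `h₄ = b' ∘ castAdd` specialises to `a₄` over `k₄`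
        have f1 : Sp k₄ (b' ∘ Fin.castAdd m) a₄ := by
          refine grow (k := k₂) _ _ ?_ (((u2.comp _).trans s4).trans e1)
          rw [ht3]
          exact (u1.comp _).tr_eq (u2.comp _)
        have f2 : Sp k h (b' ∘ Fin.castAdd m) := s3.trans ((u1.comp (Fin.castAdd m)).restrict)
        have f3 : Sp k a a₄ := s1.trans e1.restrict
        have f4 : Sp k a₄ a := (e2.restrict (k := k)).trans s2
        have ht6 : tr k₄ a₄ = tr k a := by rw [ht5, ht2]
        have hM' : MaxPt k₄ (.al m B) (b' ∘ Fin.castAdd m) a₄ :=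
          hM.step (b' ∘ Fin.castAdd m) a₄ f2 f1 f3 f4 ht6
        have hlt' : tr k₄ (b' ∘ Fin.castAdd m) ≤ n := by
          rw [ht3]
          have := tr_comp_le k₂ b (Fin.castAdd m)
          omega
        have r := ih k₄ F₄ Ω (b' ∘ Fin.castAdd m) _ a₄ hB' hc'' hM' hlt'
        refine (Rch.of_base f3 f4 ht6 r).mono ?_
        have : (n + 1) * (2 * D + 3 * m + 1) = n * (2 * D + 3 * m + 1) + (2 * D + 3 * m + 1) := by
          ring
        omega
  intro k F Fa _ _ _ _ _ _ _ _ _ _ _ _ _ h g a hB hc hM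
  exact key N k F Fa h g a hB hc hM (tr_le k h)

end VPH
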