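import Pool.Agent.VPH.MainC
import Pool.Agent.VPH.Extr

set_option autoImplicit false

/-!
# VPH-MainD (helper69): the bound and the theorem over `ℂ`
-/

namespace VPH

open MvPolynomial

theorem Good.mono {s N D D' : ℕ} {φ : Fml ℂ N} (h : Good s φ D) (hD : D ≤ D') : Good s φ D' := by
  intro k F Fa _ _ _ _ _ _ _ _ _ _ _ _ _ x g a hB hc hM
  exact (h k F Fa x g a hB hc hM).mono (by omega)

theorem arith1 (m M D : ℕ) (hm : m ≤ M) (hD : 1 ≤ D) :
    D + m ≤ 4 * (M + 1) * D := by
  nlinarith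

theorem arith2 (N m M D : ℕ) (hN : N ≤ M) (hm : m ≤ M) (hD : 4 * (M + 1) ≤ D) :
    N * (2 * D + 3 * m + 1) ≤ 4 * (M + 1) * D := by
  have h1 : N * (2 * D + 3 * m + 1) ≤ M * (2 * D + 3 * M + 1) :=
    Nat.mul_le_mul hN (by omega)
  nlinarith

theorem good_main (s s' : ℕ) (hs : s' + 2 ≤ s) (r : ℕ) : ∀ (N : ℕ) (φ : Fml ℂ N), φ.rk = r →
    φ.Siz s' → Good s φ ((4 * (φ.tot + 1)) ^ (r + 1)) := by
  induction r with
  | zero =>
    intro N φ hr hφ
    cases φ with
    | qf l p B =>
      refine (good_qf p B hφ (by omega)).mono ?_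
      simp only [Fml.tot, zero_add, pow_one]
      omega
    | ex m B => simp [Fml.rk] at hr
    | al m B => simp [Fml.rk] at hr
  | succ r ih =>
    intro N φ hr hφ
    cases φ with
    | qf l p B => simp [Fml.rk] at hr
    | ex m B =>
      have hr' : B.rk = r := by simpa [Fml.rk] using hr
      have h1 := ih (N + m) B hr' hφ
      refine (good_ex B (by omega) h1).mono ?_
      have hm : m ≤ B.tot := by have := B.le_tot; omega
      have hD : 1 ≤ (4 * (B.tot + 1)) ^ (r + 1) := Nat.one_le_pow _ _ (by omega)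
      simp only [Fml.tot]
      rw [pow_succ' _ (r + 1)]
      exact arith1 m B.tot _ hm hD
    | al m B =>
      have hr' : B.rk = r := by simpa [Fml.rk] using hr
      have h1 := ih (N + m) B hr' hφ
      have h2 := ih (N + m) B.neg (by rw [Fml.rk_neg, hr']) (Fml.siz_neg s' B hφ)
      rw [Fml.tot_neg] at h2
      refine (good_al B (by omega) h1 h2).mono ?_
      have hm : m ≤ B.tot := by have := B.le_tot; omega
      have hN : N ≤ B.tot := by have := B.le_tot; omega
      have hD : 4 * (B.tot + 1) ≤ (4 * (B.tot + 1)) ^ (r + 1) :=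
        Nat.le_self_pow (by omega) _
      simp only [Fml.tot]
      rw [pow_succ' _ (r + 1)]
      exact arith2 N m B.tot _ hN hm hD

theorem Bd.mono {n d S S' : ℕ} {f : MvPolynomial (Fin n) ℂ} (h : Bd d S f) (hS : S ≤ S') :
    Bd d S' f :=
  fun q hq => h q fun g hg hc => hq g hg (hc.mono hS)

theorem exists_big_aux (K : Type) [Field K] [Algebra ℂ K] (x : ℕ → K)
    (hx : AlgebraicIndependent ℂ x) : ∃ (F : Type) (_ : Field F) (_ : IsAlgClosed F)
    (_ : Algebra ℂ F) (x : ℕ → F), AlgebraicIndependent ℂ x ∧ Big ℂ F := by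
  have h1 : AlgebraicIndependent ℂ (fun i : ℕ => algebraMap K (AlgebraicClosure K) (x i)) :=
    hx.map' (f := IsScalarTower.toAlgHom ℂ K (AlgebraicClosure K))
      (algebraMap K (AlgebraicClosure K)).injective
  refine ⟨AlgebraicClosure K, inferInstance, inferInstance, inferInstance, _, h1, ?_⟩
  have h2 := h1.cardinalMk_le_trdeg
  rwa [Cardinal.mk_nat] at h2

theorem exists_big_aux' : ∃ (K : Type) (_ : Field K) (_ : Algebra ℂ K) (x : ℕ → K),
    AlgebraicIndependent ℂ x := by
  refine ⟨FractionRing (MvPolynomial ℕ ℂ), inferInstance, inferInstance,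
    fun i => algebraMap (MvPolynomial ℕ ℂ) (FractionRing (MvPolynomial ℕ ℂ)) (X i), ?_⟩
  exact (MvPolynomial.algebraicIndependent_X ℕ ℂ).map'
    (f := IsScalarTower.toAlgHom ℂ (MvPolynomial ℕ ℂ) (FractionRing (MvPolynomial ℕ ℂ)))
    (IsFractionRing.injective (MvPolynomial ℕ ℂ) (FractionRing (MvPolynomial ℕ ℂ)))

/-- an algebraically closed field of infinite transcendence degree over `ℂ` -/
theorem exists_big : ∃ (F : Type) (_ : Field F) (_ : IsAlgClosed F) (_ : Algebra ℂ F)
    (x : ℕ → F), AlgebraicIndependent ℂ x ∧ Big ℂ F := by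
  obtain ⟨K, _, _, x, hx⟩ := exists_big_aux'
  exact exists_big_aux K x hx

end VPH
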