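import Pool.Agent.VPH.MainD

set_option autoImplicit false

/-!
# VPH-MainE (helper69): the theorem over `ℂ`
-/

namespace VPH

open MvPolynomial

/-- the equation `Y = f(X)` of the graph -/
noncomputable def gr {n : ℕ} (f : MvPolynomial (Fin n) ℂ) : MvPolynomial (Fin (n + 1)) ℂ :=
  X (Fin.last n) - rename Fin.castSucc f

theorem aeval_gr {n : ℕ} (f : MvPolynomial (Fin n) ℂ) {F : Type} [Field F] [Algebra ℂ F]
    (u : Fin (n + 1) → F) : aeval u (gr f) = u (Fin.last n) - aeval (u ∘ Fin.castSucc) f := by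
  rw [gr, map_sub, aeval_X, aeval_rename]

theorem gr_ne_zero {n : ℕ} (f : MvPolynomial (Fin n) ℂ) : gr f ≠ 0 := by
  intro h
  have := aeval_gr f (F := ℂ) (Fin.snoc (fun _ => 0) (aeval (fun _ => (0 : ℂ)) f + 1))
  rw [h, map_zero, Fin.snoc_last] at this
  have e : (Fin.snoc (fun _ => 0) (aeval (fun _ => (0 : ℂ)) f + 1) : Fin (n + 1) → ℂ) ∘
      Fin.castSucc = fun _ => 0 := by
    funext i; simp
  rw [e] at this
  simp at this

theorem eq_snoc {n : ℕ} {F : Type} (u : Fin (n + 1) → F) :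
    u = Fin.snoc (u ∘ Fin.castSucc) (u (Fin.last n)) := by
  funext i
  refine Fin.lastCases ?_ (fun j => ?_) i <;> simp

theorem cost_le (n d s' M r : ℕ) (hn : n + 1 ≤ M) :
    2 * (d + 1) ^ 2 * (n + d * ((0 + (4 * (M + 1)) ^ (r + 1)) * (s' + 2) +
      2 * (0 + (4 * (M + 1)) ^ (r + 1)) ^ 2 + (0 + (4 * (M + 1)) ^ (r + 1)))) + d + n ≤
    3 * (d + 1) ^ 3 * (s' + 5) * (4 * (M + 1)) ^ (2 * (r + 1)) := by
  set g := (4 * (M + 1)) ^ (r + 1) with hg
  have h1 : (4 * (M + 1)) ^ (2 * (r + 1)) = g ^ 2 := by rw [hg, ← pow_mul, mul_comm 2 (r + 1)]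
  have h2 : 4 * (M + 1) ≤ g := Nat.le_self_pow (by omega) _
  have h3 : n ≤ g := by omega
  have h4 : 1 ≤ g := by omega
  rw [h1, zero_add]
  have h5 : g ≤ g ^ 2 := Nat.le_self_pow (by omega) _
  have h6 : n ≤ g ^ 2 := by omega
  have h7 : g * (s' + 2) + 2 * g ^ 2 + g ≤ g ^ 2 * (s' + 5) := by
    have : g * (s' + 2) ≤ g ^ 2 * (s' + 2) := Nat.mul_le_mul_right _ h5
    nlinarith
  have h8 : n + d * (g * (s' + 2) + 2 * g ^ 2 + g) ≤ (d + 1) * (g ^ 2 * (s' + 5)) := by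
    have h9 : d * (g * (s' + 2) + 2 * g ^ 2 + g) ≤ d * (g ^ 2 * (s' + 5)) :=
      Nat.mul_le_mul_left _ h7
    have h10 : n ≤ g ^ 2 * (s' + 5) := by nlinarith
    nlinarith
  have h11 : 2 * (d + 1) ^ 2 * (n + d * (g * (s' + 2) + 2 * g ^ 2 + g)) ≤
      2 * (d + 1) ^ 2 * ((d + 1) * (g ^ 2 * (s' + 5))) := Nat.mul_le_mul_left _ h8
  have h12 : d + n ≤ (d + 1) ^ 3 * (s' + 5) * g ^ 2 := by
    have a1 : d + n ≤ (d + 1) * g ^ 2 := by nlinarith
    have a2 : (d + 1) ≤ (d + 1) ^ 3 := Nat.le_self_pow (by omega) _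
    have a3 : (d + 1) * g ^ 2 ≤ (d + 1) ^ 3 * (s' + 5) * g ^ 2 := by
      apply Nat.mul_le_mul_right
      nlinarith
    omega
  have h13 : 2 * (d + 1) ^ 2 * ((d + 1) * (g ^ 2 * (s' + 5))) =
      2 * ((d + 1) ^ 3 * (s' + 5) * g ^ 2) := by ring
  have h14 : 3 * (d + 1) ^ 3 * (s' + 5) * g ^ 2 = 3 * ((d + 1) ^ 3 * (s' + 5) * g ^ 2) := by ring
  rw [h14]
  rw [h13] at h11
  omega

theorem main_thm {n d s : ℕ} (f : MvPolynomial (Fin n) ℂ) (hf : f.totalDegree ≤ d)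
    (φ : Fml ℂ (n + 1)) (hφ : φ.Siz s)
    (hT : ∀ x : Fin n → ℂ, φ.holds ℂ (Fin.snoc x (aeval x f)))
    (q : MvPolynomial (Fin (n + 1)) ℂ) (hq : q ≠ 0)
    (hTq : ∀ u : Fin (n + 1) → ℂ, φ.holds ℂ u → aeval u q = 0) :
    Bd d (3 * (d + 1) ^ 3 * (s + 5) * (4 * (φ.tot + 1)) ^ (2 * (φ.rk + 1))) f := by
  obtain ⟨F, _, _, _, x, hx, hB⟩ := exists_big
  -- the generic point
  have hx' : AlgebraicIndependent ℂ (fun i : Fin (n + 1) => x i) :=
    hx.comp (fun i : Fin (n + 1) => (i : ℕ)) Fin.val_injective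
  set h : Fin (n + 1) → F := fun i => x i with hh
  have hc0 : Cheap ℂ F (s + 2) h 0 := cheap_init h ((algInd_iff ℂ h).1 hx')
  -- the generic point of the graph
  set y : Fin n → F := fun i => x i with hy
  have hy' : AlgebraicIndependent ℂ y :=
    hx.comp (fun i : Fin n => (i : ℕ)) Fin.val_injective
  set a : Fin (n + 1) → F := Fin.snoc y (aeval y f) with ha
  have hay : a ∘ Fin.castSucc = y := by funext i; simp [ha]
  have hgr : aeval a (gr f) = 0 := by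
    rw [aeval_gr, hay, ha, Fin.snoc_last, sub_self]
  have htr1 : n ≤ tr ℂ a := by
    have h1 := tr_comp_le ℂ a Fin.castSucc
    rwa [hay, (algInd_iff ℂ y).1 hy'] at h1
  have htr2 : ∀ (Fc : Type) [Field Fc] [Algebra ℂ Fc] (c : Fin (n + 1) → Fc)
      (p : MvPolynomial (Fin (n + 1)) ℂ), p ≠ 0 → aeval c p = 0 → tr ℂ c ≤ n := by
    intro Fc _ _ c p hp hcp
    by_contra hcon
    have h1 := tr_le ℂ c
    have h2 : AlgebraicIndependent ℂ c := (algInd_iff ℂ c).2 (by omega)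
    exact hp (h2.eq_zero_of_aeval_eq_zero p hcp)
  have htr : tr ℂ a = n := le_antisymm (htr2 F a (gr f) (gr_ne_zero f) hgr) htr1
  have hM : MaxPt ℂ φ h a := by
    refine ⟨?_, ?_, ?_⟩
    · obtain ⟨b', hb1, hb2⟩ := transfer F φ (gr f) a
      refine hb1.2 ?_
      have h1 := hb2.1 hgr
      rw [aeval_gr, sub_eq_zero] at h1
      rw [eq_snoc b', h1]
      exact hT _
    · intro p hp
      rw [hx'.eq_zero_of_aeval_eq_zero p hp, map_zero]
    · intro Fc j1 j2 j3 j4 j5 c hc _ hca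
      have e : j3 = j4 := Algebra.algebra_ext _ _ fun r =>
        @IsScalarTower.algebraMap_apply ℂ ℂ Fc _ _ _ _ j4 j3 j5 r
      subst e
      refine hca.symm_of_tr ?_
      rw [htr]
      obtain ⟨b', hb1, hb2⟩ := transfer Fc φ q c
      exact htr2 Fc c q hq (hb2.2 (hTq b' (hb1.1 hc)))
  have hG := good_main (s + 2) s le_rfl φ.rk (n + 1) φ rfl hφ
  obtain ⟨k', F', i1, i2, i3, i4, i5, i6, i7, i8, i9, i10, i11, i12, a', hB', he, ht, hc⟩ :=
    hG ℂ F F h 0 a hB hc0 hM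
  have e1 : i3 = i7 := Algebra.algebra_ext _ _ fun r =>
    @IsScalarTower.algebraMap_apply ℂ ℂ k' _ _ _ _ i7 i3 i8 r
  subst e1
  have e2 : i4 = i9 := Algebra.algebra_ext _ _ fun r => by
    rw [@IsScalarTower.algebraMap_apply ℂ k' F' _ _ _ _ i5 i4 i6 r,
      @IsScalarTower.algebraMap_apply ℂ k' F' _ _ _ _ i5 i9 i10 r]
  subst e2
  set y' : Fin n → F' := a' ∘ Fin.castSucc with hy''
  have hgr' : aeval a' (gr f) = 0 := (he _).1 hgr
  rw [aeval_gr, sub_eq_zero] at hgr'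
  have ha' : a' = Fin.snoc y' (aeval y' f) := by
    conv_lhs => rw [eq_snoc a', hgr']
  have htr' : tr k' y' = n := by
    apply le_antisymm (tr_le k' y')
    refine le_trans (le_of_eq (htr.symm.trans ht.symm)) (tr_le_of_mem k' a' y' ?_)
    intro j
    refine Fin.lastCases ?_ (fun i => ?_) j
    · rw [hgr', aeval_def, eval₂_eq]
      refine sum_mem fun t _ => mul_mem ?_ (prod_mem fun i _ => pow_mem ?_ _)
      · rw [@IsScalarTower.algebraMap_apply ℂ k' F' _ _ _ _ i5 i4 i6]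
        exact (IntermediateField.adjoin k' (Set.range y')).algebraMap_mem _
      · exact IntermediateField.subset_adjoin k' _ ⟨i, rfl⟩
    · exact IntermediateField.subset_adjoin k' _ ⟨i, rfl⟩
  rw [ha'] at hc
  refine (extract f hf y' ((algInd_iff k' y').2 htr') hc).mono ?_
  exact cost_le n d s φ.tot φ.rk φ.le_tot

end VPH
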