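import Pool.Agent.VPH.Defs

set_option autoImplicit false

/-!
# VPH-PlaA: a valuation ring with prescribed centre, containing independent elements

`t` is algebraically independent over `k[h]`; `h` specialises to `b` over `k`. There is a valuation ring
`V` of `F` containing `k`, `h`, `t` such that a polynomial `q(h, t)` is in the maximal ideal iff
`q(b, T) = 0` as a polynomial in `T`.
-/

namespace VPH

open MvPolynomial

/-- a valuation ring which dominates a subring at a prime ideal -/
private theorem pla_dominate {F : Type} [Field F] (A : Subring F) (P : Ideal A) [hP : P.IsPrime] :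
    ∃ V : ValuationSubring F, A ≤ V.toSubring ∧ ∀ a : A, V.valuation (a : F) < 1 ↔ a ∈ P := by
  obtain ⟨V, hV⟩ := (LocalSubring.ofPrime A P).exists_le_valuationSubring
  refine ⟨V, (LocalSubring.le_ofPrime A P).trans hV.1, fun a => ?_⟩
  have h1 := IsLocalization.AtPrime.to_map_mem_maximal_iff (LocalSubring.ofPrime A P).toSubring P a
    (LocalSubring.ofPrime A P).isLocalRing
  rw [← h1]
  have haV : (a : F) ∈ V := hV.1 (LocalSubring.le_ofPrime A P a.2)
  have h2 := V.valuation_lt_one_iff ⟨(a : F), haV⟩
  rw [← h2]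
  rw [IsLocalRing.mem_maximalIdeal, IsLocalRing.mem_maximalIdeal, mem_nonunits_iff, mem_nonunits_iff]
  refine not_congr ?_
  have h3 := hV.2
  constructor
  · intro hu
    exact h3.map_nonunit (algebraMap A (LocalSubring.ofPrime A P).toSubring a) hu
  · intro hu
    exact hu.map (Subring.inclusion hV.1)

theorem dom {k F Fb : Type} [Field k] [Field F] [Field Fb] [Algebra k F] [Algebra k Fb] {N : ℕ}
    {τ : Type} (h : Fin N → F) (b : Fin N → Fb) (H : Sp k h b) (t : τ → F)
    (ht : AlgebraicIndependent (Algebra.adjoin k (Set.range h)) t) :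
    ∃ V : ValuationSubring F, (∀ c : k, algebraMap k F c ∈ V) ∧ (∀ j, h j ∈ V) ∧
      (∀ i, t i ∈ V) ∧ ∀ q : MvPolynomial τ (MvPolynomial (Fin N) k),
        V.valuation (eval t (map (aeval h : MvPolynomial (Fin N) k →ₐ[k] F).toRingHom q)) < 1 ↔
          map (aeval b : MvPolynomial (Fin N) k →ₐ[k] Fb).toRingHom q = 0 := by
  let Φ : MvPolynomial τ (MvPolynomial (Fin N) k) →+* F :=
    (eval t).comp (map (aeval h : MvPolynomial (Fin N) k →ₐ[k] F).toRingHom)
  let Θ : MvPolynomial τ (MvPolynomial (Fin N) k) →+* MvPolynomial τ Fb :=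
    map (aeval b : MvPolynomial (Fin N) k →ₐ[k] Fb).toRingHom
  have hker : ∀ q, Φ q = 0 → Θ q = 0 := by
    intro q hq
    have hmem : ∀ c : MvPolynomial (Fin N) k, aeval h c ∈ Algebra.adjoin k (Set.range h) := by
      intro c
      rw [Algebra.adjoin_range_eq_range_aeval]
      exact ⟨c, rfl⟩
    let g : MvPolynomial (Fin N) k →+* Algebra.adjoin k (Set.range h) :=
      ((aeval h : MvPolynomial (Fin N) k →ₐ[k] F).codRestrict (Algebra.adjoin k (Set.range h)) hmem).toRingHom
    have h1 : aeval t (map g q) = Φ q := by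
      show aeval t (map g q) = eval t (map (aeval h : MvPolynomial (Fin N) k →ₐ[k] F).toRingHom q)
      rw [aeval_def, eval₂_map, eval_map]
      rfl
    have h2 : map g q = 0 := by
      apply ht
      rw [h1, hq, map_zero]
    show map (aeval b : MvPolynomial (Fin N) k →ₐ[k] Fb).toRingHom q = 0
    ext m
    rw [coeff_map, coeff_zero]
    have h3 : g (coeff m q) = 0 := by
      rw [← coeff_map, h2, coeff_zero]
    have h4 : aeval h (coeff m q) = 0 := congrArg Subtype.val h3
    exact H _ h4
  have hsur : Function.Surjective Φ.rangeRestrict := RingHom.rangeRestrict_surjective Φ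
  have hker2 : RingHom.ker Φ.rangeRestrict ≤ RingHom.ker Θ := by
    intro q hq
    rw [RingHom.mem_ker] at hq ⊢
    exact hker q (congrArg Subtype.val hq)
  have hkp : (RingHom.ker Θ).IsPrime := RingHom.ker_isPrime Θ
  have hprime : (Ideal.map Φ.rangeRestrict (RingHom.ker Θ)).IsPrime :=
    Ideal.map_isPrime_of_surjective hsur hker2
  obtain ⟨V, hV1, hV2⟩ := pla_dominate Φ.range (Ideal.map Φ.rangeRestrict (RingHom.ker Θ))
  have hin : ∀ q, Φ q ∈ V := fun q => hV1 ⟨q, rfl⟩
  refine ⟨V, fun c => ?_, fun j => ?_, fun i => ?_, fun q => ?_⟩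
  · have h1 := hin (C (C c))
    have h2 : Φ (C (C c)) = algebraMap k F c := by
      show eval t (map (aeval h : MvPolynomial (Fin N) k →ₐ[k] F).toRingHom (C (C c))) = _
      rw [map_C, eval_C]
      exact aeval_C h c
    rwa [h2] at h1
  · have h1 := hin (C (X j))
    have h2 : Φ (C (X j)) = h j := by
      show eval t (map (aeval h : MvPolynomial (Fin N) k →ₐ[k] F).toRingHom (C (X j))) = _
      rw [map_C, eval_C]
      exact aeval_X h j
    rwa [h2] at h1
  · have h1 := hin (X i)
    have h2 : Φ (X i) = t i := by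
      show eval t (map (aeval h : MvPolynomial (Fin N) k →ₐ[k] F).toRingHom (X i)) = _
      rw [map_X, eval_X]
    rwa [h2] at h1
  · have h1 := hV2 (Φ.rangeRestrict q)
    have h2 : Φ.rangeRestrict q ∈ Ideal.map Φ.rangeRestrict (RingHom.ker Θ) ↔ q ∈ RingHom.ker Θ := by
      rw [← Ideal.mem_comap, Ideal.comap_map_of_surjective' _ hsur, sup_eq_left.mpr hker2]
    rw [h2, RingHom.mem_ker] at h1
    exact h1

end VPH
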