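import Pool.Agent.VPH.SlpB
import Pool.Agent.VPH.SlpC
import Pool.Agent.VPH.SlpD

set_option autoImplicit false

/-!
# VPH-SlpE: residues of computations over `O` are in the closure

`P` is computed over `E` with `S₀` operations; `tru d P`, shifted by the constants `x`, has coefficients
in `O` whose residues are the coefficients of `f` (a polynomial over `ℂ`). Then `f` is in the closure.

Plan. Let `q` vanish at all `g` with `g.totalDegree ≤ d`, `Comp S g`, `S = 2 * (d + 1) ^ 2 * S₀ + d + n`.
Let `Φ` over `A := MvPolynomial E ℤ` be as in `univ_comp`, `ε : A → E`. Put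
`Ψ := aeval (fun i => X i - C (X (x i))) (tru d Φ)`, over `A` (the constant `X (x i) : A` is mapped to
`x i` by `ε`). Then `map ε Ψ = aeval (fun i => X i - C (x i)) (tru d P)`.
For every `γ : E → ℂ` let `ε' := eval₂Hom (Int.castRingHom ℂ) γ : A → ℂ`; `map ε' Ψ` is computed with
at most `S` operations (`Comp.map`, `Comp.tru`, `Comp.shift`) and has total degree at most `d`, so
`eval (fun t => coeff t (map ε' Ψ)) q = 0`. Let `q' : MvPolynomial E ℂ` be
`aeval (fun t => map (Int.castRingHom ℂ) (coeff t Ψ)) q`. Then `eval γ q' = 0` for all `γ`, so `q' = 0`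
(`MvPolynomial.funext`). Evaluating `q'` at `id : E → E` over `E` gives
`aeval (fun t => ε (coeff t Ψ)) q = 0` in `E`. All these coefficients are in `O`; applying `ρ`
(use `MvPolynomial.aeval` in the ring `O` and `Subtype` coercions) gives
`aeval (fun t => algebraMap ℂ F (coeff t f)) q = 0` in `F`, and `ℂ → F` is injective.
-/

namespace VPH

open MvPolynomial

private theorem SlpE_map_shift {R R' : Type} [CommRing R] [CommRing R'] {n : ℕ} (φ : R →+* R') (c : Fin n → R)
    (p : MvPolynomial (Fin n) R) :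
    map φ (aeval (fun i => X i - C (c i)) p) = aeval (fun i => X i - C (φ (c i))) (map φ p) := by
  induction p using MvPolynomial.induction_on with
  | C a => simp [MvPolynomial.algebraMap_eq]
  | add p q hp hq => simp only [map_add, hp, hq]
  | mul_X p i hp => simp only [map_mul, hp, aeval_X, map_sub, map_X, map_C]

private theorem SlpE_deg {R : Type} [CommRing R] {n d : ℕ} (c : Fin n → R) (p : MvPolynomial (Fin n) R)
    (hp : p.totalDegree ≤ d) : (aeval (fun i => X i - C (c i)) p : MvPolynomial (Fin n) R).totalDegree ≤ d := by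
  rw [aeval_def, eval₂_eq']
  refine totalDegree_finsetSum_le fun t ht => ?_
  refine (totalDegree_mul _ _).trans ?_
  have h1 : (algebraMap R (MvPolynomial (Fin n) R) (coeff t p)).totalDegree = 0 := totalDegree_C _
  rw [h1, zero_add]
  refine (totalDegree_finsetProd _ _).trans ?_
  have h2 : ∀ i : Fin n, ((X i - C (c i) : MvPolynomial (Fin n) R) ^ t i).totalDegree ≤ t i := by
    intro i
    refine (totalDegree_pow _ _).trans ?_
    have h3 : (X i - C (c i) : MvPolynomial (Fin n) R).totalDegree ≤ 1 := by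
      refine (totalDegree_sub_C_le _ _).trans ?_
      by_cases hR : Nontrivial R
      · rw [totalDegree_X]
      · rw [not_nontrivial_iff_subsingleton] at hR
        have h4 : (X i : MvPolynomial (Fin n) R) = 0 := Subsingleton.elim _ _
        rw [h4, totalDegree_zero]
        exact Nat.zero_le _
    exact (Nat.mul_le_mul_left _ h3).trans (le_of_eq (mul_one _))
  refine (Finset.sum_le_sum fun i _ => h2 i).trans (le_trans ?_ hp)
  have h5 := le_totalDegree ht
  rw [Finsupp.sum_fintype _ _ (fun _ => rfl)] at h5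
  exact h5

theorem closure_step {E F : Type} [Field E] [Field F] [Algebra ℂ E] [Algebra ℂ F] (O : Subring E)
    (ρ : O →+* F)
    (base : ∀ c : ℂ, ∃ hc : algebraMap ℂ E c ∈ O, ρ ⟨algebraMap ℂ E c, hc⟩ = algebraMap ℂ F c)
    {n d S₀ : ℕ} (P : MvPolynomial (Fin n) E) (hP : Comp S₀ P) (x : Fin n → E)
    (f : MvPolynomial (Fin n) ℂ)
    (H : Res O ρ (aeval (fun i => X i - C (x i)) (tru d P)) (map (algebraMap ℂ F) f)) :
    Bd d (2 * (d + 1) ^ 2 * S₀ + d + n) f := by
  intro q hq
  obtain ⟨Φ, hΦ, hcomp⟩ := univ_comp hP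
  set ε : MvPolynomial E ℤ →+* E := (aeval (id : E → E) : MvPolynomial E ℤ →ₐ[ℤ] E).toRingHom with hε
  set Ψ : MvPolynomial (Fin n) (MvPolynomial E ℤ) := aeval (fun i => X i - C (X (x i))) (tru d Φ) with hΨ
  have hΨc : Comp (2 * (d + 1) ^ 2 * S₀ + d + n) Ψ := (hcomp.tru d).shift fun i => X (x i)
  have hΨE : map ε Ψ = aeval (fun i => X i - C (x i)) (tru d P) := by
    rw [hΨ, SlpE_map_shift, map_tru, hΦ]
    have h1 : ∀ i, ε (X (x i)) = x i := fun i => by
      change aeval (id : E → E) (X (x i) : MvPolynomial E ℤ) = x i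
      rw [aeval_X]
      rfl
    simp only [h1]
  -- the polynomial in the constants
  have hq' : aeval (fun t => map (Int.castRingHom ℂ) (coeff t Ψ)) q = (0 : MvPolynomial E ℂ) := by
    refine MvPolynomial.funext fun γ => ?_
    rw [map_zero]
    have h1 : (map (eval₂Hom (Int.castRingHom ℂ) γ) Ψ).totalDegree ≤ d := by
      rw [hΨ, SlpE_map_shift, map_tru]
      exact SlpE_deg _ _ (tru_totalDegree d _)
    have h2 := hq (map (eval₂Hom (Int.castRingHom ℂ) γ) Ψ) h1 (hΨc.map _)
    rw [← h2, aeval_def, ← coe_eval₂Hom, ← RingHom.comp_apply, comp_eval₂Hom, eval, coe_eval₂Hom]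
    congr 1
    · ext c
      simp [MvPolynomial.algebraMap_eq]
    · funext t
      rw [coeff_map]
      change eval γ (map (Int.castRingHom ℂ) (coeff t Ψ)) = eval₂ (Int.castRingHom ℂ) γ (coeff t Ψ)
      rw [eval_map]
  have hE : eval₂ (algebraMap ℂ E) (fun t => coeff t (map ε Ψ)) q = 0 := by
    have h1 := congrArg (aeval (id : E → E) : MvPolynomial E ℂ →ₐ[ℂ] E) hq'
    rw [map_zero] at h1
    rw [← h1]
    have h2 : (aeval (id : E → E) : MvPolynomial E ℂ →ₐ[ℂ] E)
        (aeval (fun t => map (Int.castRingHom ℂ) (coeff t Ψ)) q) =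
        aeval (fun t => aeval (id : E → E) (map (Int.castRingHom ℂ) (coeff t Ψ))) q := by
      rw [← AlgHom.comp_apply, comp_aeval]
    rw [h2, aeval_def]
    congr 1
    funext t
    rw [coeff_map]
    exact (aeval_map_algebraMap ℂ (id : E → E) (coeff t Ψ)).symm
  rw [hΨE] at hE
  obtain ⟨P', hP1, hP2⟩ := H
  have hmem : ∀ c : ℂ, algebraMap ℂ E c ∈ O := fun c => (base c).1
  set j : ℂ →+* O := (algebraMap ℂ E).codRestrict O hmem with hj
  have hj1 : O.subtype.comp j = algebraMap ℂ E := by
    ext c
    rfl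
  have hj2 : ρ.comp j = algebraMap ℂ F := by
    ext c
    obtain ⟨hc, h1⟩ := base c
    rw [RingHom.comp_apply, ← h1]
    rfl
  have hO : eval₂ j (fun t => coeff t P') q = 0 := by
    apply Subtype.val_injective
    change O.subtype (eval₂ j (fun t => coeff t P') q) = O.subtype 0
    rw [eval₂_comp_left, map_zero, hj1, ← hE]
    congr 1
    funext t
    rw [Function.comp_apply, ← hP1, coeff_map]
  have hF := congrArg ρ hO
  rw [eval₂_comp_left, map_zero, hj2] at hF
  have h3 : (ρ ∘ fun t => coeff t P') = fun t => algebraMap ℂ F (coeff t f) := by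
    funext t
    rw [Function.comp_apply, ← coeff_map, hP2, coeff_map]
  rw [h3] at hF
  have h4 : algebraMap ℂ F (eval (fun t => coeff t f) q) = 0 := by
    rw [← hF, eval, coe_eval₂Hom, eval₂_comp_left, RingHom.comp_id]
    rfl
  exact (algebraMap ℂ F).injective (h4.trans (map_zero _).symm)

end VPH
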