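import Pool.Agent.VPH.Defs
import Pool.Agent.VPH.DerA

set_option autoImplicit false

/-!
# VPH-StgA: corrected lifts

`lift_corr`: a lift of a derivation which kills `ρ e` can be corrected so that it kills `e`.
`lifts_const`: lifts for the larger field of constants.
-/

namespace VPH

theorem lift_corr {k F E : Type} [Field k] [Field F] [Algebra k F] [Field E] [CharZero k]
    (O : Subring E) (ρ : O →+* F) (K : Subfield E) (inv : ∀ b : O, ρ b ≠ 0 → (b : E)⁻¹ ∈ O)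
    (hL : Lifts k F E O ρ K) (e : O) (he : Transcendental k (ρ e)) (D : Derivation k F F)
    (hD : D (ρ e) = 0) :
    ∃ D' : Derivation ℤ E E, (∀ x ∈ K, D' x = 0) ∧ D' (e : E) = 0 ∧
      ∀ b : O, ∃ hb : D' b ∈ O, ρ ⟨D' b, hb⟩ = D (ρ b) := by
  obtain ⟨S, hS⟩ := der_one (ρ e) he
  obtain ⟨S₁, hS1, hS2⟩ := hL S
  obtain ⟨D₁, hD1, hD2⟩ := hL D
  obtain ⟨hse, hse'⟩ := hS2 e
  obtain ⟨hde, hde'⟩ := hD2 e
  have hne : ρ ⟨S₁ e, hse⟩ ≠ 0 := by
    rw [hse', hS]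
    exact one_ne_zero
  have hne' : S₁ (e : E) ≠ 0 := by
    intro h0
    apply hne
    have h1 : (⟨S₁ e, hse⟩ : O) = 0 := Subtype.ext h0
    rw [h1, map_zero]
  have hi := inv ⟨S₁ e, hse⟩ hne
  refine ⟨D₁ - (D₁ (e : E) * (S₁ (e : E))⁻¹) • S₁, fun x hx => ?_, ?_, fun b => ?_⟩
  · rw [Derivation.sub_apply, Derivation.smul_apply, hD1 x hx, hS1 x hx, smul_zero, sub_zero]
  · rw [Derivation.sub_apply, Derivation.smul_apply, smul_eq_mul, mul_assoc, inv_mul_cancel₀ hne',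
      mul_one, sub_self]
  · obtain ⟨hsb, hsb'⟩ := hS2 b
    obtain ⟨hdb, hdb'⟩ := hD2 b
    let z : O := ⟨D₁ b, hdb⟩ - ⟨D₁ e, hde⟩ * ⟨(S₁ e)⁻¹, hi⟩ * ⟨S₁ b, hsb⟩
    have hz : (D₁ - (D₁ (e : E) * (S₁ (e : E))⁻¹) • S₁) (b : E) = (z : E) := by
      rw [Derivation.sub_apply, Derivation.smul_apply, smul_eq_mul]
      rfl
    refine ⟨by rw [hz]; exact z.2, ?_⟩
    have h1 : (⟨(D₁ - (D₁ (e : E) * (S₁ (e : E))⁻¹) • S₁) (b : E), by rw [hz]; exact z.2⟩ : O) = z :=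
      Subtype.ext hz
    rw [h1]
    show ρ (⟨D₁ b, hdb⟩ - ⟨D₁ e, hde⟩ * ⟨(S₁ e)⁻¹, hi⟩ * ⟨S₁ b, hsb⟩) = D (ρ b)
    rw [map_sub, map_mul, map_mul, hdb', hde', hD, zero_mul, zero_mul, sub_zero]

theorem der_closure {E : Type} [Field E] (K : Subfield E) (e : E) (D' : Derivation ℤ E E)
    (hK : ∀ x ∈ K, D' x = 0) (he : D' e = 0) (x : E)
    (hx : x ∈ Subfield.closure ((K : Set E) ∪ {e})) : D' x = 0 := by
  induction hx using Subfield.closure_induction with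
  | mem x hx =>
    rcases hx with hx | hx
    · exact hK x hx
    · rw [Set.mem_singleton_iff] at hx
      rw [hx]
      exact he
  | one => exact Derivation.map_one_eq_zero D'
  | add x y _ _ hx hy => rw [map_add, hx, hy, add_zero]
  | neg x _ hx => rw [map_neg, hx, neg_zero]
  | inv x _ hx => rw [Derivation.leibniz_inv, hx, smul_zero]
  | mul x y _ _ hx hy => rw [Derivation.leibniz, hx, hy, smul_zero, smul_zero, add_zero]

/-- lifts over the constants `k' ∋ ρ e` which kill `K(e)` -/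
theorem lifts_const {k F E : Type} [Field k] [Field F] [Algebra k F] [Field E] [CharZero k]
    (O : Subring E) (ρ : O →+* F) (K : Subfield E) (inv : ∀ b : O, ρ b ≠ 0 → (b : E)⁻¹ ∈ O)
    (hL : Lifts k F E O ρ K) (e : O) (he : Transcendental k (ρ e)) (k' : IntermediateField k F)
    (hk : ρ e ∈ k') :
    Lifts k' F E O ρ (Subfield.closure ((K : Set E) ∪ {(e : E)})) := by
  intro D
  have hD : (D.restrictScalars k) (ρ e) = 0 := by
    show D (algebraMap k' F ⟨ρ e, hk⟩) = 0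
    exact D.map_algebraMap _
  obtain ⟨D', h1, h2, h3⟩ := lift_corr O ρ K inv hL e he (D.restrictScalars k) hD
  exact ⟨D', fun x hx => der_closure K e D' h1 h2 x hx, h3⟩

end VPH
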