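import Mathlib

set_option autoImplicit false

/-!
# Straight-line programs, prenex formulas over `ℂ`, closure

The definitions used in the statement of `MP_50b9ba_lc.HierarchyTests`.
-/

namespace VPH

open MvPolynomial

section slp

variable {σ R : Type} [CommRing R]

/-- available without cost (constants, variables), or computed before -/
def Av (l : List (MvPolynomial σ R)) (f : MvPolynomial σ R) : Prop :=
  f ∈ l ∨ (∃ c : R, f = C c) ∨ ∃ i : σ, f = X i

/-- a straight-line computation, the last result first; the number of operations is the length -/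
def IsSLP : List (MvPolynomial σ R) → Prop
  | [] => True
  | g :: l => IsSLP l ∧ ∃ a b, Av l a ∧ Av l b ∧ (g = a + b ∨ g = a - b ∨ g = a * b)

/-- `f` is computed with at most `s` operations `+, -, *` from variables and constants -/
def Comp (s : ℕ) (f : MvPolynomial σ R) : Prop :=
  ∃ l : List (MvPolynomial σ R), l.length ≤ s ∧ IsSLP l ∧ Av l f

end slp

/-- prenex formulas with `N` free variables; `ex m`, `al m` are blocks of `m` quantifiers, the matrix is
an arbitrary Boolean combination `B` of the equations `p i = 0` -/
inductive Fml (R : Type) [CommRing R] : ℕ → Type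
  | qf {N : ℕ} (l : ℕ) (p : Fin l → MvPolynomial (Fin N) R) (B : Set (Set (Fin l))) : Fml R N
  | ex {N : ℕ} (m : ℕ) (φ : Fml R (N + m)) : Fml R N
  | al {N : ℕ} (m : ℕ) (φ : Fml R (N + m)) : Fml R N

namespace Fml

variable {R : Type} [CommRing R]

/-- truth in the field `F` -/
def holds (F : Type) [Field F] [Algebra R F] : {N : ℕ} → Fml R N → (Fin N → F) → Prop
  | _, .qf _ p B, u => {i | aeval u (p i) = 0} ∈ B
  | _, .ex m φ, u => ∃ z : Fin m → F, φ.holds F (Fin.append u z)
  | _, .al m φ, u => ∀ z : Fin m → F, φ.holds F (Fin.append u z)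

/-- number of blocks -/
def rk : {N : ℕ} → Fml R N → ℕ
  | _, .qf _ _ _ => 0
  | _, .ex _ φ => φ.rk + 1
  | _, .al _ φ => φ.rk + 1

/-- number of all variables, free and quantified -/
def tot : {N : ℕ} → Fml R N → ℕ
  | N, .qf _ _ _ => N
  | _, .ex _ φ => φ.tot
  | _, .al _ φ => φ.tot

/-- all polynomials of the matrix are computed with at most `s` operations -/
def Siz (s : ℕ) : {N : ℕ} → Fml R N → Prop
  | _, .qf _ p _ => ∀ i, Comp s (p i)
  | _, .ex _ φ => φ.Siz s
  | _, .al _ φ => φ.Siz s

end Fml

/-- `f` is in the Zariski closure of the set of polynomials of degree at most `d` which are computed with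
at most `S` operations: every polynomial `q` in the coefficients that vanishes on this set vanishes at `f` -/
def Bd {n : ℕ} (d S : ℕ) (f : MvPolynomial (Fin n) ℂ) : Prop :=
  ∀ q : MvPolynomial (Fin n →₀ ℕ) ℂ,
    (∀ g : MvPolynomial (Fin n) ℂ, g.totalDegree ≤ d → Comp S g → eval (fun t => coeff t g) q = 0) →
    eval (fun t => coeff t f) q = 0

end VPH
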