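import Pool.Agent.VPH.Defs

set_option autoImplicit false

/-!
# VPH-TypA: back and forth

`R` is a countable ring, `F, F'` algebraically closed fields over `R`, `F'` uncountable; `a` and `a'`
satisfy the same equations over `R`. Then for every `z` in `F` there is `z'` in `F'` such that `(a, z)`
and `(a', z')` satisfy the same equations.

-/

namespace VPH

open MvPolynomial

private theorem cnt_mv (R : Type) [CommRing R] [Countable R] (N : ℕ) :
    Countable (MvPolynomial (Fin N) R) := by
  rw [← Cardinal.mk_le_aleph0_iff]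
  refine MvPolynomial.cardinalMk_le_max.trans ?_
  refine max_le (max_le (Cardinal.mk_le_aleph0_iff.2 inferInstance) ?_) le_rfl
  exact Cardinal.mk_le_aleph0_iff.2 inferInstance

/-- the countable field generated by the point, with its two embeddings -/
private theorem exK (R : Type) [CommRing R] [Countable R] (F F' : Type) [Field F] [Field F']
    [Algebra R F] [Algebra R F'] {N : ℕ} (a : Fin N → F) (a' : Fin N → F')
    (H : ∀ p : MvPolynomial (Fin N) R, aeval a p = 0 ↔ aeval a' p = 0) :
    ∃ (K : Type) (_ : Field K) (_ : Countable K) (q : MvPolynomial (Fin N) R →+* K) (g : K →+* F)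
      (g' : K →+* F'), (∀ p, g (q p) = aeval a p) ∧ ∀ p, g' (q p) = aeval a' p := by
  let φ : MvPolynomial (Fin N) R →+* F := (aeval a : MvPolynomial (Fin N) R →ₐ[R] F).toRingHom
  let φ' : MvPolynomial (Fin N) R →+* F' := (aeval a' : MvPolynomial (Fin N) R →ₐ[R] F').toRingHom
  have hφ : ∀ p, φ p = aeval a p := fun _ => rfl
  have hφ' : ∀ p, φ' p = aeval a' p := fun _ => rfl
  have hprime : (RingHom.ker φ).IsPrime := RingHom.ker_isPrime φ
  let f : MvPolynomial (Fin N) R ⧸ RingHom.ker φ →+* F :=
    Ideal.Quotient.lift (RingHom.ker φ) φ fun x hx => hx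
  let f' : MvPolynomial (Fin N) R ⧸ RingHom.ker φ →+* F' :=
    Ideal.Quotient.lift (RingHom.ker φ) φ' fun x hx => (H x).1 hx
  have hf : Function.Injective f := by
    rw [injective_iff_map_eq_zero]
    intro x hx
    obtain ⟨p, rfl⟩ := Ideal.Quotient.mk_surjective x
    rw [Ideal.Quotient.eq_zero_iff_mem]
    exact hx
  have hf' : Function.Injective f' := by
    rw [injective_iff_map_eq_zero]
    intro x hx
    obtain ⟨p, rfl⟩ := Ideal.Quotient.mk_surjective x
    rw [Ideal.Quotient.eq_zero_iff_mem]
    exact (H p).2 hx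
  have hc1 := cnt_mv R N
  have hc2 : Countable (MvPolynomial (Fin N) R ⧸ RingHom.ker φ) :=
    Function.Surjective.countable (Ideal.Quotient.mk_surjective (I := RingHom.ker φ))
  have hc3 : Countable (FractionRing (MvPolynomial (Fin N) R ⧸ RingHom.ker φ)) := by
    have hs : Function.Surjective (fun x : (MvPolynomial (Fin N) R ⧸ RingHom.ker φ) ×
        (MvPolynomial (Fin N) R ⧸ RingHom.ker φ) =>
        (algebraMap (MvPolynomial (Fin N) R ⧸ RingHom.ker φ)
          (FractionRing (MvPolynomial (Fin N) R ⧸ RingHom.ker φ)) x.1) /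
        (algebraMap (MvPolynomial (Fin N) R ⧸ RingHom.ker φ)
          (FractionRing (MvPolynomial (Fin N) R ⧸ RingHom.ker φ)) x.2)) := by
      intro y
      obtain ⟨u, v, _, h⟩ := IsFractionRing.div_surjective (A := MvPolynomial (Fin N) R ⧸ RingHom.ker φ) y
      exact ⟨(u, v), h⟩
    exact hs.countable
  refine ⟨FractionRing (MvPolynomial (Fin N) R ⧸ RingHom.ker φ), inferInstance, hc3,
    (algebraMap _ _).comp (Ideal.Quotient.mk (RingHom.ker φ)), IsFractionRing.lift hf,
    IsFractionRing.lift hf', fun p => ?_, fun p => ?_⟩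
  · rw [RingHom.comp_apply, IsFractionRing.lift_algebraMap hf]
    rfl
  · rw [RingHom.comp_apply, IsFractionRing.lift_algebraMap hf']
    rfl

/-- one more element over a countable field -/
private theorem exz (K F F' : Type) [Field K] [Countable K] [Field F] [Field F']
    [IsAlgClosed F'] [Uncountable F'] (g : K →+* F) (g' : K →+* F') (z : F) :
    ∃ z' : F', ∀ P : Polynomial K, Polynomial.eval₂ g z P = 0 ↔ Polynomial.eval₂ g' z' P = 0 := by
  let _ := g.toAlgebra
  let _ := g'.toAlgebra
  have h1 : ∀ P : Polynomial K, Polynomial.eval₂ g z P = Polynomial.aeval z P := fun _ => rfl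
  have h2 : ∀ (y : F') (P : Polynomial K), Polynomial.eval₂ g' y P = Polynomial.aeval y P := fun _ _ => rfl
  by_cases hz : IsAlgebraic K z
  · have hint : IsIntegral K z := hz.isIntegral
    have hirr := minpoly.irreducible hint
    obtain ⟨y, hy⟩ := IsAlgClosed.exists_aeval_eq_zero F' (minpoly K z)
      (Polynomial.degree_pos_of_irreducible hirr).ne'
    have he : minpoly K z = minpoly K y :=
      minpoly.eq_of_irreducible_of_monic hirr hy (minpoly.monic hint)
    refine ⟨y, fun P => ?_⟩
    rw [h1, h2, ← minpoly.dvd_iff, ← minpoly.dvd_iff, he]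
  · obtain ⟨y, hy⟩ : ∃ y : F', Transcendental K y := by
      by_contra hcon
      push Not at hcon
      have halg : Algebra.IsAlgebraic K F' := ⟨fun y => by
        have := hcon y
        unfold Transcendental at this
        exact not_not.1 this⟩
      have hcard := Algebra.IsAlgebraic.cardinalMk_le_max K F'
      have h3 : Cardinal.mk F' ≤ Cardinal.aleph0 :=
        hcard.trans (max_le (Cardinal.mk_le_aleph0_iff.2 inferInstance) le_rfl)
      exact (not_countable_iff.2 (inferInstance : Uncountable F')) (Cardinal.mk_le_aleph0_iff.1 h3)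
    refine ⟨y, fun P => ?_⟩
    rw [h1, h2]
    constructor
    · intro h
      rw [transcendental_iff.1 hz P h, map_zero]
    · intro h
      rw [transcendental_iff.1 hy P h, map_zero]

private theorem ev_app {R K F : Type} [CommRing R] [Field K] [Field F] [Algebra R F] {N : ℕ}
    (a : Fin N → F) (q : MvPolynomial (Fin N) R →+* K) (g : K →+* F) (hg : ∀ p, g (q p) = aeval a p) (z : F)
    (p : MvPolynomial (Fin (N + 1)) R) :
    Polynomial.eval₂ g z (eval₂Hom ((Polynomial.C : K →+* Polynomial K).comp (q.comp C))
      (Fin.append (fun i => Polynomial.C (q (X i))) (fun _ : Fin 1 => Polynomial.X)) p) =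
    aeval (Fin.append a (fun _ : Fin 1 => z)) p := by
  have h : (Polynomial.eval₂RingHom g z).comp
      (eval₂Hom ((Polynomial.C : K →+* Polynomial K).comp (q.comp C))
      (Fin.append (fun i => Polynomial.C (q (X i))) (fun _ : Fin 1 => Polynomial.X))) =
      (aeval (Fin.append a (fun _ : Fin 1 => z)) : MvPolynomial (Fin (N + 1)) R →ₐ[R] F).toRingHom := by
    apply MvPolynomial.ringHom_ext
    · intro r
      have h1 := hg (C r)
      rw [aeval_C] at h1
      simp [h1]
    · intro i
      refine Fin.addCases (fun j => ?_) (fun j => ?_) i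
      · have h1 := hg (X j)
        rw [aeval_X] at h1
        simp [h1]
      · simp
  exact congrArg (fun f : MvPolynomial (Fin (N + 1)) R →+* F => f p) h

theorem ext1 (R : Type) [CommRing R] [Countable R] (F F' : Type) [Field F] [Field F']
    [IsAlgClosed F] [IsAlgClosed F'] [Uncountable F'] [Algebra R F] [Algebra R F'] {N : ℕ}
    (a : Fin N → F) (a' : Fin N → F')
    (H : ∀ p : MvPolynomial (Fin N) R, aeval a p = 0 ↔ aeval a' p = 0) (z : F) :
    ∃ z' : F', ∀ p : MvPolynomial (Fin (N + 1)) R,
      aeval (Fin.append a (fun _ : Fin 1 => z)) p = 0 ↔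
        aeval (Fin.append a' (fun _ : Fin 1 => z')) p = 0 := by
  obtain ⟨K, _, _, q, g, g', hg, hg'⟩ := exK R F F' a a' H
  obtain ⟨z', hz'⟩ := exz K F F' g g' z
  refine ⟨z', fun p => ?_⟩
  rw [← ev_app a q g hg z p, ← ev_app a' q g' hg' z' p]
  exact hz' _

theorem extm (R : Type) [CommRing R] [Countable R] (F F' : Type) [Field F] [Field F']
    [IsAlgClosed F] [IsAlgClosed F'] [Uncountable F'] [Algebra R F] [Algebra R F'] {N : ℕ}
    (a : Fin N → F) (a' : Fin N → F')
    (H : ∀ p : MvPolynomial (Fin N) R, aeval a p = 0 ↔ aeval a' p = 0) {m : ℕ} (z : Fin m → F) :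
    ∃ z' : Fin m → F', ∀ p : MvPolynomial (Fin (N + m)) R,
      aeval (Fin.append a z) p = 0 ↔ aeval (Fin.append a' z') p = 0 := by
  induction m with
  | zero =>
    refine ⟨Fin.elim0, fun p => ?_⟩
    have h1 : Fin.append a z = a := by
      funext i
      exact Fin.append_left a z i
    have h2 : Fin.append a' (Fin.elim0 : Fin 0 → F') = a' := by
      funext i
      exact Fin.append_left a' _ i
    rw [h1, h2]
    exact H p
  | succ m ih =>
    obtain ⟨w, hw⟩ := ih (Fin.init z)
    obtain ⟨y, hy⟩ := ext1 R F F' (Fin.append a (Fin.init z)) (Fin.append a' w) hw (z (Fin.last m))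
    refine ⟨Fin.snoc w y, fun p => ?_⟩
    have h1 : Fin.append a z = Fin.append (Fin.append a (Fin.init z)) (fun _ : Fin 1 => z (Fin.last m)) := by
      rw [Fin.append_right_eq_snoc]
      conv_lhs => rw [← Fin.snoc_init_self z]
      exact Fin.append_snoc _ _ _
    have h2 : Fin.append a' (Fin.snoc w y : Fin (m + 1) → F') =
        Fin.append (Fin.append a' w) (fun _ : Fin 1 => y) := by
      rw [Fin.append_right_eq_snoc]
      exact Fin.append_snoc _ _ _
    rw [h1, h2]
    exact hy p

end VPH
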